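import Pool.Agent.Helper720.CurveSemigroup

set_option autoImplicit false

open MvPolynomial

namespace Pool.Agent.Helper720.Curve

variable {K : Type*} [Field K]

lemma Sg_of_coeff_ne {f : MvPolynomial (Fin 5) K} {d w : ℕ}
    (h : ((φ K f).coeff d).coeff w ≠ 0) : Sg d w := by
  rw [coeff_φ] at h
  obtain ⟨m, _, hm⟩ := Finset.exists_ne_zero_of_sum_ne_zero h
  by_cases h1 : m.degree = d ∧ wt m = w
  · exact ⟨m, h1.1, h1.2⟩
  · rw [if_neg h1] at hm
    exact absurd rfl hm

lemma mem_range_of_coeff {F : Polynomial (Polynomial K)}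
    (h : ∀ d w, (F.coeff d).coeff w ≠ 0 → Sg d w) : ∃ f, φ K f = F := by
  have h1 : F ∈ (φ K).range := by
    rw [F.as_sum_support]
    refine sum_mem fun d _ => ?_
    rw [(F.coeff d).as_sum_support, map_sum]
    refine sum_mem fun w hw => ?_
    obtain ⟨m, hm1, hm2⟩ := h d w (Polynomial.mem_support_iff.1 hw)
    refine ⟨monomial m ((F.coeff d).coeff w), ?_⟩
    change φ K (monomial m ((F.coeff d).coeff w)) = _
    rw [φ_monomial, hm1, hm2]
  exact h1

lemma φ_X0 : φ K (X 0) = Polynomial.X := by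
  rw [φ_X]
  simp [ex]

lemma mem_sup_X0 {f : MvPolynomial (Fin 5) K} : f ∈ Ic K ⊔ Ideal.span {X 0} ↔
    ∀ d w, ((φ K f).coeff d).coeff w ≠ 0 → ∃ d', d = d' + 1 ∧ Sg d' w := by
  constructor
  · intro hf d w hne
    obtain ⟨i, hi, g, hg, rfl⟩ := Submodule.mem_sup.1 hf
    obtain ⟨g', rfl⟩ := Ideal.mem_span_singleton'.1 hg
    rw [map_add, mem_Ic.1 hi, zero_add, map_mul, φ_X0] at hne
    cases d with
    | zero =>
      rw [Polynomial.coeff_mul_X_zero, Polynomial.coeff_zero] at hne
      exact absurd rfl hne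
    | succ d =>
      rw [Polynomial.coeff_mul_X] at hne
      exact ⟨d, rfl, Sg_of_coeff_ne hne⟩
  · intro h
    obtain ⟨g, hg⟩ := mem_range_of_coeff (F := (φ K f).divX) (by
      intro d w hne
      rw [Polynomial.coeff_divX] at hne
      obtain ⟨d', hd', hs⟩ := h _ _ hne
      have : d = d' := by omega
      rw [this]
      exact hs)
    have h0 : (φ K f).coeff 0 = 0 := by
      ext w
      by_contra hne
      rw [Polynomial.coeff_zero] at hne
      obtain ⟨d', hd', _⟩ := h _ _ hne
      omega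
    have h1 : φ K f = φ K (g * X 0) := by
      rw [map_mul, hg, φ_X0]
      conv_lhs => rw [← Polynomial.divX_mul_X_add (φ K f)]
      rw [h0, map_zero, add_zero]
    have h2 : f - g * X 0 ∈ Ic K := by
      rw [mem_Ic, map_sub, h1, sub_self]
    have h3 : f = (f - g * X 0) + g * X 0 := by ring
    rw [h3]
    exact Submodule.add_mem_sup h2 (Ideal.mem_span_singleton'.2 ⟨g, rfl⟩)

lemma constantCoeff_eq (f : MvPolynomial (Fin 5) K) :
    constantCoeff f = ((φ K f).coeff 0).coeff 0 := by
  induction f using MvPolynomial.induction_on' with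
  | monomial m c =>
    rw [φ_monomial, Polynomial.coeff_monomial, constantCoeff_monomial]
    by_cases h : m = 0
    · subst h
      rw [if_pos rfl]
      simp [wt]
    · rw [if_neg h, if_neg, Polynomial.coeff_zero]
      rwa [Finsupp.degree_eq_zero_iff]
  | add p q hp hq =>
    rw [map_add, map_add, hp, hq, Polynomial.coeff_add, Polynomial.coeff_add]

lemma Ic_le_ker : Ic K ≤ RingHom.ker (constantCoeff (R := K) (σ := Fin 5)) := by
  intro f hf
  rw [RingHom.mem_ker, constantCoeff_eq, mem_Ic.1 hf]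
  simp

lemma regular_X0_X4 : IsRegularPair (Ic K) (X 0) (X 4) where
  linear₁ := isHomogeneous_X _ _
  linear₂ := isHomogeneous_X _ _
  regular₁ := fun f hf => (Ic_prime.mem_or_mem hf).resolve_left (X_notMem 0)
  regular₂ := by
    intro f hf
    rw [mem_sup_X0] at hf ⊢
    intro d w hne
    have h1 : Sg d w := Sg_of_coeff_ne hne
    have h2 : ((φ K (X 4 * f)).coeff (d + 1)).coeff (w + 85) = ((φ K f).coeff d).coeff w := by
      rw [map_mul, φ_X, mul_assoc, Polynomial.coeff_C_mul, Polynomial.coeff_X_mul]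
      have : ex 4 = 85 := rfl
      rw [this, Polynomial.coeff_X_pow_mul]
    obtain ⟨d', hd', hs⟩ := hf (d + 1) (w + 85) (by rw [h2]; exact hne)
    have : d = d' := by omega
    rw [← this] at hs
    exact Sg_cm h1 hs
  ne_top := by
    intro htop
    have h1 : Ic K ⊔ Ideal.span {X 0, X 4} ≤
        RingHom.ker (constantCoeff (R := K) (σ := Fin 5)) := by
      apply sup_le Ic_le_ker
      rw [Ideal.span_le]
      intro x hx
      simp only [Set.mem_insert_iff, Set.mem_singleton_iff] at hx
      rcases hx with rfl | rfl <;> simp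
    rw [htop, top_le_iff] at h1
    have h2 : (1 : MvPolynomial (Fin 5) K) ∈ RingHom.ker (constantCoeff (R := K) (σ := Fin 5)) := by
      rw [h1]
      exact Submodule.mem_top
    rw [RingHom.mem_ker, map_one] at h2
    exact one_ne_zero h2

/-- the integral extension -/
noncomputable def α : MvPolynomial (Fin 2) K →+* (MvPolynomial (Fin 5) K ⧸ Ic K) :=
  (Ideal.Quotient.mk (Ic K)).comp
    ((aeval (R := K) ![X 0, X 4] : MvPolynomial (Fin 2) K →ₐ[K] MvPolynomial (Fin 5) K) :
      MvPolynomial (Fin 2) K →+* MvPolynomial (Fin 5) K)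

lemma ex_le (i : Fin 5) : ex i ≤ 85 := by
  fin_cases i <;> simp [ex]

lemma X_integral (i : Fin 5) : (α (K := K)).IsIntegralElem (Ideal.Quotient.mk (Ic K) (X i)) := by
  refine ⟨Polynomial.X ^ 85 - Polynomial.C (X 0 ^ (85 - ex i) * X 1 ^ ex i),
    Polynomial.monic_X_pow_sub_C _ (by norm_num), ?_⟩
  rw [Polynomial.eval₂_sub, Polynomial.eval₂_pow, Polynomial.eval₂_X, Polynomial.eval₂_C]
  unfold α
  rw [RingHom.comp_apply, ← map_pow, ← map_sub, Ideal.Quotient.eq_zero_iff_mem, mem_Ic]
  simp only [RingHom.coe_coe, map_mul, map_pow, aeval_X, map_sub]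
  simp only [Matrix.cons_val_zero, Matrix.cons_val_one, φ_X]
  have h0 : ex 0 = 0 := rfl
  have h4 : ex 4 = 85 := rfl
  rw [h0, h4, pow_zero, map_one, one_mul, mul_pow, mul_pow]
  have h5 : (Polynomial.X : Polynomial (Polynomial K)) ^ 85 =
      Polynomial.X ^ (85 - ex i) * Polynomial.X ^ ex i := by
    rw [← pow_add, Nat.sub_add_cancel (ex_le i)]
  rw [h5, ← map_pow, ← map_pow, ← pow_mul, ← pow_mul, mul_comm 85 (ex i)]
  ring

lemma α_integral : (α (K := K)).IsIntegral := by
  intro x
  obtain ⟨p, rfl⟩ := Ideal.Quotient.mk_surjective x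
  induction p using MvPolynomial.induction_on with
  | C c =>
    have : Ideal.Quotient.mk (Ic K) (C c) = α (C c) := by
      unfold α
      simp [MvPolynomial.algebraMap_eq]
    rw [this]
    exact RingHom.isIntegralElem_map _
  | add p q hp hq =>
    rw [map_add]
    exact RingHom.IsIntegralElem.add _ hp hq
  | mul_X p i hp =>
    rw [map_mul]
    exact RingHom.IsIntegralElem.mul _ hp (X_integral i)

lemma dim_le : ringKrullDim (MvPolynomial (Fin 5) K ⧸ Ic K) ≤ 2 := by
  let _ : Algebra (MvPolynomial (Fin 2) K) (MvPolynomial (Fin 5) K ⧸ Ic K) := (α (K := K)).toAlgebra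
  have : Algebra.IsIntegral (MvPolynomial (Fin 2) K) (MvPolynomial (Fin 5) K ⧸ Ic K) :=
    ⟨α_integral⟩
  have h1 : ringKrullDim (MvPolynomial (Fin 5) K ⧸ Ic K) ≤ ringKrullDim (MvPolynomial (Fin 2) K) := by
    apply Order.krullDim_le_of_strictMono (PrimeSpectrum.comap
      (algebraMap (MvPolynomial (Fin 2) K) (MvPolynomial (Fin 5) K ⧸ Ic K)))
    intro p q hpq
    exact Ideal.IsIntegral.comap_lt_comap hpq
  refine h1.trans ?_
  rw [MvPolynomial.ringKrullDim_of_isNoetherianRing, ringKrullDim_eq_zero_of_field]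
  simp

/-- restriction to a point of the curve -/
noncomputable def β : MvPolynomial (Fin 5) K →ₐ[K] Polynomial K :=
  (Polynomial.mapAlgHom (Polynomial.aeval (0 : K))).comp (φ K)

lemma β_X (i : Fin 5) : β (K := K) (X i) = if i = 0 then Polynomial.X else 0 := by
  unfold β
  rw [AlgHom.comp_apply, φ_X]
  fin_cases i <;> simp [ex]

lemma le_dim : 2 ≤ ringKrullDim (MvPolynomial (Fin 5) K ⧸ Ic K) := by
  have hle : ∀ a ∈ Ic K, (β (K := K) : MvPolynomial (Fin 5) K →+* Polynomial K) a = 0 := by
    intro a ha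
    change β a = 0
    unfold β
    rw [AlgHom.comp_apply, mem_Ic.1 ha, map_zero]
  have h1 := ringKrullDim_succ_le_of_surjective
    (Ideal.Quotient.lift (Ic K) (β (K := K) : MvPolynomial (Fin 5) K →+* Polynomial K) hle)
    (Ideal.Quotient.lift_surjective_of_surjective _ _ (by
      intro p
      refine ⟨Polynomial.aeval (X 0) p, ?_⟩
      change β (Polynomial.aeval (X 0) p) = p
      rw [← AlgHom.comp_apply]
      have : (β (K := K)).comp (Polynomial.aeval (X 0)) = AlgHom.id K _ := by
        apply Polynomial.algHom_ext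
        simp [β_X]
      rw [this, AlgHom.id_apply]))
    (r := Ideal.Quotient.mk (Ic K) (X 1)) (by
      apply mem_nonZeroDivisors_of_ne_zero
      rw [Ne, Ideal.Quotient.eq_zero_iff_mem]
      exact X_notMem 1)
    (by
      rw [Ideal.Quotient.lift_mk]
      change β (X 1) = 0
      rw [β_X, if_neg (by decide)])
  rw [Polynomial.ringKrullDim_of_isNoetherianRing, ringKrullDim_eq_zero_of_field] at h1
  refine le_trans (le_of_eq ?_) h1
  norm_num

lemma Ic_curve : IsIntegralACMCurve (Ic K) where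
  homogeneous := fun _ hf d => component_mem hf d
  prime := Ic_prime
  saturated := Ic_saturated
  dim_eq := le_antisymm dim_le le_dim
  cohenMacaulay := ⟨X 0, X 4, regular_X0_X4⟩

end Pool.Agent.Helper720.Curve
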