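import Mathlib

set_option autoImplicit false

open MvPolynomial

namespace Pool.Agent.Helper720.Curve

variable {K : Type*} [Field K]

/-- The graded algebra `R / J` has the weak Lefschetz property: for some linear form `L`, every
multiplication map by `L` from degree `i` to degree `i + 1` is injective or surjective. -/
def HasWLP {n : ℕ} (J : Ideal (MvPolynomial (Fin n) K)) : Prop :=
  ∃ L : MvPolynomial (Fin n) K, L.IsHomogeneous 1 ∧ ∀ i : ℕ,
    (∀ f : MvPolynomial (Fin n) K, f.IsHomogeneous i → L * f ∈ J → f ∈ J) ∨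
    (∀ g : MvPolynomial (Fin n) K, g.IsHomogeneous (i + 1) →
      ∃ f : MvPolynomial (Fin n) K, f.IsHomogeneous i ∧ g - L * f ∈ J)

/-- The graded algebra `R / J` has the strong Lefschetz property: for some linear form `L`, every
multiplication map by `L ^ k` from degree `i` to degree `i + k`, `k ≥ 1`, is injective or
surjective. -/
def HasSLP {n : ℕ} (J : Ideal (MvPolynomial (Fin n) K)) : Prop :=
  ∃ L : MvPolynomial (Fin n) K, L.IsHomogeneous 1 ∧ ∀ i k : ℕ, 1 ≤ k →
    (∀ f : MvPolynomial (Fin n) K, f.IsHomogeneous i → L ^ k * f ∈ J → f ∈ J) ∨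
    (∀ g : MvPolynomial (Fin n) K, g.IsHomogeneous (i + k) →
      ∃ f : MvPolynomial (Fin n) K, f.IsHomogeneous i ∧ g - L ^ k * f ∈ J)

lemma HasSLP.hasWLP {n : ℕ} {J : Ideal (MvPolynomial (Fin n) K)} (h : HasSLP J) : HasWLP J := by
  obtain ⟨L, hL, h⟩ := h
  refine ⟨L, hL, fun i => ?_⟩
  have := h i 1 le_rfl
  rw [pow_one] at this
  exact this

/-- `ℓ₁, ℓ₂` is a regular sequence of linear forms on `R / I`. -/
structure IsRegularPair {n : ℕ} (I : Ideal (MvPolynomial (Fin n) K))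
    (ℓ₁ ℓ₂ : MvPolynomial (Fin n) K) : Prop where
  linear₁ : ℓ₁.IsHomogeneous 1
  linear₂ : ℓ₂.IsHomogeneous 1
  regular₁ : ∀ f, ℓ₁ * f ∈ I → f ∈ I
  regular₂ : ∀ f, ℓ₂ * f ∈ I ⊔ Ideal.span {ℓ₁} → f ∈ I ⊔ Ideal.span {ℓ₁}
  ne_top : I ⊔ Ideal.span {ℓ₁, ℓ₂} ≠ ⊤

/-- `I` is the saturated homogeneous ideal of an integral (reduced and irreducible)
arithmetically Cohen-Macaulay curve in projective four-space: `I` is a saturated homogeneous
prime ideal of `R = K[x_0, …, x_4]` and `R / I` has Krull dimension two and is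
Cohen-Macaulay (there are two linear forms which are a regular sequence on `R / I`). -/
structure IsIntegralACMCurve (I : Ideal (MvPolynomial (Fin 5) K)) : Prop where
  homogeneous : ∀ f ∈ I, ∀ d : ℕ, homogeneousComponent d f ∈ I
  prime : I.IsPrime
  saturated : ∀ f, (∀ j, X j * f ∈ I) → f ∈ I
  dim_eq : ringKrullDim (MvPolynomial (Fin 5) K ⧸ I) = 2
  cohenMacaulay : ∃ ℓ₁ ℓ₂, IsRegularPair I ℓ₁ ℓ₂

end Pool.Agent.Helper720.Curve
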