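import Pool.Agent.Helper720.CurveLow

set_option autoImplicit false

open MvPolynomial

namespace Pool.Agent.Helper720.Curve

variable {K : Type*} [Field K]

/-- the linear form with coefficient vector `c` -/
noncomputable def lf (c : Fin 5 → K) : MvPolynomial (Fin 5) K := ∑ j, C (c j) * X j

lemma lf_hom (c : Fin 5 → K) : (lf c).IsHomogeneous 1 :=
  MvPolynomial.IsHomogeneous.sum _ _ _ fun _ _ => MvPolynomial.isHomogeneous_C_mul_X _ _

lemma lf_add (c c' : Fin 5 → K) : lf (c + c') = lf c + lf c' := by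
  unfold lf
  rw [← Finset.sum_add_distrib]
  refine Finset.sum_congr rfl fun j _ => ?_
  rw [Pi.add_apply, map_add, add_mul]

lemma lf_smul (s : K) (c : Fin 5 → K) : lf (s • c) = C s * lf c := by
  unfold lf
  rw [Finset.mul_sum]
  refine Finset.sum_congr rfl fun j _ => ?_
  rw [Pi.smul_apply, smul_eq_mul, map_mul, mul_assoc]

lemma lf_sum (s : Fin 3 → K) (u : Fin 3 → Fin 5 → K) :
    lf (∑ i, s i • u i) = ∑ i, C (s i) * lf (u i) := by
  rw [Fin.sum_univ_three, Fin.sum_univ_three, lf_add, lf_add, lf_smul, lf_smul, lf_smul]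

lemma exists_lf {L : MvPolynomial (Fin 5) K} (hL : L.IsHomogeneous 1) : ∃ a, L = lf a := by
  refine ⟨fun j => L.coeff (Finsupp.single j 1), ?_⟩
  ext m
  unfold lf
  rw [MvPolynomial.coeff_sum]
  simp_rw [MvPolynomial.coeff_C_mul, MvPolynomial.coeff_X]
  by_cases hm : m.degree = 1
  · obtain ⟨j, hj⟩ : ∃ j, m = Finsupp.single j 1 := by
      have h0 : m ≠ 0 := by
        intro h
        rw [h] at hm
        simp at hm
      obtain ⟨j, hj⟩ := Finsupp.ne_iff.1 h0
      refine ⟨j, ?_⟩
      have hle : Finsupp.single j 1 ≤ m := by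
        rw [Finsupp.single_le_iff]
        exact Nat.one_le_iff_ne_zero.2 hj
      obtain ⟨r, rfl⟩ := exists_add_of_le hle
      rw [map_add, Finsupp.degree_single] at hm
      have hr : r = 0 := (Finsupp.degree_eq_zero_iff r).1 (by omega)
      rw [hr, add_zero]
    subst hj
    rw [Finset.sum_eq_single j]
    · simp
    · intro b _ hb
      rw [if_neg, mul_zero]
      intro h
      exact hb (Finsupp.single_left_injective one_ne_zero h)
    · intro h
      exact absurd (Finset.mem_univ _) h
  · rw [hL.coeff_eq_zero hm, Finset.sum_eq_zero]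
    intro j _
    rw [if_neg, mul_zero]
    rintro rfl
    simp at hm

lemma comp_mul {ℓ : MvPolynomial (Fin 5) K} (hℓ : ℓ.IsHomogeneous 1) (a : MvPolynomial (Fin 5) K)
    (d : ℕ) : homogeneousComponent (d + 1) (ℓ * a) = ℓ * homogeneousComponent d a := by
  induction a using MvPolynomial.induction_on' with
  | monomial m c =>
    have h1 : (monomial m c : MvPolynomial (Fin 5) K).IsHomogeneous m.degree :=
      MvPolynomial.isHomogeneous_monomial c rfl
    have h2 : (ℓ * monomial m c).IsHomogeneous (1 + m.degree) := hℓ.mul h1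
    rw [homogeneousComponent_of_mem (show ℓ * monomial m c ∈
      homogeneousSubmodule (Fin 5) K (1 + m.degree) from h2),
      homogeneousComponent_of_mem (show monomial m c ∈
      homogeneousSubmodule (Fin 5) K m.degree from h1)]
    by_cases h : d = m.degree
    · rw [if_pos (by omega), if_pos h]
    · rw [if_neg (by omega), if_neg h, mul_zero]
  | add p q hp hq =>
    rw [mul_add, map_add, map_add, hp, hq, mul_add]

/-- the quartic form attached to `c` -/
noncomputable def Gq (c : Fin 5 → K) : MvPolynomial (Fin 5) K :=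
  ∑ j : Fin 4, C (c j.castSucc) * X j.succ ^ 4

lemma Gq_hom (c : Fin 5 → K) : (Gq c).IsHomogeneous 4 := by
  apply MvPolynomial.IsHomogeneous.sum
  intro j _
  have h1 := (isHomogeneous_C (Fin 5) (c j.castSucc)).mul
    ((isHomogeneous_X K (j.succ : Fin 5)).pow 4)
  simpa using h1

lemma φ_Gq {c : Fin 5 → K} (hc : c 4 = 0) :
    φ K (Gq c) = Polynomial.C (Polynomial.X ^ 256) * Polynomial.X ^ 3 * φ K (lf c) := by
  unfold Gq lf
  rw [map_sum, map_sum, Finset.mul_sum, Fin.sum_univ_castSucc (n := 4)]
  have h4 : (Fin.last 4 : Fin 5) = 4 := rfl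
  rw [h4, hc, map_zero, zero_mul, map_zero, mul_zero, add_zero]
  refine Finset.sum_congr rfl fun j _ => ?_
  rw [map_mul, map_mul, map_pow, φ_X, φ_X, mul_pow, ← map_pow, ← pow_mul]
  have h1 : ex j.succ * 4 = 256 + ex j.castSucc := by
    revert j
    decide
  rw [h1, pow_add, map_mul]
  ring

/-- the element of the ideal attached to two linear forms without `x_4` -/
noncomputable def Fc (c c' : Fin 5 → K) : MvPolynomial (Fin 5) K :=
  lf c * Gq c' - lf c' * Gq c

lemma Fc_mem {c c' : Fin 5 → K} (hc : c 4 = 0) (hc' : c' 4 = 0) : Fc c c' ∈ Ic K := by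
  rw [mem_Ic]
  unfold Fc
  rw [map_sub, map_mul, map_mul, φ_Gq hc, φ_Gq hc']
  ring

lemma Fc_hom (c c' : Fin 5 → K) : (Fc c c').IsHomogeneous 5 := by
  have h1 := (lf_hom c).mul (Gq_hom c')
  have h2 := (lf_hom c').mul (Gq_hom c)
  exact h1.sub h2

lemma evq_eq (i : Fin 5) (j : Fin 4) :
    vm (evq i j) = Finsupp.single i 1 + Finsupp.single j.succ 4 := by
  ext k
  rw [vm_apply, Finsupp.add_apply, Finsupp.single_apply, Finsupp.single_apply]
  unfold evq
  simp only [eq_comm]

lemma lf_mul_Gq (c c' : Fin 5 → K) : lf c * Gq c' =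
    ∑ i : Fin 5, ∑ j : Fin 4, monomial (vm (evq i j)) (c i * c' j.castSucc) := by
  unfold lf Gq
  rw [Finset.sum_mul_sum]
  refine Finset.sum_congr rfl fun i _ => Finset.sum_congr rfl fun j _ => ?_
  rw [evq_eq]
  have h1 : (X j.succ : MvPolynomial (Fin 5) K) ^ 4 = monomial (Finsupp.single j.succ 4) 1 := by
    rw [X_pow_eq_monomial]
  have h2 : (X i : MvPolynomial (Fin 5) K) = monomial (Finsupp.single i 1) 1 := rfl
  rw [h1, h2, C_mul_monomial, C_mul_monomial, monomial_mul, mul_one, mul_one]

lemma evq_unique : ∀ (p : Fin 6) (i : Fin 5) (j : Fin 4),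
    evq i j = evq (pI p).castSucc (pJ p) → i = (pI p).castSucc ∧ j = pJ p := by
  decide

lemma coeff_lf_mul_Gq (c c' : Fin 5 → K) (p : Fin 6) :
    (lf c * Gq c').coeff (mα p) = c (pI p).castSucc * c' (pJ p).castSucc := by
  rw [lf_mul_Gq, coeff_sum, Finset.sum_eq_single (pI p).castSucc]
  · rw [coeff_sum, Finset.sum_eq_single (pJ p)]
    · rw [coeff_monomial]
      exact if_pos rfl
    · intro j _ hj
      rw [coeff_monomial, if_neg]
      intro h
      unfold mα at h
      rw [vm_inj] at h
      exact hj (evq_unique p _ _ h).2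
    · intro h
      exact absurd (Finset.mem_univ _) h
  · intro i _ hi
    rw [coeff_sum, Finset.sum_eq_zero]
    intro j _
    rw [coeff_monomial, if_neg]
    intro h
    unfold mα at h
    rw [vm_inj] at h
    exact hi (evq_unique p _ _ h).1
  · intro h
    exact absurd (Finset.mem_univ _) h

lemma coeff_Fc (c c' : Fin 5 → K) (p : Fin 6) :
    (Fc c c').coeff (mα p) = c (pI p).castSucc * c' (pJ p).castSucc -
      c' (pI p).castSucc * c (pJ p).castSucc := by
  unfold Fc
  rw [coeff_sub, coeff_lf_mul_Gq, coeff_lf_mul_Gq]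

lemma exists_coeff_Fc {c c' : Fin 5 → K} (hc : c 4 = 0) (hc' : c' 4 = 0)
    (hli : LinearIndependent K ![c, c']) : ∃ p, (Fc c c').coeff (mα p) ≠ 0 := by
  by_contra hcon
  push Not at hcon
  have hcon' : ∀ p : Fin 6, c (pI p).castSucc * c' (pJ p).castSucc -
      c' (pI p).castSucc * c (pJ p).castSucc = 0 := by
    intro p
    rw [← coeff_Fc]
    exact hcon p
  have h01 : c 0 * c' 1 - c' 0 * c 1 = 0 := hcon' 0
  have h02 : c 0 * c' 2 - c' 0 * c 2 = 0 := hcon' 1
  have h03 : c 0 * c' 3 - c' 0 * c 3 = 0 := hcon' 2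
  have h12 : c 1 * c' 2 - c' 1 * c 2 = 0 := hcon' 3
  have h13 : c 1 * c' 3 - c' 1 * c 3 = 0 := hcon' 4
  have h23 : c 2 * c' 3 - c' 2 * c 3 = 0 := hcon' 5
  rw [LinearIndependent.pair_iff] at hli
  have hall : ∀ k i : Fin 5, c' k * c i + (-(c k)) * c' i = 0 := by
    intro k i
    fin_cases k <;> fin_cases i <;> simp [hc, hc'] <;>
      first
        | ring1
        | linear_combination h01
        | linear_combination h02
        | linear_combination h03
        | linear_combination h12
        | linear_combination h13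
        | linear_combination h23
        | linear_combination -h01
        | linear_combination -h02
        | linear_combination -h03
        | linear_combination -h12
        | linear_combination -h13
        | linear_combination -h23
  have hz : ∀ k, c' k = 0 ∧ c k = 0 := by
    intro k
    have := hli (c' k) (-(c k)) (by
      ext i
      simp only [Pi.add_apply, Pi.smul_apply, smul_eq_mul, Pi.zero_apply]
      exact hall k i)
    exact ⟨this.1, neg_eq_zero.1 this.2⟩
  have h1 := hli 1 0 (by
    ext i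
    simp [(hz i).2])
  exact one_ne_zero h1.1

/-- two independent combinations without `x_4` -/
lemma exists_pair {u : Fin 3 → Fin 5 → K} (hu : LinearIndependent K u) :
    ∃ t t' : Fin 3 → K, (∑ i, t i • u i) 4 = 0 ∧ (∑ i, t' i • u i) 4 = 0 ∧
      LinearIndependent K ![∑ i, t i • u i, ∑ i, t' i • u i] := by
  set T : (Fin 3 → K) →ₗ[K] (Fin 5 → K) := Fintype.linearCombination K u with hT
  have hTa : ∀ t, T t = ∑ i, t i • u i := fun t => rfl
  have hker : LinearMap.ker T = ⊥ := by
    rw [LinearMap.ker_eq_bot']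
    intro t ht
    funext i
    exact Fintype.linearIndependent_iff.1 hu t ht i
  set S : (Fin 3 → K) →ₗ[K] K := (LinearMap.proj 4) ∘ₗ T with hS
  have h1 : 1 < Module.finrank K (LinearMap.ker S) := by
    have h2 := LinearMap.finrank_range_add_finrank_ker S
    have h3 : Module.finrank K (LinearMap.range S) ≤ 1 := by
      have := Submodule.finrank_le (LinearMap.range S)
      rwa [Module.finrank_self] at this
    rw [Module.finrank_fin_fun] at h2
    omega
  obtain ⟨x, hx⟩ : ∃ x : LinearMap.ker S, x ≠ 0 := by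
    have : Nontrivial (LinearMap.ker S) := Module.nontrivial_of_finrank_pos (R := K) (by omega)
    exact exists_ne 0
  obtain ⟨y, hy⟩ := exists_linearIndependent_pair_of_one_lt_finrank h1 hx
  refine ⟨x, y, ?_, ?_, ?_⟩
  · rw [← hTa]
    exact LinearMap.mem_ker.1 x.2
  · rw [← hTa]
    exact LinearMap.mem_ker.1 y.2
  · rw [← hTa, ← hTa]
    have h2 := (hy.map' (LinearMap.ker S).subtype (Submodule.ker_subtype _)).map' T hker
    convert! h2 using 1
    ext i
    fin_cases i <;> rfl

/-- restriction to a line -/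
lemma exists_line {u : Fin 3 → Fin 5 → K} (hu : LinearIndependent K u) :
    ∃ ψ : MvPolynomial (Fin 5) K →ₐ[K] Polynomial K, (∀ i, ψ (lf (u i)) = 0) ∧
      ∃ a b, ψ (lf a) = 1 ∧ ψ (lf b) = Polynomial.X := by
  obtain ⟨x, hx⟩ := exists_linearIndependent_snoc_of_lt_finrank hu (by
    rw [Module.finrank_fin_fun]
    norm_num)
  obtain ⟨y, hy⟩ := exists_linearIndependent_snoc_of_lt_finrank hx (by
    rw [Module.finrank_fin_fun]
    norm_num)
  set bb := basisOfLinearIndependentOfCardEqFinrank hy (by
    rw [Module.finrank_fin_fun, Fintype.card_fin]) with hbb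
  have hb : ∀ i, bb i = Fin.snoc (α := fun _ => Fin 5 → K) (Fin.snoc (α := fun _ => Fin 5 → K) u x) y i := by
    intro i
    rw [hbb, coe_basisOfLinearIndependentOfCardEqFinrank]
  set Λ : (Fin 5 → K) →ₗ[K] Polynomial K := bb.constr K ![0, 0, 0, 1, Polynomial.X] with hΛ
  set ψ : MvPolynomial (Fin 5) K →ₐ[K] Polynomial K := aeval (fun j => Λ (Pi.single j 1)) with hψ
  have hψl : ∀ c, ψ (lf c) = Λ c := by
    intro c
    unfold lf
    rw [map_sum]
    have h1 : c = ∑ j, c j • (Pi.single j (1 : K) : Fin 5 → K) := by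
      ext k
      simp [Finset.sum_apply, Pi.single_apply]
    conv_rhs => rw [h1]
    rw [map_sum]
    refine Finset.sum_congr rfl fun j _ => ?_
    rw [map_mul, hψ, aeval_X, aeval_C, map_smul, Algebra.smul_def]
  refine ⟨ψ, ?_, x, y, ?_, ?_⟩
  · intro i
    rw [hψl]
    have h1 : u i = bb i.castSucc.castSucc := by
      rw [hb, Fin.snoc_castSucc, Fin.snoc_castSucc]
    rw [h1, hΛ, Module.Basis.constr_basis]
    fin_cases i <;> rfl
  · rw [hψl]
    have h1 : x = bb (Fin.last 3).castSucc := by
      rw [hb, Fin.snoc_castSucc, Fin.snoc_last]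
    conv_lhs => rw [h1]
    rw [hΛ, Module.Basis.constr_basis]
    rfl
  · rw [hψl]
    have h1 : y = bb (Fin.last 4) := by
      rw [hb, Fin.snoc_last]
    conv_lhs => rw [h1]
    rw [hΛ, Module.Basis.constr_basis]
    rfl

end Pool.Agent.Helper720.Curve
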