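import Pool.Agent.Helper720.CurveCM

set_option autoImplicit false

open MvPolynomial

namespace Pool.Agent.Helper720.Curve

variable {K : Type*} [Field K]

abbrev Quin := ℕ × ℕ × ℕ × ℕ × ℕ

/-- exponent vectors of total degree `k` -/
def LL (k : ℕ) : List Quin :=
  (List.range (k + 1)).flatMap fun a => (List.range (k + 1 - a)).flatMap fun b =>
    (List.range (k + 1 - a - b)).flatMap fun c => (List.range (k + 1 - a - b - c)).map fun d =>
      (a, b, c, d, k - a - b - c - d)

def wt5 (x : Quin) : ℕ := 64 * x.2.1 + 80 * x.2.2.1 + 84 * x.2.2.2.1 + 85 * x.2.2.2.2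

/-- the monomial `x_i x_{j+1}^4` -/
def evq (i : Fin 5) (j : Fin 4) : Fin 5 → ℕ :=
  fun k => (if k = i then 1 else 0) + (if k = j.succ then 4 else 0)

def toQ (v : Fin 5 → ℕ) : Quin := (v 0, v 1, v 2, v 3, v 4)

lemma toQ_inj {v v' : Fin 5 → ℕ} (h : toQ v = toQ v') : v = v' := by
  unfold toQ at h
  simp only [Prod.mk.injEq] at h
  obtain ⟨h0, h1, h2, h3, h4⟩ := h
  funext k
  fin_cases k <;> assumption

def pI : Fin 6 → Fin 4 := ![0, 0, 0, 1, 1, 2]
def pJ : Fin 6 → Fin 4 := ![1, 2, 3, 2, 3, 3]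

lemma mem_LL {k : ℕ} {v : Fin 5 → ℕ} (h : ∑ j, v j = k) : toQ v ∈ LL k := by
  rw [Fin.sum_univ_five] at h
  unfold LL toQ
  simp only [List.mem_flatMap, List.mem_range, List.mem_map, Prod.mk.injEq]
  exact ⟨v 0, by omega, v 1, by omega, v 2, by omega, v 3, by omega, rfl, rfl, rfl, rfl, by omega⟩

lemma chk4 : (LL 4).all (fun x => (LL 4).all fun y => !(wt5 x == wt5 y) || x == y) = true := by
  decide +kernel

lemma chk5 : (LL 5).all (fun x => (LL 5).all fun y => !(wt5 x == wt5 y) || x == y ||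
    (List.finRange 6).any (fun p =>
      (x == toQ (evq (pI p).castSucc (pJ p)) && y == toQ (evq (pJ p).castSucc (pI p))) ||
      (y == toQ (evq (pI p).castSucc (pJ p)) && x == toQ (evq (pJ p).castSucc (pI p))))) = true := by
  decide +kernel

/-- the monomial with exponents `v` -/
noncomputable def vm (v : Fin 5 → ℕ) : Fin 5 →₀ ℕ := Finsupp.equivFunOnFinite.symm v

lemma vm_apply (v : Fin 5 → ℕ) (j : Fin 5) : vm v j = v j := rfl

lemma vm_inj {v v' : Fin 5 → ℕ} : vm v = vm v' ↔ v = v' :=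
  Finsupp.equivFunOnFinite.symm.injective.eq_iff

lemma vm_coe (m : Fin 5 →₀ ℕ) : vm (fun j => m j) = m := by
  ext j
  rfl

lemma wt_vm (v : Fin 5 → ℕ) : wt (vm v) = wt5 (toQ v) := wt_eq _

lemma degree_vm (v : Fin 5 → ℕ) : (vm v).degree = ∑ j, v j := by
  rw [Finsupp.degree_eq_sum]
  rfl

lemma inj4 {v v' : Fin 5 → ℕ} (h : ∑ j, v j = 4) (h' : ∑ j, v' j = 4)
    (hw : wt5 (toQ v) = wt5 (toQ v')) : v = v' := by
  have h1 := List.all_eq_true.1 (List.all_eq_true.1 chk4 _ (mem_LL h)) _ (mem_LL h')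
  rw [Bool.or_eq_true, Bool.not_eq_true', beq_eq_false_iff_ne, beq_iff_eq] at h1
  exact toQ_inj (h1.resolve_left (fun h2 => h2 hw))

lemma inj5 {v v' : Fin 5 → ℕ} (h : ∑ j, v j = 5) (h' : ∑ j, v' j = 5)
    (hw : wt5 (toQ v) = wt5 (toQ v')) : v = v' ∨ ∃ p : Fin 6,
      (v = evq (pI p).castSucc (pJ p) ∧ v' = evq (pJ p).castSucc (pI p)) ∨
      (v' = evq (pI p).castSucc (pJ p) ∧ v = evq (pJ p).castSucc (pI p)) := by
  have h1 := List.all_eq_true.1 (List.all_eq_true.1 chk5 _ (mem_LL h)) _ (mem_LL h')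
  rw [Bool.or_eq_true, Bool.or_eq_true, Bool.not_eq_true', beq_eq_false_iff_ne, beq_iff_eq,
    List.any_eq_true] at h1
  rcases h1 with (h1 | h1) | h1
  · exact absurd hw h1
  · exact Or.inl (toQ_inj h1)
  · right
    obtain ⟨p, _, hp⟩ := h1
    rw [Bool.or_eq_true, Bool.and_eq_true, Bool.and_eq_true, beq_iff_eq, beq_iff_eq, beq_iff_eq,
      beq_iff_eq] at hp
    refine ⟨p, hp.imp (fun h => ⟨toQ_inj h.1, toQ_inj h.2⟩) (fun h => ⟨toQ_inj h.1, toQ_inj h.2⟩)⟩

/-- the fibre equation -/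
lemma fibre {f : MvPolynomial (Fin 5) K} {d : ℕ} (hf : f.IsHomogeneous d) (hI : f ∈ Ic K) (w : ℕ) :
    ∑ m ∈ f.support, (if wt m = w then f.coeff m else 0) = 0 := by
  have h1 := coeff_φ K f d w
  rw [mem_Ic.1 hI] at h1
  simp only [Polynomial.coeff_zero] at h1
  refine Eq.trans ?_ h1.symm
  refine Finset.sum_congr rfl fun m hm => ?_
  have hd : m.degree = d := by
    have := hf (MvPolynomial.mem_support_iff.1 hm)
    rwa [Finsupp.degree_eq_weight_one]
  simp [hd]

lemma degree_of_coeff {f : MvPolynomial (Fin 5) K} {d : ℕ} (hf : f.IsHomogeneous d)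
    {m : Fin 5 →₀ ℕ} (hm : f.coeff m ≠ 0) : ∑ j, m j = d := by
  have := hf hm
  rw [← Finsupp.degree_eq_sum, Finsupp.degree_eq_weight_one]
  exact this

lemma four_zero {f : MvPolynomial (Fin 5) K} (hf : f.IsHomogeneous 4) (hI : f ∈ Ic K) :
    f = 0 := by
  ext m
  rw [coeff_zero]
  by_contra hm
  have h1 := fibre hf hI (wt m)
  rw [Finset.sum_eq_single m] at h1
  · rw [if_pos rfl] at h1
    exact hm h1
  · intro m' hm' hne
    rw [if_neg]
    intro hw
    apply hne
    have h2 := inj4 (degree_of_coeff hf (MvPolynomial.mem_support_iff.1 hm'))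
      (degree_of_coeff hf hm) (by rw [← wt_vm, ← wt_vm, vm_coe, vm_coe, hw])
    rw [← vm_coe m', h2, vm_coe]
  · intro h'
    exact absurd (MvPolynomial.mem_support_iff.2 hm) h'

/-- the two monomials of the `p`-th minor -/
noncomputable def mα (p : Fin 6) : Fin 5 →₀ ℕ := vm (evq (pI p).castSucc (pJ p))
noncomputable def mβ (p : Fin 6) : Fin 5 →₀ ℕ := vm (evq (pJ p).castSucc (pI p))

lemma mα_inj {p q : Fin 6} : mα p = mα q ↔ p = q := by
  unfold mα
  rw [vm_inj]
  revert p q
  decide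

lemma mβ_inj {p q : Fin 6} : mβ p = mβ q ↔ p = q := by
  unfold mβ
  rw [vm_inj]
  revert p q
  decide

lemma mα_ne_mβ (p q : Fin 6) : mα p ≠ mβ q := by
  unfold mα mβ
  rw [Ne, vm_inj]
  revert p q
  decide

lemma wt_mα (p : Fin 6) : wt (mα p) = wt (mβ p) := by
  unfold mα mβ
  rw [wt_vm, wt_vm]
  revert p
  decide

lemma deg_mα (p : Fin 6) : ∑ j, evq (pI p).castSucc (pJ p) j = 5 := by
  revert p
  decide

lemma deg_mβ (p : Fin 6) : ∑ j, evq (pJ p).castSucc (pI p) j = 5 := by
  revert p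
  decide

/-- the six minors -/
noncomputable def Mi (p : Fin 6) : MvPolynomial (Fin 5) K :=
  monomial (mα p) 1 - monomial (mβ p) 1

lemma coeff_pair {f : MvPolynomial (Fin 5) K} (hf : f.IsHomogeneous 5) (hI : f ∈ Ic K)
    (p : Fin 6) : f.coeff (mα p) + f.coeff (mβ p) = 0 := by
  have h1 := fibre hf hI (wt (mα p))
  rw [← h1]
  have hne : mα p ≠ mβ p := mα_ne_mβ p p
  have h2 : ∑ m ∈ f.support, (if wt m = wt (mα p) then f.coeff m else 0) =
      ∑ m ∈ {mα p, mβ p}, (if wt m = wt (mα p) then f.coeff m else 0) := by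
    symm
    have h3 : ∑ m ∈ {mα p, mβ p}, (if wt m = wt (mα p) then f.coeff m else 0) =
      ∑ m ∈ f.support ∪ {mα p, mβ p}, (if wt m = wt (mα p) then f.coeff m else 0) := by
      apply Finset.sum_subset Finset.subset_union_right
      intro m hm hm'
      rw [Finset.mem_union] at hm
      have hms := hm.resolve_right hm'
      rw [if_neg]
      intro hw
      rw [MvPolynomial.mem_support_iff] at hms
      apply hm'
      rw [Finset.mem_insert, Finset.mem_singleton]
      have h4 := inj5 (v := fun j => m j) (v' := evq (pI p).castSucc (pJ p))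
        (degree_of_coeff hf hms) (deg_mα p) (by
          rw [← wt_vm, ← wt_vm, vm_coe, hw]
          rfl)
      rcases h4 with h4 | ⟨q, ⟨h4, h5⟩ | ⟨h4, h5⟩⟩
      · left
        rw [← vm_coe m, h4]
        rfl
      · exfalso
        have : mα p = mβ q := by
          unfold mα mβ
          rw [h5]
        exact mα_ne_mβ p q this
      · right
        have : mα p = mα q := by
          unfold mα
          rw [h4]
        rw [mα_inj] at this
        subst this
        rw [← vm_coe m, h5]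
        rfl
    rw [h3]
    symm
    apply Finset.sum_subset Finset.subset_union_left
    intro m _ hm
    rw [MvPolynomial.notMem_support_iff.1 hm]
    simp
  rw [h2, Finset.sum_pair hne, if_pos rfl, if_pos (wt_mα p).symm]

lemma coeff_other {f : MvPolynomial (Fin 5) K} (hf : f.IsHomogeneous 5) (hI : f ∈ Ic K)
    {m : Fin 5 →₀ ℕ} (h1 : ∀ p, m ≠ mα p) (h2 : ∀ p, m ≠ mβ p) : f.coeff m = 0 := by
  by_contra hm
  have h3 := fibre hf hI (wt m)
  rw [Finset.sum_eq_single m] at h3
  · rw [if_pos rfl] at h3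
    exact hm h3
  · intro m' hm' hne
    rw [if_neg]
    intro hw
    have h4 := inj5 (degree_of_coeff hf (MvPolynomial.mem_support_iff.1 hm'))
      (degree_of_coeff hf hm) (by rw [← wt_vm, ← wt_vm, vm_coe, vm_coe, hw])
    rcases h4 with h4 | ⟨q, ⟨_, h5⟩ | ⟨h5, _⟩⟩
    · apply hne
      rw [← vm_coe m', h4, vm_coe]
    · apply h2 q
      rw [← vm_coe m, h5]
      rfl
    · apply h1 q
      rw [← vm_coe m, h5]
      rfl
  · intro h'
    exact absurd (MvPolynomial.mem_support_iff.2 hm) h'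

/-- The degree five part of the ideal is spanned by the six minors. -/
lemma five_eq {f : MvPolynomial (Fin 5) K} (hf : f.IsHomogeneous 5) (hI : f ∈ Ic K) :
    f = ∑ p : Fin 6, C (f.coeff (mα p)) * Mi p := by
  ext m
  rw [coeff_sum]
  simp_rw [coeff_C_mul, Mi, coeff_sub, coeff_monomial]
  by_cases h1 : ∃ q, m = mα q
  · obtain ⟨q, rfl⟩ := h1
    rw [Finset.sum_eq_single q]
    · rw [if_pos rfl, if_neg (fun h => mα_ne_mβ q q h.symm), sub_zero, mul_one]
    · intro p _ hp
      rw [if_neg (fun h => hp (mα_inj.1 h)), if_neg (fun h => mα_ne_mβ q p h.symm), sub_zero,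
        mul_zero]
    · intro h
      exact absurd (Finset.mem_univ _) h
  · by_cases h2 : ∃ q, m = mβ q
    · obtain ⟨q, rfl⟩ := h2
      rw [Finset.sum_eq_single q]
      · rw [if_pos rfl, if_neg (fun h => mα_ne_mβ q q h)]
        linear_combination coeff_pair hf hI q
      · intro p _ hp
        rw [if_neg (fun h => mα_ne_mβ p q h), if_neg (fun h => hp (mβ_inj.1 h)), sub_zero,
          mul_zero]
      · intro h
        exact absurd (Finset.mem_univ _) h
    · push Not at h1 h2
      rw [coeff_other hf hI h1 h2, Finset.sum_eq_zero]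
      intro p _
      rw [if_neg (fun h => h1 p h.symm), if_neg (fun h => h2 p h.symm), sub_zero, mul_zero]

end Pool.Agent.Helper720.Curve
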