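import Pool.Agent.Helper720.CurveDefs

set_option autoImplicit false

open MvPolynomial

namespace Pool.Agent.Helper720.Curve

variable (K : Type*) [Field K]

/-- the exponents -/
def ex : Fin 5 → ℕ := ![0, 64, 80, 84, 85]

/-- the weight of a monomial -/
def wt (m : Fin 5 →₀ ℕ) : ℕ := ∑ j, m j * ex j

lemma wt_eq (m : Fin 5 →₀ ℕ) : wt m = 64 * m 1 + 80 * m 2 + 84 * m 3 + 85 * m 4 := by
  unfold wt ex
  rw [Fin.sum_univ_five]
  simp
  ring

lemma wt_add (m m' : Fin 5 →₀ ℕ) : wt (m + m') = wt m + wt m' := by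
  unfold wt
  rw [← Finset.sum_add_distrib]
  refine Finset.sum_congr rfl fun j _ => ?_
  rw [Finsupp.add_apply]
  ring

lemma wt_single (j : Fin 5) (c : ℕ) : wt (Finsupp.single j c) = c * ex j := by
  unfold wt
  rw [Finset.sum_eq_single j]
  · rw [Finsupp.single_eq_same]
  · intro b _ hb
    rw [Finsupp.single_apply, if_neg (Ne.symm hb), zero_mul]
  · intro h
    exact absurd (Finset.mem_univ _) h

/-- the parametrisation of the affine cone -/
noncomputable def φ : MvPolynomial (Fin 5) K →ₐ[K] Polynomial (Polynomial K) :=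
  aeval (fun j => Polynomial.C (Polynomial.X ^ ex j) * Polynomial.X)

lemma φ_X (j : Fin 5) : φ K (X j) = Polynomial.C (Polynomial.X ^ ex j) * Polynomial.X := by
  unfold φ
  rw [aeval_X]

lemma φ_monomial (m : Fin 5 →₀ ℕ) (c : K) :
    φ K (monomial m c) =
      Polynomial.monomial m.degree (Polynomial.monomial (wt m) c) := by
  unfold φ
  rw [aeval_monomial, Finsupp.prod_fintype _ _ (by simp)]
  have h1 : (∏ i, (Polynomial.C (Polynomial.X ^ ex i) * Polynomial.X :
      Polynomial (Polynomial K)) ^ (m i)) =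
      Polynomial.C (Polynomial.X ^ wt m) * Polynomial.X ^ m.degree := by
    simp_rw [mul_pow]
    rw [Finset.prod_mul_distrib, Finset.prod_pow_eq_pow_sum, ← Finsupp.degree_eq_sum]
    congr 1
    rw [wt, ← Finset.prod_pow_eq_pow_sum, map_prod]
    refine Finset.prod_congr rfl fun i _ => ?_
    rw [← map_pow, ← pow_mul, mul_comm]
  rw [h1, ← Polynomial.C_mul_X_pow_eq_monomial, ← Polynomial.C_mul_X_pow_eq_monomial, map_mul,
    ← mul_assoc]
  rfl

lemma coeff_φ (f : MvPolynomial (Fin 5) K) (d w : ℕ) :
    ((φ K f).coeff d).coeff w =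
      ∑ m ∈ f.support, if m.degree = d ∧ wt m = w then f.coeff m else 0 := by
  conv_lhs => rw [f.as_sum]
  rw [map_sum, Polynomial.finsetSum_coeff, Polynomial.finsetSum_coeff]
  refine Finset.sum_congr rfl fun m _ => ?_
  rw [φ_monomial, Polynomial.coeff_monomial]
  by_cases h1 : m.degree = d
  · rw [if_pos h1, Polynomial.coeff_monomial]
    by_cases h2 : wt m = w
    · rw [if_pos h2, if_pos ⟨h1, h2⟩]
    · rw [if_neg h2, if_neg (fun h => h2 h.2)]
  · rw [if_neg h1, if_neg (fun h => h1 h.1), Polynomial.coeff_zero]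

/-- the ideal of the curve -/
noncomputable def Ic : Ideal (MvPolynomial (Fin 5) K) := RingHom.ker (φ K)

variable {K}

lemma mem_Ic {f : MvPolynomial (Fin 5) K} : f ∈ Ic K ↔ φ K f = 0 := RingHom.mem_ker

instance Ic_prime : (Ic K).IsPrime := RingHom.ker_isPrime _

lemma φ_component (f : MvPolynomial (Fin 5) K) (d : ℕ) :
    φ K (homogeneousComponent d f) = Polynomial.monomial d ((φ K f).coeff d) := by
  induction f using MvPolynomial.induction_on' with
  | monomial m c =>
    rw [φ_monomial, Polynomial.coeff_monomial]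
    by_cases h : m.degree = d
    · have h1 := homogeneousComponent_of_mem (m := d) (n := d)
        (show monomial m c ∈ homogeneousSubmodule (Fin 5) K d from
          MvPolynomial.isHomogeneous_monomial c h)
      rw [if_pos h, h1, if_pos rfl, φ_monomial, h]
    · have h1 := homogeneousComponent_of_mem (m := d) (n := m.degree)
        (show monomial m c ∈ homogeneousSubmodule (Fin 5) K m.degree from
          MvPolynomial.isHomogeneous_monomial c rfl)
      rw [if_neg h, h1, if_neg (fun h' => h h'.symm), map_zero, map_zero]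
  | add p q hp hq =>
    rw [map_add, map_add, hp, hq, map_add, Polynomial.coeff_add, map_add]

lemma component_mem {f : MvPolynomial (Fin 5) K} (hf : f ∈ Ic K) (d : ℕ) :
    homogeneousComponent d f ∈ Ic K := by
  rw [mem_Ic] at hf ⊢
  rw [φ_component, hf, Polynomial.coeff_zero, map_zero]

lemma X_notMem (j : Fin 5) : X j ∉ Ic K := by
  rw [mem_Ic, φ_X]
  intro h
  rcases mul_eq_zero.1 h with h | h
  · rw [Polynomial.C_eq_zero] at h
    exact pow_ne_zero _ Polynomial.X_ne_zero h
  · exact Polynomial.X_ne_zero h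

lemma Ic_saturated (f : MvPolynomial (Fin 5) K) (h : ∀ j, X j * f ∈ Ic K) : f ∈ Ic K :=
  (Ic_prime.mem_or_mem (h 0)).resolve_left (X_notMem 0)

end Pool.Agent.Helper720.Curve
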