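import Pool.Agent.Helper720.CurveMap

set_option autoImplicit false

open MvPolynomial

namespace Pool.Agent.Helper720.Curve

variable {K : Type*} [Field K]

/-- the Apery table: one exponent triple for every residue modulo 85 -/
def tab : List (ℕ × ℕ × ℕ) :=
  [(0,0,0), (4,0,0), (3,4,0), (2,8,0), (3,3,3), (3,3,2), (3,3,1), (3,3,0), (2,7,0), (3,2,3),
   (3,2,2), (3,2,1), (3,2,0), (2,6,0), (3,1,3), (3,1,2), (3,1,1), (3,1,0), (2,5,0), (3,0,3),
   (3,0,2), (3,0,1), (3,0,0), (2,4,0), (1,8,0), (2,3,3), (2,3,2), (2,3,1), (2,3,0), (1,7,0),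
   (2,2,3), (2,2,2), (2,2,1), (2,2,0), (1,6,0), (2,1,3), (2,1,2), (2,1,1), (2,1,0), (1,5,0),
   (2,0,3), (2,0,2), (2,0,1), (2,0,0), (1,4,0), (0,8,0), (1,3,3), (1,3,2), (1,3,1), (1,3,0),
   (0,7,0), (1,2,3), (1,2,2), (1,2,1), (1,2,0), (0,6,0), (1,1,3), (1,1,2), (1,1,1), (1,1,0),
   (0,5,0), (1,0,3), (1,0,2), (1,0,1), (1,0,0), (0,4,0), (0,3,4), (0,3,3), (0,3,2), (0,3,1),
   (0,3,0), (0,2,4), (0,2,3), (0,2,2), (0,2,1), (0,2,0), (0,1,4), (0,1,3), (0,1,2), (0,1,1),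
   (0,1,0), (0,0,4), (0,0,3), (0,0,2), (0,0,1)]

def wt3 (t : ℕ × ℕ × ℕ) : ℕ := 64 * t.1 + 80 * t.2.1 + 84 * t.2.2
def cnt (t : ℕ × ℕ × ℕ) : ℕ := t.1 + t.2.1 + t.2.2

/-- the bigraded semigroup of the curve -/
def Sg (d w : ℕ) : Prop := ∃ m : Fin 5 →₀ ℕ, m.degree = d ∧ wt m = w

def Qt (d w : ℕ) : Prop := ∃ t ∈ tab, ∃ j, w = wt3 t + 85 * j ∧ cnt t + j ≤ d

def stepChk (t : ℕ × ℕ × ℕ) (a : ℕ) : Bool :=
  tab.any (fun t' => (List.range 12).any (fun j =>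
    wt3 t + a == wt3 t' + 85 * j && Nat.ble (cnt t' + j) (cnt t + 1)))

lemma chk_step : tab.all (fun t => stepChk t 64 && stepChk t 80 && stepChk t 84) = true := by
  decide +kernel

lemma chk_uniq : tab.all (fun t => tab.all (fun t' =>
    !(wt3 t % 85 == wt3 t' % 85) || t == t')) = true := by
  decide +kernel

lemma step_of_chk {t : ℕ × ℕ × ℕ} {a : ℕ} (h : stepChk t a = true) :
    ∃ t' ∈ tab, ∃ j, wt3 t + a = wt3 t' + 85 * j ∧ cnt t' + j ≤ cnt t + 1 := by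
  unfold stepChk at h
  rw [List.any_eq_true] at h
  obtain ⟨t', ht', h⟩ := h
  rw [List.any_eq_true] at h
  obtain ⟨j, _, h⟩ := h
  rw [Bool.and_eq_true, beq_iff_eq, Nat.ble_eq] at h
  exact ⟨t', ht', j, h.1, h.2⟩

lemma Qt_zero : Qt 0 0 := ⟨(0, 0, 0), by decide, 0, rfl, le_rfl⟩

lemma Qt_step {d w : ℕ} (h : Qt d w) (i : Fin 5) : Qt (d + 1) (w + ex i) := by
  obtain ⟨t, ht, j, hw, hd⟩ := h
  have hchk := List.all_eq_true.1 chk_step t ht
  simp only [Bool.and_eq_true] at hchk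
  obtain ⟨⟨h64, h80⟩, h84⟩ := hchk
  fin_cases i
  · exact ⟨t, ht, j, by simpa [ex] using hw, by omega⟩
  · obtain ⟨t', ht', j', h1, h2⟩ := step_of_chk h64
    exact ⟨t', ht', j + j', by simp only [ex]; simp; omega, by omega⟩
  · obtain ⟨t', ht', j', h1, h2⟩ := step_of_chk h80
    exact ⟨t', ht', j + j', by simp only [ex]; simp; omega, by omega⟩
  · obtain ⟨t', ht', j', h1, h2⟩ := step_of_chk h84
    exact ⟨t', ht', j + j', by simp only [ex]; simp; omega, by omega⟩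
  · exact ⟨t, ht, j + 1, by simp only [ex]; simp; omega, by omega⟩

lemma Qt_steps {d w : ℕ} (h : Qt d w) (i : Fin 5) (k : ℕ) : Qt (d + k) (w + k * ex i) := by
  induction k with
  | zero => simpa using h
  | succ k ih =>
    have := Qt_step ih i
    rw [show d + (k + 1) = d + k + 1 by ring, show w + (k + 1) * ex i = w + k * ex i + ex i by ring]
    exact this

lemma Sg_iff {d w : ℕ} : Sg d w ↔ Qt d w := by
  constructor
  · rintro ⟨m, rfl, rfl⟩
    have h := Qt_steps (Qt_steps (Qt_steps (Qt_steps (Qt_steps Qt_zero 0 (m 0)) 1 (m 1)) 2 (m 2))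
      3 (m 3)) 4 (m 4)
    have hd : m.degree = 0 + m 0 + m 1 + m 2 + m 3 + m 4 := by
      rw [Finsupp.degree_eq_sum, Fin.sum_univ_five]
      ring
    have hw : wt m = 0 + m 0 * ex 0 + m 1 * ex 1 + m 2 * ex 2 + m 3 * ex 3 + m 4 * ex 4 := by
      unfold wt
      rw [Fin.sum_univ_five]
      ring
    rw [hd, hw]
    exact h
  · rintro ⟨⟨a, b, c⟩, _, j, hw, hd⟩
    refine ⟨Finsupp.equivFunOnFinite.symm ![d - (a + b + c + j), a, b, c, j], ?_, ?_⟩
    · rw [Finsupp.degree_eq_sum, Fin.sum_univ_five]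
      simp only [cnt] at hd
      simp
      omega
    · rw [wt_eq]
      simp only [wt3] at hw
      simp
      omega

/-- The Cohen-Macaulay property of the semigroup. -/
lemma Sg_cm {d w : ℕ} (h1 : Sg d w) (h2 : Sg d (w + 85)) : ∃ d', d = d' + 1 ∧ Sg d' w := by
  rw [Sg_iff] at h1 h2
  obtain ⟨t, ht, j, hw, hd⟩ := h2
  rcases Nat.eq_zero_or_pos j with rfl | hj
  · exfalso
    obtain ⟨t', ht', j', hw', _⟩ := h1
    have h3 := List.all_eq_true.1 (List.all_eq_true.1 chk_uniq t ht) t' ht'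
    rw [Bool.or_eq_true, Bool.not_eq_true', beq_eq_false_iff_ne, beq_iff_eq] at h3
    rcases h3 with h3 | rfl
    · apply h3
      omega
    · omega
  · refine ⟨d - 1, by omega, ?_⟩
    rw [Sg_iff]
    exact ⟨t, ht, j - 1, by omega, by omega⟩

end Pool.Agent.Helper720.Curve
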