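import Pool.Agent.Helper720.HKLimit

/-!
# Choice of the fields and of the parameters `λ`
-/

namespace Pool.Agent.Helper720.HK

open MvPolynomial Filter Topology

universe u

theorem exists_special_field (p : ℕ) [Fact p.Prime] (F : Type u) [Field F] [Finite F] [CharP F p]
    (k : ℕ) (hk : 1 ≤ k) :
    ∃ (K : Type u) (_ : Field K) (_ : Finite K) (_ : CharP K p) (_ : Algebra F K) (lam : K),
      lam ^ p ^ (2 * k) = lam ∧ ∀ e, 1 ≤ e → e < 2 * k → lam ^ p ^ e ≠ lam := by
  have hp : 2 ≤ p := (Fact.out : p.Prime).two_le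
  have : CharP (AlgebraicClosure F) p :=
    charP_of_injective_algebraMap (algebraMap F (AlgebraicClosure F)).injective p
  set m := p ^ (2 * k) - 1 with hm
  have hpk : 1 < p ^ (2 * k) := Nat.one_lt_pow (by omega) (by omega)
  have hm0 : 0 < m := by omega
  have hndvd : ¬ p ∣ m := by
    intro hd
    have h1 : p ∣ p ^ (2 * k) := dvd_pow_self _ (by omega)
    have h2 : p ∣ 1 := by
      have := Nat.dvd_sub h1 hd
      have e : p ^ (2 * k) - m = 1 := by omega
      rwa [e] at this
    exact absurd (Nat.le_of_dvd one_pos h2) (by omega)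
  have : NeZero (m : AlgebraicClosure F) := by
    refine ⟨?_⟩
    rw [Ne, CharP.cast_eq_zero_iff (AlgebraicClosure F) p]
    exact hndvd
  have : NeZero m := ⟨by omega⟩
  obtain ⟨ζ, hζ⟩ := HasEnoughRootsOfUnity.exists_primitiveRoot (AlgebraicClosure F) m
  have hint : IsIntegral F ζ := (AlgebraicClosure.isAlgebraic F).isAlgebraic ζ |>.isIntegral
  have : FiniteDimensional F (IntermediateField.adjoin F {ζ}) :=
    IntermediateField.adjoin.finiteDimensional hint
  refine ⟨IntermediateField.adjoin F {ζ}, inferInstance, Module.finite_of_finite F,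
    charP_of_injective_algebraMap (algebraMap F (IntermediateField.adjoin F {ζ})).injective p,
    inferInstance, IntermediateField.AdjoinSimple.gen F ζ, ?_, ?_⟩
  · apply Subtype.ext
    have e : p ^ (2 * k) = m + 1 := by omega
    change ζ ^ p ^ (2 * k) = ζ
    rw [e, pow_succ, hζ.pow_eq_one, one_mul]
  · intro e he1 he2 heq
    have h1 : ζ ^ p ^ e = ζ := congrArg Subtype.val heq
    have hpe : 1 < p ^ e := Nat.one_lt_pow (by omega) (by omega)
    have hlt : p ^ e < p ^ (2 * k) := Nat.pow_lt_pow_right (by omega) he2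
    have hζ0 : ζ ≠ 0 := hζ.ne_zero (by omega)
    have h2 : ζ ^ (p ^ e - 1) = 1 := by
      have e1 : p ^ e = (p ^ e - 1) + 1 := by omega
      rw [e1, pow_succ] at h1
      have h3 : ζ ^ (p ^ e - 1) * ζ = 1 * ζ := by rw [h1, one_mul]
      exact mul_right_cancel₀ hζ0 h3
    have h3 := (hζ.pow_eq_one_iff_dvd _).1 h2
    have := Nat.le_of_dvd (by omega) h3
    omega

lemma pow_injOn {K : Type*} [Field K] (p : ℕ) [Fact p.Prime] [CharP K p] {lam : K} {k : ℕ}
    (hne : ∀ e, 1 ≤ e → e < 2 * k → lam ^ p ^ e ≠ lam) {i j : ℕ} (hij : i < j)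
    (hj : j < 2 * k) : lam ^ p ^ i ≠ lam ^ p ^ j := by
  intro h
  obtain ⟨d, rfl⟩ := Nat.exists_eq_add_of_lt hij
  apply hne (d + 1) (by omega) (by omega)
  have h1 : iterateFrobenius K p i (lam ^ p ^ (d + 1)) = iterateFrobenius K p i lam := by
    rw [iterateFrobenius_def, iterateFrobenius_def, ← pow_mul, h]
    congr 1
    ring
  exact (iterateFrobenius K p i).injective h1

lemma aeval_ne_zero {K : Type*} [Field K] (p : ℕ) [Fact p.Prime] [CharP K p]
    [Algebra (ZMod p) K] {lam : K} {k : ℕ}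
    (hne : ∀ e, 1 ≤ e → e < 2 * k → lam ^ p ^ e ≠ lam) {H : Polynomial (ZMod p)} (hH : H ≠ 0)
    (hdeg : H.natDegree < 2 * k) : Polynomial.aeval lam H ≠ 0 := by
  classical
  intro hz
  have hmap : (H.map (algebraMap (ZMod p) K)) ≠ 0 :=
    (Polynomial.map_ne_zero_iff (algebraMap (ZMod p) K).injective).2 hH
  have hroot : ∀ i, (lam ^ p ^ i) ∈ (H.map (algebraMap (ZMod p) K)).roots := by
    intro i
    rw [Polynomial.mem_roots hmap, Polynomial.IsRoot, Polynomial.eval_map]
    have h1 : iterateFrobenius K p i (Polynomial.eval₂ (algebraMap (ZMod p) K) lam H) = 0 := by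
      have : Polynomial.eval₂ (algebraMap (ZMod p) K) lam H = 0 := hz
      rw [this, map_zero]
    rw [Polynomial.hom_eval₂, iterateFrobenius_def] at h1
    have h2 : (iterateFrobenius K p i).comp (algebraMap (ZMod p) K) = algebraMap (ZMod p) K :=
      Subsingleton.elim _ _
    rwa [h2] at h1
  let f : Fin (2 * k) → K := fun i => lam ^ p ^ (i : ℕ)
  have hf : Function.Injective f := by
    intro a b hab
    rcases lt_trichotomy (a : ℕ) b with h | h | h
    · exact absurd hab (pow_injOn p hne h b.2)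
    · exact Fin.ext h
    · exact absurd hab.symm (pow_injOn p hne h a.2)
  have hsub : Finset.univ.image f ⊆ (H.map (algebraMap (ZMod p) K)).roots.toFinset := by
    intro x hx
    obtain ⟨i, _, rfl⟩ := Finset.mem_image.1 hx
    rw [Multiset.mem_toFinset]
    exact hroot i
  have h1 := Finset.card_le_card hsub
  rw [Finset.card_image_of_injective _ hf, Finset.card_univ, Fintype.card_fin] at h1
  have h2 := Multiset.toFinset_card_le (H.map (algebraMap (ZMod p) K)).roots
  have h3 := Polynomial.card_roots' (H.map (algebraMap (ZMod p) K))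
  have h4 : (H.map (algebraMap (ZMod p) K)).natDegree = H.natDegree :=
    Polynomial.natDegree_map_eq_of_injective (algebraMap (ZMod p) K).injective H
  omega

/-- A sequence above its limit has a strictly decreasing subsequence. -/
lemma exists_strictAnti_subseq {v : ℕ → ℝ} {α : ℝ} (h1 : ∀ k, α < v k)
    (h2 : Tendsto v atTop (𝓝 α)) : ∃ φ : ℕ → ℕ, StrictMono φ ∧ StrictAnti (v ∘ φ) := by
  have h3 : Tendsto (fun k => (v k - α)⁻¹) atTop atTop := by
    apply tendsto_inv_nhdsGT_zero.comp
    rw [tendsto_nhdsWithin_iff]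
    refine ⟨?_, Eventually.of_forall fun k => ?_⟩
    · have := h2.sub_const α
      rwa [sub_self] at this
    · exact Set.mem_Ioi.2 (sub_pos.2 (h1 k))
  obtain ⟨φ, hφ, hmono⟩ := strictMono_subseq_of_tendsto_atTop h3
  refine ⟨φ, hφ, fun a b hab => ?_⟩
  have h4 := hmono hab
  simp only [Function.comp_apply] at h4
  have h5 : 0 < v (φ a) - α := sub_pos.2 (h1 _)
  have h6 : 0 < v (φ b) - α := sub_pos.2 (h1 _)
  rw [inv_lt_inv₀ h5 h6] at h4
  simp only [Function.comp_apply]
  linarith

/-- The main numerical statement. -/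
theorem exists_value_seq (p : ℕ) [Fact p.Prime] (F : Type u) [Field F] [Finite F] [CharP F p] :
    ∃ a : ℕ → ℝ, StrictAnti a ∧ Tendsto a atTop (𝓝 (4 * p / (p + 1))) ∧
      ∀ j, ∃ (K : Type u) (_ : Field K) (_ : Finite K) (_ : CharP K p) (_ : Algebra F K)
        (lam : K), Tendsto (fun e => ((p : ℝ) + 1) * UU p lam e) atTop (𝓝 (a j)) := by
  have hp : 2 ≤ p := (Fact.out : p.Prime).two_le
  have hp0 : (0 : ℝ) < p := by exact_mod_cast (by omega : 0 < p)
  have hp2 : (2 : ℝ) ≤ p := by exact_mod_cast hp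
  choose K i1 i2 i3 i4 lam hfix hne using
    fun k : ℕ => exists_special_field p F (k + 1) (by omega)
  choose v hv1 hv2 using fun k : ℕ => @exists_L (K k) (i1 k) p _ (i3 k) (i2 k) (lam k)
  have hgt : ∀ k, alpha0 p < v k := fun k =>
    lt_of_lt_of_le (@UU_lower (K k) (i1 k) p _ (i3 k) (lam k) (k + 1) (by omega) (hfix k) (hne k))
      (hv2 k _).1
  have hlim : Tendsto v atTop (𝓝 (alpha0 p)) := by
    rw [Metric.tendsto_atTop]
    intro ε hε
    -- choose i with 8 / p^(2 i) < ε
    obtain ⟨i, hi⟩ : ∃ i : ℕ, 8 / (p : ℝ) ^ (2 * i) < ε := by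
      have h1 : Tendsto (fun i : ℕ => 8 / (p : ℝ) ^ (2 * i)) atTop (𝓝 0) := by
        have h2 : Tendsto (fun i : ℕ => (8 : ℝ) * (((p : ℝ) ^ 2)⁻¹) ^ i) atTop (𝓝 (8 * 0)) := by
          apply Tendsto.const_mul
          apply tendsto_pow_atTop_nhds_zero_of_lt_one (by positivity)
          apply inv_lt_one_of_one_lt₀
          nlinarith
        rw [mul_zero] at h2
        refine h2.congr fun i => ?_
        rw [inv_pow, ← pow_mul]
        rfl
      exact (h1.eventually (gt_mem_nhds hε)).exists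
    have hlt := two_NN_lt hp i
    obtain ⟨H, hH0, hH⟩ := exists_generic p (p ^ (2 * i)) (NN p i)
      (p ^ (2 * i) - 2 * NN p i) (by omega)
    refine ⟨H.natDegree, fun k hk => ?_⟩
    let _ := i1 k
    have := i3 k
    let _ : Algebra (ZMod p) (K k) := ZMod.algebra (K k) p
    have h1 := hH (K k) (lam k) (aeval_ne_zero p (hne k) hH0 (by omega))
    have h2 := UU_upper p hp (lam k) i h1
    have h3 := (hv2 k (2 * i)).2
    rw [Real.dist_eq, abs_of_pos (sub_pos.2 (hgt k))]
    have h4 : v k ≤ alpha0 p + 8 / (p : ℝ) ^ (2 * i) := h3.trans (by gcongr)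
    linarith
  obtain ⟨φ, hφ, hanti⟩ := exists_strictAnti_subseq hgt hlim
  refine ⟨fun j => ((p : ℝ) + 1) * v (φ j), ?_, ?_, ?_⟩
  · intro a b hab
    have := hanti hab
    simp only [Function.comp_apply] at this
    exact mul_lt_mul_of_pos_left this (by positivity)
  · have h1 := (hlim.comp hφ.tendsto_atTop).const_mul ((p : ℝ) + 1)
    have e : ((p : ℝ) + 1) * alpha0 p = 4 * p / (p + 1) := by
      unfold alpha0
      field_simp
    rw [e] at h1
    exact h1
  · intro j
    exact ⟨K (φ j), i1 _, i2 _, i3 _, i4 _, lam (φ j), (hv1 (φ j)).const_mul _⟩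

end Pool.Agent.Helper720.HK
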