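import Pool.Agent.Helper720.HKGood
import Pool.Agent.Helper720.HKSeq

/-!
# The base ring `K[x,y,z]/(z^{p+1} - f)`
-/

namespace Pool.Agent.Helper720.HK

open Polynomial

universe u

section

variable (p : ℕ) [hpf : Fact p.Prime] {K : Type u} [Field K] [CharP K p] (lam : K)

/-- the defining polynomial -/
noncomputable def gp : (MvPolynomial (Fin 2) K)[X] := X ^ (p + 1) - C (ff lam)

omit hpf [CharP K p] in
lemma gp_monic : (gp p lam).Monic := monic_X_pow_sub_C _ (Nat.succ_ne_zero p)

/-- the ring -/
abbrev BB : Type u := AdjoinRoot (gp p lam)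

/-- images of x, y, z -/
noncomputable def xx (i : Fin 2) : BB p lam := AdjoinRoot.of (gp p lam) (MvPolynomial.X i)

noncomputable def zz : BB p lam := AdjoinRoot.root (gp p lam)

omit hpf [CharP K p] in
lemma zz_pow : (zz p lam) ^ (p + 1) = AdjoinRoot.of (gp p lam) (ff lam) := by
  have h := AdjoinRoot.eval₂_root (gp p lam)
  unfold gp at h
  rw [eval₂_sub, eval₂_pow, eval₂_X, eval₂_C, sub_eq_zero] at h
  exact h

omit hpf [CharP K p] in
lemma constantCoeff_ff : MvPolynomial.constantCoeff (ff lam) = 0 := by
  simp [ff]

/-- augmentation -/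
noncomputable def augB : BB p lam →ₐ[K] K :=
  AdjoinRoot.liftAlgHom (gp p lam) (MvPolynomial.aeval (fun _ => (0 : K))) 0 (by
    unfold gp
    rw [eval₂_sub, eval₂_pow, eval₂_X, eval₂_C, zero_pow (Nat.succ_ne_zero p)]
    simp [ff])

omit hpf [CharP K p] in
lemma augB_xx (i : Fin 2) : augB p lam (xx p lam i) = 0 := by
  unfold augB xx
  simp

omit hpf [CharP K p] in
lemma augB_zz : augB p lam (zz p lam) = 0 := by
  unfold augB zz
  simp

omit hpf [CharP K p] in
/-- the kernel is generated by `x, y, z` -/
lemma ker_augB : RingHom.ker (augB p lam) = Ideal.span {xx p lam 0, xx p lam 1, zz p lam} := by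
  apply le_antisymm
  · have key : ∀ b : BB p lam, ∃ k : K, b - algebraMap K (BB p lam) k ∈
        Ideal.span {xx p lam 0, xx p lam 1, zz p lam} := by
      have hx : ∀ i, xx p lam i ∈ Ideal.span {xx p lam 0, xx p lam 1, zz p lam} := by
        intro i
        fin_cases i
        · exact Ideal.subset_span (by simp)
        · exact Ideal.subset_span (by simp)
      have hz : zz p lam ∈ Ideal.span {xx p lam 0, xx p lam 1, zz p lam} :=
        Ideal.subset_span (by simp)
      have hS : ∀ s : MvPolynomial (Fin 2) K, ∃ k : K,
          AdjoinRoot.of (gp p lam) s - algebraMap K (BB p lam) k ∈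
          Ideal.span {xx p lam 0, xx p lam 1, zz p lam} := by
        intro s
        induction s using MvPolynomial.induction_on with
        | C a =>
          refine ⟨a, ?_⟩
          have : algebraMap K (BB p lam) a = AdjoinRoot.of (gp p lam) (MvPolynomial.C a) := rfl
          rw [this, sub_self]
          exact zero_mem _
        | add a b ha hb =>
          obtain ⟨k, hk⟩ := ha
          obtain ⟨l, hl⟩ := hb
          refine ⟨k + l, ?_⟩
          have e : AdjoinRoot.of (gp p lam) (a + b) - algebraMap K (BB p lam) (k + l) =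
              (AdjoinRoot.of (gp p lam) a - algebraMap K (BB p lam) k) +
              (AdjoinRoot.of (gp p lam) b - algebraMap K (BB p lam) l) := by
            rw [map_add, map_add]; ring
          rw [e]
          exact add_mem hk hl
        | mul_X a i _ =>
          refine ⟨0, ?_⟩
          rw [map_zero, sub_zero, map_mul]
          exact Ideal.mul_mem_left _ _ (hx i)
      intro b
      obtain ⟨P, rfl⟩ := AdjoinRoot.mk_surjective b
      obtain ⟨k, hk⟩ := hS (P.coeff 0)
      refine ⟨k, ?_⟩
      have e : AdjoinRoot.mk (gp p lam) P - algebraMap K (BB p lam) k =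
          zz p lam * AdjoinRoot.mk (gp p lam) P.divX +
            (AdjoinRoot.of (gp p lam) (P.coeff 0) - algebraMap K (BB p lam) k) := by
        conv_lhs => rw [← X_mul_divX_add P]
        rw [map_add, map_mul, AdjoinRoot.mk_X, AdjoinRoot.mk_C]
        unfold zz
        ring
      rw [e]
      exact add_mem (Ideal.mul_mem_right _ _ hz) hk
    intro b hb
    obtain ⟨k, hk⟩ := key b
    have hle : Ideal.span {xx p lam 0, xx p lam 1, zz p lam} ≤ RingHom.ker (augB p lam) := by
      rw [Ideal.span_le]
      rintro x (rfl | rfl | rfl)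
      · exact augB_xx p lam 0
      · exact augB_xx p lam 1
      · exact augB_zz p lam
    have h1 := hle hk
    rw [RingHom.mem_ker, map_sub, AlgHom.commutes] at h1
    rw [RingHom.mem_ker] at hb
    rw [hb, zero_sub, neg_eq_zero] at h1
    have h2 : k = 0 := h1
    rw [h2, map_zero, sub_zero] at hk
    exact hk
  · rw [Ideal.span_le]
    rintro x (rfl | rfl | rfl)
    · exact augB_xx p lam 0
    · exact augB_xx p lam 1
    · exact augB_zz p lam

omit hpf [CharP K p] in
instance : Algebra.FiniteType K (BB p lam) := by
  have h1 : Algebra.FiniteType K (MvPolynomial (Fin 2) K)[X] := inferInstance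
  exact Algebra.FiniteType.of_surjective
    ((AdjoinRoot.mkₐ (gp p lam)).restrictScalars K) AdjoinRoot.mk_surjective

/-- the Frobenius power is generated by the powers of the variables -/
lemma frobPow_augB (e : ℕ) : frobPow (RingHom.ker (augB p lam)) (p ^ e) =
    Ideal.span {xx p lam 0 ^ p ^ e, xx p lam 1 ^ p ^ e, zz p lam ^ p ^ e} := by
  have hnt : Nontrivial (BB p lam) := (aug_surjective (augB p lam)).nontrivial
  have hchar : CharP (BB p lam) p :=
    charP_of_injective_algebraMap (algebraMap K (BB p lam)).injective p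
  apply le_antisymm
  · rw [frobPow_le_iff]
    intro b hb
    rw [ker_augB, Ideal.mem_span_insert] at hb
    obtain ⟨a1, b', hb', rfl⟩ := hb
    rw [Ideal.mem_span_pair] at hb'
    obtain ⟨a2, a3, rfl⟩ := hb'
    rw [add_pow_char_pow, add_pow_char_pow, mul_pow, mul_pow, mul_pow]
    exact add_mem (Ideal.mul_mem_left _ _ (Ideal.subset_span (by simp)))
      (add_mem (Ideal.mul_mem_left _ _ (Ideal.subset_span (by simp)))
        (Ideal.mul_mem_left _ _ (Ideal.subset_span (by simp))))
  · rw [Ideal.span_le]
    rintro x (rfl | rfl | rfl)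
    · exact pow_mem_frobPow (augB_xx p lam 0)
    · exact pow_mem_frobPow (augB_xx p lam 1)
    · exact pow_mem_frobPow (augB_zz p lam)

end

end Pool.Agent.Helper720.HK
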