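import Pool.Agent.Helper720.HKBase

/-!
# Dimension counts for the base ring
-/

namespace Pool.Agent.Helper720.HK

open Polynomial

universe u

section

variable {K : Type u} [Field K] {S B : Type u} [CommRing S] [CommRing B] [Algebra K S]
  [Algebra K B] [Algebra S B] [IsScalarTower K S B]

/-- the coordinates of `x` modulo `J` -/
noncomputable def reprMap {n : ℕ} (b : Module.Basis (Fin n) S B) (J : Ideal S) :
    B →ₗ[K] (Fin n → S ⧸ J) :=
  LinearMap.pi fun i => (Ideal.Quotient.mkₐ K J).toLinearMap ∘ₗ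
    ((b.coord i).restrictScalars K)

lemma reprMap_apply {n : ℕ} (b : Module.Basis (Fin n) S B) (J : Ideal S) (x : B) (i : Fin n) :
    reprMap (K := K) b J x i = Ideal.Quotient.mk J (b.repr x i) := rfl

lemma mem_map_iff_repr {n : ℕ} (b : Module.Basis (Fin n) S B) (J : Ideal S) (x : B) :
    x ∈ J.map (algebraMap S B) ↔ ∀ i, b.repr x i ∈ J := by
  constructor
  · intro hx
    have h1 : x ∈ (J • (⊤ : Submodule S B)) := by
      rw [Ideal.smul_top_eq_map]
      exact hx
    refine Submodule.smul_induction_on h1 ?_ ?_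
    · intro r hr y _ i
      rw [map_smul, Finsupp.smul_apply, smul_eq_mul]
      exact Ideal.mul_mem_right _ _ hr
    · intro y z hy hz i
      rw [map_add, Finsupp.add_apply]
      exact add_mem (hy i) (hz i)
  · intro h
    rw [← b.sum_repr x]
    refine sum_mem fun i _ => ?_
    rw [Algebra.smul_def]
    exact Ideal.mul_mem_right _ _ (Ideal.mem_map_of_mem _ (h i))

lemma exists_equiv_repr {n : ℕ} (b : Module.Basis (Fin n) S B) (J : Ideal S) :
    Nonempty ((B ⧸ J.map (algebraMap S B)) ≃ₗ[K] (Fin n → S ⧸ J)) := by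
  have hker : (J.map (algebraMap S B)).restrictScalars K =
      LinearMap.ker (reprMap (K := K) b J) := by
    ext x
    rw [Submodule.restrictScalars_mem, LinearMap.mem_ker, mem_map_iff_repr b, funext_iff]
    exact forall_congr' fun i => Ideal.Quotient.eq_zero_iff_mem.symm
  have hsurj : Function.Surjective (reprMap (K := K) b J) := by
    intro v
    choose a ha using fun i => Ideal.Quotient.mk_surjective (v i)
    refine ⟨∑ i, a i • b i, ?_⟩
    funext i
    rw [reprMap_apply, Module.Basis.repr_sum_self, ha]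
  exact ⟨((Submodule.Quotient.restrictScalarsEquiv K (J.map (algebraMap S B))).symm.trans
      (Submodule.quotEquivOfEq _ _ hker)).trans
        (LinearMap.quotKerEquivOfSurjective _ hsurj)⟩

lemma finrank_map_eq {n : ℕ} (b : Module.Basis (Fin n) S B) (J : Ideal S)
    [Module.Finite K (S ⧸ J)] :
    Module.finrank K (B ⧸ J.map (algebraMap S B)) = n * Module.finrank K (S ⧸ J) := by
  obtain ⟨e⟩ := exists_equiv_repr (K := K) b J
  rw [e.finrank_eq, Module.finrank_pi_fintype]
  simp

lemma finite_map {n : ℕ} (b : Module.Basis (Fin n) S B) (J : Ideal S)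
    [Module.Finite K (S ⧸ J)] : Module.Finite K (B ⧸ J.map (algebraMap S B)) := by
  obtain ⟨e⟩ := exists_equiv_repr (K := K) b J
  exact Module.Finite.equiv e.symm

end

section

variable (p : ℕ) [hpf : Fact p.Prime] {K : Type u} [Field K] [CharP K p] (lam : K)

omit hpf [CharP K p] in
lemma gp_natDegree : (gp p lam).natDegree = p + 1 := natDegree_X_pow_sub_C

/-- a basis of `B` over `S` -/
noncomputable def basisB : Module.Basis (Fin (p + 1)) (MvPolynomial (Fin 2) K) (BB p lam) :=
  (AdjoinRoot.powerBasis' (gp_monic p lam)).basis.reindex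
    (finCongr (by rw [AdjoinRoot.powerBasis'_dim, gp_natDegree]))

/-- the length function of the base ring -/
noncomputable def cB (e : ℕ) : ℕ :=
  Module.finrank K (BB p lam ⧸ frobPow (RingHom.ker (augB p lam)) (p ^ e))

lemma frobPow_le_map (e n : ℕ) (h : (p + 1) * n ≤ p ^ e) :
    frobPow (RingHom.ker (augB p lam)) (p ^ e) ≤
      (JJ lam (p ^ e) n).map (algebraMap (MvPolynomial (Fin 2) K) (BB p lam)) := by
  rw [frobPow_augB, Ideal.span_le]
  have hX : ∀ i : Fin 2, (MvPolynomial.X i : MvPolynomial (Fin 2) K) ^ p ^ e ∈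
      JJ lam (p ^ e) n := by
    intro i
    refine Ideal.mem_sup_left (Ideal.subset_span ?_)
    fin_cases i <;> simp
  have hxx : ∀ i : Fin 2, xx p lam i ^ p ^ e ∈
      (JJ lam (p ^ e) n).map (algebraMap (MvPolynomial (Fin 2) K) (BB p lam)) := by
    intro i
    have e1 : xx p lam i ^ p ^ e = algebraMap (MvPolynomial (Fin 2) K) (BB p lam)
        (MvPolynomial.X i ^ p ^ e) := by
      rw [map_pow]
      rfl
    rw [e1]
    exact Ideal.mem_map_of_mem _ (hX i)
  rintro x (rfl | rfl | rfl)
  · exact hxx 0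
  · exact hxx 1
  · obtain ⟨k, hk⟩ := Nat.exists_eq_add_of_le h
    rw [hk, SetLike.mem_coe, pow_add, pow_mul, zz_pow, ← map_pow]
    exact Ideal.mul_mem_right _ _ (Ideal.mem_map_of_mem _
      (Ideal.mem_sup_right (Ideal.mem_span_singleton_self _)))

lemma map_le_frobPow (e n : ℕ) (h : p ^ e ≤ (p + 1) * n) :
    (JJ lam (p ^ e) n).map (algebraMap (MvPolynomial (Fin 2) K) (BB p lam)) ≤
      frobPow (RingHom.ker (augB p lam)) (p ^ e) := by
  rw [frobPow_augB, Ideal.map_le_iff_le_comap]
  refine sup_le ?_ ?_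
  · unfold Iq
    rw [Ideal.span_le]
    rintro x (rfl | rfl)
    · rw [SetLike.mem_coe, Ideal.mem_comap, map_pow]
      exact Ideal.subset_span (by simp [xx])
    · rw [SetLike.mem_coe, Ideal.mem_comap, map_pow]
      exact Ideal.subset_span (by simp [xx])
  · rw [Ideal.span_le]
    rintro x rfl
    obtain ⟨k, hk⟩ := Nat.exists_eq_add_of_le h
    rw [SetLike.mem_coe, Ideal.mem_comap, map_pow]
    have e1 : (algebraMap (MvPolynomial (Fin 2) K) (BB p lam)) (ff lam) ^ n =
        zz p lam ^ p ^ e * zz p lam ^ k := by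
      have := zz_pow p lam
      rw [← pow_add, ← hk, pow_mul, this]
      rfl
    rw [e1]
    exact Ideal.mul_mem_right _ _ (Ideal.subset_span (by simp))

instance finite_B (e : ℕ) :
    Module.Finite K (BB p lam ⧸ frobPow (RingHom.ker (augB p lam)) (p ^ e)) := by
  have h := finite_map (K := K) (basisB p lam) (JJ lam (p ^ e) (p ^ e))
  have hle := map_le_frobPow p lam e (p ^ e) (Nat.le_mul_of_pos_left _ (Nat.succ_pos p))
  exact Module.Finite.of_surjective (Ideal.Quotient.factorₐ K hle).toLinearMap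
    (Ideal.Quotient.factor_surjective hle)

lemma lower_cB (e n : ℕ) (h : (p + 1) * n ≤ p ^ e) :
    (p + 1) * DD lam (p ^ e) n ≤ cB p lam e := by
  unfold cB DD
  rw [← finrank_map_eq (K := K) (basisB p lam) (JJ lam (p ^ e) n)]
  have hle := frobPow_le_map p lam e n h
  exact LinearMap.finrank_le_finrank_of_surjective
    (f := (Ideal.Quotient.factorₐ K hle).toLinearMap) (Ideal.Quotient.factor_surjective hle)

lemma upper_cB (e n : ℕ) (h : p ^ e ≤ (p + 1) * n) :
    cB p lam e ≤ (p + 1) * DD lam (p ^ e) n := by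
  unfold cB DD
  rw [← finrank_map_eq (K := K) (basisB p lam) (JJ lam (p ^ e) n)]
  have hle := map_le_frobPow p lam e n h
  have hfin := finite_map (K := K) (basisB p lam) (JJ lam (p ^ e) n)
  exact LinearMap.finrank_le_finrank_of_surjective
    (f := (Ideal.Quotient.factorₐ K hle).toLinearMap) (Ideal.Quotient.factor_surjective hle)

open Filter Topology in
/-- the normalised lengths converge to `(p+1) L` -/
theorem tendsto_cB {a : ℝ}
    (h : Tendsto (fun e => ((p : ℝ) + 1) * UU p lam e) atTop (𝓝 a)) :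
    Tendsto (fun e => (cB p lam e : ℝ) / ((p : ℝ) ^ e) ^ 2) atTop (𝓝 a) := by
  have hp : 2 ≤ p := (Fact.out : p.Prime).two_le
  have hp0 : (0 : ℝ) < p := by exact_mod_cast (by omega : 0 < p)
  have hp2 : (2 : ℝ) ≤ p := by exact_mod_cast hp
  have hsmall : Tendsto (fun e : ℕ => ((p : ℝ) + 1) * 4 / (p : ℝ) ^ e) atTop (𝓝 0) := by
    have h2 : Tendsto (fun i : ℕ => (((p : ℝ) + 1) * 4) * ((p : ℝ)⁻¹) ^ i) atTop
        (𝓝 ((((p : ℝ) + 1) * 4) * 0)) := by
      apply Tendsto.const_mul
      apply tendsto_pow_atTop_nhds_zero_of_lt_one (by positivity)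
      apply inv_lt_one_of_one_lt₀
      linarith
    rw [mul_zero] at h2
    refine h2.congr fun i => ?_
    rw [inv_pow]
    rfl
  have hup : Tendsto (fun e => ((p : ℝ) + 1) * UU p lam e + ((p : ℝ) + 1) * 4 / (p : ℝ) ^ e)
      atTop (𝓝 a) := by
    have := h.add hsmall
    rwa [add_zero] at this
  refine tendsto_of_tendsto_of_tendsto_of_le_of_le h hup ?_ ?_
  · intro e
    have h1 := lower_cB p lam e (p ^ e / (p + 1)) (Nat.mul_div_le _ _)
    have h2 : ((p : ℝ) + 1) * DD lam (p ^ e) (p ^ e / (p + 1)) ≤ cB p lam e := by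
      exact_mod_cast h1
    simp only [UU]
    rw [← mul_div_assoc]
    gcongr
  · intro e
    have h1 := upper_cB p lam e (p ^ e / (p + 1) + 1)
      (Nat.lt_mul_div_succ _ (Nat.succ_pos p)).le
    have h2 := DD_succ_le lam (p ^ e) (p ^ e / (p + 1))
    have h3 : cB p lam e ≤ (p + 1) * (DD lam (p ^ e) (p ^ e / (p + 1)) + 4 * p ^ e) :=
      h1.trans (Nat.mul_le_mul_left _ h2)
    have h4 : (cB p lam e : ℝ) ≤
        ((p : ℝ) + 1) * (DD lam (p ^ e) (p ^ e / (p + 1)) + 4 * (p : ℝ) ^ e) := by
      exact_mod_cast h3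
    have hpe : (0 : ℝ) < (p : ℝ) ^ e := by positivity
    simp only [UU]
    calc (cB p lam e : ℝ) / ((p : ℝ) ^ e) ^ 2
        ≤ (((p : ℝ) + 1) * (DD lam (p ^ e) (p ^ e / (p + 1)) + 4 * (p : ℝ) ^ e)) /
          ((p : ℝ) ^ e) ^ 2 := by gcongr
      _ = _ := by field_simp

end

end Pool.Agent.Helper720.HK
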