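import Pool.Agent.Helper720.HKBase2

/-!
# Height and tangent space of the base ring; the family of good algebras
-/

namespace Pool.Agent.Helper720.HK

open Polynomial

universe u

section

variable (p : ℕ) [hpf : Fact p.Prime] {K : Type u} [Field K] [CharP K p] (lam : K)

/-- augmentation of `K[x,y]` -/
noncomputable def augS (K : Type u) [Field K] : MvPolynomial (Fin 2) K →ₐ[K] K :=
  MvPolynomial.aeval (fun _ => (0 : K))

lemma two_le_height_augS : 2 ≤ (RingHom.ker (augS K)).height := by
  have hX : Prime (MvPolynomial.X 0 : MvPolynomial (Fin 2) K) := MvPolynomial.X_prime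
  have hprime : (Ideal.span {(MvPolynomial.X 0 : MvPolynomial (Fin 2) K)}).IsPrime :=
    (Ideal.span_singleton_prime hX.ne_zero).2 hX
  have h1 : (⊥ : Ideal (MvPolynomial (Fin 2) K)) <
      Ideal.span {(MvPolynomial.X 0 : MvPolynomial (Fin 2) K)} := by
    rw [bot_lt_iff_ne_bot, Ne, Ideal.span_singleton_eq_bot]
    exact hX.ne_zero
  have h2 : Ideal.span {(MvPolynomial.X 0 : MvPolynomial (Fin 2) K)} <
      RingHom.ker (augS K) := by
    refine lt_of_le_of_ne ?_ ?_
    · rw [Ideal.span_le]
      rintro x rfl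
      change augS K _ = 0
      simp [augS]
    · intro h
      have h3 : (MvPolynomial.X 1 : MvPolynomial (Fin 2) K) ∈ RingHom.ker (augS K) := by
        rw [RingHom.mem_ker]
        simp [augS]
      rw [← h, Ideal.mem_span_singleton, MvPolynomial.X_dvd_X] at h3
      exact absurd h3 (by decide)
  have h3 := Ideal.height_add_one_le_of_lt_of_isPrime h1
  have h4 := Ideal.height_add_one_le_of_lt_of_isPrime h2
  calc (2 : ℕ∞) = 0 + 1 + 1 := by norm_num
    _ ≤ (⊥ : Ideal (MvPolynomial (Fin 2) K)).height + 1 + 1 := by gcongr; exact zero_le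
    _ ≤ (Ideal.span {(MvPolynomial.X 0 : MvPolynomial (Fin 2) K)}).height + 1 := by gcongr
    _ ≤ _ := h4

omit hpf [CharP K p] in
lemma augB_algebraMap (s : MvPolynomial (Fin 2) K) :
    augB p lam (algebraMap (MvPolynomial (Fin 2) K) (BB p lam) s) = augS K s := by
  have : algebraMap (MvPolynomial (Fin 2) K) (BB p lam) s = AdjoinRoot.of (gp p lam) s := rfl
  rw [this]
  unfold augB augS
  simp

omit hpf [CharP K p] in
lemma height_augB : (RingHom.ker (augB p lam)).height = 2 := by
  have hnoeth : IsNoetherianRing (BB p lam) := Algebra.FiniteType.isNoetherianRing K _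
  apply le_antisymm
  · have hmin : RingHom.ker (augB p lam) ∈
        (Ideal.span {xx p lam 0, xx p lam 1}).minimalPrimes := by
      refine ⟨⟨inferInstance, ?_⟩, ?_⟩
      · rw [Ideal.span_le]
        rintro x (rfl | rfl)
        · exact augB_xx p lam 0
        · exact augB_xx p lam 1
      · rintro q ⟨hq, hle⟩ -
        have hx0 : xx p lam 0 ∈ q := hle (Ideal.subset_span (by simp))
        have hx1 : xx p lam 1 ∈ q := hle (Ideal.subset_span (by simp))
        have hz : zz p lam ∈ q := by
          apply hq.mem_of_pow_mem (p + 1)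
          rw [zz_pow]
          unfold ff
          rw [map_mul, map_mul, map_mul, mul_assoc, mul_assoc]
          exact Ideal.mul_mem_right _ _ hx0
        rw [ker_augB, Ideal.span_le]
        rintro x (rfl | rfl | rfl)
        · exact hx0
        · exact hx1
        · exact hz
    have h1 := Ideal.height_le_card_of_mem_minimalPrimes_span (Set.toFinite _) hmin
    refine h1.trans ?_
    exact_mod_cast Set.ncard_insert_le _ _ |>.trans (by rw [Set.ncard_singleton])
  · have hlies : (RingHom.ker (augB p lam)).LiesOver (RingHom.ker (augS K)) := by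
      refine ⟨?_⟩
      ext s
      rw [Ideal.mem_under, RingHom.mem_ker, RingHom.mem_ker, augB_algebraMap]
    have hfree : Module.Free (MvPolynomial (Fin 2) K) (BB p lam) :=
      Module.Free.of_basis (basisB p lam)
    have h1 := Ideal.height_eq_height_add_of_liesOver_of_hasGoingDown (RingHom.ker (augS K))
      (RingHom.ker (augB p lam))
    rw [h1]
    exact (two_le_height_augS (K := K)).trans le_self_add

/-- tangent vectors -/
noncomputable def ev (K : Type u) [Field K] (j : Fin 3) : TrivSqZeroExt K (Fin 3 → K) :=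
  TrivSqZeroExt.inr (Pi.single j 1)

lemma ev_mul (j k : Fin 3) : ev K j * ev K k = 0 := TrivSqZeroExt.inr_mul_inr K _ _

/-- first order jets -/
noncomputable def jet : BB p lam →ₐ[K] TrivSqZeroExt K (Fin 3 → K) :=
  AdjoinRoot.liftAlgHom (gp p lam)
    (MvPolynomial.aeval (fun i : Fin 2 => ev K i.castSucc)) (ev K (Fin.last 2)) (by
      unfold gp
      rw [eval₂_sub, eval₂_pow, eval₂_X, eval₂_C]
      have h1 : (ev K (Fin.last 2)) ^ (p + 1) = 0 := by
        have hp : 1 ≤ p := (Fact.out : p.Prime).one_lt.le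
        obtain ⟨k, rfl⟩ := Nat.exists_eq_add_of_le hp
        have e : 1 + k + 1 = k + 2 := by ring
        rw [e, pow_add, sq, ev_mul, mul_zero]
      rw [h1, zero_sub, neg_eq_zero]
      simp only [ff, AlgHom.coe_toRingHom, map_mul, map_sub, MvPolynomial.aeval_X]
      rw [ev_mul, zero_mul, zero_mul])

lemma jet_xx (i : Fin 2) : jet p lam (xx p lam i) = ev K i.castSucc := by
  unfold jet xx
  simp

lemma jet_zz : jet p lam (zz p lam) = ev K (Fin.last 2) := by
  unfold jet zz
  simp

lemma fst_jet {a : BB p lam} (ha : a ∈ RingHom.ker (augB p lam)) : (jet p lam a).fst = 0 := by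
  have hle : RingHom.ker (augB p lam) ≤
      RingHom.ker ((TrivSqZeroExt.fstHom K K (Fin 3 → K)).comp (jet p lam)) := by
    rw [ker_augB, Ideal.span_le]
    rintro x (rfl | rfl | rfl)
    · change (jet p lam (xx p lam 0)).fst = 0
      rw [jet_xx]
      exact TrivSqZeroExt.fst_inr _ _
    · change (jet p lam (xx p lam 1)).fst = 0
      rw [jet_xx]
      exact TrivSqZeroExt.fst_inr _ _
    · change (jet p lam (zz p lam)).fst = 0
      rw [jet_zz]
      exact TrivSqZeroExt.fst_inr _ _
  exact hle ha

lemma tan_B : ∃ φ : BB p lam →ₗ[K] (Fin (2 + 1) → K),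
    (∀ v, ∃ a ∈ RingHom.ker (augB p lam), φ a = v) ∧
    ∀ a ∈ RingHom.ker (augB p lam), ∀ b ∈ RingHom.ker (augB p lam), φ (a * b) = 0 := by
  let φ : BB p lam →ₗ[K] (Fin (2 + 1) → K) :=
    (TrivSqZeroExt.sndHom K (Fin 3 → K)) ∘ₗ (jet p lam).toLinearMap
  have hφ : ∀ a, φ a = (jet p lam a).snd := fun a => rfl
  refine ⟨φ, ?_, ?_⟩
  · intro v
    refine ⟨v 0 • xx p lam 0 + v 1 • xx p lam 1 + v 2 • zz p lam, ?_, ?_⟩
    · rw [RingHom.mem_ker, map_add, map_add, map_smul, map_smul, map_smul, augB_xx, augB_xx,
        augB_zz]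
      simp
    · rw [map_add, map_add, map_smul, map_smul, map_smul, hφ, hφ, hφ, jet_xx, jet_xx, jet_zz]
      funext i
      fin_cases i <;> simp [ev]
  · intro a ha b hb
    rw [hφ, map_mul, TrivSqZeroExt.snd_mul, fst_jet p lam ha, fst_jet p lam hb]
    simp

/-- the base case -/
theorem good_base : Good p K (BB p lam) (augB p lam) 2 (cB p lam) :=
  ⟨inferInstance, by rw [height_augB]; rfl, fun e => finite_B p lam e, fun _ => rfl,
    tan_B p lam⟩

theorem good_all (r : ℕ) : ∃ (A : Type u) (_ : CommRing A) (_ : Algebra K A) (aug : A →ₐ[K] K),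
    Good p K A aug (2 + r) (fun e => (p ^ e) ^ r * cB p lam e) := by
  induction r with
  | zero =>
    refine ⟨BB p lam, inferInstance, inferInstance, augB p lam, ?_⟩
    have h : (fun e => (p ^ e) ^ 0 * cB p lam e) = cB p lam := by
      funext e
      simp
    rw [h]
    exact good_base p lam
  | succ r ih =>
    obtain ⟨A, _, _, aug, h⟩ := ih
    refine ⟨A[X], inferInstance, inferInstance, augX aug, ?_⟩
    have h2 := Good.polynomial aug p h
    have e : (fun e => p ^ e * ((p ^ e) ^ r * cB p lam e)) =
        (fun e => (p ^ e) ^ (r + 1) * cB p lam e) := by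
      funext e
      ring
    rw [e] at h2
    exact h2

end

end Pool.Agent.Helper720.HK
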