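import Mathlib

/-!
# Hilbert–Kunz computations for `z^N - f(x,y)`: basic box lemma and the numbers `DD`
-/

namespace Pool.Agent.Helper720.HK

open MvPolynomial

variable {K : Type*} [Field K]

/-- The quartic form `x y (y - x) (x - λ y)`. -/
noncomputable def ff {K : Type*} [CommRing K] (lam : K) : MvPolynomial (Fin 2) K :=
  X 0 * X 1 * (X 1 - X 0) * (X 0 - C lam * X 1)

/-- The ideal `(x^q, y^q)`. -/
noncomputable def Iq (K : Type*) [CommRing K] (q : ℕ) : Ideal (MvPolynomial (Fin 2) K) :=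
  Ideal.span {X 0 ^ q, X 1 ^ q}

/-- The ideal `(x^q, y^q, f^n)`. -/
noncomputable def JJ {K : Type*} [CommRing K] (lam : K) (q n : ℕ) :
    Ideal (MvPolynomial (Fin 2) K) :=
  Iq K q ⊔ Ideal.span {ff lam ^ n}

/-- `dim_K K[x,y]/(x^q, y^q, f^n)`. -/
noncomputable def DD {K : Type*} [Field K] (lam : K) (q n : ℕ) : ℕ :=
  Module.finrank K (MvPolynomial (Fin 2) K ⧸ JJ lam q n)

/-- exponents in the box `[0,q)^2`. -/
def Box (q : ℕ) : Set (Fin 2 →₀ ℕ) := {m | ∀ i, m i < q}

/-- The box as a function type. -/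
noncomputable def boxEquiv (q : ℕ) : Box q ≃ (Fin 2 → Fin q) where
  toFun m := fun i => ⟨m.1 i, m.2 i⟩
  invFun v := ⟨Finsupp.equivFunOnFinite.symm (fun i => (v i : ℕ)), fun i => by simp⟩
  left_inv m := by
    apply Subtype.ext
    ext i
    simp
  right_inv v := by
    funext i
    simp

instance (q : ℕ) : Finite (Box q) := Finite.of_equiv _ (boxEquiv q).symm

noncomputable instance (q : ℕ) : Fintype (Box q) := Fintype.ofFinite _

lemma card_box (q : ℕ) : Nat.card (Box q) = q ^ 2 := by
  rw [Nat.card_congr (boxEquiv q)]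
  simp

lemma card_box' (q : ℕ) : Fintype.card (Box q) = q ^ 2 := by
  rw [← Nat.card_eq_fintype_card, card_box]

/-- coefficients in the box -/
noncomputable def rho (K : Type*) [CommRing K] (q : ℕ) :
    MvPolynomial (Fin 2) K →ₗ[K] (Box q → K) :=
  LinearMap.pi fun m => MvPolynomial.lcoeff K m.1

@[simp] lemma rho_apply {K : Type*} [CommRing K] (q : ℕ) (p : MvPolynomial (Fin 2) K) (m : Box q) :
    rho K q p m = coeff m.1 p := rfl

lemma rho_surjective {K : Type*} [CommRing K] (q : ℕ) : Function.Surjective (rho K q) := by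
  classical
  intro v
  refine ⟨∑ m : Box q, monomial m.1 (v m), ?_⟩
  funext m
  rw [rho_apply, coeff_sum, Finset.sum_eq_single m]
  · simp
  · intro b _ hb
    rw [coeff_monomial, if_neg]
    exact fun h => hb (Subtype.ext h)
  · simp

lemma monomial_mem_Iq {K : Type*} [CommRing K] {q : ℕ} {m : Fin 2 →₀ ℕ} (h : m ∉ Box q) (a : K) :
    monomial m a ∈ Iq K q := by
  have h' : ∃ i, q ≤ m i := by
    by_contra hc
    push Not at hc
    exact h hc
  obtain ⟨i, hi⟩ := h'
  have hX : (X i : MvPolynomial (Fin 2) K) ^ q ∈ Iq K q := by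
    apply Ideal.subset_span
    fin_cases i <;> simp
  have : monomial m a = monomial (m - Finsupp.single i q) a * X i ^ q := by
    rw [X_pow_eq_monomial, monomial_mul, mul_one, tsub_add_cancel_of_le]
    intro j
    by_cases hj : j = i
    · subst hj; simpa using hi
    · simp [Ne.symm hj]
  rw [this]
  exact Ideal.mul_mem_left _ _ hX

lemma mem_Iq_iff {K : Type*} [CommRing K] {q : ℕ} {p : MvPolynomial (Fin 2) K} :
    p ∈ Iq K q ↔ ∀ m ∈ Box q, coeff m p = 0 := by
  constructor
  · intro h m hm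
    unfold Iq at h
    rw [Ideal.mem_span_pair] at h
    obtain ⟨a, b, rfl⟩ := h
    have key : ∀ (c : MvPolynomial (Fin 2) K) (i : Fin 2), coeff m (c * X i ^ q) = 0 := by
      intro c i
      rw [X_pow_eq_monomial, coeff_mul_monomial', if_neg]
      intro hle
      have h1 := hle i
      have h2 := hm i
      simp at h1
      omega
    rw [coeff_add, key, key, add_zero]
  · intro h
    rw [p.as_sum]
    refine Ideal.sum_mem _ fun m hm => ?_
    apply monomial_mem_Iq
    intro hb
    exact (mem_support_iff.1 hm) (h m hb)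

lemma ker_rho {K : Type*} [CommRing K] (q : ℕ) (p : MvPolynomial (Fin 2) K) :
    rho K q p = 0 ↔ p ∈ Iq K q := by
  rw [mem_Iq_iff]
  constructor
  · intro h m hm
    exact congrFun h ⟨m, hm⟩
  · intro h
    funext m
    exact h m.1 m.2

/-- multiplication by `g` followed by the box projection -/
noncomputable def Psi {K : Type*} [CommRing K] (q : ℕ) (g : MvPolynomial (Fin 2) K) :
    MvPolynomial (Fin 2) K →ₗ[K] (Box q → K) :=
  rho K q ∘ₗ LinearMap.mulLeft K g

@[simp] lemma Psi_apply {K : Type*} [CommRing K] (q : ℕ) (g p : MvPolynomial (Fin 2) K) :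
    Psi q g p = rho K q (g * p) := rfl

lemma finrank_add_range (q : ℕ) (g : MvPolynomial (Fin 2) K) :
    Module.finrank K (MvPolynomial (Fin 2) K ⧸ (Iq K q ⊔ Ideal.span {g})) +
      Module.finrank K (LinearMap.range (Psi q g)) = q ^ 2 := by
  let φ : MvPolynomial (Fin 2) K →ₗ[K] ((Box q → K) ⧸ LinearMap.range (Psi q g)) :=
    (LinearMap.range (Psi q g)).mkQ ∘ₗ rho K q
  have hφ : Function.Surjective φ :=
    (Submodule.mkQ_surjective _).comp (rho_surjective q)
  have hker : (Iq K q ⊔ Ideal.span {g}).restrictScalars K = LinearMap.ker φ := by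
    ext p
    rw [Submodule.restrictScalars_mem, LinearMap.mem_ker]
    simp only [φ, LinearMap.comp_apply, Submodule.mkQ_apply, Submodule.Quotient.mk_eq_zero,
      LinearMap.mem_range, Psi_apply]
    rw [Submodule.mem_sup]
    constructor
    · rintro ⟨a, ha, b, hb, rfl⟩
      obtain ⟨c, rfl⟩ := Ideal.mem_span_singleton'.1 hb
      refine ⟨c, ?_⟩
      rw [map_add, (ker_rho q a).2 ha, zero_add, mul_comm]
    · rintro ⟨c, hc⟩
      refine ⟨p - g * c, ?_, g * c, Ideal.mul_mem_right _ _ (Ideal.mem_span_singleton_self g),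
        by ring⟩
      rw [← ker_rho, map_sub, hc, sub_self]
  have e : (MvPolynomial (Fin 2) K ⧸ (Iq K q ⊔ Ideal.span {g})) ≃ₗ[K]
      ((Box q → K) ⧸ LinearMap.range (Psi q g)) :=
    ((Submodule.Quotient.restrictScalarsEquiv K (Iq K q ⊔ Ideal.span {g})).symm.trans
      (Submodule.quotEquivOfEq _ _ hker)).trans (LinearMap.quotKerEquivOfSurjective φ hφ)
  rw [e.finrank_eq, Submodule.finrank_quotient_add_finrank, Module.finrank_fintype_fun_eq_card,
    card_box']

instance (q : ℕ) (J : Ideal (MvPolynomial (Fin 2) K)) :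
    Module.Finite K (MvPolynomial (Fin 2) K ⧸ (Iq K q ⊔ J)) := by
  let φ : MvPolynomial (Fin 2) K →ₗ[K] (MvPolynomial (Fin 2) K ⧸ (Iq K q ⊔ J)) :=
    (Ideal.Quotient.mkₐ K (Iq K q ⊔ J)).toLinearMap
  have hker : LinearMap.ker (rho K q) ≤ LinearMap.ker φ := by
    intro p hp
    rw [LinearMap.mem_ker] at hp ⊢
    rw [ker_rho] at hp
    exact Ideal.Quotient.eq_zero_iff_mem.2 (Ideal.mem_sup_left hp)
  have hsurj : Function.Surjective ((LinearMap.ker (rho K q)).liftQ φ hker) := by
    intro y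
    obtain ⟨p, rfl⟩ := Ideal.Quotient.mk_surjective y
    exact ⟨Submodule.Quotient.mk p, rfl⟩
  have : Module.Finite K (MvPolynomial (Fin 2) K ⧸ LinearMap.ker (rho K q)) :=
    Module.Finite.equiv (LinearMap.quotKerEquivOfSurjective _ (rho_surjective q)).symm
  exact Module.Finite.of_surjective _ hsurj

instance (lam : K) (q n : ℕ) : Module.Finite K (MvPolynomial (Fin 2) K ⧸ JJ lam q n) := by
  unfold JJ
  infer_instance

lemma DD_add_range (lam : K) (q n : ℕ) :
    DD lam q n + Module.finrank K (LinearMap.range (Psi q (ff lam ^ n))) = q ^ 2 :=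
  finrank_add_range q _

lemma JJ_anti (lam : K) (q : ℕ) {n n' : ℕ} (h : n ≤ n') : JJ lam q n' ≤ JJ lam q n := by
  unfold JJ
  refine sup_le_sup_left ?_ _
  rw [Ideal.span_singleton_le_span_singleton]
  exact pow_dvd_pow _ h

lemma finrank_quot_le {I J : Ideal (MvPolynomial (Fin 2) K)}
    [Module.Finite K (MvPolynomial (Fin 2) K ⧸ J)] (h : J ≤ I) :
    Module.finrank K (MvPolynomial (Fin 2) K ⧸ I) ≤
      Module.finrank K (MvPolynomial (Fin 2) K ⧸ J) := by
  refine LinearMap.finrank_le_finrank_of_surjective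
    (f := (Ideal.Quotient.factorₐ K h).toLinearMap) ?_
  exact Ideal.Quotient.factor_surjective h

lemma DD_mono (lam : K) (q : ℕ) {n n' : ℕ} (h : n ≤ n') : DD lam q n ≤ DD lam q n' :=
  finrank_quot_le (JJ_anti lam q h)

lemma DD_le (lam : K) (q n : ℕ) : DD lam q n ≤ q ^ 2 := by
  have := DD_add_range lam q n
  omega

end Pool.Agent.Helper720.HK
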