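import Pool.Agent.Helper720.HKFrob

/-!
# The rank bound from a low degree syzygy

If `g` is homogeneous of degree `δ`, `h ≠ 0` has all monomials of degree `≤ d1`, `g h ∈ (x^q,y^q)`
and `d1 + d2 + δ = 2q`, `d1 < d2`, then multiplication by `g` on `K[x,y]/(x^q,y^q)` has rank
at most `d1 * d2`.
-/

namespace Pool.Agent.Helper720.HK

open MvPolynomial

variable {K : Type*} [Field K]

/-- exponents of degree `< s` -/
def Tri (s : ℕ) : Set (Fin 2 →₀ ℕ) := {m | m 0 + m 1 < s}

/-- The triangle as a sigma type. -/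
noncomputable def triEquiv (s : ℕ) : Tri s ≃ (Σ t : Fin s, Fin (t + 1)) where
  toFun m := ⟨⟨m.1 0 + m.1 1, m.2⟩, ⟨m.1 0, by simp⟩⟩
  invFun v := ⟨Finsupp.equivFunOnFinite.symm ![(v.2 : ℕ), (v.1 : ℕ) - (v.2 : ℕ)], by
    have h1 := v.1.2
    have h2 := v.2.2
    change (v.2 : ℕ) + ((v.1 : ℕ) - (v.2 : ℕ)) < s
    omega⟩
  left_inv m := by
    apply Subtype.ext
    ext i
    fin_cases i
    · rfl
    · change m.1 0 + m.1 1 - m.1 0 = m.1 1
      omega
  right_inv v := by
    obtain ⟨⟨t, ht⟩, ⟨a, ha⟩⟩ := v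
    have e : a + (t - a) = t := by
      simp at ha
      omega
    have key : ∀ (t' : ℕ) (h : t = t') (ht' : t' < s) (ha' : a < t' + 1),
        (⟨⟨t', ht'⟩, ⟨a, ha'⟩⟩ : Σ t : Fin s, Fin (t + 1)) = ⟨⟨t, ht⟩, ⟨a, ha⟩⟩ := by
      intro t' h ht' ha'
      subst h
      rfl
    exact key _ e.symm _ _

instance (s : ℕ) : Finite (Tri s) := Finite.of_equiv _ (triEquiv s).symm

noncomputable instance (s : ℕ) : Fintype (Tri s) := Fintype.ofFinite _

lemma card_tri (s : ℕ) : 2 * Nat.card (Tri s) = s * (s + 1) := by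
  rw [Nat.card_congr (triEquiv s), Nat.card_sigma]
  simp only [Nat.card_eq_fintype_card, Fintype.card_fin]
  rw [Fin.sum_univ_eq_sum_range (fun i => i + 1) s]
  induction s with
  | zero => simp
  | succ s ih =>
    rw [Finset.sum_range_succ, mul_add, ih]
    ring

/-- polynomials of degree `< s` -/
noncomputable def Vlt (K : Type*) [Field K] (s : ℕ) : Submodule K (MvPolynomial (Fin 2) K) :=
  restrictSupport K (Tri s)

/-- polynomials with all monomials of degree `≥ s` -/
noncomputable def Hge (K : Type*) [Field K] (s : ℕ) : Submodule K (MvPolynomial (Fin 2) K) :=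
  restrictSupport K {m | s ≤ m 0 + m 1}

lemma mem_Vlt {s : ℕ} {p : MvPolynomial (Fin 2) K} :
    p ∈ Vlt K s ↔ ∀ m, s ≤ m 0 + m 1 → coeff m p = 0 := by
  unfold Vlt
  rw [mem_restrictSupport_iff]
  constructor
  · intro h m hm
    by_contra hc
    have := h (mem_support_iff.2 hc)
    simp only [Tri, Set.mem_ofPred_eq] at this
    omega
  · intro h m hm
    rw [Finset.mem_coe, mem_support_iff] at hm
    simp only [Tri, Set.mem_ofPred_eq]
    by_contra hc
    exact hm (h m (not_lt.1 hc))

lemma mem_Hge {s : ℕ} {p : MvPolynomial (Fin 2) K} :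
    p ∈ Hge K s ↔ ∀ m, m 0 + m 1 < s → coeff m p = 0 := by
  unfold Hge
  rw [mem_restrictSupport_iff]
  constructor
  · intro h m hm
    by_contra hc
    have := h (mem_support_iff.2 hc)
    simp only [Set.mem_ofPred_eq] at this
    omega
  · intro h m hm
    rw [Finset.mem_coe, mem_support_iff] at hm
    simp only [Set.mem_ofPred_eq]
    by_contra hc
    exact hm (h m (not_le.1 hc))

instance (s : ℕ) : Module.Finite K (Vlt K s) :=
  Module.Finite.of_basis (basisRestrictSupport K (Tri s))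

lemma finrank_Vlt (s : ℕ) : 2 * Module.finrank K (Vlt K s) = s * (s + 1) := by
  rw [← card_tri]
  unfold Vlt
  rw [Module.finrank_eq_nat_card_basis (basisRestrictSupport K (Tri s))]

lemma mul_mem_Vlt {s d : ℕ} {h u : MvPolynomial (Fin 2) K}
    (hh : ∀ m, d < m 0 + m 1 → coeff m h = 0) (hu : u ∈ Vlt K s) : h * u ∈ Vlt K (d + s) := by
  classical
  rw [mem_Vlt] at hu ⊢
  intro m hm
  rw [coeff_mul]
  refine Finset.sum_eq_zero fun x hx => ?_
  rw [Finset.HasAntidiagonal.mem_antidiagonal] at hx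
  have h0 : x.1 0 + x.2 0 = m 0 := by rw [← hx]; rfl
  have h1 : x.1 1 + x.2 1 = m 1 := by rw [← hx]; rfl
  by_cases hc : d < x.1 0 + x.1 1
  · rw [hh _ hc, zero_mul]
  · rw [hu x.2 (by omega), mul_zero]

lemma mul_mem_Hge {s d : ℕ} {g u : MvPolynomial (Fin 2) K}
    (hg : ∀ m, m 0 + m 1 < d → coeff m g = 0) (hu : u ∈ Hge K s) : g * u ∈ Hge K (d + s) := by
  classical
  rw [mem_Hge] at hu ⊢
  intro m hm
  rw [coeff_mul]
  refine Finset.sum_eq_zero fun x hx => ?_
  rw [Finset.HasAntidiagonal.mem_antidiagonal] at hx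
  have h0 : x.1 0 + x.2 0 = m 0 := by rw [← hx]; rfl
  have h1 : x.1 1 + x.2 1 = m 1 := by rw [← hx]; rfl
  by_cases hc : x.1 0 + x.1 1 < d
  · rw [hg _ hc, zero_mul]
  · rw [hu x.2 (by omega), mul_zero]

lemma Vlt_sup_Hge (s : ℕ) : Vlt K s ⊔ Hge K s = ⊤ := by
  classical
  rw [eq_top_iff]
  rintro p -
  rw [p.as_sum]
  refine sum_mem fun m _ => ?_
  by_cases h : m 0 + m 1 < s
  · refine Submodule.mem_sup_left ?_
    unfold Vlt
    rw [monomial_mem_restrictSupport]
    exact Or.inl h
  · refine Submodule.mem_sup_right ?_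
    unfold Hge
    rw [monomial_mem_restrictSupport]
    exact Or.inl (not_lt.1 h)

lemma finrank_map_Vlt_add (q : ℕ) {g h : MvPolynomial (Fin 2) K} {d s : ℕ} (h0 : h ≠ 0)
    (hh : ∀ m, d < m 0 + m 1 → coeff m h = 0) (hgh : g * h ∈ Iq K q) :
    Module.finrank K ((Vlt K (d + s)).map (Psi q g)) + Module.finrank K (Vlt K s) ≤
      Module.finrank K (Vlt K (d + s)) := by
  have h1 := LinearMap.finrank_range_add_finrank_ker ((Psi q g).domRestrict (Vlt K (d + s)))
  have h2 : LinearMap.range ((Psi q g).domRestrict (Vlt K (d + s))) =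
      (Vlt K (d + s)).map (Psi q g) := by
    rw [LinearMap.range_domRestrict]
  let T : Vlt K s →ₗ[K] LinearMap.ker ((Psi q g).domRestrict (Vlt K (d + s))) :=
    LinearMap.codRestrict _
      (LinearMap.codRestrict (Vlt K (d + s)) ((LinearMap.mulLeft K h) ∘ₗ (Vlt K s).subtype)
        (fun u => mul_mem_Vlt hh u.2))
      (fun u => by
        rw [LinearMap.mem_ker]
        change rho K q (g * (h * u.1)) = 0
        rw [ker_rho, ← mul_assoc]
        exact Ideal.mul_mem_right _ _ hgh)
  have hT : Function.Injective T := by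
    intro u v huv
    have : h * u.1 = h * v.1 := congrArg (fun z => ((z : Vlt K (d + s)) :
      MvPolynomial (Fin 2) K)) (congrArg Subtype.val huv)
    exact Subtype.ext (mul_left_cancel₀ h0 this)
  have h3 := LinearMap.finrank_le_finrank_of_injective hT
  rw [← h2]
  omega

/-- lifting from the box -/
noncomputable def sec (K : Type*) [Field K] (q : ℕ) :
    (Box q → K) →ₗ[K] MvPolynomial (Fin 2) K :=
  ∑ m : Box q, (MvPolynomial.monomial m.1) ∘ₗ (LinearMap.proj m)

lemma rho_sec (q : ℕ) (w : Box q → K) : rho K q (sec K q w) = w := by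
  classical
  funext m
  rw [rho_apply, sec]
  simp only [LinearMap.coe_sum, Finset.sum_apply, LinearMap.comp_apply, LinearMap.proj_apply]
  rw [coeff_sum, Finset.sum_eq_single m]
  · simp
  · intro b _ hb
    rw [coeff_monomial, if_neg]
    exact fun h => hb (Subtype.ext h)
  · simp

lemma sec_sub_mem (q : ℕ) (a : MvPolynomial (Fin 2) K) : sec K q (rho K q a) - a ∈ Iq K q := by
  rw [← ker_rho, map_sub, rho_sec, sub_self]

/-- top exponent -/
noncomputable def topm (q : ℕ) : Fin 2 →₀ ℕ := Finsupp.equivFunOnFinite.symm (fun _ => q - 1)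

@[simp] lemma topm_apply (q : ℕ) (i : Fin 2) : topm q i = q - 1 := rfl

lemma coeff_topm_eq {q : ℕ} (hq : 0 < q) {a b : MvPolynomial (Fin 2) K} (h : a - b ∈ Iq K q) :
    coeff (topm q) a = coeff (topm q) b := by
  have h1 := (mem_Iq_iff.1 h) (topm q) (fun i => by rw [topm_apply]; omega)
  rw [coeff_sub] at h1
  exact sub_eq_zero.1 h1

/-- the pairing with the top coefficient -/
noncomputable def tau (K : Type*) [Field K] (q s : ℕ) :
    (Box q → K) →ₗ[K] Module.Dual K (Vlt K s) :=
  LinearMap.mk₂ K (fun w b => coeff (topm q) (sec K q w * b.1))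
    (by intro w1 w2 b; rw [map_add, add_mul, coeff_add])
    (by intro c w b; rw [map_smul, smul_mul_assoc, coeff_smul])
    (by intro w b1 b2; rw [Submodule.coe_add, mul_add, coeff_add])
    (by intro c w b; rw [Submodule.coe_smul, mul_smul_comm, coeff_smul])

lemma tau_apply (q s : ℕ) (w : Box q → K) (b : Vlt K s) :
    tau K q s w b = coeff (topm q) (sec K q w * b.1) := rfl

lemma tau_rho {q : ℕ} (hq : 0 < q) (s : ℕ) (a : MvPolynomial (Fin 2) K) (b : Vlt K s) :
    tau K q s (rho K q a) b = coeff (topm q) (a * b.1) := by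
  rw [tau_apply]
  apply coeff_topm_eq hq
  rw [← sub_mul]
  exact Ideal.mul_mem_right _ _ (sec_sub_mem q a)

lemma finrank_map_Hge_le {q : ℕ} {g : MvPolynomial (Fin 2) K} {δ d1 d2 : ℕ} (hq : 0 < q)
    (hg : ∀ m, m 0 + m 1 < δ → coeff m g = 0) (hd : 2 * q ≤ d1 + d2 + δ) (h1 : 0 < d2) :
    Module.finrank K ((Hge K (d2 - 1)).map (Psi q g)) ≤
      Module.finrank K ((Vlt K d1).map (Psi q g)) := by
  set N : Submodule K (Vlt K d1) := LinearMap.ker ((Psi q g).domRestrict (Vlt K d1)) with hN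
  have hrn := LinearMap.finrank_range_add_finrank_ker ((Psi q g).domRestrict (Vlt K d1))
  rw [LinearMap.range_domRestrict, ← hN] at hrn
  have hdual := Subspace.finrank_add_finrank_dualAnnihilator_eq N
  let T : ((Hge K (d2 - 1)).map (Psi q g)) →ₗ[K] N.dualAnnihilator :=
    LinearMap.codRestrict _ (tau K q d1 ∘ₗ ((Hge K (d2 - 1)).map (Psi q g)).subtype) (by
      rintro ⟨w, hw⟩
      rw [Submodule.mem_dualAnnihilator]
      intro b hb
      obtain ⟨a, ha, rfl⟩ := hw
      change tau K q d1 (rho K q (g * a)) b = 0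
      rw [tau_rho hq]
      have hgb : g * b.1 ∈ Iq K q := by
        rw [hN, LinearMap.mem_ker] at hb
        exact (ker_rho q _).1 hb
      have : g * a * b.1 ∈ Iq K q := by
        have e : g * a * b.1 = a * (g * b.1) := by ring
        rw [e]
        exact Ideal.mul_mem_left _ _ hgb
      exact (mem_Iq_iff.1 this) (topm q) (fun i => by rw [topm_apply]; omega))
  have hT : Function.Injective T := by
    rw [injective_iff_map_eq_zero]
    rintro ⟨w, hw⟩ hz
    have hz' : tau K q d1 w = 0 := congrArg Subtype.val hz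
    apply Subtype.ext
    change w = 0
    obtain ⟨a, ha, rfl⟩ := hw
    funext m
    rw [Psi_apply, rho_apply, Pi.zero_apply]
    by_cases hdeg : m.1 0 + m.1 1 < δ + (d2 - 1)
    · exact (mem_Hge.1 (mul_mem_Hge hg ha)) m.1 hdeg
    · have hm0 := m.2 0
      have hm1 := m.2 1
      have hle : m.1 ≤ topm q := by
        intro i
        have := m.2 i
        rw [topm_apply]
        omega
      have hb : (monomial (topm q - m.1) (1 : K)) ∈ Vlt K d1 := by
        unfold Vlt
        rw [monomial_mem_restrictSupport]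
        left
        simp only [Tri, Set.mem_ofPred_eq, Finsupp.coe_tsub, Pi.sub_apply, topm_apply]
        omega
      have h2 := LinearMap.congr_fun hz' ⟨_, hb⟩
      change tau K q d1 (rho K q (g * a)) _ = 0 at h2
      rw [tau_rho hq] at h2
      have e : m.1 + (topm q - m.1) = topm q := add_tsub_cancel_of_le hle
      have h3 : coeff (m.1 + (topm q - m.1)) (g * a * monomial (topm q - m.1) (1 : K)) = 0 := by
        rw [e]
        exact h2
      rw [coeff_mul_monomial, mul_one] at h3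
      exact h3
  have h3 := LinearMap.finrank_le_finrank_of_injective hT
  omega

theorem finrank_range_le_of_syzygy {q : ℕ} {g h : MvPolynomial (Fin 2) K} {δ d1 d2 : ℕ}
    (hg : ∀ m, m 0 + m 1 < δ → coeff m g = 0) (h0 : h ≠ 0)
    (hh : ∀ m, d1 < m 0 + m 1 → coeff m h = 0) (hgh : g * h ∈ Iq K q)
    (hd : d1 + d2 + δ = 2 * q) (hlt : d1 < d2) :
    Module.finrank K (LinearMap.range (Psi q g)) ≤ d1 * d2 := by
  have hq : 0 < q := by omega
  have hsplit : LinearMap.range (Psi q g) =
      (Vlt K (d2 - 1)).map (Psi q g) ⊔ (Hge K (d2 - 1)).map (Psi q g) := by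
    rw [← Submodule.map_sup, Vlt_sup_Hge, Submodule.map_top]
  have h1 : Module.finrank K (LinearMap.range (Psi q g)) ≤
      Module.finrank K ((Vlt K (d2 - 1)).map (Psi q g)) +
        Module.finrank K ((Hge K (d2 - 1)).map (Psi q g)) := by
    rw [hsplit]
    exact Submodule.finrank_add_le_finrank_add_finrank _ _
  have h2 := finrank_map_Hge_le (K := K) (q := q) (g := g) (δ := δ) (d1 := d1) (d2 := d2) hq hg
    (by omega) (by omega)
  have h3 := finrank_map_Vlt_add (s := d2 - 1 - d1) q h0 hh hgh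
  have h4 := finrank_map_Vlt_add (s := 0) q h0 hh hgh
  have e1 : d1 + (d2 - 1 - d1) = d2 - 1 := by omega
  rw [e1] at h3
  rw [add_zero] at h4
  have c1 := finrank_Vlt (K := K) (d2 - 1)
  have c2 := finrank_Vlt (K := K) (d2 - 1 - d1)
  have c3 := finrank_Vlt (K := K) d1
  have c4 := finrank_Vlt (K := K) 0
  have h5 : Module.finrank K (LinearMap.range (Psi q g)) +
      Module.finrank K (Vlt K (d2 - 1 - d1)) ≤
      Module.finrank K (Vlt K (d2 - 1)) + Module.finrank K (Vlt K d1) := by
    omega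
  obtain ⟨k, rfl⟩ : ∃ k, d2 = d1 + 1 + k := Nat.exists_eq_add_of_le hlt
  have e2 : d1 + 1 + k - 1 - d1 = k := by omega
  have e3 : d1 + 1 + k - 1 = d1 + k := by omega
  rw [e2] at c2 h5
  rw [e3] at c1 h5
  nlinarith [c1, c2, c3, h5]

end Pool.Agent.Helper720.HK
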