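import Pool.Agent.Helper720.HKLip

/-!
# Frobenius scaling `D_{pq}(pn) = p^2 D_q(n)`
-/

namespace Pool.Agent.Helper720.HK

open MvPolynomial

variable {K : Type*} [Field K]

/-- the exponent attached to a residue -/
noncomputable def rexp {p : ℕ} (r : Fin 2 → Fin p) : Fin 2 →₀ ℕ :=
  Finsupp.equivFunOnFinite.symm (fun i => (r i : ℕ))

@[simp] lemma rexp_apply {p : ℕ} (r : Fin 2 → Fin p) (i : Fin 2) : rexp r i = r i := rfl

/-- `(s_r) ↦ ∑ X^r s_r^p` -/
noncomputable def Theta (p : ℕ) [Fact p.Prime] (K : Type*) [Field K] [CharP K p] :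
    ((Fin 2 → Fin p) → MvPolynomial (Fin 2) K) →+ MvPolynomial (Fin 2) K where
  toFun s := ∑ r, monomial (rexp r) 1 * (s r) ^ p
  map_zero' := by
    have : p ≠ 0 := (Fact.out : p.Prime).ne_zero
    simp [this]
  map_add' s t := by
    rw [← Finset.sum_add_distrib]
    refine Finset.sum_congr rfl fun r _ => ?_
    rw [Pi.add_apply, add_pow_char, mul_add]

lemma Theta_apply (p : ℕ) [Fact p.Prime] [CharP K p]
    (s : (Fin 2 → Fin p) → MvPolynomial (Fin 2) K) :
    Theta p K s = ∑ r, monomial (rexp r) 1 * (s r) ^ p := rfl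

lemma Theta_single (p : ℕ) [Fact p.Prime] [CharP K p] (r : Fin 2 → Fin p)
    (g : MvPolynomial (Fin 2) K) :
    Theta p K (Pi.single r g) = monomial (rexp r) 1 * g ^ p := by
  classical
  have hp : p ≠ 0 := (Fact.out : p.Prime).ne_zero
  rw [Theta_apply, Finset.sum_eq_single r]
  · simp
  · intro b _ hb
    rw [Pi.single_eq_of_ne hb, zero_pow hp, mul_zero]
  · simp

lemma Theta_surjective (p : ℕ) [Fact p.Prime] [CharP K p] [Finite K] :
    Function.Surjective (Theta p K) := by
  classical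
  have hp : 0 < p := (Fact.out : p.Prime).pos
  intro g
  suffices h : g ∈ (Theta p K).range from h
  rw [g.as_sum]
  refine sum_mem fun m _ => ?_
  obtain ⟨b, hb⟩ := (frobenius_inj K p).bijective_of_finite.2 (coeff m g)
  rw [frobenius_def] at hb
  let r : Fin 2 → Fin p := fun i => ⟨m i % p, Nat.mod_lt _ hp⟩
  let u : Fin 2 →₀ ℕ := Finsupp.equivFunOnFinite.symm (fun i => m i / p)
  refine ⟨Pi.single r (monomial u b), ?_⟩
  have hm : rexp r + p • u = m := by
    ext i
    change m i % p + p * (m i / p) = m i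
    exact Nat.mod_add_div _ _
  rw [Theta_single, monomial_pow, monomial_mul, one_mul, hb, hm]

lemma coeff_pow_char (p : ℕ) [Fact p.Prime] [CharP K p] (g : MvPolynomial (Fin 2) K)
    (m : Fin 2 →₀ ℕ) : coeff (p • m) (g ^ p) = (coeff m g) ^ p := by
  have hp : p ≠ 0 := (Fact.out : p.Prime).ne_zero
  rw [← map_frobenius_expand, coeff_map, coeff_expand_smul p hp, frobenius_def]

lemma coeff_pow_char_zero (p : ℕ) [Fact p.Prime] [CharP K p] (g : MvPolynomial (Fin 2) K)
    (m : Fin 2 →₀ ℕ) (i : Fin 2) (h : ¬ p ∣ m i) : coeff m (g ^ p) = 0 := by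
  rw [← map_frobenius_expand, coeff_map, coeff_expand_of_not_dvd g h, map_zero]

lemma coeff_Theta (p : ℕ) [Fact p.Prime] [CharP K p]
    (s : (Fin 2 → Fin p) → MvPolynomial (Fin 2) K) (r : Fin 2 → Fin p) (u : Fin 2 →₀ ℕ) :
    coeff (rexp r + p • u) (Theta p K s) = (coeff u (s r)) ^ p := by
  classical
  rw [Theta_apply, coeff_sum, Finset.sum_eq_single r]
  · rw [coeff_monomial_mul, one_mul, coeff_pow_char]
  · intro r' _ hne
    rw [coeff_monomial_mul']
    split_ifs with hle
    · have hex : ∃ i, r' i ≠ r i := by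
        by_contra hc
        push Not at hc
        exact hne (funext hc)
      obtain ⟨i, hi⟩ := hex
      rw [one_mul]
      apply coeff_pow_char_zero p _ _ i
      intro hd
      apply hi
      have h1 := hle i
      simp only [rexp_apply, Finsupp.coe_add, Pi.add_apply, Finsupp.coe_smul, Pi.smul_apply,
        smul_eq_mul] at h1
      have h2 : ((rexp r + p • u - rexp r') : Fin 2 →₀ ℕ) i = (r i : ℕ) + p * u i - r' i := by
        simp
      rw [h2] at hd
      have h3 : (r' i : ℕ) ≡ (r i : ℕ) + p * u i [MOD p] := (Nat.modEq_iff_dvd' h1).2 hd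
      have h4 : (r i : ℕ) + p * u i ≡ r i [MOD p] := by simp [Nat.ModEq]
      have h5 := (h3.trans h4)
      unfold Nat.ModEq at h5
      rw [Nat.mod_eq_of_lt (r' i).2, Nat.mod_eq_of_lt (r i).2] at h5
      exact Fin.ext h5
    · rfl
  · simp

lemma Theta_injective (p : ℕ) [Fact p.Prime] [CharP K p] :
    Function.Injective (Theta p K) := by
  have hp : p ≠ 0 := (Fact.out : p.Prime).ne_zero
  rw [injective_iff_map_eq_zero]
  intro s hs
  funext r
  ext u
  have := coeff_Theta p s r u
  rw [hs, coeff_zero] at this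
  rw [Pi.zero_apply, coeff_zero]
  exact pow_eq_zero_iff hp |>.1 this.symm

lemma Theta_mul_pow (p : ℕ) [Fact p.Prime] [CharP K p]
    (s : (Fin 2 → Fin p) → MvPolynomial (Fin 2) K) (g : MvPolynomial (Fin 2) K) :
    Theta p K s * g ^ p = Theta p K (fun r => s r * g) := by
  rw [Theta_apply, Theta_apply, Finset.sum_mul]
  refine Finset.sum_congr rfl fun r _ => ?_
  rw [mul_pow]
  ring

lemma Theta_mem (p : ℕ) [Fact p.Prime] [CharP K p] [Finite K] (q : ℕ)
    (g : MvPolynomial (Fin 2) K) (s : (Fin 2 → Fin p) → MvPolynomial (Fin 2) K) :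
    Theta p K s ∈ Iq K (p * q) ⊔ Ideal.span {g ^ p} ↔
      ∀ r, s r ∈ Iq K q ⊔ Ideal.span {g} := by
  have hX0 : (X 0 : MvPolynomial (Fin 2) K) ^ q ∈ Iq K q ⊔ Ideal.span {g} :=
    Ideal.mem_sup_left (Ideal.subset_span (by simp))
  have hX1 : (X 1 : MvPolynomial (Fin 2) K) ^ q ∈ Iq K q ⊔ Ideal.span {g} :=
    Ideal.mem_sup_left (Ideal.subset_span (by simp))
  have hg : g ∈ Iq K q ⊔ Ideal.span {g} :=
    Ideal.mem_sup_right (Ideal.mem_span_singleton_self g)
  constructor
  · intro h
    rw [Submodule.mem_sup] at h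
    obtain ⟨a, ha, b, hb, hab⟩ := h
    unfold Iq at ha
    rw [Ideal.mem_span_pair] at ha
    obtain ⟨a1, a2, rfl⟩ := ha
    obtain ⟨a3, rfl⟩ := Ideal.mem_span_singleton'.1 hb
    obtain ⟨s1, rfl⟩ := Theta_surjective p a1
    obtain ⟨s2, rfl⟩ := Theta_surjective p a2
    obtain ⟨s3, rfl⟩ := Theta_surjective p a3
    rw [mul_comm p q, pow_mul, pow_mul, Theta_mul_pow, Theta_mul_pow, Theta_mul_pow,
      ← map_add, ← map_add] at hab
    have := Theta_injective p hab
    intro r
    rw [← this]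
    simp only [Pi.add_apply]
    exact add_mem (add_mem (Ideal.mul_mem_left _ _ hX0) (Ideal.mul_mem_left _ _ hX1))
      (Ideal.mul_mem_left _ _ hg)
  · intro h
    rw [Theta_apply]
    refine sum_mem fun r _ => Ideal.mul_mem_left _ _ ?_
    have hr := h r
    rw [Submodule.mem_sup] at hr
    obtain ⟨a, ha, b, hb, hab⟩ := hr
    unfold Iq at ha
    rw [Ideal.mem_span_pair] at ha
    obtain ⟨a1, a2, rfl⟩ := ha
    obtain ⟨a3, rfl⟩ := Ideal.mem_span_singleton'.1 hb
    rw [← hab, add_pow_char, add_pow_char, mul_pow, mul_pow, mul_pow, ← pow_mul, ← pow_mul,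
      mul_comm q p]
    refine add_mem (Ideal.mem_sup_left ?_) (Ideal.mem_sup_right ?_)
    · exact add_mem (Ideal.mul_mem_left _ _ (Ideal.subset_span (by simp)))
        (Ideal.mul_mem_left _ _ (Ideal.subset_span (by simp)))
    · exact Ideal.mul_mem_left _ _ (Ideal.mem_span_singleton_self _)

lemma dd_frob (p : ℕ) [Fact p.Prime] [CharP K p] [Finite K] (q : ℕ)
    (g : MvPolynomial (Fin 2) K) : dd (p * q) (g ^ p) = p ^ 2 * dd q g := by
  classical
  set J := Iq K q ⊔ Ideal.span {g} with hJ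
  set J' := Iq K (p * q) ⊔ Ideal.span {g ^ p} with hJ'
  let A : ((Fin 2 → Fin p) → MvPolynomial (Fin 2) K) →+
      (MvPolynomial (Fin 2) K ⧸ J') :=
    (Ideal.Quotient.mk J' : MvPolynomial (Fin 2) K →+ _).comp (Theta p K)
  let B : ((Fin 2 → Fin p) → MvPolynomial (Fin 2) K) →+
      ((Fin 2 → Fin p) → (MvPolynomial (Fin 2) K ⧸ J)) :=
    { toFun := fun s r => Ideal.Quotient.mk J (s r)
      map_zero' := by funext r; simp
      map_add' := by intro s t; funext r; simp }
  have hA : Function.Surjective A :=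
    (Ideal.Quotient.mk_surjective).comp (Theta_surjective p)
  have hB : Function.Surjective B := by
    intro y
    choose s hs using fun r => Ideal.Quotient.mk_surjective (y r)
    exact ⟨s, funext hs⟩
  have hker : A.ker = B.ker := by
    ext s
    rw [AddMonoidHom.mem_ker, AddMonoidHom.mem_ker]
    have h1 : A s = 0 ↔ Theta p K s ∈ J' := Ideal.Quotient.eq_zero_iff_mem
    have h2 : B s = 0 ↔ ∀ r, s r ∈ J := by
      rw [funext_iff]
      exact forall_congr' fun r => Ideal.Quotient.eq_zero_iff_mem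
    rw [h1, h2]
    exact Theta_mem p q g s
  have e : (MvPolynomial (Fin 2) K ⧸ J') ≃+
      ((Fin 2 → Fin p) → (MvPolynomial (Fin 2) K ⧸ J)) :=
    (QuotientAddGroup.quotientKerEquivOfSurjective A hA).symm.trans
      ((QuotientAddGroup.quotientAddEquivOfEq hker).trans
        (QuotientAddGroup.quotientKerEquivOfSurjective B hB))
  have hc := Nat.card_congr e.toEquiv
  rw [Nat.card_pi, Finset.prod_const, Finset.card_univ] at hc
  have c1 := Module.natCard_eq_pow_finrank (K := K) (V := MvPolynomial (Fin 2) K ⧸ J')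
  have c2 := Module.natCard_eq_pow_finrank (K := K) (V := MvPolynomial (Fin 2) K ⧸ J)
  rw [c1, c2, ← pow_mul] at hc
  have hK : 1 < Nat.card K := Finite.one_lt_card
  have := Nat.pow_right_injective hK hc
  unfold dd
  rw [← hJ, ← hJ', this]
  simp [mul_comm]

lemma DD_frob (p : ℕ) [Fact p.Prime] [CharP K p] [Finite K] (lam : K) (q n : ℕ) :
    DD lam (p * q) (p * n) = p ^ 2 * DD lam q n := by
  rw [DD_eq_dd, DD_eq_dd, mul_comm p n, pow_mul, dd_frob]

end Pool.Agent.Helper720.HK
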