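import Pool.Agent.Helper720.HKLoc

/-!
# Augmented algebras with controlled Frobenius powers, and adding a variable
-/

namespace Pool.Agent.Helper720.HK

open Polynomial

universe u

/-- `A` is a `K`-algebra of finite type with augmentation whose kernel `M` has height `d`,
embedding dimension at least `d+1`, and `dim_K A/M^[p^e] = c e`. -/
structure Good (p : ℕ) (K : Type u) [Field K] (A : Type u) [CommRing A] [Algebra K A]
    (aug : A →ₐ[K] K) (d : ℕ) (c : ℕ → ℕ) : Prop where
  ft : Algebra.FiniteType K A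
  ht : (RingHom.ker aug).height = d
  fin : ∀ e, Module.Finite K (A ⧸ frobPow (RingHom.ker aug) (p ^ e))
  len : ∀ e, Module.finrank K (A ⧸ frobPow (RingHom.ker aug) (p ^ e)) = c e
  tan : ∃ φ : A →ₗ[K] (Fin (d + 1) → K), (∀ v, ∃ a ∈ RingHom.ker aug, φ a = v) ∧
    ∀ a ∈ RingHom.ker aug, ∀ b ∈ RingHom.ker aug, φ (a * b) = 0

section

variable {K : Type u} [Field K] {A : Type u} [CommRing A] [Algebra K A] (aug : A →ₐ[K] K)

/-- the augmentation of `A[X]` -/
noncomputable def augX : A[X] →ₐ[K] K :=
  aug.comp ((aeval (0 : A) : A[X] →ₐ[A] A).restrictScalars K)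

lemma augX_apply (g : A[X]) : augX aug g = aug (g.coeff 0) := by
  rw [augX, AlgHom.comp_apply]
  congr 1
  change aeval (0 : A) g = _
  rw [coeff_zero_eq_aeval_zero]

lemma mem_ker_augX (g : A[X]) : g ∈ RingHom.ker (augX aug) ↔ g.coeff 0 ∈ RingHom.ker aug := by
  rw [RingHom.mem_ker, RingHom.mem_ker, augX_apply]

lemma coeff_pow_char_lt (p : ℕ) [Fact p.Prime] [CharP A p] (e : ℕ) (g : A[X]) {i : ℕ}
    (hi : i < p ^ e) : (g ^ p ^ e).coeff i = if i = 0 then (g.coeff 0) ^ p ^ e else 0 := by
  have hpos : 0 < p ^ e := Nat.pos_of_ne_zero (pow_ne_zero _ (Fact.out : p.Prime).ne_zero)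
  have h1 : g = C (g.coeff 0) + X * g.divX := (X_mul_divX_add g).symm.trans (add_comm _ _) |>.trans rfl
  have h2 : g ^ p ^ e = C (g.coeff 0 ^ p ^ e) + X ^ p ^ e * g.divX ^ p ^ e := by
    conv_lhs => rw [h1]
    rw [add_pow_char_pow, mul_pow, C_pow]
  rw [h2, coeff_add, coeff_X_pow_mul', if_neg (not_le.2 hi), add_zero, coeff_C]

/-- `frobPow` in the polynomial ring, coefficientwise -/
lemma mem_frobPow_augX (p : ℕ) [Fact p.Prime] [CharP A p] (e : ℕ) (g : A[X]) :
    g ∈ frobPow (RingHom.ker (augX aug)) (p ^ e) ↔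
      ∀ i < p ^ e, g.coeff i ∈ frobPow (RingHom.ker aug) (p ^ e) := by
  set I := frobPow (RingHom.ker aug) (p ^ e) with hI
  have hpos : 0 < p ^ e := Nat.pos_of_ne_zero (pow_ne_zero _ (Fact.out : p.Prime).ne_zero)
  constructor
  · intro hg
    let I' : Ideal A[X] :=
      { carrier := {g | ∀ i < p ^ e, g.coeff i ∈ I}
        zero_mem' := by intro i _; simp
        add_mem' := by
          intro a b ha hb i hi
          rw [coeff_add]
          exact add_mem (ha i hi) (hb i hi)
        smul_mem' := by
          intro a b hb i hi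
          rw [smul_eq_mul, coeff_mul]
          refine sum_mem fun x hx => Ideal.mul_mem_left _ _ (hb _ ?_)
          rw [Finset.HasAntidiagonal.mem_antidiagonal] at hx
          omega }
    have hle : frobPow (RingHom.ker (augX aug)) (p ^ e) ≤ I' := by
      rw [frobPow_le_iff]
      intro x hx i hi
      rw [mem_ker_augX] at hx
      rw [coeff_pow_char_lt p e x hi]
      split_ifs
      · exact pow_mem_frobPow hx
      · exact zero_mem _
    exact hle hg
  · intro h
    have hX : (X : A[X]) ^ p ^ e ∈ frobPow (RingHom.ker (augX aug)) (p ^ e) := by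
      apply pow_mem_frobPow
      rw [mem_ker_augX]
      simp
    have hC : ∀ a ∈ I, (C a : A[X]) ∈ frobPow (RingHom.ker (augX aug)) (p ^ e) := by
      intro a ha
      have hle : I ≤ (frobPow (RingHom.ker (augX aug)) (p ^ e)).comap (C : A →+* A[X]) := by
        rw [hI, frobPow_le_iff]
        intro x hx
        rw [Ideal.mem_comap, C_pow]
        apply pow_mem_frobPow
        rw [mem_ker_augX]
        simpa using hx
      exact hle ha
    rw [g.as_sum_support_C_mul_X_pow]
    refine sum_mem fun i _ => ?_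
    by_cases hi : i < p ^ e
    · exact Ideal.mul_mem_right _ _ (hC _ (h i hi))
    · obtain ⟨k, rfl⟩ := Nat.exists_eq_add_of_le (not_lt.1 hi)
      rw [pow_add]
      exact Ideal.mul_mem_left _ _ (Ideal.mul_mem_right _ _ hX)

/-- the coefficient map -/
noncomputable def coeffMap (I : Ideal A) (q : ℕ) : A[X] →ₗ[K] (Fin q → A ⧸ I) :=
  LinearMap.pi fun i => (Ideal.Quotient.mkₐ K I).toLinearMap ∘ₗ
    ((lcoeff A (i : ℕ)).restrictScalars K)

lemma coeffMap_apply (I : Ideal A) (q : ℕ) (g : A[X]) (i : Fin q) :
    coeffMap (K := K) I q g i = Ideal.Quotient.mk I (g.coeff i) := rfl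

lemma coeffMap_surjective (I : Ideal A) (q : ℕ) :
    Function.Surjective (coeffMap (K := K) I q) := by
  intro v
  choose a ha using fun i => Ideal.Quotient.mk_surjective (v i)
  refine ⟨∑ j : Fin q, C (a j) * X ^ (j : ℕ), ?_⟩
  funext i
  rw [coeffMap_apply, finsetSum_coeff, Finset.sum_eq_single i]
  · rw [coeff_C_mul_X_pow, if_pos rfl, ha]
  · intro b _ hb
    rw [coeff_C_mul_X_pow, if_neg]
    exact fun h => hb (Fin.ext h.symm)
  · simp

lemma exists_equiv_augX (p : ℕ) [Fact p.Prime] [CharP A p] (e : ℕ) :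
    Nonempty ((A[X] ⧸ frobPow (RingHom.ker (augX aug)) (p ^ e)) ≃ₗ[K]
      (Fin (p ^ e) → A ⧸ frobPow (RingHom.ker aug) (p ^ e))) := by
  set I := frobPow (RingHom.ker aug) (p ^ e) with hI
  have hker : (frobPow (RingHom.ker (augX aug)) (p ^ e)).restrictScalars K =
      LinearMap.ker (coeffMap (K := K) I (p ^ e)) := by
    ext g
    rw [Submodule.restrictScalars_mem, LinearMap.mem_ker, mem_frobPow_augX, funext_iff]
    constructor
    · intro h i
      rw [coeffMap_apply]
      exact Ideal.Quotient.eq_zero_iff_mem.2 (h i i.2)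
    · intro h i hi
      exact Ideal.Quotient.eq_zero_iff_mem.1 (h ⟨i, hi⟩)
  exact ⟨((Submodule.Quotient.restrictScalarsEquiv K
    (frobPow (RingHom.ker (augX aug)) (p ^ e))).symm.trans
      (Submodule.quotEquivOfEq _ _ hker)).trans
        (LinearMap.quotKerEquivOfSurjective _ (coeffMap_surjective I (p ^ e)))⟩

theorem Good.polynomial (p : ℕ) [Fact p.Prime] [CharP K p] {d : ℕ} {c : ℕ → ℕ}
    (h : Good p K A aug d c) : Good p K A[X] (augX aug) (d + 1) (fun e => p ^ e * c e) := by
  have := h.ft
  have hnoeth : IsNoetherianRing A := Algebra.FiniteType.isNoetherianRing K A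
  have hnt : Nontrivial A := (aug_surjective aug).nontrivial
  have hchar : CharP A p := charP_of_injective_algebraMap (algebraMap K A).injective p
  refine ⟨?_, ?_, ?_, ?_, ?_⟩
  · exact Algebra.FiniteType.trans (S := A) h.ft inferInstance
  · have hlies : (RingHom.ker (augX aug)).LiesOver (RingHom.ker aug) := by
      refine ⟨?_⟩
      ext a
      rw [Ideal.mem_under, mem_ker_augX]
      simp
    have h1 := Polynomial.height_eq_height_add_one (RingHom.ker aug) (RingHom.ker (augX aug))
    rw [h1, h.ht]
    rfl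
  · intro e
    obtain ⟨E⟩ := exists_equiv_augX aug p e
    have := h.fin e
    exact Module.Finite.equiv E.symm
  · intro e
    obtain ⟨E⟩ := exists_equiv_augX aug p e
    have := h.fin e
    rw [E.finrank_eq, Module.finrank_pi_fintype]
    simp [h.len e]
  · obtain ⟨φ, h1, h2⟩ := h.tan
    let ψ : A[X] →ₗ[K] (Fin (d + 1 + 1) → K) :=
      { toFun := fun g => Fin.snoc (α := fun _ => K) (φ (g.coeff 0)) (aug (g.coeff 1))
        map_add' := by
          intro g1 g2
          funext i
          refine Fin.lastCases ?_ (fun j => ?_) i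
          · simp
          · simp
        map_smul' := by
          intro k g
          funext i
          refine Fin.lastCases ?_ (fun j => ?_) i
          · simp
          · simp }
    have hψ : ∀ g, ψ g = Fin.snoc (α := fun _ => K) (φ (g.coeff 0)) (aug (g.coeff 1)) :=
      fun g => rfl
    refine ⟨ψ, ?_, ?_⟩
    · intro v
      obtain ⟨a, ha, hav⟩ := h1 (Fin.init v)
      refine ⟨C a + C (algebraMap K A (v (Fin.last _))) * X, ?_, ?_⟩
      · rw [mem_ker_augX]
        simpa using ha
      · rw [hψ]
        simp only [coeff_add, coeff_C_zero, coeff_C_mul_X, coeff_C_succ]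
        simp only [zero_ne_one, if_false, if_true, add_zero, zero_add]
        rw [hav, AlgHom.commutes]
        exact Fin.snoc_init_self v
    · intro a ha b hb
      rw [mem_ker_augX] at ha hb
      rw [hψ, mul_coeff_zero, h2 _ ha _ hb]
      have h3 : aug ((a * b).coeff 1) = 0 := by
        rw [coeff_mul, Finset.Nat.antidiagonal_succ]
        simp only [Finset.Nat.antidiagonal_zero]
        rw [RingHom.mem_ker] at ha hb
        simp [ha, hb]
      rw [h3]
      funext i
      refine Fin.lastCases ?_ (fun j => ?_) i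
      · simp
      · simp

end

end Pool.Agent.Helper720.HK
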