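import Pool.Agent.Helper720.HKSyz3

/-!
# The limit `L = lim D_{p^e}(⌊p^e/(p+1)⌋)/p^{2e}` and its estimates
-/

namespace Pool.Agent.Helper720.HK

open MvPolynomial Filter Topology

/-- normalised dimension -/
noncomputable def UU (p : ℕ) {K : Type*} [Field K] (lam : K) (e : ℕ) : ℝ :=
  (DD lam (p ^ e) (p ^ e / (p + 1)) : ℝ) / ((p : ℝ) ^ e) ^ 2

section

variable {K : Type*} [Field K] (p : ℕ) [hpf : Fact p.Prime] [CharP K p] [Finite K] (lam : K)

lemma UU_mono (e : ℕ) : UU p lam e ≤ UU p lam (e + 1) := by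
  have hp : 2 ≤ p := (Fact.out : p.Prime).two_le
  have h1 : DD lam (p * p ^ e) (p * (p ^ e / (p + 1))) ≤
      DD lam (p * p ^ e) (p * p ^ e / (p + 1)) := by
    apply DD_mono
    exact Nat.mul_div_le_mul_div_assoc _ _ _
  rw [DD_frob, ← pow_succ'] at h1
  have h2 : (p : ℝ) ^ 2 * DD lam (p ^ e) (p ^ e / (p + 1)) ≤
      DD lam (p ^ (e + 1)) (p ^ (e + 1) / (p + 1)) := by exact_mod_cast h1
  have hp0 : (0 : ℝ) < p := by exact_mod_cast (by omega : 0 < p)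
  unfold UU
  rw [div_le_div_iff₀ (by positivity) (by positivity)]
  calc (DD lam (p ^ e) (p ^ e / (p + 1)) : ℝ) * ((p : ℝ) ^ (e + 1)) ^ 2
      = ((p : ℝ) ^ 2 * DD lam (p ^ e) (p ^ e / (p + 1))) * ((p : ℝ) ^ e) ^ 2 := by ring
    _ ≤ _ := by gcongr

lemma UU_succ_le (e : ℕ) : UU p lam (e + 1) ≤ UU p lam e + 4 / (p : ℝ) ^ e := by
  have hp : 2 ≤ p := (Fact.out : p.Prime).two_le
  have h0 : p ^ (e + 1) / (p + 1) ≤ p * (p ^ e / (p + 1)) + p := by
    have h2 : p ^ e < (p + 1) * (p ^ e / (p + 1) + 1) :=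
      Nat.lt_mul_div_succ _ (Nat.succ_pos p)
    have h3 : p ^ (e + 1) ≤ (p + 1) * (p * (p ^ e / (p + 1)) + p) := by
      rw [pow_succ]
      calc p ^ e * p ≤ ((p + 1) * (p ^ e / (p + 1) + 1)) * p := by
            apply Nat.mul_le_mul_right; exact h2.le
        _ = (p + 1) * (p * (p ^ e / (p + 1)) + p) := by ring
    exact Nat.div_le_of_le_mul h3
  have h1 := (DD_mono lam (p ^ (e + 1)) h0).trans (DD_add_le lam (p ^ (e + 1)) _ _)
  have e1 : DD lam (p ^ (e + 1)) (p * (p ^ e / (p + 1))) =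
      p ^ 2 * DD lam (p ^ e) (p ^ e / (p + 1)) := by
    rw [pow_succ', DD_frob]
  rw [e1] at h1
  have h2 : (DD lam (p ^ (e + 1)) (p ^ (e + 1) / (p + 1)) : ℝ) ≤
      (p : ℝ) ^ 2 * DD lam (p ^ e) (p ^ e / (p + 1)) + 4 * (p : ℝ) ^ (e + 1) * p := by
    exact_mod_cast h1
  have hp0 : (0 : ℝ) < p := by exact_mod_cast (by omega : 0 < p)
  have hpe : (0 : ℝ) < (p : ℝ) ^ e := by positivity
  unfold UU
  rw [div_add_div _ _ (by positivity) (by positivity), div_le_div_iff₀ (by positivity)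
    (by positivity)]
  have e2 : ((p : ℝ) ^ (e + 1)) ^ 2 = (p : ℝ) ^ 2 * ((p : ℝ) ^ e) ^ 2 := by ring
  have e3 : (p : ℝ) ^ (e + 1) = (p : ℝ) ^ e * p := pow_succ _ _
  rw [e3] at h2
  rw [e2]
  calc (DD lam (p ^ (e + 1)) (p ^ (e + 1) / (p + 1)) : ℝ) * (((p : ℝ) ^ e) ^ 2 * (p : ℝ) ^ e)
      ≤ ((p : ℝ) ^ 2 * DD lam (p ^ e) (p ^ e / (p + 1)) + 4 * ((p : ℝ) ^ e * p) * p) *
        (((p : ℝ) ^ e) ^ 2 * (p : ℝ) ^ e) := by gcongr
    _ = _ := by ring

lemma UU_mono' : Monotone (UU p lam) := monotone_nat_of_le_succ (UU_mono p lam)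

lemma UU_anti : Antitone (fun e => UU p lam e + 8 / (p : ℝ) ^ e) := by
  have hp : 2 ≤ p := (Fact.out : p.Prime).two_le
  have hp0 : (0 : ℝ) < p := by exact_mod_cast (by omega : 0 < p)
  have hp2 : (2 : ℝ) ≤ p := by exact_mod_cast hp
  refine antitone_nat_of_succ_le fun e => ?_
  have h := UU_succ_le p lam e
  have hpe : (0 : ℝ) < (p : ℝ) ^ e := by positivity
  have h2 : 8 / (p : ℝ) ^ (e + 1) ≤ 4 / (p : ℝ) ^ e := by
    rw [div_le_div_iff₀ (by positivity) (by positivity), pow_succ]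
    nlinarith
  have h3 : 8 / (p : ℝ) ^ e = 4 / (p : ℝ) ^ e + 4 / (p : ℝ) ^ e := by ring
  linarith

theorem exists_L : ∃ L : ℝ, Tendsto (UU p lam) atTop (𝓝 L) ∧
    ∀ e, UU p lam e ≤ L ∧ L ≤ UU p lam e + 8 / (p : ℝ) ^ e := by
  have hp : 2 ≤ p := (Fact.out : p.Prime).two_le
  have hp0 : (0 : ℝ) < p := by exact_mod_cast (by omega : 0 < p)
  have hbdd : BddAbove (Set.range (UU p lam)) := by
    refine ⟨UU p lam 0 + 8 / (p : ℝ) ^ 0, ?_⟩
    rintro _ ⟨e, rfl⟩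
    have h1 := UU_anti p lam (Nat.zero_le e)
    have h2 : (0 : ℝ) ≤ 8 / (p : ℝ) ^ e := by positivity
    simp only at h1
    linarith
  refine ⟨_, tendsto_atTop_ciSup (UU_mono' p lam) hbdd, fun e => ⟨le_ciSup hbdd e, ?_⟩⟩
  refine ciSup_le fun j => ?_
  have h2 : (0 : ℝ) ≤ 8 / (p : ℝ) ^ e := by positivity
  rcases le_total j e with h | h
  · have := UU_mono' p lam h
    linarith
  · have h1 := UU_anti p lam h
    have h3 : (0 : ℝ) ≤ 8 / (p : ℝ) ^ j := by positivity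
    simp only at h1
    linarith

end

lemma floor_NN {p : ℕ} (hp : 2 ≤ p) (i : ℕ) : p ^ (2 * i) / (p + 1) = NN p i := by
  have h := NN_spec (p := p) (by omega) i
  rw [← h]
  rw [Nat.div_eq_of_lt_le]
  · rw [mul_comm]; omega
  · have : (NN p i + 1) * (p + 1) = (p + 1) * NN p i + (p + 1) := by ring
    rw [this]; omega

/-- the limit value `4p/(p+1)^2` -/
noncomputable def alpha0 (p : ℕ) : ℝ := 4 * p / (p + 1) ^ 2

lemma two_NN_lt {p : ℕ} (hp : 2 ≤ p) (i : ℕ) : 2 * NN p i < p ^ (2 * i) := by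
  have h := NN_spec (p := p) (by omega) i
  nlinarith

lemma UU_upper {K : Type*} [Field K] (p : ℕ) (hp : 2 ≤ p) (lam : K) (i : ℕ)
    (h : DD lam (p ^ (2 * i)) (NN p i) + (p ^ (2 * i) - 2 * NN p i) ^ 2 ≤ (p ^ (2 * i)) ^ 2) :
    UU p lam (2 * i) ≤ alpha0 p := by
  have hp0 : (0 : ℝ) < p := by exact_mod_cast (by omega : 0 < p)
  have hp2 : (2 : ℝ) ≤ p := by exact_mod_cast hp
  unfold UU alpha0
  rw [floor_NN hp]
  have hs := NN_spec (p := p) (by omega) i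
  have hlt := two_NN_lt hp i
  set q := p ^ (2 * i) with hq
  set n := NN p i with hn
  obtain ⟨m, hm⟩ := Nat.exists_eq_add_of_lt hlt
  have hm' : q - 2 * n = m + 1 := by omega
  rw [hm'] at h
  have hR : (DD lam q n : ℝ) + ((m : ℝ) + 1) ^ 2 ≤ (q : ℝ) ^ 2 := by exact_mod_cast h
  have hsR : ((p : ℝ) + 1) * n + 1 = q := by exact_mod_cast hs
  have hmR : (q : ℝ) = 2 * n + m + 1 := by exact_mod_cast hm
  have hqR : (q : ℝ) = (p : ℝ) ^ (2 * i) := by rw [hq]; push_cast; ring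
  have hq0 : (0 : ℝ) < (p : ℝ) ^ (2 * i) := by positivity
  rw [div_le_div_iff₀ (by positivity) (by positivity), ← hqR]
  have e1 : ((m : ℝ) + 1) = q - 2 * n := by linarith
  rw [e1] at hR
  have hn1 : ((p : ℝ) + 1) * n = q - 1 := by linarith
  have hq1 : (1 : ℝ) ≤ q := by rw [hqR]; exact one_le_pow₀ (by linarith)
  have key : (4 * (n : ℝ) * (q - n)) * (p + 1) ^ 2 ≤ 4 * p * q ^ 2 := by
    have e2 : (4 * (n : ℝ) * (q - n)) * (p + 1) ^ 2 =
        4 * (((p : ℝ) + 1) * n) * ((p + 1) * q - (((p : ℝ) + 1) * n)) := by ring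
    rw [e2, hn1]
    nlinarith
  calc (DD lam q n : ℝ) * (p + 1) ^ 2 ≤ (4 * (n : ℝ) * (q - n)) * (p + 1) ^ 2 := by
        gcongr
        nlinarith
    _ ≤ _ := key

lemma pow_mem_Iq {K : Type*} [Field K] (p : ℕ) [Fact p.Prime] [CharP K p] {q : ℕ}
    {z : MvPolynomial (Fin 2) K} (h : z ∈ Iq K q) (e : ℕ) : z ^ p ^ e ∈ Iq K (q * p ^ e) := by
  unfold Iq at h
  rw [Ideal.mem_span_pair] at h
  obtain ⟨a, b, rfl⟩ := h
  rw [add_pow_char_pow, mul_pow, mul_pow, ← pow_mul, ← pow_mul]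
  exact add_mem (Ideal.mul_mem_left _ _ (Ideal.subset_span (by simp)))
    (Ideal.mul_mem_left _ _ (Ideal.subset_span (by simp)))

lemma NN_add {p : ℕ} (hp : 2 ≤ p) (k i : ℕ) :
    NN p (k + i) = p ^ (2 * i) * NN p k + NN p i := by
  have h1 := NN_spec (p := p) (by omega) (k + i)
  have h2 := NN_spec (p := p) (by omega) k
  have h3 := NN_spec (p := p) (by omega) i
  have e : p ^ (2 * (k + i)) = p ^ (2 * k) * p ^ (2 * i) := by ring
  rw [e, ← h2, ← h3] at h1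
  have h4 : (p + 1) * NN p (k + i) = (p + 1) * (p ^ (2 * i) * NN p k + NN p i) := by
    rw [← h3]
    nlinarith
  exact Nat.eq_of_mul_eq_mul_left (by omega) h4

/-- strict lower bound for the limit at special `λ` -/
lemma UU_lower {K : Type*} [Field K] (p : ℕ) [Fact p.Prime] [CharP K p] {lam : K} {k : ℕ}
    (hk : 1 ≤ k) (hfix : lam ^ p ^ (2 * k) = lam)
    (hne : ∀ e, 1 ≤ e → e < 2 * k → lam ^ p ^ e ≠ lam) :
    alpha0 p < UU p lam (2 * (k + (k + 1))) := by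
  have hp : 2 ≤ p := (Fact.out : p.Prime).two_le
  obtain ⟨h, hh0, hhd, hhm⟩ := exists_special p hk hfix hne
  set i := k + 1 with hi
  set q := p ^ (2 * k) with hq
  set P := p ^ (2 * i) with hP
  have hQ : p ^ (2 * (k + i)) = q * P := by rw [hq, hP]; ring
  have hN := NN_add hp k i
  rw [← hP] at hN
  have hsk := NN_spec (p := p) (by omega) k
  have hsi := NN_spec (p := p) (by omega) i
  rw [← hq] at hsk
  rw [← hP] at hsi
  have hltk := two_NN_lt hp k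
  have hlti := two_NN_lt hp i
  rw [← hq] at hltk
  rw [← hP] at hlti
  set n := NN p k with hn
  set ni := NN p i with hni
  obtain ⟨a, ha⟩ := Nat.exists_eq_add_of_lt hltk
  obtain ⟨g, hg⟩ := Nat.exists_eq_add_of_lt hlti
  -- q = 2 n + a + 1, P = 2 ni + g + 1
  have hd1 : (h ^ P).totalDegree ≤ P * a := by
    refine td_pow ?_ P
    omega
  have hmem : ff lam ^ (NN p (k + i)) * h ^ P ∈ Iq K (p ^ (2 * (k + i))) := by
    rw [hN, hQ]
    have e1 : ff lam ^ (P * n + ni) * h ^ P = ff lam ^ ni * (ff lam ^ n * h) ^ P := by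
      rw [pow_add, mul_pow, ← pow_mul, mul_comm n P]
      ring
    rw [e1]
    exact Ideal.mul_mem_left _ _ (pow_mem_Iq p hhm (2 * i))
  have hDD := DD_lower (lam := lam) (q := p ^ (2 * (k + i))) (n := NN p (k + i)) (d1 := P * a)
    (d2 := P * a + 2 * (g + 1)) (h := h ^ P) (pow_ne_zero _ hh0) hd1 hmem (by
      rw [hN, hQ, ha]
      have : P = 2 * ni + g + 1 := hg
      nlinarith) (by omega)
  have hp0 : (0 : ℝ) < p := by exact_mod_cast (by omega : 0 < p)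
  have hp2 : (2 : ℝ) ≤ p := by exact_mod_cast hp
  have hfl := floor_NN hp (k + i)
  unfold UU alpha0
  rw [hfl]
  have hQR : ((p : ℝ) ^ (2 * (k + i))) = (q : ℝ) * P := by exact_mod_cast hQ
  rw [hQ] at hDD
  have hDR : ((q : ℝ) * P) ^ 2 ≤ DD lam (p ^ (2 * (k + i))) (NN p (k + i)) +
      (P : ℝ) * a * (P * a + 2 * (g + 1)) := by
    rw [hQ]
    exact_mod_cast hDD
  have hskR : ((p : ℝ) + 1) * n + 1 = q := by exact_mod_cast hsk
  have hsiR : ((p : ℝ) + 1) * ni + 1 = P := by exact_mod_cast hsi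
  have haR : (q : ℝ) = 2 * n + a + 1 := by exact_mod_cast ha
  have hgR : (P : ℝ) = 2 * ni + g + 1 := by exact_mod_cast hg
  have hPq : (P : ℝ) = (p : ℝ) ^ 2 * q := by
    have : P = p ^ 2 * q := by rw [hP, hq, hi]; ring
    exact_mod_cast this
  have hq1 : (1 : ℝ) ≤ q := by
    have : 1 ≤ q := by omega
    exact_mod_cast this
  have hPpos : (0 : ℝ) < P := by rw [hPq]; positivity
  rw [div_lt_div_iff₀ (by positivity) (by rw [hQR]; positivity), hQR]
  -- (p+1) a = (p-1) q + 2 - (p+1), (p+1)(g+1) = (p-1) P + 2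
  have ea : ((p : ℝ) + 1) * a = (p - 1) * q + 2 - (p + 1) := by
    linear_combination -((p : ℝ) + 1) * haR - 2 * hskR
  have eg : ((p : ℝ) + 1) * (g + 1) = (p - 1) * P + 2 := by
    linear_combination -((p : ℝ) + 1) * hgR - 2 * hsiR
  have key : (p + 1) ^ 2 * ((P : ℝ) * a * (P * a + 2 * (g + 1))) <
      (p + 1) ^ 2 * ((q : ℝ) * P) ^ 2 - 4 * p * (q * P) ^ 2 := by
    have e1 : ((p : ℝ) + 1) ^ 2 * ((P : ℝ) * a * (P * a + 2 * (g + 1))) =
        P * (((p : ℝ) + 1) * a) * (P * (((p : ℝ) + 1) * a) + 2 * (((p : ℝ) + 1) * (g + 1))) := by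
      ring
    rw [e1, ea, eg]
    have e2 : ((p : ℝ) + 1) ^ 2 * ((q : ℝ) * P) ^ 2 - 4 * p * (q * P) ^ 2 -
        P * ((p - 1) * q + 2 - (p + 1)) *
          (P * ((p - 1) * q + 2 - (p + 1)) + 2 * ((p - 1) * P + 2)) =
        (p - 1) * P * ((p - 1) * P + 4 - 4 * q) := by ring
    have h3 : (0 : ℝ) < (p - 1) * P * ((p - 1) * P + 4 - 4 * q) := by
      have h4 : (0 : ℝ) < (p - 1) * P := by
        apply mul_pos _ hPpos
        linarith
      apply mul_pos h4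
      rw [hPq]
      have h5' : (4 : ℝ) ≤ p ^ 2 := by nlinarith
      have h5 : (4 : ℝ) * q ≤ p ^ 2 * q := mul_le_mul_of_nonneg_right h5' (by linarith)
      have h6 : (p : ℝ) ^ 2 * q ≤ (p - 1) * (p ^ 2 * q) := by
        have : (0 : ℝ) ≤ p ^ 2 * q := by positivity
        nlinarith
      linarith
    linarith
  have h7 : ((p : ℝ) + 1) ^ 2 * ((q : ℝ) * P) ^ 2 ≤ ((p : ℝ) + 1) ^ 2 *
      (DD lam (p ^ (2 * (k + i))) (NN p (k + i)) + (P : ℝ) * a * (P * a + 2 * (g + 1))) :=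
    mul_le_mul_of_nonneg_left hDR (by positivity)
  rw [mul_add] at h7
  rw [mul_comm _ (((p : ℝ) + 1) ^ 2)]
  linarith

end Pool.Agent.Helper720.HK
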