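import Pool.Agent.Helper720.HKBox

/-!
# The Lipschitz estimate `D_q(n+1) ≤ D_q(n) + 4 q`
-/

namespace Pool.Agent.Helper720.HK

open MvPolynomial

variable {K : Type*} [Field K]

/-- `dim S/(I_q, g)` -/
noncomputable def dd (q : ℕ) (g : MvPolynomial (Fin 2) K) : ℕ :=
  Module.finrank K (MvPolynomial (Fin 2) K ⧸ (Iq K q ⊔ Ideal.span {g}))

lemma DD_eq_dd (lam : K) (q n : ℕ) : DD lam q n = dd q (ff lam ^ n) := rfl

lemma dd_mul_le (q : ℕ) (g h : MvPolynomial (Fin 2) K) : dd q (g * h) ≤ dd q g + dd q h := by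
  have h1 : Iq K q ⊔ Ideal.span {g * h} ≤ Iq K q ⊔ Ideal.span {g} := by
    refine sup_le_sup_left ?_ _
    rw [Ideal.span_singleton_le_span_singleton]
    exact dvd_mul_right _ _
  let T2 : (MvPolynomial (Fin 2) K ⧸ (Iq K q ⊔ Ideal.span {g * h})) →ₗ[K]
      (MvPolynomial (Fin 2) K ⧸ (Iq K q ⊔ Ideal.span {g})) :=
    (Ideal.Quotient.factorₐ K h1).toLinearMap
  have h2 : (Iq K q ⊔ Ideal.span {h}) ≤
      Submodule.comap (LinearMap.mulLeft (MvPolynomial (Fin 2) K) g)
        (Iq K q ⊔ Ideal.span {g * h}) := by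
    refine sup_le ?_ ?_
    · intro x hx
      rw [Submodule.mem_comap]
      exact Ideal.mem_sup_left (Ideal.mul_mem_left _ _ hx)
    · rw [Ideal.span, Submodule.span_le]
      rintro x rfl
      rw [SetLike.mem_coe, Submodule.mem_comap]
      exact Ideal.mem_sup_right (Ideal.mem_span_singleton_self _)
  let T1 : (MvPolynomial (Fin 2) K ⧸ (Iq K q ⊔ Ideal.span {h})) →ₗ[K]
      (MvPolynomial (Fin 2) K ⧸ (Iq K q ⊔ Ideal.span {g * h})) :=
    (Submodule.mapQ _ _ (LinearMap.mulLeft (MvPolynomial (Fin 2) K) g) h2).restrictScalars K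
  have hle : LinearMap.ker T2 ≤ LinearMap.range T1 := by
    intro y hy
    obtain ⟨p, rfl⟩ := Ideal.Quotient.mk_surjective y
    rw [LinearMap.mem_ker] at hy
    have hp : p ∈ Iq K q ⊔ Ideal.span {g} := Ideal.Quotient.eq_zero_iff_mem.1 hy
    rw [Submodule.mem_sup] at hp
    obtain ⟨a, ha, b, hb, rfl⟩ := hp
    obtain ⟨c, rfl⟩ := Ideal.mem_span_singleton'.1 hb
    refine ⟨Ideal.Quotient.mk _ c, ?_⟩
    change (Ideal.Quotient.mk _ (g * c) : MvPolynomial (Fin 2) K ⧸ _) = Ideal.Quotient.mk _ _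
    rw [Ideal.Quotient.eq]
    have : g * c - (a + c * g) = -a := by ring
    rw [this]
    exact Ideal.mem_sup_left (neg_mem ha)
  have h3 := LinearMap.finrank_range_add_finrank_ker T2
  have h4 : Module.finrank K (LinearMap.range T2) ≤ dd q g := Submodule.finrank_le _
  have h5 : Module.finrank K (LinearMap.ker T2) ≤ Module.finrank K (LinearMap.range T1) :=
    Submodule.finrank_mono hle
  have h6 : Module.finrank K (LinearMap.range T1) ≤ dd q h := LinearMap.finrank_range_le _
  unfold dd at *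
  omega

lemma dd_linear_le (q : ℕ) (a b : Fin 2) (hab : a ≠ b) (c : K) :
    dd q (X a - C c * X b : MvPolynomial (Fin 2) K) ≤ q := by
  set J : Ideal (MvPolynomial (Fin 2) K) := Iq K q ⊔ Ideal.span {X a - C c * X b} with hJ
  let v : Fin q → (MvPolynomial (Fin 2) K ⧸ J) := fun i => Ideal.Quotient.mk J (X b ^ (i : ℕ))
  have hX : Ideal.Quotient.mk J (X a) = Ideal.Quotient.mk J (C c * X b) := by
    rw [Ideal.Quotient.eq]
    exact Ideal.mem_sup_right (Ideal.mem_span_singleton_self _)
  have hq : ∀ n, q ≤ n → Ideal.Quotient.mk J (X b ^ n) = 0 := by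
    intro n hn
    rw [Ideal.Quotient.eq_zero_iff_mem]
    refine Ideal.mem_sup_left ?_
    obtain ⟨k, rfl⟩ := Nat.exists_eq_add_of_le hn
    rw [pow_add]
    refine Ideal.mul_mem_right _ _ (Ideal.subset_span ?_)
    fin_cases b <;> simp
  have htop : Submodule.span K (Set.range v) = ⊤ := by
    rw [eq_top_iff]
    rintro y -
    obtain ⟨p, rfl⟩ := Ideal.Quotient.mk_surjective y
    induction p using MvPolynomial.induction_on' with
    | monomial m t =>
      have hm : Ideal.Quotient.mk J (monomial m t) =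
          (t * c ^ (m a)) • Ideal.Quotient.mk J (X b ^ (m a + m b)) := by
        have h1 : (monomial m t : MvPolynomial (Fin 2) K) = C t * (X a ^ (m a) * X b ^ (m b)) := by
          rw [monomial_eq, Finsupp.prod_fintype _ _ (by simp), Fin.prod_univ_two]
          fin_cases a <;> fin_cases b <;> simp_all [mul_comm]
        have h2 : ((t * c ^ (m a)) • Ideal.Quotient.mk J (X b ^ (m a + m b))) =
            Ideal.Quotient.mk J (C (t * c ^ (m a)) * X b ^ (m a + m b)) := by
          rw [← MvPolynomial.smul_eq_C_mul]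
          rfl
        rw [h1, h2]
        simp only [map_mul, map_pow, hX]
        ring
      rw [hm]
      refine Submodule.smul_mem _ _ ?_
      by_cases hlt : m a + m b < q
      · exact Submodule.subset_span ⟨⟨m a + m b, hlt⟩, rfl⟩
      · rw [hq _ (not_lt.1 hlt)]
        exact zero_mem _
    | add p r hp hr =>
      rw [map_add]
      exact add_mem hp hr
  have := finrank_range_le_card (R := K) v
  rw [Set.finrank, htop, finrank_top, Fintype.card_fin] at this
  exact this

lemma DD_one_le (lam : K) (q : ℕ) : dd q (ff lam) ≤ 4 * q := by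
  have h0 := dd_linear_le q (0 : Fin 2) 1 (by decide) (0 : K)
  have h1 := dd_linear_le q (1 : Fin 2) 0 (by decide) (0 : K)
  have h2 := dd_linear_le q (1 : Fin 2) 0 (by decide) (1 : K)
  have h3 := dd_linear_le q (0 : Fin 2) 1 (by decide) lam
  simp only [map_zero, zero_mul, sub_zero, map_one, one_mul] at h0 h1 h2
  have e1 := dd_mul_le q (X 0 : MvPolynomial (Fin 2) K) (X 1)
  have e2 := dd_mul_le q (X 0 * X 1 : MvPolynomial (Fin 2) K) (X 1 - X 0)
  have e3 := dd_mul_le q (X 0 * X 1 * (X 1 - X 0) : MvPolynomial (Fin 2) K) (X 0 - C lam * X 1)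
  unfold ff
  omega

lemma DD_succ_le (lam : K) (q n : ℕ) : DD lam q (n + 1) ≤ DD lam q n + 4 * q := by
  rw [DD_eq_dd, DD_eq_dd, pow_succ]
  exact (dd_mul_le q _ _).trans (Nat.add_le_add_left (DD_one_le lam q) _)

lemma DD_add_le (lam : K) (q n k : ℕ) : DD lam q (n + k) ≤ DD lam q n + 4 * q * k := by
  induction k with
  | zero => simp
  | succ k ih =>
    have := DD_succ_le lam q (n + k)
    rw [← add_assoc]
    calc DD lam q (n + k + 1) ≤ DD lam q (n + k) + 4 * q := this
      _ ≤ DD lam q n + 4 * q * k + 4 * q := by omega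
      _ = DD lam q n + 4 * q * (k + 1) := by ring

end Pool.Agent.Helper720.HK
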