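import Mathlib

/-!
# Localisation at the kernel of an augmentation: lengths, dimension, regularity
-/

namespace Pool.Agent.Helper720.HK

open IsLocalRing

universe u

/-- The ideal generated by the `q`-th powers of the elements of `I`. -/
def frobPow {R : Type*} [CommRing R] (I : Ideal R) (q : ℕ) : Ideal R :=
  Ideal.span ((fun x => x ^ q) '' (I : Set R))

lemma pow_mem_frobPow {R : Type*} [CommRing R] {I : Ideal R} {q : ℕ} {x : R} (hx : x ∈ I) :
    x ^ q ∈ frobPow I q := Ideal.subset_span ⟨x, hx, rfl⟩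

lemma frobPow_le_iff {R : Type*} [CommRing R] {I J : Ideal R} {q : ℕ} :
    frobPow I q ≤ J ↔ ∀ x ∈ I, x ^ q ∈ J := by
  unfold frobPow
  rw [Ideal.span_le]
  constructor
  · intro h x hx
    exact h ⟨x, hx, rfl⟩
  · rintro h _ ⟨x, hx, rfl⟩
    exact h x hx

section

variable {K : Type u} [Field K] {A : Type u} [CommRing A] [Algebra K A] (aug : A →ₐ[K] K)

lemma aug_surjective : Function.Surjective aug := fun k => ⟨algebraMap K A k, by simp⟩

instance ker_isMaximal : (RingHom.ker aug).IsMaximal :=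
  RingHom.ker_isMaximal_of_surjective _ (aug_surjective aug)

lemma sub_aug_mem (a : A) : a - algebraMap K A (aug a) ∈ RingHom.ker aug := by
  rw [RingHom.mem_ker, map_sub, AlgHom.commutes]
  simp

lemma exists_inv {I : Ideal A} (hI : ∀ a ∈ RingHom.ker aug, ∃ n : ℕ, a ^ n ∈ I) {s : A}
    (hs : s ∉ RingHom.ker aug) : ∃ t, s * t - 1 ∈ I := by
  have hk : aug s ≠ 0 := fun h => hs (by rwa [RingHom.mem_ker])
  obtain ⟨n, hn⟩ := hI _ (sub_aug_mem aug s)
  have hnil : IsNilpotent (Ideal.Quotient.mk I (s - algebraMap K A (aug s))) :=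
    ⟨n, by rw [← map_pow, Ideal.Quotient.eq_zero_iff_mem]; exact hn⟩
  have hu : IsUnit (Ideal.Quotient.mk I (algebraMap K A (aug s))) :=
    ((IsUnit.mk0 _ hk).map (algebraMap K A)).map (Ideal.Quotient.mk I)
  have hu2 : IsUnit (Ideal.Quotient.mk I s) := by
    have e : Ideal.Quotient.mk I s = Ideal.Quotient.mk I (algebraMap K A (aug s)) +
        Ideal.Quotient.mk I (s - algebraMap K A (aug s)) := by
      rw [← map_add]
      congr 1
      ring
    rw [e]
    exact hnil.isUnit_add_left_of_commute hu (Commute.all _ _)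
  obtain ⟨t, ht⟩ := hu2.exists_right_inv
  obtain ⟨t, rfl⟩ := Ideal.Quotient.mk_surjective t
  refine ⟨t, ?_⟩
  rw [← Ideal.Quotient.eq, map_mul, ht, map_one]

/-- localisation -/
abbrev Loc : Type u := Localization.AtPrime (RingHom.ker aug)

lemma loc_surj {I : Ideal A} (hI : ∀ a ∈ RingHom.ker aug, ∃ n : ℕ, a ^ n ∈ I) (r : Loc aug) :
    ∃ a : A, r - algebraMap A (Loc aug) a ∈ I.map (algebraMap A (Loc aug)) := by
  obtain ⟨a, s, rfl⟩ := IsLocalization.exists_mk'_eq (RingHom.ker aug).primeCompl r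
  obtain ⟨t, ht⟩ := exists_inv aug hI s.2
  refine ⟨a * t, ?_⟩
  have e : IsLocalization.mk' (Loc aug) a s - algebraMap A (Loc aug) (a * t) =
      -(IsLocalization.mk' (Loc aug) a s) * algebraMap A (Loc aug) (s * t - 1) := by
    have h1 : IsLocalization.mk' (Loc aug) a s * algebraMap A (Loc aug) s =
        algebraMap A (Loc aug) a := IsLocalization.mk'_spec _ _ _
    rw [map_sub, map_mul, map_mul, map_one]
    linear_combination algebraMap A (Loc aug) t * h1
  rw [e]
  exact Ideal.mul_mem_left _ _ (Ideal.mem_map_of_mem _ ht)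

lemma loc_inj {I : Ideal A} (hI : ∀ a ∈ RingHom.ker aug, ∃ n : ℕ, a ^ n ∈ I) {a : A}
    (ha : algebraMap A (Loc aug) a ∈ I.map (algebraMap A (Loc aug))) : a ∈ I := by
  rw [IsLocalization.algebraMap_mem_map_algebraMap_iff (RingHom.ker aug).primeCompl] at ha
  obtain ⟨s, hs, h⟩ := ha
  obtain ⟨t, ht⟩ := exists_inv aug hI hs
  have e : a = t * (s * a) - a * (s * t - 1) := by ring
  rw [e]
  exact sub_mem (Ideal.mul_mem_left _ _ h) (Ideal.mul_mem_left _ _ ht)

lemma map_ker_eq : (RingHom.ker aug).map (algebraMap A (Loc aug)) = maximalIdeal (Loc aug) :=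
  Localization.AtPrime.map_eq_maximalIdeal

lemma frobPow_maximalIdeal (q : ℕ) :
    frobPow (maximalIdeal (Loc aug)) q =
      (frobPow (RingHom.ker aug) q).map (algebraMap A (Loc aug)) := by
  apply le_antisymm
  · rw [frobPow_le_iff]
    intro r hr
    obtain ⟨a, s, rfl⟩ := IsLocalization.exists_mk'_eq (RingHom.ker aug).primeCompl r
    have ha : a ∈ RingHom.ker aug :=
      (IsLocalization.AtPrime.mk'_mem_maximal_iff (Loc aug) (RingHom.ker aug) a s).1 hr
    have e : IsLocalization.mk' (Loc aug) a s ^ q =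
        (IsLocalization.mk' (Loc aug) 1 s) ^ q * algebraMap A (Loc aug) (a ^ q) := by
      rw [map_pow, ← mul_pow]
      congr 1
      rw [mul_comm, IsLocalization.mul_mk'_eq_mk'_of_mul, mul_one]
    rw [e]
    exact Ideal.mul_mem_left _ _ (Ideal.mem_map_of_mem _ (pow_mem_frobPow ha))
  · rw [Ideal.map_le_iff_le_comap, frobPow_le_iff]
    intro a ha
    rw [Ideal.mem_comap, map_pow]
    apply pow_mem_frobPow
    rw [← map_ker_eq]
    exact Ideal.mem_map_of_mem _ ha

/-- `A/I ≃ R/IR` as `K`-vector spaces -/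
lemma exists_quot_equiv {I : Ideal A} (hI : ∀ a ∈ RingHom.ker aug, ∃ n : ℕ, a ^ n ∈ I) :
    Nonempty ((A ⧸ I) ≃ₗ[K] (Loc aug ⧸ I.map (algebraMap A (Loc aug)))) := by
  let f : (A ⧸ I) →ₐ[K] (Loc aug ⧸ I.map (algebraMap A (Loc aug))) :=
    Ideal.quotientMapₐ (I.map (algebraMap A (Loc aug)))
      (IsScalarTower.toAlgHom K A (Loc aug)) Ideal.le_comap_map
  refine ⟨LinearEquiv.ofBijective f.toLinearMap ⟨?_, ?_⟩⟩
  · change Function.Injective f
    rw [injective_iff_map_eq_zero]
    intro x hx
    obtain ⟨a, rfl⟩ := Ideal.Quotient.mk_surjective x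
    have h1 : f (Ideal.Quotient.mk I a) = Ideal.Quotient.mk _ (algebraMap A (Loc aug) a) := rfl
    rw [h1, Ideal.Quotient.eq_zero_iff_mem] at hx
    rw [Ideal.Quotient.eq_zero_iff_mem]
    exact loc_inj aug hI hx
  · intro y
    obtain ⟨r, rfl⟩ := Ideal.Quotient.mk_surjective y
    obtain ⟨a, ha⟩ := loc_surj aug hI r
    refine ⟨Ideal.Quotient.mk I a, ?_⟩
    change Ideal.Quotient.mk _ (algebraMap A (Loc aug) a) = _
    exact (Ideal.Quotient.eq.2 ha).symm

lemma exists_residue (r : Loc aug) :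
    ∃ k : K, r - algebraMap K (Loc aug) k ∈ maximalIdeal (Loc aug) := by
  obtain ⟨a, ha⟩ := loc_surj aug (I := RingHom.ker aug) (fun a ha => ⟨1, by simpa using ha⟩) r
  rw [map_ker_eq] at ha
  refine ⟨aug a, ?_⟩
  have h2 : algebraMap A (Loc aug) (a - algebraMap K A (aug a)) ∈ maximalIdeal (Loc aug) := by
    rw [← map_ker_eq]
    exact Ideal.mem_map_of_mem _ (sub_aug_mem aug a)
  have e : r - algebraMap K (Loc aug) (aug a) = (r - algebraMap A (Loc aug) a) +
      algebraMap A (Loc aug) (a - algebraMap K A (aug a)) := by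
    rw [map_sub, IsScalarTower.algebraMap_apply K A (Loc aug)]
    ring
  rw [e]
  exact add_mem ha h2

instance : IsLocalHom (algebraMap K (Loc aug)) := by
  refine ⟨fun k hk => ?_⟩
  refine IsUnit.mk0 k ?_
  rintro rfl
  rw [map_zero] at hk
  exact not_isUnit_zero hk

lemma length_residue : Module.length (ResidueField K) (ResidueField (Loc aug)) = 1 := by
  have hsurj : Function.Surjective
      (algebraMap (ResidueField K) (ResidueField (Loc aug))) := by
    intro y
    obtain ⟨r, rfl⟩ := IsLocalRing.residue_surjective y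
    obtain ⟨k, hk⟩ := exists_residue aug r
    refine ⟨residue K k, ?_⟩
    have h1 : algebraMap (ResidueField K) (ResidueField (Loc aug)) (residue K k) =
        residue (Loc aug) (algebraMap K (Loc aug) k) := rfl
    rw [h1]
    exact (Ideal.Quotient.eq.2 hk).symm
  let e : ResidueField K ≃ₗ[ResidueField K] ResidueField (Loc aug) :=
    LinearEquiv.ofBijective (Algebra.linearMap (ResidueField K) (ResidueField (Loc aug)))
      ⟨(algebraMap (ResidueField K) (ResidueField (Loc aug))).injective, hsurj⟩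
  rw [← e.length_eq, Module.length_eq_finrank, Module.finrank_self, Nat.cast_one]

lemma length_eq {I : Ideal A} (hI : ∀ a ∈ RingHom.ker aug, ∃ n : ℕ, a ^ n ∈ I)
    (hfin : Module.Finite K (A ⧸ I)) :
    Module.length (Loc aug) (Loc aug ⧸ I.map (algebraMap A (Loc aug))) =
      (Module.finrank K (A ⧸ I) : ℕ∞) := by
  obtain ⟨e⟩ := exists_quot_equiv aug hI
  have h1 := IsLocalRing.length_restrictScalars K (Loc aug)
    (Loc aug ⧸ I.map (algebraMap A (Loc aug)))
  rw [length_residue, mul_one] at h1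
  rw [← h1, ← e.length_eq, Module.length_eq_finrank]

lemma length_frobPow (q : ℕ) (hfin : Module.Finite K (A ⧸ frobPow (RingHom.ker aug) q)) :
    Module.length (Loc aug) (Loc aug ⧸ frobPow (maximalIdeal (Loc aug)) q) =
      (Module.finrank K (A ⧸ frobPow (RingHom.ker aug) q) : ℕ∞) := by
  rw [frobPow_maximalIdeal]
  exact length_eq aug (fun a ha => ⟨q, pow_mem_frobPow ha⟩) hfin

lemma ringKrullDim_loc {d : ℕ} (h : (RingHom.ker aug).height = d) :
    ringKrullDim (Loc aug) = d := by
  rw [IsLocalization.AtPrime.ringKrullDim_eq_height (RingHom.ker aug), h]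
  rfl

/-- embedding dimension bound -/
lemma le_spanFinrank [IsNoetherianRing A] {n : ℕ} (φ : A →ₗ[K] (Fin n → K))
    (h1 : ∀ v, ∃ a ∈ RingHom.ker aug, φ a = v)
    (h2 : ∀ a ∈ RingHom.ker aug, ∀ b ∈ RingHom.ker aug, φ (a * b) = 0) :
    n ≤ (maximalIdeal (Loc aug)).spanFinrank := by
  classical
  set M := RingHom.ker aug with hM
  have hI : ∀ a ∈ M, ∃ n : ℕ, a ^ n ∈ M ^ 2 := fun a ha => ⟨2, Ideal.pow_mem_pow ha 2⟩
  have hφ2 : ∀ a ∈ M ^ 2, φ a = 0 := by
    intro a ha
    rw [sq] at ha
    refine Submodule.mul_induction_on ha h2 ?_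
    intro x y hx hy
    rw [map_add, hx, hy, add_zero]
  have hmm : (M ^ 2).map (algebraMap A (Loc aug)) = (maximalIdeal (Loc aug)) ^ 2 := by
    rw [Ideal.map_pow, hM, map_ker_eq]
  have hfg := (maximalIdeal (Loc aug)).fg_of_isNoetherianRing
  set s := (maximalIdeal (Loc aug)).generators with hs
  have hsfin : s.Finite := Submodule.FG.finite_generators hfg
  choose lift hlift using loc_surj aug hI
  have hkey : ∀ r ∈ maximalIdeal (Loc aug), ∃ x ∈ Submodule.span K (lift '' s),
      r - algebraMap A (Loc aug) x ∈ (maximalIdeal (Loc aug)) ^ 2 := by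
    intro r hr
    have hr' : r ∈ Submodule.span (Loc aug) s := by
      rw [hs, Submodule.span_generators]
      exact hr
    induction hr' using Submodule.span_induction with
    | mem x hx =>
      refine ⟨lift x, Submodule.subset_span ⟨x, hx, rfl⟩, ?_⟩
      rw [← hmm]
      exact hlift x
    | zero => exact ⟨0, zero_mem _, by simp⟩
    | add x y hx hy ihx ihy =>
      rw [hs, Submodule.span_generators] at hx hy
      obtain ⟨a, ha, ha'⟩ := ihx hx
      obtain ⟨b, hb, hb'⟩ := ihy hy
      refine ⟨a + b, add_mem ha hb, ?_⟩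
      have e : x + y - algebraMap A (Loc aug) (a + b) =
          (x - algebraMap A (Loc aug) a) + (y - algebraMap A (Loc aug) b) := by
        rw [map_add]; ring
      rw [e]
      exact add_mem ha' hb'
    | smul c x hx ihx =>
      rw [hs, Submodule.span_generators] at hx
      obtain ⟨a, ha, ha'⟩ := ihx hx
      obtain ⟨k, hk⟩ := exists_residue aug c
      refine ⟨k • a, Submodule.smul_mem _ _ ha, ?_⟩
      have e : c • x - algebraMap A (Loc aug) (k • a) =
          (c - algebraMap K (Loc aug) k) * x +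
            algebraMap K (Loc aug) k * (x - algebraMap A (Loc aug) a) := by
        have e1 : k • a = algebraMap K A k * a := Algebra.smul_def k a
        rw [e1, map_mul, ← IsScalarTower.algebraMap_apply K A (Loc aug), smul_eq_mul]
        ring
      rw [e]
      refine add_mem ?_ (Ideal.mul_mem_left _ _ ha')
      rw [sq]
      exact Ideal.mul_mem_mul hk hx
  have hspan : Submodule.span K ((fun r => φ (lift r)) '' s) = ⊤ := by
    rw [eq_top_iff]
    rintro v -
    obtain ⟨a, ha, rfl⟩ := h1 v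
    have hr : algebraMap A (Loc aug) a ∈ maximalIdeal (Loc aug) := by
      rw [← map_ker_eq]
      exact Ideal.mem_map_of_mem _ ha
    obtain ⟨x, hx, hx'⟩ := hkey _ hr
    rw [← map_sub, ← hmm] at hx'
    have h3 := hφ2 _ (loc_inj aug hI hx')
    rw [map_sub, sub_eq_zero] at h3
    rw [h3]
    have h4 : φ x ∈ (Submodule.span K (lift '' s)).map φ := Submodule.mem_map_of_mem hx
    rw [Submodule.map_span, Set.image_image] at h4
    exact h4
  have hft : Fintype ((fun r => φ (lift r)) '' s) := (hsfin.image _).fintype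
  have hcard := finrank_span_le_card (R := K) ((fun r => φ (lift r)) '' s)
  rw [hspan, finrank_top, Module.finrank_fin_fun] at hcard
  rw [← Submodule.FG.generators_ncard hfg, ← hs]
  refine hcard.trans ?_
  rw [← Set.ncard_eq_toFinset_card']
  exact Set.ncard_image_le hsfin

lemma not_regular [IsNoetherianRing A] {d : ℕ} (h : (RingHom.ker aug).height = d)
    (φ : A →ₗ[K] (Fin (d + 1) → K))
    (h1 : ∀ v, ∃ a ∈ RingHom.ker aug, φ a = v)
    (h2 : ∀ a ∈ RingHom.ker aug, ∀ b ∈ RingHom.ker aug, φ (a * b) = 0) :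
    ¬ IsRegularLocalRing (Loc aug) := by
  intro hreg
  have h3 := hreg.spanFinrank_maximalIdeal
  rw [ringKrullDim_loc aug h] at h3
  have h4 := le_spanFinrank aug φ h1 h2
  have h5 : (maximalIdeal (Loc aug)).spanFinrank = d := by exact_mod_cast h3
  omega

end

end Pool.Agent.Helper720.HK
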