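import Pool.Agent.Helper720.HKDual

/-!
# Lower bound for `DD` from a syzygy, and the generic upper bound (semicontinuity)
-/

namespace Pool.Agent.Helper720.HK

open MvPolynomial

section lower

variable {K : Type*} [Field K]

lemma X_mem_Hge (i : Fin 2) : (X i : MvPolynomial (Fin 2) K) ∈ Hge K 1 := by
  rw [mem_Hge]
  intro m hm
  have : m = 0 := by
    ext j
    fin_cases j
    · change m 0 = 0
      omega
    · change m 1 = 0
      omega
  subst this
  exact coeff_zero_X i

lemma ff_mem_Hge (lam : K) : ff lam ∈ Hge K 4 := by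
  unfold ff
  have h0 := X_mem_Hge (K := K) 0
  have h1 := X_mem_Hge (K := K) 1
  have h2 : (X 1 - X 0 : MvPolynomial (Fin 2) K) ∈ Hge K 1 := sub_mem h1 h0
  have h3 : (X 0 - C lam * X 1 : MvPolynomial (Fin 2) K) ∈ Hge K 1 := by
    refine sub_mem h0 ?_
    rw [← smul_eq_C_mul]
    exact Submodule.smul_mem _ _ h1
  exact mul_mem_Hge (s := 1) (d := 3) (mem_Hge.1 (mul_mem_Hge (s := 1) (d := 2)
    (mem_Hge.1 (mul_mem_Hge (s := 1) (d := 1) (mem_Hge.1 h0) h1)) h2)) h3

lemma ff_pow_mem_Hge (lam : K) (n : ℕ) : ff lam ^ n ∈ Hge K (4 * n) := by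
  induction n with
  | zero =>
    rw [mem_Hge]
    intro m hm
    omega
  | succ n ih =>
    rw [pow_succ']
    have := mul_mem_Hge (s := 4 * n) (d := 4) (mem_Hge.1 (ff_mem_Hge lam)) ih
    have e : 4 + 4 * n = 4 * (n + 1) := by ring
    rwa [e] at this

theorem DD_lower {lam : K} {q n d1 d2 : ℕ} {h : MvPolynomial (Fin 2) K} (h0 : h ≠ 0)
    (hh : h.totalDegree ≤ d1) (hgh : ff lam ^ n * h ∈ Iq K q)
    (hd : d1 + d2 + 4 * n = 2 * q) (hlt : d1 < d2) :
    q ^ 2 ≤ DD lam q n + d1 * d2 := by
  have h1 := DD_add_range lam q n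
  have h2 := finrank_range_le_of_syzygy (q := q) (g := ff lam ^ n) (h := h) (δ := 4 * n)
    (d1 := d1) (d2 := d2) (mem_Hge.1 (ff_pow_mem_Hge lam n)) h0 (by
      intro m hm
      apply coeff_eq_zero_of_totalDegree_lt
      have e : (∑ i ∈ m.support, m i) = m 0 + m 1 := by
        have := Finsupp.sum_fintype m (fun _ a => a) (by simp)
        rw [Fin.sum_univ_two] at this
        exact this
      rw [e]
      omega) hgh hd hlt
  omega

end lower

section semi

/-- polynomial from a coefficient function on the box -/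
noncomputable def bp {R : Type*} [CommRing R] (m : ℕ) (c : Box m → R) : MvPolynomial (Fin 2) R :=
  ∑ i : Box m, monomial i.1 (c i)

lemma coeff_bp {R : Type*} [CommRing R] (m : ℕ) (c : Box m → R) (i : Box m) :
    coeff i.1 (bp m c) = c i := by
  classical
  rw [bp, coeff_sum, Finset.sum_eq_single i]
  · simp
  · intro b _ hb
    rw [coeff_monomial, if_neg]
    exact fun h => hb (Subtype.ext h)
  · simp

lemma coeff_bp_of_notMem {R : Type*} [CommRing R] (m : ℕ) (c : Box m → R) {j : Fin 2 →₀ ℕ}
    (hj : j ∉ Box m) : coeff j (bp m c) = 0 := by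
  classical
  rw [bp, coeff_sum]
  refine Finset.sum_eq_zero fun b _ => ?_
  rw [coeff_monomial, if_neg]
  rintro rfl
  exact hj b.2

/-- matrix of multiplication by `f^n` from the small box to the large box -/
noncomputable def Amat {R : Type*} [CommRing R] (lam : R) (q n m : ℕ) : Matrix (Box q) (Box m) R :=
  fun j i => coeff j.1 (ff lam ^ n * monomial i.1 1)

lemma Amat_map {R R' : Type*} [CommRing R] [CommRing R'] (φ : R →+* R') (lam : R) (q n m : ℕ) :
    (Amat lam q n m).map φ = Amat (φ lam) q n m := by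
  ext j i
  rw [Matrix.map_apply, Amat, Amat, ← coeff_map]
  simp [ff]

lemma Amat_mulVec {R : Type*} [CommRing R] (lam : R) (q n m : ℕ) (c : Box m → R) :
    (Amat lam q n m).mulVec c = rho R q (ff lam ^ n * bp m c) := by
  funext j
  rw [rho_apply, bp, Finset.mul_sum, coeff_sum]
  simp only [Matrix.mulVec, dotProduct, Amat]
  refine Finset.sum_congr rfl fun i _ => ?_
  have : (monomial i.1 (c i) : MvPolynomial (Fin 2) R) = C (c i) * monomial i.1 1 := by
    rw [C_mul_monomial, mul_one]
  rw [this]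
  have e : ff lam ^ n * (C (c i) * monomial i.1 1) = C (c i) * (ff lam ^ n * monomial i.1 1) := by
    ring
  rw [e, coeff_C_mul, mul_comm]

lemma X_pow_dvd_iff' {K : Type*} [Field K] {k : ℕ} {u : MvPolynomial (Fin 2) K} :
    (X 0 : MvPolynomial (Fin 2) K) ^ k ∣ u ↔ ∀ j : Fin 2 →₀ ℕ, j 0 < k → coeff j u = 0 := by
  rw [X_pow_eq_monomial, monomial_one_dvd_iff_modMonomial_eq_zero]
  have hle : ∀ j : Fin 2 →₀ ℕ, Finsupp.single 0 k ≤ j ↔ k ≤ j 0 := by
    intro j
    exact Finsupp.single_le_iff
  constructor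
  · intro h j hj
    have := coeff_modMonomial_of_not_le (s' := j) (s := Finsupp.single 0 k) u
      (by rw [hle]; omega)
    rw [h, coeff_zero] at this
    exact this.symm
  · intro h
    ext j
    rw [coeff_zero]
    by_cases hj : Finsupp.single 0 k ≤ j
    · exact coeff_modMonomial_of_le u hj
    · rw [coeff_modMonomial_of_not_le u hj]
      rw [hle] at hj
      exact h j (by omega)

lemma deg1_mul {K : Type*} [Field K] {k : ℕ} {u : MvPolynomial (Fin 2) K}
    (h : ∀ j : Fin 2 →₀ ℕ, k ≤ j 1 → coeff j u = 0) (n : ℕ) :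
    ∀ j : Fin 2 →₀ ℕ, k + n ≤ j 1 → coeff j ((X 1 - X 0) ^ n * u) = 0 := by
  induction n with
  | zero =>
    intro j hj
    rw [pow_zero, one_mul]
    exact h j hj
  | succ n ih =>
    intro j hj
    have e : ((X 1 - X 0) ^ (n + 1) * u : MvPolynomial (Fin 2) K) =
        X 1 * ((X 1 - X 0) ^ n * u) - X 0 * ((X 1 - X 0) ^ n * u) := by ring
    rw [e, coeff_sub, coeff_X_mul', coeff_X_mul']
    have h1 : coeff (j - Finsupp.single 1 1) ((X 1 - X 0) ^ n * u) = 0 := by
      apply ih
      have : (j - Finsupp.single 1 1 : Fin 2 →₀ ℕ) 1 = j 1 - 1 := by simp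
      rw [this]
      omega
    have h2 : coeff (j - Finsupp.single 0 1) ((X 1 - X 0) ^ n * u) = 0 := by
      apply ih
      have : (j - Finsupp.single 0 1 : Fin 2 →₀ ℕ) 1 = j 1 := by simp
      rw [this]
      omega
    rw [h1, h2]
    simp

lemma injective_at_zero {K : Type*} [Field K] {q n m : ℕ} (hm : m + 2 * n = q) (c : Box m → K)
    (h : rho K q (ff (0 : K) ^ n * bp m c) = 0) : c = 0 := by
  have hu : ff (0 : K) ^ n * bp m c =
      monomial (Finsupp.single 0 (2 * n) + Finsupp.single 1 n) 1 *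
        ((X 1 - X 0) ^ n * bp m c) := by
    have e : (monomial (Finsupp.single 0 (2 * n) + Finsupp.single 1 n) 1 :
        MvPolynomial (Fin 2) K) = X 0 ^ (2 * n) * X 1 ^ n := by
      rw [X_pow_eq_monomial, X_pow_eq_monomial, monomial_mul, one_mul]
    rw [e, ff, map_zero, zero_mul, sub_zero, mul_pow, mul_pow, mul_pow]
    ring
  set u := (X 1 - X 0) ^ n * bp m c with hudef
  have hdeg := deg1_mul (K := K) (k := m) (u := bp m c)
    (fun j hj => coeff_bp_of_notMem m c (fun hb => by have := hb 1; omega)) n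
  have hvan : ∀ j : Fin 2 →₀ ℕ, j 0 < m → coeff j u = 0 := by
    intro j hj
    by_cases h1 : m + n ≤ j 1
    · exact hdeg j h1
    · have hb : (Finsupp.single 0 (2 * n) + Finsupp.single 1 n + j) ∈ Box q := by
        intro i
        fin_cases i
        · simp only [Finsupp.coe_add, Pi.add_apply]
          simp
          omega
        · simp only [Finsupp.coe_add, Pi.add_apply]
          simp
          omega
      have h2 := congrFun h ⟨_, hb⟩
      rw [rho_apply, hu] at h2
      simp only [Pi.zero_apply] at h2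
      rw [coeff_monomial_mul, one_mul] at h2
      exact h2
  have hdvd : (X 0 : MvPolynomial (Fin 2) K) ^ m ∣ u := X_pow_dvd_iff'.2 hvan
  have hnd : ¬ (X 0 : MvPolynomial (Fin 2) K) ∣ (X 1 - X 0) ^ n := by
    intro hd
    have h3 := (X_prime (σ := Fin 2) (R := K) (i := 0)).dvd_of_dvd_pow hd
    have h4 : (X 0 : MvPolynomial (Fin 2) K) ∣ X 1 := by
      have := dvd_add h3 (dvd_refl (X 0))
      rwa [sub_add_cancel] at this
    rw [X_dvd_X] at h4
    exact absurd h4 (by decide)
  have hdvd2 : (X 0 : MvPolynomial (Fin 2) K) ^ m ∣ bp m c :=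
    (X_prime (σ := Fin 2) (R := K) (i := 0)).pow_dvd_of_dvd_mul_left m hnd hdvd
  rw [X_pow_dvd_iff'] at hdvd2
  funext i
  rw [← coeff_bp m c i, Pi.zero_apply]
  exact hdvd2 i.1 (i.2 0)

/-- the determinant polynomial -/
noncomputable def detPoly (p : ℕ) [Fact p.Prime] (q n m : ℕ)
    (N : Matrix (Box m) (Box q) (ZMod p)) : Polynomial (ZMod p) :=
  ((N.map (Polynomial.C : ZMod p →+* Polynomial (ZMod p))) *
      Amat (Polynomial.X : Polynomial (ZMod p)) q n m).det

lemma aeval_detPoly (p : ℕ) [Fact p.Prime] (q n m : ℕ)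
    (N : Matrix (Box m) (Box q) (ZMod p)) (K : Type*) [Field K] [Algebra (ZMod p) K] (lam : K) :
    Polynomial.aeval lam (detPoly p q n m N) =
      ((N.map (algebraMap (ZMod p) K)) * Amat lam q n m).det := by
  have h1 : (Polynomial.aeval lam : Polynomial (ZMod p) →ₐ[ZMod p] K) (detPoly p q n m N) =
      (Polynomial.aeval lam : Polynomial (ZMod p) →ₐ[ZMod p] K).toRingHom
        (detPoly p q n m N) := rfl
  rw [h1, detPoly, RingHom.map_det]
  have h2 : ((Polynomial.aeval lam : Polynomial (ZMod p) →ₐ[ZMod p] K).toRingHom.mapMatrix)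
      ((N.map (Polynomial.C : ZMod p →+* Polynomial (ZMod p))) *
      Amat (Polynomial.X : Polynomial (ZMod p)) q n m) =
      (N.map (algebraMap (ZMod p) K)) * Amat lam q n m := by
    rw [RingHom.mapMatrix_apply, Matrix.map_mul, Amat_map]
    congr 1
    · ext i j
      simp
    · simp
  exact congrArg Matrix.det h2

/-- There is a nonzero polynomial `H` over `F_p` such that for all `λ` (in any field of
characteristic `p`) with `H(λ) ≠ 0` one has `D_q(n) ≤ q² - (q-2n)²`. -/
theorem exists_generic (p : ℕ) [Fact p.Prime] (q n m : ℕ) (hm : m + 2 * n = q) :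
    ∃ H : Polynomial (ZMod p), H ≠ 0 ∧
      ∀ (K : Type*) [Field K] [Algebra (ZMod p) K] (lam : K),
      Polynomial.aeval lam H ≠ 0 → DD lam q n + m ^ 2 ≤ q ^ 2 := by
  have hinj : Function.Injective (Matrix.mulVecLin (Amat (0 : ZMod p) q n m)) := by
    rw [injective_iff_map_eq_zero]
    intro c hc
    rw [Matrix.mulVecLin_apply, Amat_mulVec] at hc
    exact injective_at_zero hm c hc
  obtain ⟨G, hG⟩ := LinearMap.exists_leftInverse_of_injective _ (LinearMap.ker_eq_bot.2 hinj)
  set N := LinearMap.toMatrix' G with hN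
  have hNA : N * Amat (0 : ZMod p) q n m = 1 := by
    have := congrArg LinearMap.toMatrix' hG
    rwa [LinearMap.toMatrix'_comp, LinearMap.toMatrix'_id, ← Matrix.toLin'_apply',
      LinearMap.toMatrix'_toLin'] at this
  refine ⟨detPoly p q n m N, ?_, ?_⟩
  · intro hH
    have h1 := aeval_detPoly p q n m N (ZMod p) 0
    rw [hH, map_zero] at h1
    have h2 : N.map (algebraMap (ZMod p) (ZMod p)) = N := by
      ext i j
      simp
    rw [h2, hNA, Matrix.det_one] at h1
    exact zero_ne_one h1
  · intro K _ _ lam hlam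
    rw [aeval_detPoly] at hlam
    have hA : Function.Injective (Matrix.mulVecLin (Amat lam q n m)) := by
      rw [injective_iff_map_eq_zero]
      intro c hc
      rw [Matrix.mulVecLin_apply] at hc
      have h1 : ((N.map (algebraMap (ZMod p) K)) * Amat lam q n m).mulVec c = 0 := by
        rw [← Matrix.mulVec_mulVec, hc, Matrix.mulVec_zero]
      exact Matrix.eq_zero_of_mulVec_eq_zero hlam h1
    have hle : LinearMap.range (Matrix.mulVecLin (Amat lam q n m)) ≤
        LinearMap.range (Psi q (ff lam ^ n)) := by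
      rintro w ⟨c, rfl⟩
      rw [Matrix.mulVecLin_apply, Amat_mulVec]
      exact ⟨bp m c, rfl⟩
    have h1 := Submodule.finrank_mono hle
    rw [LinearMap.finrank_range_of_inj hA, Module.finrank_fintype_fun_eq_card, card_box'] at h1
    have h2 := DD_add_range lam q n
    omega

end semi

end Pool.Agent.Helper720.HK
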