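import Pool.Agent.Helper720.HKSemi

/-!
# The special syzygies for `λ` of even degree
-/

namespace Pool.Agent.Helper720.HK

open MvPolynomial

section ring

variable {R : Type*} [CommRing R]

/-- the four direction vectors -/
def vc (m : R) : Fin 4 → Fin 2 → R := ![![0, 1], ![1, 1], ![1, 0], ![m, 1]]

/-- the four linear forms -/
def lin (l x y : R) (i : Fin 4) : R := vc l i 1 * x - vc l i 0 * y

/-- the symmetric matrix of quadratic forms -/
def QQ (l m x y : R) : Matrix (Fin 2) (Fin 2) R :=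
  !![y * ((m - l) * x + l * (1 - m) * y), m * (l - 1) * x * y;
     m * (l - 1) * x * y, m * x * ((1 - m) * x + (m - l) * y)]

lemma vc_one (m : R) (i : Fin 4) : vc m i 0 = 1 ∨ vc m i 1 = 1 := by
  fin_cases i <;> simp [vc]

lemma vc_map {R' : Type*} [CommRing R'] (φ : R →+* R') (m : R) (i : Fin 4) (j : Fin 2) :
    φ (vc m i j) = vc (φ m) i j := by
  fin_cases i <;> fin_cases j <;> simp [vc]

lemma lin_map {R' : Type*} [CommRing R'] (φ : R →+* R') (l x y : R) (i : Fin 4) :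
    φ (lin l x y i) = lin (φ l) (φ x) (φ y) i := by
  rw [lin, map_sub, map_mul, map_mul, vc_map, vc_map, lin]

lemma QQ_map {R' : Type*} [CommRing R'] (φ : R →+* R') (l m x y : R) :
    (QQ l m x y).map φ = QQ (φ l) (φ m) (φ x) (φ y) := by
  ext i j
  fin_cases i <;> fin_cases j <;> simp [QQ]

lemma QQ_mul_v (l m x y : R) (i : Fin 4) :
    ∃ u : Fin 2 → R, ∀ r, QQ l m x y r 0 * vc m i 0 + QQ l m x y r 1 * vc m i 1 =
      lin l x y i * u r := by
  fin_cases i
  · refine ⟨![m * (l - 1) * y, m * ((1 - m) * x + (m - l) * y)], fun r => ?_⟩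
    fin_cases r <;> simp [QQ, vc, lin] <;> ring
  · refine ⟨![l * (m - 1) * y, m * x * (1 - m)], fun r => ?_⟩
    fin_cases r <;> simp [QQ, vc, lin] <;> ring
  · refine ⟨![-((m - l) * x + l * (1 - m) * y), -(m * (l - 1) * x)], fun r => ?_⟩
    fin_cases r <;> simp [QQ, vc, lin] <;> ring
  · refine ⟨![m * y * (m - 1), m * x * (1 - m)], fun r => ?_⟩
    fin_cases r <;> simp [QQ, vc, lin] <;> ring

lemma QQ_symm (l m x y : R) (i j : Fin 2) : QQ l m x y i j = QQ l m x y j i := by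
  fin_cases i <;> fin_cases j <;> simp [QQ]

lemma QQ_det (l m x y : R) : (QQ l m x y).det =
    -(m * (1 - m) * (m - l) * (∏ i, lin l x y i)) := by
  rw [Matrix.det_fin_two, Fin.prod_univ_four]
  simp [QQ, lin, vc]
  ring

lemma rankone {a b v : Fin 2 → R} {δ : R} (hv : v 0 = 1 ∨ v 1 = 1)
    (h1 : δ ∣ a 0 * v 0 + a 1 * v 1) (h2 : δ ∣ v 1 * b 0 - v 0 * b 1) :
    δ ∣ a 0 * b 0 + a 1 * b 1 := by
  rcases hv with hv | hv
  · have e : a 0 * b 0 + a 1 * b 1 =
        b 0 * (a 0 * v 0 + a 1 * v 1) - a 1 * (v 1 * b 0 - v 0 * b 1) := by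
      rw [hv]; ring
    rw [e]
    exact dvd_sub (h1.mul_left _) (h2.mul_left _)
  · have e : a 0 * b 0 + a 1 * b 1 =
        a 0 * (v 1 * b 0 - v 0 * b 1) + b 1 * (a 0 * v 0 + a 1 * v 1) := by
      rw [hv]; ring
    rw [e]
    exact dvd_add (h2.mul_left _) (h1.mul_left _)

/-- from `ℓ ∣ w·τ` to `τ = κ v + ℓ r` -/
lemma decomp {τ v : Fin 2 → R} {δ : R} (hv : v 0 = 1 ∨ v 1 = 1)
    (h : δ ∣ v 1 * τ 0 - v 0 * τ 1) : ∃ (κ : R) (r : Fin 2 → R), ∀ c, τ c = κ * v c + δ * r c := by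
  obtain ⟨t, ht⟩ := h
  rcases hv with hv | hv
  · refine ⟨τ 0, ![0, -t], fun c => ?_⟩
    fin_cases c
    · simp [hv]
    · simp only [Fin.mk_one, Matrix.cons_val_one, Matrix.cons_val_fin_one]
      rw [hv] at ht
      linear_combination -ht
  · refine ⟨τ 1, ![t, 0], fun c => ?_⟩
    fin_cases c
    · simp only [Fin.zero_eta, Matrix.cons_val_zero]
      rw [hv] at ht
      linear_combination ht
    · simp [hv]

end ring

section domain

variable {K : Type*} [Field K]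

lemma relprime_X : IsRelPrime (X 0 : MvPolynomial (Fin 2) K) (X 1) := by
  have hX := (X_prime (σ := Fin 2) (R := K) (i := 0)).irreducible
  rw [hX.isRelPrime_iff_not_dvd]
  rw [X_dvd_X]
  decide

lemma vc_det {lam : K} (h0 : lam ≠ 0) (h1 : lam ≠ 1) {i j : Fin 4} (hij : i ≠ j) :
    vc lam i 1 * vc lam j 0 - vc lam i 0 * vc lam j 1 ≠ 0 := by
  have h1' : lam - 1 ≠ 0 := sub_ne_zero.2 h1
  have h1'' : 1 - lam ≠ 0 := sub_ne_zero.2 (Ne.symm h1)
  fin_cases i <;> fin_cases j <;> simp_all [vc]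

lemma lin_C (lam : K) (i : Fin 4) : lin (C lam : MvPolynomial (Fin 2) K) (X 0) (X 1) i =
    C (vc lam i 1) * X 0 - C (vc lam i 0) * X 1 := by
  rw [lin, vc_map, vc_map]

lemma relprime_lin {lam : K} (h0 : lam ≠ 0) (h1 : lam ≠ 1) {i j : Fin 4} (hij : i ≠ j) :
    IsRelPrime (lin (C lam : MvPolynomial (Fin 2) K) (X 0) (X 1) i)
      (lin (C lam : MvPolynomial (Fin 2) K) (X 0) (X 1) j) := by
  intro d hi hj
  have hdet := vc_det h0 h1 hij
  set D := vc lam i 1 * vc lam j 0 - vc lam i 0 * vc lam j 1 with hD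
  rw [lin_C] at hi hj
  have hX0 : d ∣ C D * X 0 := by
    have : (C D * X 0 : MvPolynomial (Fin 2) K) =
        C (vc lam j 0) * (C (vc lam i 1) * X 0 - C (vc lam i 0) * X 1) -
        C (vc lam i 0) * (C (vc lam j 1) * X 0 - C (vc lam j 0) * X 1) := by
      rw [hD]
      simp only [map_sub, map_mul]
      ring
    rw [this]
    exact dvd_sub (hi.mul_left _) (hj.mul_left _)
  have hX1 : d ∣ C D * X 1 := by
    have : (C D * X 1 : MvPolynomial (Fin 2) K) =
        C (vc lam j 1) * (C (vc lam i 1) * X 0 - C (vc lam i 0) * X 1) -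
        C (vc lam i 1) * (C (vc lam j 1) * X 0 - C (vc lam j 0) * X 1) := by
      rw [hD]
      simp only [map_sub, map_mul]
      ring
    rw [this]
    exact dvd_sub (hi.mul_left _) (hj.mul_left _)
  have hu : IsUnit (C D : MvPolynomial (Fin 2) K) := (IsUnit.mk0 D hdet).map C
  exact relprime_X (hu.dvd_mul_left.1 hX0) (hu.dvd_mul_left.1 hX1)

lemma prod_lin (lam : K) :
    ∏ i, lin (C lam : MvPolynomial (Fin 2) K) (X 0) (X 1) i = ff lam := by
  rw [Fin.prod_univ_four]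
  simp [lin, vc, ff]
  ring

lemma ff_pow_dvd {lam : K} (h0 : lam ≠ 0) (h1 : lam ≠ 1) {n : ℕ} {z : MvPolynomial (Fin 2) K}
    (h : ∀ i, lin (C lam : MvPolynomial (Fin 2) K) (X 0) (X 1) i ^ n ∣ z) :
    ff lam ^ n ∣ z := by
  rw [← prod_lin, ← Finset.prod_pow]
  refine Finset.prod_dvd_of_isRelPrime ?_ (fun i _ => h i)
  intro i _ j _ hij
  exact (relprime_lin h0 h1 hij).pow

lemma ff_ne_zero (lam : K) : ff lam ≠ 0 := by
  have hX0 : (X 0 : MvPolynomial (Fin 2) K) ≠ 0 := X_ne_zero 0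
  have hX1 : (X 1 : MvPolynomial (Fin 2) K) ≠ 0 := X_ne_zero 1
  have h2 : (X 1 - X 0 : MvPolynomial (Fin 2) K) ≠ 0 := by
    rw [sub_ne_zero]
    intro h
    have h2 : (X 0 : MvPolynomial (Fin 2) K) ∣ X 1 := by rw [h]
    rw [X_dvd_X] at h2
    exact absurd h2 (by decide)
  have h3 : (X 0 - C lam * X 1 : MvPolynomial (Fin 2) K) ≠ 0 := by
    rw [sub_ne_zero]
    intro h
    have h2 : (X 1 : MvPolynomial (Fin 2) K) ∣ X 0 := by rw [h]; exact dvd_mul_left _ _
    rw [X_dvd_X] at h2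
    exact absurd h2 (by decide)
  unfold ff
  exact mul_ne_zero (mul_ne_zero (mul_ne_zero hX0 hX1) h2) h3

lemma le_totalDegree_of_mem_Hge {s : ℕ} {g : MvPolynomial (Fin 2) K} (h : g ∈ Hge K s)
    (h0 : g ≠ 0) : s ≤ g.totalDegree := by
  obtain ⟨m, hm⟩ := MvPolynomial.support_nonempty.2 h0
  have h1 := le_totalDegree hm
  have e : (m.sum fun _ e => e) = m 0 + m 1 := by
    rw [Finsupp.sum_fintype m (fun _ a => a) (by simp), Fin.sum_univ_two]
  rw [e] at h1
  refine le_trans ?_ h1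
  by_contra hc
  exact (mem_support_iff.1 hm) (mem_Hge.1 h m (not_le.1 hc))

lemma totalDegree_of_ff_pow_mul {lam : K} {n : ℕ} {T B : MvPolynomial (Fin 2) K}
    (h : ff lam ^ n * T = B) (hT : T ≠ 0) : 4 * n + T.totalDegree ≤ B.totalDegree := by
  rw [← h, totalDegree_mul_of_isDomain (pow_ne_zero _ (ff_ne_zero lam)) hT]
  exact Nat.add_le_add_right
    (le_totalDegree_of_mem_Hge (ff_pow_mem_Hge lam n) (pow_ne_zero _ (ff_ne_zero lam))) _

end domain

end Pool.Agent.Helper720.HK
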