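import Pool.Agent.Helper720.HKSyz

/-!
# The special syzygies for `λ` of even degree: the recursion
-/

namespace Pool.Agent.Helper720.HK

open MvPolynomial

variable {K : Type*} [Field K] (p : ℕ) [Fact p.Prime] [CharP K p] (lam : K)

/-- the matrix `Q_e` -/
noncomputable def AA (e : ℕ) : Matrix (Fin 2) (Fin 2) (MvPolynomial (Fin 2) K) :=
  QQ (C lam) (C (lam ^ p ^ e)) (X 0) (X 1)

/-- the linear forms -/
noncomputable def LL (i : Fin 4) : MvPolynomial (Fin 2) K := lin (C lam) (X 0) (X 1) i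

/-- the vectors -/
noncomputable def vv (e : ℕ) (i : Fin 4) (c : Fin 2) : MvPolynomial (Fin 2) K :=
  vc (C (lam ^ p ^ e)) i c

omit [Fact p.Prime] [CharP K p] in
lemma vv_one (e : ℕ) (i : Fin 4) : vv p lam e i 0 = 1 ∨ vv p lam e i 1 = 1 := vc_one _ _

lemma vv_pow (e : ℕ) (i : Fin 4) (c : Fin 2) : vv p lam e i c ^ p = vv p lam (e + 1) i c := by
  have h := vc_map (frobenius (MvPolynomial (Fin 2) K) p) (C (lam ^ p ^ e)) i c
  rw [frobenius_def, frobenius_def, ← C_pow, ← pow_mul, ← pow_succ] at h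
  exact h

omit [Fact p.Prime] [CharP K p] in
lemma AA_mul_v (e : ℕ) (i : Fin 4) : ∃ u : Fin 2 → MvPolynomial (Fin 2) K,
    ∀ r, AA p lam e r 0 * vv p lam e i 0 + AA p lam e r 1 * vv p lam e i 1 = LL lam i * u r :=
  QQ_mul_v _ _ _ _ _

lemma AA_pow_mul_v (e : ℕ) (i : Fin 4) : ∃ u : Fin 2 → MvPolynomial (Fin 2) K,
    ∀ r, AA p lam e r 0 ^ p * vv p lam (e + 1) i 0 + AA p lam e r 1 ^ p * vv p lam (e + 1) i 1 =
      LL lam i ^ p * u r := by
  obtain ⟨u, hu⟩ := AA_mul_v p lam e i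
  refine ⟨fun r => u r ^ p, fun r => ?_⟩
  rw [← mul_pow, ← hu r, add_pow_char, mul_pow, mul_pow, vv_pow, vv_pow]

omit [Fact p.Prime] [CharP K p] in
lemma AA_symm (e : ℕ) (i j : Fin 2) : AA p lam e i j = AA p lam e j i := QQ_symm _ _ _ _ _ _

omit [Fact p.Prime] [CharP K p] in
lemma AA_det_ne {e : ℕ} (h0 : lam ≠ 0) (h1 : lam ^ p ^ e ≠ 1) (h2 : lam ^ p ^ e ≠ lam) :
    (AA p lam e).det ≠ 0 := by
  rw [AA, QQ_det, prod_lin, neg_ne_zero]
  refine mul_ne_zero ?_ (ff_ne_zero lam)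
  have e1 : (C (lam ^ p ^ e) * (1 - C (lam ^ p ^ e)) * (C (lam ^ p ^ e) - C lam) :
      MvPolynomial (Fin 2) K) = C (lam ^ p ^ e * (1 - lam ^ p ^ e) * (lam ^ p ^ e - lam)) := by
    simp only [map_mul, map_sub, map_one]
  rw [e1, Ne, C_eq_zero]
  exact mul_ne_zero (mul_ne_zero (pow_ne_zero _ h0) (sub_ne_zero.2 (Ne.symm h1)))
    (sub_ne_zero.2 h2)

section degrees

omit [Fact p.Prime] [CharP K p]

lemma td_mul {a b : MvPolynomial (Fin 2) K} {d e : ℕ} (ha : a.totalDegree ≤ d)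
    (hb : b.totalDegree ≤ e) : (a * b).totalDegree ≤ d + e :=
  (totalDegree_mul a b).trans (add_le_add ha hb)

lemma td_add {a b : MvPolynomial (Fin 2) K} {d : ℕ} (ha : a.totalDegree ≤ d)
    (hb : b.totalDegree ≤ d) : (a + b).totalDegree ≤ d :=
  (totalDegree_add a b).trans (max_le ha hb)

lemma td_sub {a b : MvPolynomial (Fin 2) K} {d : ℕ} (ha : a.totalDegree ≤ d)
    (hb : b.totalDegree ≤ d) : (a - b).totalDegree ≤ d :=
  (totalDegree_sub a b).trans (max_le ha hb)

lemma td_C (a : K) : (C a : MvPolynomial (Fin 2) K).totalDegree ≤ 0 := (totalDegree_C a).le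

lemma td_X (i : Fin 2) : (X i : MvPolynomial (Fin 2) K).totalDegree ≤ 1 := (totalDegree_X i).le

lemma td_one : (1 : MvPolynomial (Fin 2) K).totalDegree ≤ 0 := totalDegree_one.le

lemma td_pow {a : MvPolynomial (Fin 2) K} {d : ℕ} (ha : a.totalDegree ≤ d) (n : ℕ) :
    (a ^ n).totalDegree ≤ n * d :=
  (totalDegree_pow a n).trans (Nat.mul_le_mul_left n ha)

lemma QQ_td {l m x y : MvPolynomial (Fin 2) K} (hl : l.totalDegree ≤ 0)
    (hm : m.totalDegree ≤ 0) (hx : x.totalDegree ≤ 1) (hy : y.totalDegree ≤ 1) (i j : Fin 2) :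
    (QQ l m x y i j).totalDegree ≤ 2 := by
  have h1 := td_one (K := K)
  have hml := td_sub hm hl
  have h1m := td_sub h1 hm
  have hl1 := td_sub hl h1
  have a1 : ((m - l) * x + l * (1 - m) * y).totalDegree ≤ 1 :=
    td_add ((td_mul hml hx).trans (by norm_num)) ((td_mul (td_mul hl h1m) hy).trans (by norm_num))
  have a2 : ((1 - m) * x + (m - l) * y).totalDegree ≤ 1 :=
    td_add ((td_mul h1m hx).trans (by norm_num)) ((td_mul hml hy).trans (by norm_num))
  have hb : (m * (l - 1) * x * y).totalDegree ≤ 2 :=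
    (td_mul (td_mul (td_mul hm hl1) hx) hy).trans (by norm_num)
  have ha : (y * ((m - l) * x + l * (1 - m) * y)).totalDegree ≤ 2 :=
    (td_mul hy a1).trans (by norm_num)
  have hc : (m * x * ((1 - m) * x + (m - l) * y)).totalDegree ≤ 2 :=
    (td_mul (td_mul hm hx) a2).trans (by norm_num)
  fin_cases i
  · fin_cases j
    · exact ha
    · exact hb
  · fin_cases j
    · exact hb
    · exact hc

lemma AA_td (e : ℕ) (i j : Fin 2) : (AA p lam e i j).totalDegree ≤ 2 :=
  QQ_td (td_C _) (td_C _) (td_X 0) (td_X 1) i j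

lemma adj_td (e : ℕ) (i j : Fin 2) : ((AA p lam e).adjugate i j).totalDegree ≤ 2 := by
  rw [Matrix.adjugate_fin_two]
  fin_cases i <;> fin_cases j <;> simp [AA_td]

end degrees

omit [Fact p.Prime] [CharP K p] in
lemma exists_cofactor {lam : K} (h0 : lam ≠ 0) (h1 : lam ≠ 1) (i : Fin 4) :
    ∃ g : MvPolynomial (Fin 2) K, ff lam = LL lam i * g ∧ IsRelPrime (LL lam i) g := by
  refine ⟨∏ j ∈ Finset.univ.erase i, LL lam j, ?_, ?_⟩
  · rw [← prod_lin]
    exact (Finset.mul_prod_erase Finset.univ (LL lam) (Finset.mem_univ i)).symm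
  · refine IsRelPrime.prod_right fun j hj => ?_
    exact relprime_lin h0 h1 (Ne.symm (Finset.ne_of_mem_erase hj))

omit [Fact p.Prime] [CharP K p] in
lemma LL_ne_zero {lam : K} (i : Fin 4) : LL lam i ≠ 0 := by
  have h := ff_ne_zero lam
  rw [← prod_lin] at h
  exact Finset.prod_ne_zero_iff.1 h i (Finset.mem_univ i)

lemma ff_dvd_entry {lam : K} (h0 : lam ≠ 0) (h1 : lam ≠ 1) (e : ℕ) (r c : Fin 2) :
    ff lam ∣ AA p lam e r 0 ^ p * (AA p lam (e + 1)).adjugate 0 c +
      AA p lam e r 1 ^ p * (AA p lam (e + 1)).adjugate 1 c := by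
  have hp : p ≠ 0 := (Fact.out : p.Prime).ne_zero
  rw [← pow_one (ff lam)]
  apply ff_pow_dvd h0 h1
  intro i
  rw [pow_one]
  change LL lam i ∣ _
  obtain ⟨u, hu⟩ := AA_pow_mul_v p lam e i
  obtain ⟨u', hu'⟩ := AA_mul_v p lam (e + 1) i
  refine rankone (a := fun k => AA p lam e r k ^ p)
    (b := fun k => (AA p lam (e + 1)).adjugate k c) (v := vv p lam (e + 1) i)
    (vv_one p lam (e + 1) i) ?_ ?_
  · rw [hu r]
    exact (dvd_pow_self _ hp).mul_right _
  · rw [Matrix.adjugate_fin_two]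
    fin_cases c
    · simp only [Matrix.of_apply, Matrix.cons_val', Matrix.cons_val_zero, Matrix.cons_val_one,
        Fin.zero_eta, Fin.isValue, Matrix.cons_val_fin_one]
      refine ⟨u' 1, ?_⟩
      rw [← hu' 1]
      ring
    · simp only [Matrix.of_apply, Matrix.cons_val', Matrix.cons_val_zero, Matrix.cons_val_one,
        Fin.mk_one, Fin.isValue, Matrix.cons_val_fin_one]
      refine ⟨-u' 0, ?_⟩
      linear_combination -(hu' 0)

lemma exists_T {lam : K} (h0 : lam ≠ 0) (h1 : lam ≠ 1) (e : ℕ)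
    (hd1 : (AA p lam e).det ≠ 0) (hd2 : (AA p lam (e + 1)).det ≠ 0) :
    ∃ T : Matrix (Fin 2) (Fin 2) (MvPolynomial (Fin 2) K),
      (∀ r c, (T r c).totalDegree ≤ 2 * (p - 1)) ∧ T.det ≠ 0 ∧
      ∀ i, ∃ (κ : MvPolynomial (Fin 2) K) (ρ : Fin 2 → MvPolynomial (Fin 2) K), ∀ c,
        T 0 c * vv p lam (e + 1) i 0 + T 1 c * vv p lam (e + 1) i 1 =
          LL lam i ^ (p - 1) * (κ * vv p lam (e + 1) i c + LL lam i * ρ c) := by
  have hp : 2 ≤ p := (Fact.out : p.Prime).two_le
  choose T hT using fun r c => ff_dvd_entry p h0 h1 e r c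
  refine ⟨Matrix.of T, ?_, ?_, ?_⟩
  · intro r c
    rw [Matrix.of_apply]
    by_cases hz : T r c = 0
    · rw [hz, totalDegree_zero]
      exact Nat.zero_le _
    · have h2 := totalDegree_of_ff_pow_mul (lam := lam) (n := 1) (T := T r c)
        (B := AA p lam e r 0 ^ p * (AA p lam (e + 1)).adjugate 0 c +
          AA p lam e r 1 ^ p * (AA p lam (e + 1)).adjugate 1 c)
        (by rw [pow_one]; exact (hT r c).symm) hz
      have h3 : (AA p lam e r 0 ^ p * (AA p lam (e + 1)).adjugate 0 c +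
          AA p lam e r 1 ^ p * (AA p lam (e + 1)).adjugate 1 c).totalDegree ≤ p * 2 + 2 :=
        td_add (td_mul (td_pow (AA_td p lam e r 0) p) (adj_td p lam (e + 1) 0 c))
          (td_mul (td_pow (AA_td p lam e r 1) p) (adj_td p lam (e + 1) 1 c))
      omega
  · intro hdet
    have hmat : ff lam • (Matrix.of T) =
        ((AA p lam e).map (frobenius (MvPolynomial (Fin 2) K) p)) *
          (AA p lam (e + 1)).adjugate := by
      ext1 r c
      rw [Matrix.smul_apply, Matrix.of_apply, smul_eq_mul, ← hT r c, Matrix.mul_apply,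
        Fin.sum_univ_two]
      rfl
    have h2 := congrArg Matrix.det hmat
    rw [Matrix.det_smul, hdet, mul_zero, Matrix.det_mul, Matrix.det_adjugate] at h2
    have h3 : ((AA p lam e).map (frobenius (MvPolynomial (Fin 2) K) p)).det =
        (AA p lam e).det ^ p := by
      rw [← frobenius_def, RingHom.map_det]
      rfl
    rw [h3] at h2
    have h4 : (AA p lam e).det ^ p * (AA p lam (e + 1)).det ^ (Fintype.card (Fin 2) - 1) ≠ 0 :=
      mul_ne_zero (pow_ne_zero _ hd1) (pow_ne_zero _ hd2)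
    exact h4 h2.symm
  · intro i
    obtain ⟨g, hg, hrel⟩ := exists_cofactor h0 h1 i
    obtain ⟨u, hu⟩ := AA_pow_mul_v p lam e i
    obtain ⟨u', hu'⟩ := AA_mul_v p lam (e + 1) i
    have hL := LL_ne_zero (lam := lam) i
    have key : ∀ c, ff lam * (T 0 c * vv p lam (e + 1) i 0 + T 1 c * vv p lam (e + 1) i 1) =
        LL lam i ^ p * ((AA p lam (e + 1)).adjugate 0 c * u 0 +
          (AA p lam (e + 1)).adjugate 1 c * u 1) := by
      intro c
      have e1 : ff lam * (T 0 c * vv p lam (e + 1) i 0 + T 1 c * vv p lam (e + 1) i 1) =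
          (ff lam * T 0 c) * vv p lam (e + 1) i 0 + (ff lam * T 1 c) * vv p lam (e + 1) i 1 := by
        ring
      have s01 := AA_symm p lam e 0 1
      have hu0 := hu 0
      have hu1 := hu 1
      rw [e1, ← hT 0 c, ← hT 1 c]
      rw [s01] at hu0 ⊢
      linear_combination (AA p lam (e + 1)).adjugate 0 c * hu0 +
        (AA p lam (e + 1)).adjugate 1 c * hu1
    have hpp : LL lam i ^ p = LL lam i * LL lam i ^ (p - 1) := by
      rw [← pow_succ']
      congr 1
      omega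
    have key2 : ∀ c, g * (T 0 c * vv p lam (e + 1) i 0 + T 1 c * vv p lam (e + 1) i 1) =
        LL lam i ^ (p - 1) * ((AA p lam (e + 1)).adjugate 0 c * u 0 +
          (AA p lam (e + 1)).adjugate 1 c * u 1) := by
      intro c
      have := key c
      rw [hg, hpp, mul_assoc, mul_assoc] at this
      exact mul_left_cancel₀ hL this
    have hdvd : ∀ c, LL lam i ^ (p - 1) ∣
        (T 0 c * vv p lam (e + 1) i 0 + T 1 c * vv p lam (e + 1) i 1) := by
      intro c
      refine (hrel.pow_left (m := p - 1)).dvd_of_dvd_mul_left ?_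
      rw [key2 c]
      exact dvd_mul_right _ _
    choose τ hτ using hdvd
    have key3 : ∀ c, g * τ c = (AA p lam (e + 1)).adjugate 0 c * u 0 +
          (AA p lam (e + 1)).adjugate 1 c * u 1 := by
      intro c
      have := key2 c
      rw [hτ c] at this
      have e2 : g * (LL lam i ^ (p - 1) * τ c) = LL lam i ^ (p - 1) * (g * τ c) := by ring
      rw [e2] at this
      exact mul_left_cancel₀ (pow_ne_zero _ hL) this
    have hw : LL lam i ∣ vv p lam (e + 1) i 1 * τ 0 - vv p lam (e + 1) i 0 * τ 1 := by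
      refine hrel.dvd_of_dvd_mul_left ?_
      have e3 : g * (vv p lam (e + 1) i 1 * τ 0 - vv p lam (e + 1) i 0 * τ 1) =
          LL lam i * (u' 1 * u 0 - u' 0 * u 1) := by
        have e4 : g * (vv p lam (e + 1) i 1 * τ 0 - vv p lam (e + 1) i 0 * τ 1) =
          vv p lam (e + 1) i 1 * (g * τ 0) - vv p lam (e + 1) i 0 * (g * τ 1) := by ring
        rw [e4, key3 0, key3 1, Matrix.adjugate_fin_two]
        simp only [Matrix.of_apply, Matrix.cons_val', Matrix.cons_val_zero, Matrix.cons_val_one,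
          Fin.isValue, Matrix.cons_val_fin_one]
        have hu0 := hu' 0
        have hu1 := hu' 1
        have s01 := AA_symm p lam (e + 1) 0 1
        rw [s01] at hu0 ⊢
        linear_combination u 0 * hu1 - u 1 * hu0
      rw [e3]
      exact dvd_mul_right _ _
    obtain ⟨κ, ρ, hκ⟩ := decomp (vv_one p lam (e + 1) i) hw
    refine ⟨κ, ρ, fun c => ?_⟩
    simp only [Matrix.of_apply]
    rw [hτ c, hκ c]

/-- the exponents `n_j` -/
def NN (p : ℕ) : ℕ → ℕ
  | 0 => 0
  | j + 1 => p ^ 2 * NN p j + (p - 1)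

lemma NN_spec {p : ℕ} (hp : 1 ≤ p) (j : ℕ) : (p + 1) * NN p j + 1 = p ^ (2 * j) := by
  induction j with
  | zero => simp [NN]
  | succ j ih =>
    obtain ⟨k, rfl⟩ := Nat.exists_eq_add_of_le hp
    have e : (1 + k) ^ (2 * (j + 1)) = (1 + k) ^ 2 * (1 + k) ^ (2 * j) := by ring
    rw [e, ← ih]
    simp only [NN, Nat.add_sub_cancel_left]
    ring

lemma exists_M {lam : K} (h0 : lam ≠ 0) (h1 : lam ≠ 1) (j : ℕ)
    (hd : ∀ e, 1 ≤ e → e ≤ 2 * j → (AA p lam e).det ≠ 0) :
    ∃ M : Matrix (Fin 2) (Fin 2) (MvPolynomial (Fin 2) K),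
      (∀ r c, (M r c).totalDegree ≤ 2 * NN p j) ∧ M.det ≠ 0 ∧
      ∀ i, ∃ (κ : MvPolynomial (Fin 2) K) (ρ : Fin 2 → MvPolynomial (Fin 2) K), ∀ c,
        M 0 c * vv p lam (2 * j) i 0 + M 1 c * vv p lam (2 * j) i 1 =
          LL lam i ^ (NN p j) * (κ * vv p lam (2 * j) i c + LL lam i * ρ c) := by
  have hp : 2 ≤ p := (Fact.out : p.Prime).two_le
  induction j with
  | zero =>
    refine ⟨1, ?_, ?_, ?_⟩
    · intro r c
      fin_cases r <;> fin_cases c <;> simp
    · simp
    · intro i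
      refine ⟨1, 0, fun c => ?_⟩
      fin_cases c
      · change (1 : Matrix (Fin 2) (Fin 2) (MvPolynomial (Fin 2) K)) 0 0 * _ +
          (1 : Matrix (Fin 2) (Fin 2) (MvPolynomial (Fin 2) K)) 1 0 * _ = _
        rw [Matrix.one_apply_eq, Matrix.one_apply_ne (by decide)]
        simp [NN]
      · change (1 : Matrix (Fin 2) (Fin 2) (MvPolynomial (Fin 2) K)) 0 1 * _ +
          (1 : Matrix (Fin 2) (Fin 2) (MvPolynomial (Fin 2) K)) 1 1 * _ = _
        rw [Matrix.one_apply_eq, Matrix.one_apply_ne (by decide)]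
        simp [NN]
  | succ j ih =>
    obtain ⟨M, hM1, hM2, hM3⟩ := ih (fun e h1 h2 => hd e h1 (by omega))
    obtain ⟨T, hT1, hT2, hT3⟩ := exists_T p h0 h1 (2 * j + 1) (hd _ (by omega) (by omega))
      (hd _ (by omega) (by omega))
    have hidx : 2 * j + 1 + 1 = 2 * (j + 1) := by ring
    rw [hidx] at hT3
    set φ2 : MvPolynomial (Fin 2) K →+* MvPolynomial (Fin 2) K :=
      (frobenius (MvPolynomial (Fin 2) K) p).comp (frobenius (MvPolynomial (Fin 2) K) p) with hφ2
    have hφ : ∀ s, φ2 s = s ^ (p ^ 2) := by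
      intro s
      rw [hφ2, RingHom.comp_apply, frobenius_def, frobenius_def, ← pow_mul, sq]
    have hφv : ∀ i c, φ2 (vv p lam (2 * j) i c) = vv p lam (2 * (j + 1)) i c := by
      intro i c
      rw [hφ2, RingHom.comp_apply, frobenius_def, frobenius_def, vv_pow, vv_pow, hidx]
    refine ⟨(M.map φ2) * T, ?_, ?_, ?_⟩
    · intro r c
      rw [Matrix.mul_apply, Fin.sum_univ_two, Matrix.map_apply, Matrix.map_apply, hφ, hφ]
      have hb : 2 * NN p (j + 1) = p ^ 2 * (2 * NN p j) + 2 * (p - 1) := by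
        simp only [NN]
        ring
      rw [hb]
      exact td_add (td_mul (td_pow (hM1 r 0) _) (hT1 0 c)) (td_mul (td_pow (hM1 r 1) _) (hT1 1 c))
    · rw [Matrix.det_mul]
      refine mul_ne_zero ?_ hT2
      have : (M.map φ2).det = M.det ^ (p ^ 2) := by
        rw [← hφ, RingHom.map_det]
        rfl
      rw [this]
      exact pow_ne_zero _ hM2
    · intro i
      obtain ⟨κ, ρ, hκ⟩ := hM3 i
      obtain ⟨κ', ρ', hκ'⟩ := hT3 i
      refine ⟨φ2 κ * κ', fun c => φ2 κ * ρ' c + LL lam i ^ (p ^ 2 - p) *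
        (T 0 c * φ2 (ρ 0) + T 1 c * φ2 (ρ 1)), fun c => ?_⟩
      have hk0 := congrArg φ2 (hκ 0)
      have hk1 := congrArg φ2 (hκ 1)
      simp only [map_add, map_mul, map_pow, hφv] at hk0 hk1
      rw [hφ (LL lam i)] at hk0 hk1
      simp only [Matrix.mul_apply, Fin.sum_univ_two, Matrix.map_apply]
      have hkc := hκ' c
      have hN : NN p (j + 1) = p ^ 2 * NN p j + (p - 1) := rfl
      have hpp : LL lam i ^ (p ^ 2) = LL lam i ^ (p - 1) * (LL lam i * LL lam i ^ (p ^ 2 - p)) := by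
        rw [← pow_succ', ← pow_add]
        congr 1
        have : p ≤ p ^ 2 := by nlinarith
        omega
      have hpw : (LL lam i ^ p ^ 2) ^ NN p j = LL lam i ^ (p ^ 2 * NN p j) := by rw [← pow_mul]
      rw [hpw] at hk0 hk1
      rw [hN, pow_add]
      set P := LL lam i ^ (p ^ 2 * NN p j)
      set v0 := vv p lam (2 * (j + 1)) i 0
      set v1 := vv p lam (2 * (j + 1)) i 1
      rw [hpp] at hk0 hk1
      linear_combination T 0 c * hk0 + T 1 c * hk1 + P * φ2 κ * hkc

end Pool.Agent.Helper720.HK
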