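import Pool.Agent.Helper720.HKSyz2

/-!
# The special syzygies for `λ` of even degree: existence of the form `h`
-/

namespace Pool.Agent.Helper720.HK

open MvPolynomial

variable {K : Type*} [Field K] (p : ℕ) [Fact p.Prime] [CharP K p]

lemma exists_sigma {lam : K} {j : ℕ} (hfix : lam ^ p ^ (2 * (j + 1)) = lam)
    (hne : ∀ e, 1 ≤ e → e < 2 * (j + 1) → lam ^ p ^ e ≠ lam) :
    ∃ σ : Fin 2 → MvPolynomial (Fin 2) K, σ ≠ 0 ∧
      (∀ r, (σ r).totalDegree + 1 ≤ 2 * NN p (j + 1)) ∧
      ∀ i, LL lam i ^ (NN p (j + 1)) ∣ vc (C lam) i 0 * σ 0 + vc (C lam) i 1 * σ 1 := by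
  have hp : 2 ≤ p := (Fact.out : p.Prime).two_le
  have hp0 : p ≠ 0 := by omega
  have h0 : lam ≠ 0 := by
    rintro rfl
    refine hne 1 le_rfl (by omega) ?_
    rw [pow_one, zero_pow hp0]
  have h1 : lam ≠ 1 := by
    rintro rfl
    refine hne 1 le_rfl (by omega) ?_
    rw [one_pow]
  have hne1 : ∀ e, lam ^ p ^ e ≠ 1 := by
    intro e he
    apply h1
    have : (iterateFrobenius K p e) lam = (iterateFrobenius K p e) 1 := by
      rw [iterateFrobenius_def, he, map_one]
    exact (iterateFrobenius K p e).injective this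
  have hdet : ∀ e, 1 ≤ e → e < 2 * (j + 1) → (AA p lam e).det ≠ 0 := fun e he1 he2 =>
    AA_det_ne p lam h0 (hne1 e) (hne e he1 he2)
  obtain ⟨M, hM1, hM2, hM3⟩ := exists_M p h0 h1 j (fun e he1 he2 => hdet e he1 (by omega))
  have hA := hdet (2 * j + 1) (by omega) (by omega)
  have hidx : 2 * j + 1 + 1 = 2 * (j + 1) := by ring
  -- the vector s
  have hvfix : ∀ i c, vv p lam (2 * (j + 1)) i c = vc (C lam) i c := by
    intro i c
    rw [vv, hfix]
  have hsdvd : ∀ r, ff lam ∣ AA p lam (2 * j + 1) r 0 ^ p * X 0 +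
      AA p lam (2 * j + 1) r 1 ^ p * X 1 := by
    intro r
    rw [← pow_one (ff lam)]
    apply ff_pow_dvd h0 h1
    intro i
    rw [pow_one]
    change LL lam i ∣ _
    obtain ⟨u, hu⟩ := AA_pow_mul_v p lam (2 * j + 1) i
    rw [hidx] at hu
    refine rankone (a := fun k => AA p lam (2 * j + 1) r k ^ p)
      (b := fun k => (X k : MvPolynomial (Fin 2) K)) (v := vv p lam (2 * (j + 1)) i)
      (vv_one p lam _ i) ?_ ?_
    · rw [hu r]
      exact (dvd_pow_self _ hp0).mul_right _
    · rw [hvfix, hvfix]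
      exact dvd_of_eq rfl
  choose s hs using hsdvd
  have hs0 : s ≠ 0 := by
    intro hz
    have hmul : ((AA p lam (2 * j + 1)).map (frobenius (MvPolynomial (Fin 2) K) p)).mulVec
        (fun k => (X k : MvPolynomial (Fin 2) K)) = 0 := by
      funext r
      simp only [Matrix.mulVec, dotProduct, Fin.sum_univ_two, Matrix.map_apply, frobenius_def]
      rw [hs r, hz]
      simp
    have hdet' : ((AA p lam (2 * j + 1)).map (frobenius (MvPolynomial (Fin 2) K) p)).det ≠ 0 := by
      have : ((AA p lam (2 * j + 1)).map (frobenius (MvPolynomial (Fin 2) K) p)).det =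
          (AA p lam (2 * j + 1)).det ^ p := by
        rw [← frobenius_def, RingHom.map_det]
        rfl
      rw [this]
      exact pow_ne_zero _ hA
    have := Matrix.eq_zero_of_mulVec_eq_zero hdet' hmul
    exact X_ne_zero (R := K) (0 : Fin 2) (congrFun this 0)
  have hsdeg : ∀ r, (s r).totalDegree + 1 ≤ 2 * (p - 1) := by
    intro r
    by_cases hz : s r = 0
    · rw [hz, totalDegree_zero]
      omega
    · have h2 := totalDegree_of_ff_pow_mul (lam := lam) (n := 1) (T := s r)
        (B := AA p lam (2 * j + 1) r 0 ^ p * X 0 + AA p lam (2 * j + 1) r 1 ^ p * X 1)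
        (by rw [pow_one]; exact (hs r).symm) hz
      have h3 : (AA p lam (2 * j + 1) r 0 ^ p * X 0 +
          AA p lam (2 * j + 1) r 1 ^ p * X 1).totalDegree ≤ p * 2 + 1 :=
        td_add (td_mul (td_pow (AA_td p lam _ r 0) p) (td_X 0))
          (td_mul (td_pow (AA_td p lam _ r 1) p) (td_X 1))
      omega
  have hvs : ∀ i, LL lam i ^ (p - 1) ∣ vc (C lam) i 0 * s 0 + vc (C lam) i 1 * s 1 := by
    intro i
    obtain ⟨g, hg, hrel⟩ := exists_cofactor h0 h1 i
    obtain ⟨u, hu⟩ := AA_pow_mul_v p lam (2 * j + 1) i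
    rw [hidx] at hu
    have hL := LL_ne_zero (lam := lam) i
    have hpp : LL lam i ^ p = LL lam i * LL lam i ^ (p - 1) := by
      rw [← pow_succ']
      congr 1
      omega
    have key : ff lam * (vc (C lam) i 0 * s 0 + vc (C lam) i 1 * s 1) =
        LL lam i ^ p * (X 0 * u 0 + X 1 * u 1) := by
      have hu0 := hu 0
      have hu1 := hu 1
      rw [hvfix, hvfix] at hu0 hu1
      have s01 := AA_symm p lam (2 * j + 1) 0 1
      have hs0 := hs 0
      have hs1 := hs 1
      rw [s01] at hu0 hs0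
      linear_combination X 0 * hu0 + X 1 * hu1 - vc (C lam) i 0 * hs0 - vc (C lam) i 1 * hs1
    rw [hg, hpp, mul_assoc, mul_assoc] at key
    have key2 := mul_left_cancel₀ hL key
    refine (hrel.pow_left (m := p - 1)).dvd_of_dvd_mul_left ?_
    rw [key2]
    exact dvd_mul_right _ _
  set φ2 : MvPolynomial (Fin 2) K →+* MvPolynomial (Fin 2) K :=
    (frobenius (MvPolynomial (Fin 2) K) p).comp (frobenius (MvPolynomial (Fin 2) K) p) with hφ2
  have hφ : ∀ s, φ2 s = s ^ (p ^ 2) := by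
    intro s
    rw [hφ2, RingHom.comp_apply, frobenius_def, frobenius_def, ← pow_mul, sq]
  have hφv : ∀ i c, φ2 (vv p lam (2 * j) i c) = vc (C lam) i c := by
    intro i c
    rw [hφ2, RingHom.comp_apply, frobenius_def, frobenius_def, vv_pow, vv_pow, hidx, hvfix]
  refine ⟨fun r => φ2 (M r 0) * s 0 + φ2 (M r 1) * s 1, ?_, ?_, ?_⟩
  · intro hz
    have hmul : (M.map φ2).mulVec s = 0 := by
      funext r
      simp only [Matrix.mulVec, dotProduct, Fin.sum_univ_two, Matrix.map_apply]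
      exact congrFun hz r
    have hdet' : (M.map φ2).det ≠ 0 := by
      have : (M.map φ2).det = M.det ^ (p ^ 2) := by
        rw [← hφ, RingHom.map_det]
        rfl
      rw [this]
      exact pow_ne_zero _ hM2
    exact hs0 (Matrix.eq_zero_of_mulVec_eq_zero hdet' hmul)
  · intro r
    have hb : 2 * NN p (j + 1) = p ^ 2 * (2 * NN p j) + 2 * (p - 1) := by
      simp only [NN]
      ring
    have hd0 := hsdeg 0
    have hd1 := hsdeg 1
    have h3 : (φ2 (M r 0) * s 0 + φ2 (M r 1) * s 1).totalDegree ≤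
        p ^ 2 * (2 * NN p j) + (2 * (p - 1) - 1) := by
      rw [hφ, hφ]
      exact td_add (td_mul (td_pow (hM1 r 0) _) (by omega))
        (td_mul (td_pow (hM1 r 1) _) (by omega))
    simp only
    omega
  · intro i
    obtain ⟨κ, ρ, hκ⟩ := hM3 i
    have hk0 := congrArg φ2 (hκ 0)
    have hk1 := congrArg φ2 (hκ 1)
    simp only [map_add, map_mul, map_pow, hφv] at hk0 hk1
    rw [hφ (LL lam i)] at hk0 hk1
    have hpw : (LL lam i ^ p ^ 2) ^ NN p j = LL lam i ^ (p ^ 2 * NN p j) := by rw [← pow_mul]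
    rw [hpw] at hk0 hk1
    have hN : NN p (j + 1) = p ^ 2 * NN p j + (p - 1) := rfl
    have hpp : LL lam i ^ (p ^ 2) = LL lam i ^ (p - 1) * LL lam i ^ (p ^ 2 - (p - 1)) := by
      rw [← pow_add]
      congr 1
      have : p ≤ p ^ 2 := by nlinarith
      omega
    have e1 : vc (C lam) i 0 * (φ2 (M 0 0) * s 0 + φ2 (M 0 1) * s 1) +
        vc (C lam) i 1 * (φ2 (M 1 0) * s 0 + φ2 (M 1 1) * s 1) =
        LL lam i ^ (p ^ 2 * NN p j) * (φ2 κ * (vc (C lam) i 0 * s 0 + vc (C lam) i 1 * s 1) +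
          LL lam i ^ (p ^ 2) * (φ2 (ρ 0) * s 0 + φ2 (ρ 1) * s 1)) := by
      linear_combination s 0 * hk0 + s 1 * hk1
    rw [e1, hN, pow_add]
    refine mul_dvd_mul_left _ (dvd_add ((hvs i).mul_left _) ?_)
    rw [hpp, mul_assoc]
    exact dvd_mul_right _ _

/-- Existence of the special form `h`. -/
theorem exists_special {lam : K} {k : ℕ} (hk : 1 ≤ k) (hfix : lam ^ p ^ (2 * k) = lam)
    (hne : ∀ e, 1 ≤ e → e < 2 * k → lam ^ p ^ e ≠ lam) :
    ∃ h : MvPolynomial (Fin 2) K, h ≠ 0 ∧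
      h.totalDegree + 2 * NN p k + 1 ≤ p ^ (2 * k) ∧
      ff lam ^ (NN p k) * h ∈ Iq K (p ^ (2 * k)) := by
  obtain ⟨j, rfl⟩ : ∃ j, k = j + 1 := ⟨k - 1, by omega⟩
  have hp : 2 ≤ p := (Fact.out : p.Prime).two_le
  have hp0 : p ≠ 0 := by omega
  have h0 : lam ≠ 0 := by
    rintro rfl
    refine hne 1 le_rfl (by omega) ?_
    rw [pow_one, zero_pow hp0]
  have h1 : lam ≠ 1 := by
    rintro rfl
    refine hne 1 le_rfl (by omega) ?_
    rw [one_pow]
  obtain ⟨σ, hσ0, hσd, hσv⟩ := exists_sigma p hfix hne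
  set q := p ^ (2 * (j + 1)) with hq
  set n := NN p (j + 1) with hn
  have hspec := NN_spec (p := p) (by omega) (j + 1)
  rw [← hq, ← hn] at hspec
  have hnq : 2 * n < q := by nlinarith
  have hnq' : n ≤ q := by omega
  have hq0 : q ≠ 0 := by omega
  set z : MvPolynomial (Fin 2) K := σ 0 * X 0 ^ q + σ 1 * X 1 ^ q with hz
  have hLq : ∀ i, vc (C lam) i 1 * X 0 ^ q - vc (C lam) i 0 * X 1 ^ q =
      (LL lam i ^ q : MvPolynomial (Fin 2) K) := by
    intro i
    have e1 : LL lam i ^ q = (iterateFrobenius (MvPolynomial (Fin 2) K) p (2 * (j + 1)))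
        (LL lam i) := (iterateFrobenius_def _ _ _).symm
    have e2 : (iterateFrobenius (MvPolynomial (Fin 2) K) p (2 * (j + 1))) (C lam) = C lam := by
      rw [iterateFrobenius_def, ← C_pow, ← hq, hfix]
    rw [e1, LL, lin_map, e2, iterateFrobenius_def, iterateFrobenius_def, lin]
  have hzdvd : ff lam ^ n ∣ z := by
    apply ff_pow_dvd h0 h1
    intro i
    change LL lam i ^ n ∣ _
    refine rankone (a := σ) (b := fun k => (X k : MvPolynomial (Fin 2) K) ^ q)
      (v := fun c => vc (C lam) i c) (vc_one _ i) ?_ ?_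
    · have := hσv i
      rwa [mul_comm (vc (C lam) i 0), mul_comm (vc (C lam) i 1)] at this
    · rw [hLq i]
      exact pow_dvd_pow _ hnq'
  have hz0 : z ≠ 0 := by
    intro hzz
    have hX : Prime (X 0 : MvPolynomial (Fin 2) K) := X_prime
    have hX1 : Prime (X 1 : MvPolynomial (Fin 2) K) := X_prime
    have hnd : ¬ (X 0 : MvPolynomial (Fin 2) K) ∣ X 1 ^ q := by
      intro hd
      have := hX.dvd_of_dvd_pow hd
      rw [X_dvd_X] at this
      exact absurd this (by decide)
    have hdv : (X 0 : MvPolynomial (Fin 2) K) ^ q ∣ σ 1 := by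
      refine hX.pow_dvd_of_dvd_mul_right q hnd ?_
      refine ⟨-σ 0, ?_⟩
      rw [hz] at hzz
      linear_combination hzz
    have hs1 : σ 1 = 0 := by
      by_contra hne1
      obtain ⟨t, ht⟩ := hdv
      have ht0 : t ≠ 0 := by
        rintro rfl
        exact hne1 (by rw [ht, mul_zero])
      have hd := hσd 1
      rw [ht, totalDegree_mul_of_isDomain (pow_ne_zero _ hX.ne_zero) ht0, totalDegree_X_pow] at hd
      omega
    have hs0 : σ 0 = 0 := by
      rw [hz, hs1, zero_mul, add_zero] at hzz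
      exact (mul_eq_zero.1 hzz).resolve_right (pow_ne_zero _ hX.ne_zero)
    apply hσ0
    funext r
    fin_cases r
    · exact hs0
    · exact hs1
  obtain ⟨h, hh⟩ := hzdvd
  have hh0 : h ≠ 0 := by
    rintro rfl
    exact hz0 (by rw [hh, mul_zero])
  refine ⟨h, hh0, ?_, ?_⟩
  · have h2 := totalDegree_of_ff_pow_mul (lam := lam) (n := n) (T := h) (B := z) hh.symm hh0
    have h3 : z.totalDegree ≤ (2 * n - 1) + q := by
      have t0 : (X 0 ^ q : MvPolynomial (Fin 2) K).totalDegree ≤ q := by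
        rw [totalDegree_X_pow]
      have t1 : (X 1 ^ q : MvPolynomial (Fin 2) K).totalDegree ≤ q := by
        rw [totalDegree_X_pow]
      have d0 := hσd 0
      have d1 := hσd 1
      exact td_add (td_mul (by omega) t0) (td_mul (by omega) t1)
    have d0 := hσd 0
    omega
  · rw [← hh, hz]
    exact add_mem (Ideal.mul_mem_left _ _ (Ideal.subset_span (by simp)))
      (Ideal.mul_mem_left _ _ (Ideal.subset_span (by simp)))

end Pool.Agent.Helper720.HK
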