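import Pool.Agent.Helper720.LcsLie

set_option autoImplicit false

open scoped DirectSum

namespace Pool.Agent.Helper720.Lcs

section Free

attribute [local instance 10000] FreeLieAlgebra.instLieAlgebra

variable (V : Type*) [AddCommGroup V]

/-- The relations expressing additivity of the generators. -/
def addRel : Set (FreeLieAlgebra ℤ V) :=
  {x | ∃ v w : V, x = FreeLieAlgebra.of ℤ (v + w) -
    (FreeLieAlgebra.of ℤ v + FreeLieAlgebra.of ℤ w)}

/-- The Lie ideal generated by the additivity relations. -/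
noncomputable def addIdeal : LieIdeal ℤ (FreeLieAlgebra ℤ V) :=
  LieSubmodule.lieSpan ℤ (FreeLieAlgebra ℤ V) (addRel V)

/-- The free Lie ring `L[V]` on the abelian group `V`: the free Lie ring on the set `V` modulo
the relations saying that the inclusion of `V` is additive. -/
def FreeLie : Type _ := FreeLieAlgebra ℤ V ⧸ addIdeal V

noncomputable instance FreeLie.lieRing : LieRing (FreeLie V) :=
  LieSubmodule.Quotient.lieQuotientLieRing (addIdeal V)

variable {V}

/-- The quotient map. -/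
noncomputable def toFree : FreeLieAlgebra ℤ V → FreeLie V :=
  LieSubmodule.Quotient.mk (N := addIdeal V)

lemma toFree_surj : Function.Surjective (toFree (V := V)) :=
  LieSubmodule.Quotient.surjective_mk' (addIdeal V)

/-- The inclusion of `V` into `L[V]`. -/
noncomputable def gen : V →+ FreeLie V :=
  AddMonoidHom.mk' (fun v => toFree (FreeLieAlgebra.of ℤ v))
    (fun v w => by
      refine (Submodule.Quotient.eq (addIdeal V).toSubmodule).2 ?_
      exact LieSubmodule.subset_lieSpan ⟨v, w, rfl⟩)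

variable {L : Type*} [LieRing L]

lemma addIdeal_le (f : V → L) (hf : ∀ v w, f (v + w) = f v + f w) :
    addIdeal V ≤ (FreeLieAlgebra.lift ℤ f).ker := by
  unfold addIdeal
  rw [LieSubmodule.lieSpan_le]
  rintro _ ⟨v, w, rfl⟩
  rw [SetLike.mem_coe, LieHom.mem_ker, map_sub, map_add, FreeLieAlgebra.lift_of_apply,
    FreeLieAlgebra.lift_of_apply, FreeLieAlgebra.lift_of_apply, hf, sub_self]

/-- The additive map `L[V] → L` extending an additive map `V → L`. -/
noncomputable def liftAdd (f : V →+ L) : FreeLie V →+ L :=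
  ((addIdeal V).toSubmodule.liftQ
    ((FreeLieAlgebra.lift ℤ (fun v => f v)).toLinearMap) (by
      intro x hx
      exact LieHom.mem_ker.1 (addIdeal_le (fun v => f v) (map_add f) hx))).toAddMonoidHom

lemma liftAdd_toFree (f : V →+ L) (x : FreeLieAlgebra ℤ V) :
    liftAdd f (toFree x) = FreeLieAlgebra.lift ℤ (fun v => f v) x := rfl

/-- The universal property of `L[V]`: an additive map from `V` to a Lie ring extends to a
homomorphism of Lie rings. -/
noncomputable def liftLie (f : V →+ L) : FreeLie V →ₗ⁅ℤ⁆ L where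
  toFun := liftAdd f
  map_add' := map_add (liftAdd f)
  map_smul' n x := map_zsmul (liftAdd f) n x
  map_lie' := by
    intro x y
    obtain ⟨x, rfl⟩ := toFree_surj x
    obtain ⟨y, rfl⟩ := toFree_surj y
    have h : ⁅toFree x, toFree y⁆ = toFree ⁅x, y⁆ := rfl
    change liftAdd f ⁅toFree x, toFree y⁆ = ⁅liftAdd f (toFree x), liftAdd f (toFree y)⁆
    rw [h, liftAdd_toFree, liftAdd_toFree, liftAdd_toFree, LieHom.map_lie]

lemma liftLie_gen (f : V →+ L) (v : V) : liftLie f (gen v) = f v :=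
  FreeLieAlgebra.lift_of_apply (fun v => f v) v

variable (V)

/-- The degree two part `L_2[V]`: the additive subgroup generated by the brackets of elements
of `V`. -/
noncomputable def deg2 : AddSubgroup (FreeLie V) :=
  AddSubgroup.closure {x | ∃ v w : V, x = ⁅gen v, gen w⁆}

end Free

section Quad

variable (G : Type*) [Group G]

/-- The natural homomorphism `L[V] → E_0^*(G)` for `V = G / [G, G]`, which is the identity
on `V`. -/
noncomputable def natMap : FreeLie (Gr G 1) →ₗ⁅ℤ⁆ E0 G := liftLie (incl 1)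

/-- `E_0^*(G)` is a free Lie algebra modulo quadratic relations: the kernel of the natural map
`L[V] → E_0^*(G)` is generated, as a Lie ideal, by its degree two part. -/
def FreeModQuadratic : Prop :=
  (natMap G).ker = LieSubmodule.lieSpan ℤ (FreeLie (Gr G 1))
    {x | x ∈ (natMap G).ker ∧ x ∈ deg2 (Gr G 1)}

variable {G}

lemma natMap_gen (v : Gr G 1) : natMap G (gen v) = incl 1 v := liftLie_gen _ v

/-- The projection of `E_0^*(G)` to its degree two part. -/
def proj2 : E0 G →+ Gr G 2 := DFinsupp.evalAddMonoidHom 2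

lemma proj2_incl (x : Gr G 2) : proj2 (incl 2 x) = x :=
  DirectSum.of_eq_same (β := fun k => Gr G k) 2 x

attribute [local instance] LieRing.ofAssociativeRing

/-- three elementary matrices -/
def mA : Matrix (Fin 4) (Fin 4) ℤ := Matrix.single 0 1 1
def mB : Matrix (Fin 4) (Fin 4) ℤ := Matrix.single 1 2 1
def mC : Matrix (Fin 4) (Fin 4) ℤ := Matrix.single 2 3 1

lemma triple_ne : ⁅⁅mA, mB⁆, mC⁆ ≠ 0 := by
  intro h
  have := congrFun (congrFun h 0) 3
  revert this
  simp only [Ring.lie_def]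
  decide

/-- linear combinations of the three matrices -/
def mMap : (Fin 3 → ℤ) →+ Matrix (Fin 4) (Fin 4) ℤ :=
  AddMonoidHom.mk' (fun t => t 0 • mA + t 1 • mB + t 2 • mC) (fun t s => by
    simp only [Pi.add_apply, add_smul]
    abel)

def wedge (t s : Fin 3 → ℤ) : Fin 3 → ℤ :=
  ![t 0 * s 1 - t 1 * s 0, t 0 * s 2 - t 2 * s 0, t 1 * s 2 - t 2 * s 1]

def kMap : (Fin 3 → ℤ) →+ Matrix (Fin 4) (Fin 4) ℤ :=
  AddMonoidHom.mk' (fun t => t 0 • ⁅mA, mB⁆ + t 1 • ⁅mA, mC⁆ + t 2 • ⁅mB, mC⁆) (fun t s => by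
    simp only [Pi.add_apply, add_smul]
    abel)

lemma lie_mMap (t s : Fin 3 → ℤ) : ⁅mMap t, mMap s⁆ = kMap (wedge t s) := by
  change ⁅t 0 • mA + t 1 • mB + t 2 • mC, s 0 • mA + s 1 • mB + s 2 • mC⁆ =
    (t 0 * s 1 - t 1 * s 0) • ⁅mA, mB⁆ + (t 0 * s 2 - t 2 * s 0) • ⁅mA, mC⁆ +
      (t 1 * s 2 - t 2 * s 1) • ⁅mB, mC⁆
  have h1 : ⁅mB, mA⁆ = -⁅mA, mB⁆ := (lie_skew mB mA).symm
  have h2 : ⁅mC, mA⁆ = -⁅mA, mC⁆ := (lie_skew mC mA).symm
  have h3 : ⁅mC, mB⁆ = -⁅mB, mC⁆ := (lie_skew mC mB).symm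
  simp only [add_lie, lie_add, smul_lie, lie_smul, lie_self, smul_zero, h1, h2, h3, zero_add,
    add_zero]
  module

/-- A criterion for `E_0^*(G)` not to be free modulo quadratic relations. -/
theorem not_quadratic (ψ : Gr G 1 →+ (Fin 3 → ℤ)) (Θ : Gr G 2 →+ (Fin 3 → ℤ))
    (hΘ : ∀ v w : Gr G 1, Θ (brk 1 1 v w) = wedge (ψ v) (ψ w)) (v₁ v₂ v₃ : Gr G 1)
    (h₁ : ψ v₁ = ![1, 0, 0]) (h₂ : ψ v₂ = ![0, 1, 0]) (h₃ : ψ v₃ = ![0, 0, 1])
    (hw : ⁅⁅incl 1 v₁, incl 1 v₂⁆, incl 1 v₃⁆ = 0) : ¬ FreeModQuadratic G := by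
  intro hq
  set Ψ : FreeLie (Gr G 1) →ₗ⁅ℤ⁆ Matrix (Fin 4) (Fin 4) ℤ := liftLie (mMap.comp ψ) with hΨ
  have hΨg : ∀ v, Ψ (gen v) = mMap (ψ v) := fun v => liftLie_gen _ v
  have hdeg : ∀ x ∈ deg2 (Gr G 1), Ψ x = kMap (Θ (proj2 (natMap G x))) := by
    intro x hx
    induction hx using AddSubgroup.closure_induction with
    | mem x hx =>
      obtain ⟨v, w, rfl⟩ := hx
      rw [LieHom.map_lie, hΨg, hΨg, lie_mMap, LieHom.map_lie, natMap_gen, natMap_gen, ← hΘ]
      congr 2
      rw [lie_eq, brkHom_incl]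
      exact (proj2_incl (brk 1 1 v w)).symm
    | zero => simp only [map_zero]
    | add x y _ _ hx hy => simp only [map_add, hx, hy]
    | neg x _ hx => simp only [map_neg, hx]
  have hle : (natMap G).ker ≤ Ψ.ker := by
    rw [hq, LieSubmodule.lieSpan_le]
    rintro x ⟨hx1, hx2⟩
    rw [SetLike.mem_coe, LieHom.mem_ker, hdeg x hx2, LieHom.mem_ker.1 hx1, map_zero,
      map_zero, map_zero]
  have hmem : ⁅⁅gen v₁, gen v₂⁆, gen v₃⁆ ∈ (natMap G).ker := by
    rw [LieHom.mem_ker, LieHom.map_lie, LieHom.map_lie, natMap_gen, natMap_gen, natMap_gen]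
    exact hw
  have h0 := LieHom.mem_ker.1 (hle hmem)
  rw [LieHom.map_lie, LieHom.map_lie, hΨg, hΨg, hΨg, h₁, h₂, h₃] at h0
  have e1 : mMap ![1, 0, 0] = mA := by
    change (1 : ℤ) • mA + (0 : ℤ) • mB + (0 : ℤ) • mC = mA
    simp
  have e2 : mMap ![0, 1, 0] = mB := by
    change (0 : ℤ) • mA + (1 : ℤ) • mB + (0 : ℤ) • mC = mB
    simp
  have e3 : mMap ![0, 0, 1] = mC := by
    change (0 : ℤ) • mA + (0 : ℤ) • mB + (1 : ℤ) • mC = mC
    simp
  rw [e1, e2, e3] at h0
  exact triple_ne h0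

end Quad

end Pool.Agent.Helper720.Lcs
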