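import Mathlib

set_option autoImplicit false

open scoped commutatorElement

namespace Pool.Agent.Helper720.Lcs

variable (G : Type*) [Group G]

/-- The lower central series `Γ_1 G = G`, `Γ_{k+1} G = [Γ_k G, G]`, with `Γ_0 G = G` added
(Mathlib's `lowerCentralSeries` starts with `G` in degree `0`). -/
def Gam (k : ℕ) : Subgroup G := (⊤ : Subgroup G).lowerCentralSeries (k - 1)

lemma Gam_zero : Gam G 0 = ⊤ := rfl

lemma Gam_one : Gam G 1 = ⊤ := rfl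

lemma Gam_add_two (k : ℕ) : Gam G (k + 2) = ⁅Gam G (k + 1), (⊤ : Subgroup G)⁆ := rfl

variable {G}

instance Gam_normal (k : ℕ) : (Gam G k).Normal := by
  unfold Gam
  infer_instance

lemma comm_top_le (k : ℕ) : ⁅Gam G k, (⊤ : Subgroup G)⁆ ≤ Gam G (k + 1) := by
  rcases k with _ | k
  · rw [Nat.zero_add, Gam_one]
    exact le_top
  · exact (Gam_add_two G k).symm.le

lemma Gam_succ_le (k : ℕ) : Gam G (k + 1) ≤ Gam G k := by
  rcases k with _ | k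
  · rw [Nat.zero_add, Gam_one, Gam_zero]
  · rw [Gam_add_two]
    exact Subgroup.commutator_le_left (Gam G (k + 1)) ⊤

lemma three (A B C N : Subgroup G) [N.Normal] (h1 : ⁅⁅B, C⁆, A⁆ ≤ N) (h2 : ⁅⁅C, A⁆, B⁆ ≤ N) :
    ⁅⁅A, B⁆, C⁆ ≤ N := by
  have key : ∀ X Y Z : Subgroup G, ⁅⁅X, Y⁆, Z⁆ ≤ N ↔
      ⁅⁅X.map (QuotientGroup.mk' N), Y.map (QuotientGroup.mk' N)⁆,
        Z.map (QuotientGroup.mk' N)⁆ = ⊥ := by
    intro X Y Z
    rw [← Subgroup.map_commutator, ← Subgroup.map_commutator, Subgroup.map_eq_bot_iff,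
      QuotientGroup.ker_mk']
  rw [key] at h1 h2 ⊢
  exact Subgroup.commutator_commutator_eq_bot_of_rotate h1 h2

lemma comm_le (i j : ℕ) : ⁅Gam G i, Gam G j⁆ ≤ Gam G (i + j) := by
  induction i generalizing j with
  | zero =>
    rw [Nat.zero_add]
    exact Subgroup.commutator_le_right _ _
  | succ i ih =>
    rcases i with _ | i
    · have h := comm_top_le (G := G) j
      rw [Subgroup.commutator_comm] at h
      rw [show 0 + 1 + j = j + 1 by ring, Nat.zero_add, Gam_one]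
      exact h
    · have h1 : ⁅⁅(⊤ : Subgroup G), Gam G j⁆, Gam G (i + 1)⁆ ≤ Gam G (i + 1 + 1 + j) := by
        calc ⁅⁅(⊤ : Subgroup G), Gam G j⁆, Gam G (i + 1)⁆
            ≤ ⁅Gam G (j + 1), Gam G (i + 1)⁆ := by
              refine Subgroup.commutator_mono ?_ le_rfl
              rw [Subgroup.commutator_comm]
              exact comm_top_le j
          _ = ⁅Gam G (i + 1), Gam G (j + 1)⁆ := Subgroup.commutator_comm _ _
          _ ≤ Gam G (i + 1 + (j + 1)) := ih (j + 1)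
          _ = Gam G (i + 1 + 1 + j) := by
            congr 1
            ring
      have h2 : ⁅⁅Gam G j, Gam G (i + 1)⁆, (⊤ : Subgroup G)⁆ ≤ Gam G (i + 1 + 1 + j) := by
        calc ⁅⁅Gam G j, Gam G (i + 1)⁆, (⊤ : Subgroup G)⁆
            ≤ ⁅Gam G (i + 1 + j), (⊤ : Subgroup G)⁆ := by
              refine Subgroup.commutator_mono ?_ le_rfl
              rw [Subgroup.commutator_comm]
              exact ih j
          _ ≤ Gam G (i + 1 + j + 1) := comm_top_le _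
          _ = Gam G (i + 1 + 1 + j) := by
            congr 1
            ring
      rw [Gam_add_two]
      exact three (Gam G (i + 1)) ⊤ (Gam G j) _ h1 h2

lemma comm_mem {i j : ℕ} {a b : G} (ha : a ∈ Gam G i) (hb : b ∈ Gam G j) :
    ⁅a, b⁆ ∈ Gam G (i + j) := comm_le i j (Subgroup.commutator_mem_commutator ha hb)

lemma comm_mem_succ {k : ℕ} {a : G} (ha : a ∈ Gam G k) (b : G) : ⁅a, b⁆ ∈ Gam G (k + 1) :=
  comm_top_le k (Subgroup.commutator_mem_commutator ha (Subgroup.mem_top b))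

lemma comm_mem_succ' {k : ℕ} {a : G} (ha : a ∈ Gam G k) (b : G) : ⁅b, a⁆ ∈ Gam G (k + 1) := by
  rw [← commutatorElement_inv]
  exact (Gam G (k + 1)).inv_mem (comm_mem_succ ha b)

/-- congruence modulo `Γ_k` -/
def Cong (k : ℕ) (a b : G) : Prop := (QuotientGroup.mk a : G ⧸ Gam G k) = QuotientGroup.mk b

lemma Cong.refl {k : ℕ} (a : G) : Cong k a a := rfl
lemma Cong.symm {k : ℕ} {a b : G} (h : Cong k a b) : Cong k b a := Eq.symm h
lemma Cong.trans {k : ℕ} {a b c : G} (h : Cong k a b) (h' : Cong k b c) : Cong k a c :=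
  Eq.trans h h'
lemma Cong.mul {k : ℕ} {a b a' b' : G} (h : Cong k a b) (h' : Cong k a' b') :
    Cong k (a * a') (b * b') := by
  unfold Cong at *
  rw [QuotientGroup.mk_mul, QuotientGroup.mk_mul, h, h']

lemma cong_iff {k : ℕ} {a b : G} : Cong k a b ↔ a⁻¹ * b ∈ Gam G k := QuotientGroup.eq

lemma cong_one_iff {k : ℕ} {a : G} : Cong k a 1 ↔ a ∈ Gam G k := by
  unfold Cong
  exact QuotientGroup.eq_one_iff a

/-- elements of `Γ_k` are central modulo `Γ_{k+1}` -/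
lemma cong_comm {k : ℕ} {a : G} (ha : a ∈ Gam G k) (b : G) : Cong (k + 1) (a * b) (b * a) := by
  have h1 : a * b = ⁅a, b⁆ * (b * a) := by group
  have h2 : Cong (k + 1) ⁅a, b⁆ 1 := cong_one_iff.2 (comm_mem_succ ha b)
  rw [h1]
  have := h2.mul (Cong.refl (k := k + 1) (b * a))
  rwa [one_mul] at this

lemma cong_mul_left {i j : ℕ} {a a' b : G} (ha' : a' ∈ Gam G i) (hb : b ∈ Gam G j) :
    Cong (i + j + 1) ⁅a * a', b⁆ (⁅a, b⁆ * ⁅a', b⁆) := by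
  have h1 : ⁅a * a', b⁆ = (a * ⁅a', b⁆ * a⁻¹) * ⁅a, b⁆ := by group
  have h2 : Cong (i + j + 1) (a * ⁅a', b⁆ * a⁻¹) ⁅a', b⁆ := by
    have h3 := (cong_comm (comm_mem ha' hb) a).symm
    have := h3.mul (Cong.refl (k := i + j + 1) a⁻¹)
    rwa [mul_inv_cancel_right] at this
  rw [h1]
  exact (h2.mul (Cong.refl _)).trans (cong_comm (comm_mem ha' hb) _)

lemma cong_mul_right {i j : ℕ} {a b b' : G} (ha : a ∈ Gam G i) (hb' : b' ∈ Gam G j) :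
    Cong (i + j + 1) ⁅a, b * b'⁆ (⁅a, b⁆ * ⁅a, b'⁆) := by
  have h1 : ⁅a, b * b'⁆ = ⁅a, b⁆ * (b * ⁅a, b'⁆ * b⁻¹) := by group
  have h2 : Cong (i + j + 1) (b * ⁅a, b'⁆ * b⁻¹) ⁅a, b'⁆ := by
    have h3 := (cong_comm (comm_mem ha hb') b).symm
    have := h3.mul (Cong.refl (k := i + j + 1) b⁻¹)
    rwa [mul_inv_cancel_right] at this
  rw [h1]
  exact (Cong.refl _).mul h2

lemma Gam_le_of_le {i j : ℕ} (h : i ≤ j) : Gam G j ≤ Gam G i := by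
  induction h with
  | refl => exact le_rfl
  | step _ ih => exact (Gam_succ_le _).trans ih

lemma Cong.mono {i j : ℕ} (h : i ≤ j) {a b : G} (hab : Cong j a b) : Cong i a b := by
  rw [cong_iff] at *
  exact Gam_le_of_le h hab

/-- The Jacobi identity modulo the next term of the lower central series. -/
lemma cong_jacobi {i j k : ℕ} (hi : 1 ≤ i) (hj : 1 ≤ j) (hk : 1 ≤ k) {a b c : G}
    (ha : a ∈ Gam G i) (hb : b ∈ Gam G j) (hc : c ∈ Gam G k) :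
    Cong (i + j + k + 1) ⁅a, ⁅b, c⁆⁆ (⁅⁅a, b⁆, c⁆ * ⁅b, ⁅a, c⁆⁆) := by
  have h1 : ⁅a, ⁅b, c⁆⁆ * ⁅b, c⁆ = ⁅⁅a, b⁆ * b, ⁅a, c⁆ * c⁆ := by group
  set u := ⁅a, b⁆ with hu
  set v := ⁅a, c⁆ with hv
  have hum : u ∈ Gam G (i + j) := comm_mem ha hb
  have hvm : v ∈ Gam G (i + k) := comm_mem ha hc
  have hbc : ⁅b, c⁆ ∈ Gam G (j + k) := comm_mem hb hc
  have h2 : ⁅u * b, v * c⁆ = u * (⁅b, v⁆ * (v * ⁅b, c⁆ * v⁻¹)) * u⁻¹ *
      (⁅u, v⁆ * (v * ⁅u, c⁆ * v⁻¹)) := by group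
  set m := i + j + k + 1 with hm
  -- conjugating `[b, c]` by `v` does nothing
  have e1 : Cong m (v * ⁅b, c⁆ * v⁻¹) ⁅b, c⁆ := by
    have h3 : v * ⁅b, c⁆ * v⁻¹ = ⁅v, ⁅b, c⁆⁆ * ⁅b, c⁆ := by group
    have h4 : Cong m ⁅v, ⁅b, c⁆⁆ 1 :=
      cong_one_iff.2 (Gam_le_of_le (by omega) (comm_mem hvm hbc))
    rw [h3]
    have := h4.mul (Cong.refl (k := m) ⁅b, c⁆)
    rwa [one_mul] at this
  have e2 : Cong m ⁅u, v⁆ 1 := cong_one_iff.2 (Gam_le_of_le (by omega) (comm_mem hum hvm))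
  have e3 : Cong m (v * ⁅u, c⁆ * v⁻¹) ⁅u, c⁆ := by
    have h3 : v * ⁅u, c⁆ * v⁻¹ = ⁅v, ⁅u, c⁆⁆ * ⁅u, c⁆ := by group
    have h4 : Cong m ⁅v, ⁅u, c⁆⁆ 1 :=
      cong_one_iff.2 (Gam_le_of_le (by omega) (comm_mem hvm (comm_mem hum hc)))
    rw [h3]
    have := h4.mul (Cong.refl (k := m) ⁅u, c⁆)
    rwa [one_mul] at this
  have hbv : ⁅b, v⁆ ∈ Gam G (j + (i + k)) := comm_mem hb hvm
  have e4 : Cong m (u * (⁅b, v⁆ * ⁅b, c⁆) * u⁻¹) (⁅b, v⁆ * ⁅b, c⁆) := by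
    have h3 : u * (⁅b, v⁆ * ⁅b, c⁆) * u⁻¹ = ⁅u, ⁅b, v⁆ * ⁅b, c⁆⁆ * (⁅b, v⁆ * ⁅b, c⁆) := by group
    have h5 : ⁅b, v⁆ * ⁅b, c⁆ ∈ Gam G (j + k) :=
      (Gam G (j + k)).mul_mem (Gam_le_of_le (by omega) hbv) hbc
    have h4 : Cong m ⁅u, ⁅b, v⁆ * ⁅b, c⁆⁆ 1 :=
      cong_one_iff.2 (Gam_le_of_le (by omega) (comm_mem hum h5))
    rw [h3]
    have := h4.mul (Cong.refl (k := m) (⁅b, v⁆ * ⁅b, c⁆))
    rwa [one_mul] at this
  have e5 : Cong m ⁅u * b, v * c⁆ (⁅b, v⁆ * ⁅b, c⁆ * ⁅u, c⁆) := by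
    rw [h2]
    refine Cong.mul ?_ ?_
    · refine Cong.trans ?_ e4
      exact ((Cong.refl u).mul ((Cong.refl ⁅b, v⁆).mul e1)).mul (Cong.refl u⁻¹)
    · have := e2.mul e3
      rwa [one_mul] at this
  have huc : ⁅u, c⁆ ∈ Gam G (i + j + k) := comm_mem hum hc
  have e6 : Cong m (⁅b, v⁆ * ⁅b, c⁆ * ⁅u, c⁆) (⁅u, c⁆ * ⁅b, v⁆ * ⁅b, c⁆) := by
    have := (cong_comm huc (⁅b, v⁆ * ⁅b, c⁆)).symm
    rwa [← mul_assoc] at this
  rw [← h1] at e5
  have e7 := (e5.trans e6).mul (Cong.refl (k := m) ⁅b, c⁆⁻¹)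
  rwa [mul_inv_cancel_right, mul_inv_cancel_right] at e7

end Pool.Agent.Helper720.Lcs
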