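import Pool.Agent.Helper720.LcsMagnus

set_option autoImplicit false

open scoped commutatorElement

namespace Pool.Agent.Helper720.Lcs

section GrLift

variable {G : Type*} [Group G] {A : Type*} [AddCommGroup A]

/-- homomorphisms out of a graded piece -/
def grLift {k : ℕ} (h : Gam G k →* Multiplicative A)
    (hk : ∀ g : Gam G k, (g : G) ∈ Gam G (k + 1) → h g = 1) : Gr G k →+ A :=
  AddMonoidHom.mk' (fun x => Multiplicative.toAdd
    (Abelianization.lift (G := QuoGr G k)
      (QuotientGroup.lift ((Gam G (k + 1)).subgroupOf (Gam G k)) h (by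
      intro g hg
      exact hk g hg)) (Additive.toMul x))) (by
    intro x y
    exact congrArg Multiplicative.toAdd
      (map_mul (Abelianization.lift (G := QuoGr G k)
        (QuotientGroup.lift ((Gam G (k + 1)).subgroupOf (Gam G k)) h
        (by
          intro g hg
          exact hk g hg))) (Additive.toMul x) (Additive.toMul y)))

lemma grLift_cls {k : ℕ} (h : Gam G k →* Multiplicative A)
    (hk : ∀ g : Gam G k, (g : G) ∈ Gam G (k + 1) → h g = 1) (g : Gam G k) :
    grLift h hk (cls k g) = Multiplicative.toAdd (h g) := rfl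

end GrLift

/-- elements with vanishing linear part -/
def KK : Subgroup NN where
  carrier := {a | a.d = fun _ _ _ => 0}
  mul_mem' := by
    intro a b ha hb
    funext l i j
    rw [NN.mul_d]
    simp only [Set.mem_ofPred_eq] at ha hb
    rw [ha, hb, add_zero]
  one_mem' := rfl
  inv_mem' := by
    intro a ha
    funext l i j
    simp only [Set.mem_ofPred_eq] at ha
    rw [NN.inv_d, ha, neg_zero]

lemma mem_KK {a : NN} : a ∈ KK ↔ a.d = fun _ _ _ => 0 := Iff.rfl

lemma NN_comm_d (a b : NN) : ⁅a, b⁆ ∈ KK := by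
  rw [mem_KK]
  funext l i j
  rw [commutatorElement_def]
  simp only [NN.mul_d, NN.inv_d]
  ring

lemma NN_comm_e (a b : NN) (l i j k : Fin 3) :
    (⁅a, b⁆ : NN).e l i j k = BB a.d b.d l i j k - BB b.d a.d l i j k := by
  rw [commutatorElement_def]
  simp only [NN.mul_e, NN.inv_e, BB, NN.mul_d, NN.inv_d, Fin.sum_univ_three]
  ring

lemma BB_zero_left (D : Fin 3 → Fin 3 → Fin 3 → ℤ) (l i j k : Fin 3) :
    BB (fun _ _ _ => 0) D l i j k = 0 := by
  simp [BB]

lemma BB_zero_right (D : Fin 3 → Fin 3 → Fin 3 → ℤ) (l i j k : Fin 3) :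
    BB D (fun _ _ _ => 0) l i j k = 0 := by
  simp [BB]

lemma NN_comm_one {a : NN} (ha : a ∈ KK) (b : NN) : ⁅a, b⁆ = 1 := by
  have h1 := NN_comm_d a b
  rw [mem_KK] at h1 ha
  ext l i j
  · rw [h1]
    rfl
  · rw [NN_comm_e, ha, BB_zero_left, BB_zero_right]
    rfl

lemma Gam_two_le : Gam (IA 3) 2 ≤ KK.comap toNN := by
  change ⁅Gam (IA 3) 1, (⊤ : Subgroup (IA 3))⁆ ≤ _
  rw [Subgroup.commutator_le]
  intro g _ h _
  rw [Subgroup.mem_comap, map_commutatorElement]
  exact NN_comm_d _ _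

lemma Gam_three_le : Gam (IA 3) 3 ≤ toNN.ker := by
  change ⁅Gam (IA 3) 2, (⊤ : Subgroup (IA 3))⁆ ≤ _
  rw [Subgroup.commutator_le]
  intro g hg h _
  rw [MonoidHom.mem_ker, map_commutatorElement]
  exact NN_comm_one (Gam_two_le hg) _

/-- the three linear functionals -/
def lin3 (D : Fin 3 → Fin 3 → Fin 3 → ℤ) : Fin 3 → ℤ :=
  ![D 0 0 1 - D 2 2 1, D 0 0 2 - D 1 1 2, D 0 1 2]

/-- the three quadratic functionals -/
def quad3 (E : Fin 3 → Fin 3 → Fin 3 → Fin 3 → ℤ) : Fin 3 → ℤ :=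
  ![E 0 0 1 2 - E 1 1 1 2, E 0 1 1 2, - E 0 1 2 2]

lemma lin3_add (D D' : Fin 3 → Fin 3 → Fin 3 → ℤ) :
    lin3 (fun l i j => D l i j + D' l i j) = lin3 D + lin3 D' := by
  ext t
  fin_cases t <;> simp [lin3] <;> ring

lemma quad3_add (E E' : Fin 3 → Fin 3 → Fin 3 → Fin 3 → ℤ) :
    quad3 (fun l i j k => E l i j k + E' l i j k) = quad3 E + quad3 E' := by
  ext t
  fin_cases t <;> simp [quad3] <;> ring

/-- the additive map on the degree one part -/
def psi : Gr (IA 3) 1 →+ (Fin 3 → ℤ) :=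
  grLift (MonoidHom.mk' (fun g => Multiplicative.ofAdd (lin3 (toNN (g : IA 3)).d)) (by
      intro g h
      rw [← ofAdd_add, ← lin3_add]
      congr 2
      rw [Subgroup.coe_mul, map_mul]
      rfl)) (by
    intro g hg
    have h1 : (toNN (g : IA 3)).d = fun _ _ _ => 0 := Gam_two_le hg
    change Multiplicative.ofAdd (lin3 (toNN (g : IA 3)).d) = 1
    rw [h1]
    rw [ofAdd_eq_one]
    ext t
    fin_cases t <;> rfl)

lemma psi_cls (g : Gam (IA 3) 1) : psi (cls 1 g) = lin3 (toNN (g : IA 3)).d := rfl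

/-- the additive map on the degree two part -/
def theta : Gr (IA 3) 2 →+ (Fin 3 → ℤ) :=
  grLift (MonoidHom.mk' (fun g => Multiplicative.ofAdd (quad3 (toNN (g : IA 3)).e)) (by
      intro g h
      rw [← ofAdd_add, ← quad3_add]
      congr 2
      rw [Subgroup.coe_mul, map_mul]
      have hg : (toNN (g : IA 3)).d = fun _ _ _ => 0 := Gam_two_le g.2
      funext l i j k
      rw [NN.mul_e, hg, BB_zero_left, add_zero])) (by
    intro g hg
    have h1 : toNN (g : IA 3) = 1 := Gam_three_le hg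
    change Multiplicative.ofAdd (quad3 (toNN (g : IA 3)).e) = 1
    rw [h1, ofAdd_eq_one]
    ext t
    fin_cases t <;> rfl)

lemma theta_cls (g : Gam (IA 3) 2) : theta (cls 2 g) = quad3 (toNN (g : IA 3)).e := rfl

lemma theta_brk (v w : Gr (IA 3) 1) : theta (brk 1 1 v w) = wedge (psi v) (psi w) := by
  obtain ⟨g, rfl⟩ := cls_surj v
  obtain ⟨h, rfl⟩ := cls_surj w
  have h1 : theta (brk 1 1 (cls 1 g) (cls 1 h)) =
      quad3 (⁅toNN (g : IA 3), toNN (h : IA 3)⁆ : NN).e := by
    rw [brk_cls]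
    change quad3 (toNN ⁅(g : IA 3), (h : IA 3)⁆).e = _
    rw [map_commutatorElement]
  rw [h1, psi_cls, psi_cls]
  have h2 : (⁅toNN (g : IA 3), toNN (h : IA 3)⁆ : NN).e = fun l i j k =>
      BB (toNN (g : IA 3)).d (toNN (h : IA 3)).d l i j k -
        BB (toNN (h : IA 3)).d (toNN (g : IA 3)).d l i j k := by
    funext l i j k
    exact NN_comm_e _ _ l i j k
  rw [h2]
  have sg : ∀ l i j, (toNN (g : IA 3)).d l i j = - (toNN (g : IA 3)).d l j i := by
    intro l i j
    have := DD_skew (g : IA 3) l i j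
    rw [toNN_d]
    linarith
  have sh : ∀ l i j, (toNN (h : IA 3)).d l i j = - (toNN (h : IA 3)).d l j i := by
    intro l i j
    have := DD_skew (h : IA 3) l i j
    rw [toNN_d]
    linarith
  generalize (toNN (g : IA 3)).d = D at sg ⊢
  generalize (toNN (h : IA 3)).d = D' at sh ⊢
  have g0 : ∀ l i, D l i i = 0 := fun l i => by have := sg l i i; linarith
  have h0 : ∀ l i, D' l i i = 0 := fun l i => by have := sh l i i; linarith
  have g10 := fun l => sg l 1 0
  have g20 := fun l => sg l 2 0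
  have g21 := fun l => sg l 2 1
  have h10 := fun l => sh l 1 0
  have h20 := fun l => sh l 2 0
  have h21 := fun l => sh l 2 1
  ext t
  fin_cases t
  · simp only [quad3, wedge, lin3, BB, Fin.sum_univ_three, Fin.zero_eta, Fin.isValue,
      Matrix.cons_val_zero, Matrix.cons_val_one, Matrix.cons_val, g0, h0, g10, g20, g21, h10,
      h20, h21]
    ring
  · simp only [quad3, wedge, lin3, BB, Fin.sum_univ_three, Fin.mk_one, Fin.isValue,
      Matrix.cons_val_zero, Matrix.cons_val_one, Matrix.cons_val, g0, h0, g10, g20, g21, h10,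
      h20, h21]
    ring
  · simp only [quad3, wedge, lin3, BB, Fin.sum_univ_three, Fin.reduceFinMk, Fin.isValue,
      Matrix.cons_val_zero, Matrix.cons_val_one, Matrix.cons_val, g0, h0, g10, g20, g21, h10,
      h20, h21]
    ring

/-- generators of the free group -/
def x (l : Fin 3) : FreeGroup (Fin 3) := FreeGroup.of l

/-- an automorphism given by images of generators under it and its inverse -/
def mkAut (f g : Fin 3 → FreeGroup (Fin 3)) (h1 : ∀ l, FreeGroup.lift g (f l) = x l)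
    (h2 : ∀ l, FreeGroup.lift f (g l) = x l) : MulAut (FreeGroup (Fin 3)) :=
  MonoidHom.toMulEquiv (FreeGroup.lift f) (FreeGroup.lift g)
    (by
      apply FreeGroup.ext_hom
      intro l
      rw [MonoidHom.comp_apply, FreeGroup.lift_apply_of, h1]
      rfl)
    (by
      apply FreeGroup.ext_hom
      intro l
      rw [MonoidHom.comp_apply, FreeGroup.lift_apply_of, h2]
      rfl)

lemma mkAut_x (f g : Fin 3 → FreeGroup (Fin 3)) (h1 : ∀ l, FreeGroup.lift g (f l) = x l)
    (h2 : ∀ l, FreeGroup.lift f (g l) = x l) (l : Fin 3) : mkAut f g h1 h2 (x l) = f l :=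
  FreeGroup.lift_apply_of

lemma lift_x (f : Fin 3 → FreeGroup (Fin 3)) (l : Fin 3) : FreeGroup.lift f (x l) = f l :=
  FreeGroup.lift_apply_of

lemma aut_ext {φ ψ : MulAut (FreeGroup (Fin 3))} (h : ∀ l, φ (x l) = ψ (x l)) : φ = ψ := by
  have h1 : (φ : FreeGroup (Fin 3) ≃* FreeGroup (Fin 3)).toMonoidHom =
      (ψ : FreeGroup (Fin 3) ≃* FreeGroup (Fin 3)).toMonoidHom := FreeGroup.ext_hom _ _ h
  ext g
  exact DFunLike.congr_fun h1 g

lemma mem_IA_of {φ : MulAut (FreeGroup (Fin 3))}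
    (h : ∀ l, Abelianization.of (φ (x l)) = Abelianization.of (x l)) : φ ∈ IA 3 := by
  have h1 : Abelianization.of.comp (φ : FreeGroup (Fin 3) ≃* FreeGroup (Fin 3)).toMonoidHom =
      Abelianization.of := FreeGroup.ext_hom _ _ h
  intro g
  exact DFunLike.congr_fun h1 g

/-- the automorphism `x_0 ↦ c⁻¹ x_0 c` for a word `c` in `x_1, x_2` -/
def conjAut (c : FreeGroup (Fin 3))
    (hc : ∀ y : FreeGroup (Fin 3), FreeGroup.lift ![y, x 1, x 2] c = c) :
    MulAut (FreeGroup (Fin 3)) :=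
  mkAut ![c⁻¹ * x 0 * c, x 1, x 2] ![c * x 0 * c⁻¹, x 1, x 2]
    (by
      intro l
      fin_cases l
      · simp only [Fin.zero_eta, Fin.isValue, Matrix.cons_val_zero, map_mul, map_inv, hc, lift_x]
        group
      · simp [lift_x]
      · simp [lift_x])
    (by
      intro l
      fin_cases l
      · simp only [Fin.zero_eta, Fin.isValue, Matrix.cons_val_zero, map_mul, map_inv, hc, lift_x]
        group
      · simp [lift_x]
      · simp [lift_x])

/-- the automorphism `x_0 ↦ x_0 c` for a word `c` in `x_1, x_2` -/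
def mulAut (c : FreeGroup (Fin 3))
    (hc : ∀ y : FreeGroup (Fin 3), FreeGroup.lift ![y, x 1, x 2] c = c) :
    MulAut (FreeGroup (Fin 3)) :=
  mkAut ![x 0 * c, x 1, x 2] ![x 0 * c⁻¹, x 1, x 2]
    (by
      intro l
      fin_cases l
      · simp only [Fin.zero_eta, Fin.isValue, Matrix.cons_val_zero, map_mul, hc, lift_x]
        group
      · simp [lift_x]
      · simp [lift_x])
    (by
      intro l
      fin_cases l
      · simp only [Fin.zero_eta, Fin.isValue, Matrix.cons_val_zero, map_mul, map_inv, hc, lift_x]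
        group
      · simp [lift_x]
      · simp [lift_x])

lemma h1x (y : FreeGroup (Fin 3)) : FreeGroup.lift ![y, x 1, x 2] (x 1) = x 1 := by
  simp [lift_x]

lemma h2x (y : FreeGroup (Fin 3)) : FreeGroup.lift ![y, x 1, x 2] (x 2) = x 2 := by
  simp [lift_x]

lemma h12x (y : FreeGroup (Fin 3)) :
    FreeGroup.lift ![y, x 1, x 2] ⁅x 1, x 2⁆ = ⁅x 1, x 2⁆ := by
  rw [map_commutatorElement, h1x, h2x]

lemma fix (c : FreeGroup (Fin 3))
    (hc : ∀ y : FreeGroup (Fin 3), FreeGroup.lift ![y, x 1, x 2] c = c) :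
    conjAut c hc c = c ∧ mulAut c hc c = c := ⟨hc _, hc _⟩

lemma conjAut_comm : (⁅conjAut (x 1) h1x, conjAut (x 2) h2x⁆ : MulAut (FreeGroup (Fin 3))) =
    conjAut ⁅x 1, x 2⁆ h12x := by
  rw [commutatorElement_def, mul_inv_eq_iff_eq_mul, mul_inv_eq_iff_eq_mul]
  apply aut_ext
  intro l
  simp only [MulAut.mul_apply]
  fin_cases l
  · simp only [conjAut, Fin.zero_eta, Fin.isValue, mkAut_x, Matrix.cons_val_zero, map_mul,
      map_inv, Matrix.cons_val_one, Matrix.cons_val, commutatorElement_def]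
    group
  · simp only [conjAut, Fin.mk_one, Fin.isValue, mkAut_x, Matrix.cons_val_one, Matrix.cons_val]
  · simp only [conjAut, Fin.reduceFinMk, Fin.isValue, mkAut_x, Matrix.cons_val]

lemma conj_mul_comm : (⁅conjAut ⁅x 1, x 2⁆ h12x, mulAut ⁅x 1, x 2⁆ h12x⁆ :
    MulAut (FreeGroup (Fin 3))) = 1 := by
  rw [commutatorElement_eq_one_iff_mul_comm]
  apply aut_ext
  intro l
  simp only [MulAut.mul_apply]
  fin_cases l
  · simp only [conjAut, mulAut, Fin.zero_eta, Fin.isValue, mkAut_x, Matrix.cons_val_zero, map_mul,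
      map_inv, Matrix.cons_val_one, Matrix.cons_val, commutatorElement_def]
    group
  · simp only [conjAut, mulAut, Fin.mk_one, Fin.isValue, mkAut_x, Matrix.cons_val_one,
      Matrix.cons_val]
  · simp only [conjAut, mulAut, Fin.reduceFinMk, Fin.isValue, mkAut_x, Matrix.cons_val]

lemma conjAut_mem (c : FreeGroup (Fin 3))
    (hc : ∀ y : FreeGroup (Fin 3), FreeGroup.lift ![y, x 1, x 2] c = c) :
    conjAut c hc ∈ IA 3 := by
  apply mem_IA_of
  intro l
  fin_cases l
  · simp only [conjAut, Fin.zero_eta, Fin.isValue, mkAut_x, Matrix.cons_val_zero, map_mul,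
      map_inv]
    rw [mul_comm, ← mul_assoc, mul_inv_cancel, one_mul]
  · simp only [conjAut, Fin.mk_one, Fin.isValue, mkAut_x, Matrix.cons_val_one, Matrix.cons_val]
  · simp only [conjAut, Fin.reduceFinMk, Fin.isValue, mkAut_x, Matrix.cons_val]

lemma mulAut_mem : mulAut ⁅x 1, x 2⁆ h12x ∈ IA 3 := by
  apply mem_IA_of
  intro l
  fin_cases l
  · simp only [mulAut, Fin.zero_eta, Fin.isValue, mkAut_x, Matrix.cons_val_zero, map_mul,
      map_commutatorElement]
    rw [commutatorElement_eq_one_iff_mul_comm.2 (mul_comm _ _), mul_one]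
  · simp only [mulAut, Fin.mk_one, Fin.isValue, mkAut_x, Matrix.cons_val_one, Matrix.cons_val]
  · simp only [mulAut, Fin.reduceFinMk, Fin.isValue, mkAut_x, Matrix.cons_val]

/-- the three automorphisms as elements of `Γ_1 IA_3` -/
def a12 : Gam (IA 3) 1 := ⟨⟨conjAut (x 1) h1x, conjAut_mem _ _⟩, Subgroup.mem_top _⟩
def a13 : Gam (IA 3) 1 := ⟨⟨conjAut (x 2) h2x, conjAut_mem _ _⟩, Subgroup.mem_top _⟩
def a123 : Gam (IA 3) 1 := ⟨⟨mulAut ⁅x 1, x 2⁆ h12x, mulAut_mem⟩, Subgroup.mem_top _⟩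

lemma triple_one : commEl (commEl a12 a13) a123 = 1 := by
  apply Subtype.ext
  apply Subtype.ext
  change (⁅⁅conjAut (x 1) h1x, conjAut (x 2) h2x⁆, mulAut ⁅x 1, x 2⁆ h12x⁆ :
    MulAut (FreeGroup (Fin 3))) = 1
  rw [conjAut_comm]
  exact conj_mul_comm

lemma mag_x (l : Fin 3) : mag (x l) = genU l := mag_of l

lemma psi_a12 : psi (cls 1 a12) = ![1, 0, 0] := by
  rw [psi_cls, toNN_d]
  have e0 : ∀ i j, DD (conjAut (x 1) h1x) 0 i j = ((genU 1)⁻¹ * genU 0 * genU 1).u2 i j := by
    intro i j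
    unfold DD
    change (mag (conjAut (x 1) h1x (x 0))).u2 i j = _
    simp only [conjAut, mkAut_x, Matrix.cons_val_zero, map_mul, map_inv, mag_x]
  have e1 : ∀ i j, DD (conjAut (x 1) h1x) 1 i j = (genU 1).u2 i j := by
    intro i j
    unfold DD
    change (mag (conjAut (x 1) h1x (x 1))).u2 i j = _
    simp only [conjAut, mkAut_x, Matrix.cons_val_one, Matrix.cons_val, mag_x]
  have e2 : ∀ i j, DD (conjAut (x 1) h1x) 2 i j = (genU 2).u2 i j := by
    intro i j
    unfold DD
    change (mag (conjAut (x 1) h1x (x 2))).u2 i j = _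
    simp only [conjAut, mkAut_x, Matrix.cons_val, mag_x]
  change lin3 (DD (conjAut (x 1) h1x)) = _
  ext t
  fin_cases t <;> simp [lin3, e0, e1, e2, genU]

lemma psi_a13 : psi (cls 1 a13) = ![0, 1, 0] := by
  rw [psi_cls, toNN_d]
  have e0 : ∀ i j, DD (conjAut (x 2) h2x) 0 i j = ((genU 2)⁻¹ * genU 0 * genU 2).u2 i j := by
    intro i j
    unfold DD
    change (mag (conjAut (x 2) h2x (x 0))).u2 i j = _
    simp only [conjAut, mkAut_x, Matrix.cons_val_zero, map_mul, map_inv, mag_x]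
  have e1 : ∀ i j, DD (conjAut (x 2) h2x) 1 i j = (genU 1).u2 i j := by
    intro i j
    unfold DD
    change (mag (conjAut (x 2) h2x (x 1))).u2 i j = _
    simp only [conjAut, mkAut_x, Matrix.cons_val_one, Matrix.cons_val, mag_x]
  have e2 : ∀ i j, DD (conjAut (x 2) h2x) 2 i j = (genU 2).u2 i j := by
    intro i j
    unfold DD
    change (mag (conjAut (x 2) h2x (x 2))).u2 i j = _
    simp only [conjAut, mkAut_x, Matrix.cons_val, mag_x]
  change lin3 (DD (conjAut (x 2) h2x)) = _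
  ext t
  fin_cases t <;> simp [lin3, e0, e1, e2, genU]

lemma psi_a123 : psi (cls 1 a123) = ![0, 0, 1] := by
  rw [psi_cls, toNN_d]
  have e0 : ∀ i j, DD (mulAut ⁅x 1, x 2⁆ h12x) 0 i j =
      (genU 0 * (genU 1 * genU 2 * (genU 1)⁻¹ * (genU 2)⁻¹)).u2 i j := by
    intro i j
    unfold DD
    change (mag (mulAut ⁅x 1, x 2⁆ h12x (x 0))).u2 i j = _
    simp only [mulAut, mkAut_x, Matrix.cons_val_zero, map_mul, map_inv, mag_x,
      commutatorElement_def]
  have e1 : ∀ i j, DD (mulAut ⁅x 1, x 2⁆ h12x) 1 i j = (genU 1).u2 i j := by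
    intro i j
    unfold DD
    change (mag (mulAut ⁅x 1, x 2⁆ h12x (x 1))).u2 i j = _
    simp only [mulAut, mkAut_x, Matrix.cons_val_one, Matrix.cons_val, mag_x]
  have e2 : ∀ i j, DD (mulAut ⁅x 1, x 2⁆ h12x) 2 i j = (genU 2).u2 i j := by
    intro i j
    unfold DD
    change (mag (mulAut ⁅x 1, x 2⁆ h12x (x 2))).u2 i j = _
    simp only [mulAut, mkAut_x, Matrix.cons_val, mag_x]
  change lin3 (DD (mulAut ⁅x 1, x 2⁆ h12x)) = _
  ext t
  fin_cases t <;> simp [lin3, e0, e1, e2, genU]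

/-- `E_0^*(IA_3)` is not free modulo quadratic relations. -/
theorem IA3_not_quadratic : ¬ FreeModQuadratic (IA 3) := by
  refine not_quadratic psi theta theta_brk (cls 1 a12) (cls 1 a13) (cls 1 a123)
    psi_a12 psi_a13 psi_a123 ?_
  rw [lie_incl, lie_incl, triple_one, cls_one, map_zero]

end Pool.Agent.Helper720.Lcs
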