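import Pool.Agent.Helper720.LcsGroup

set_option autoImplicit false

open scoped commutatorElement DirectSum

namespace Pool.Agent.Helper720.Lcs

variable (G : Type*) [Group G]

/-- The quotient group `Γ_k G / Γ_{k+1} G`. -/
def QuoGr (k : ℕ) : Type _ := Gam G k ⧸ (Gam G (k + 1)).subgroupOf (Gam G k)

instance QuoGr.group (k : ℕ) : Group (QuoGr G k) := QuotientGroup.Quotient.group _

/-- The quotient map `Γ_k G → Γ_k G / Γ_{k+1} G`. -/
def toQuo (k : ℕ) : Gam G k →* QuoGr G k := QuotientGroup.mk' _

/-- The graded piece `Γ_k G / Γ_{k+1} G`, written additively. (The quotient is commutative already;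
`Abelianization` only provides the commutative group structure.) -/
def Gr (k : ℕ) : Type _ := Additive (Abelianization (QuoGr G k))

instance Gr.addCommGroup (k : ℕ) : AddCommGroup (Gr G k) := Additive.addCommGroup

variable {G}

/-- The class in `Γ_k G / Γ_{k+1} G` of an element of `Γ_k G`. -/
def cls (k : ℕ) (g : Gam G k) : Gr G k := Additive.ofMul (Abelianization.of (toQuo G k g))

theorem cls_surj {k : ℕ} : Function.Surjective (cls (G := G) k) := by
  intro x
  obtain ⟨y, hy⟩ := QuotientGroup.mk_surjective (s := commutator _) (Additive.toMul x)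
  obtain ⟨g, hg⟩ := QuotientGroup.mk_surjective (s := (Gam G (k + 1)).subgroupOf (Gam G k)) y
  refine ⟨g, ?_⟩
  change Abelianization.of (toQuo G k g) = Additive.toMul x
  rw [show toQuo G k g = y from hg]
  exact hy

lemma quo_comm (k : ℕ) (x y : QuoGr G k) : x * y = y * x := by
  obtain ⟨a, rfl⟩ := QuotientGroup.mk_surjective (s := (Gam G (k + 1)).subgroupOf (Gam G k)) x
  obtain ⟨b, rfl⟩ := QuotientGroup.mk_surjective (s := (Gam G (k + 1)).subgroupOf (Gam G k)) y
  refine QuotientGroup.eq.2 ?_
  rw [Subgroup.mem_subgroupOf]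
  exact cong_iff.1 (cong_comm a.2 b.1)

lemma of_inj {H : Type*} [Group H] (hH : ∀ x y : H, x * y = y * x) {x y : H}
    (h : Abelianization.of x = Abelianization.of y) : x = y := by
  let _ : CommGroup H := { (inferInstance : Group H) with mul_comm := hH }
  have := congrArg (Abelianization.lift (MonoidHom.id H)) h
  rwa [Abelianization.lift_apply_of, Abelianization.lift_apply_of] at this

lemma cls_eq_iff {k : ℕ} {g h : Gam G k} : cls k g = cls k h ↔ Cong (k + 1) (g : G) (h : G) := by
  have h1 : cls k g = cls k h ↔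
      (QuotientGroup.mk (s := (Gam G (k + 1)).subgroupOf (Gam G k)) g) = QuotientGroup.mk h :=
    ⟨fun hh => of_inj (quo_comm k) (Additive.ofMul.injective hh),
      fun hh => congrArg (fun t : QuoGr G k => Additive.ofMul (Abelianization.of t)) hh⟩
  rw [h1, QuotientGroup.eq, Subgroup.mem_subgroupOf, cong_iff]
  rfl

lemma cls_mul {k : ℕ} (g h : Gam G k) : cls k (g * h) = cls k g + cls k h := rfl

lemma cls_one {k : ℕ} : cls k (1 : Gam G k) = 0 := rfl

lemma cls_inv {k : ℕ} (g : Gam G k) : cls k g⁻¹ = - cls k g := rfl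

lemma cls_eq_zero_iff {k : ℕ} {g : Gam G k} : cls k g = 0 ↔ (g : G) ∈ Gam G (k + 1) := by
  rw [← cls_one, cls_eq_iff, Subgroup.coe_one, cong_one_iff]

/-- A representative in `Γ_k G` of an element of `Γ_k G / Γ_{k+1} G`. -/
noncomputable def rep {k : ℕ} (x : Gr G k) : Gam G k := Function.surjInv cls_surj x

lemma cls_rep {k : ℕ} (x : Gr G k) : cls k (rep x) = x := Function.surjInv_eq cls_surj x

/-- The commutator of elements of `Γ_i G` and `Γ_j G`, as an element of `Γ_{i+j} G`. -/
def commEl {i j : ℕ} (a : Gam G i) (b : Gam G j) : Gam G (i + j) :=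
  ⟨⁅(a : G), (b : G)⁆, comm_mem a.2 b.2⟩

lemma commEl_well {i j : ℕ} {a a' : Gam G i} {b b' : Gam G j}
    (ha : Cong (i + 1) (a : G) (a' : G)) (hb : Cong (j + 1) (b : G) (b' : G)) :
    Cong (i + j + 1) (commEl a b : G) (commEl a' b' : G) := by
  have h1 : (a' : G) = a * ((a : G)⁻¹ * a') := by group
  have h2 : (b' : G) = b * ((b : G)⁻¹ * b') := by group
  rw [cong_iff] at ha hb
  have hai : (a : G)⁻¹ * a' ∈ Gam G i := Gam_succ_le i ha
  have hbj : (b : G)⁻¹ * b' ∈ Gam G j := Gam_succ_le j hb
  have e1 : Cong (i + j + 1) ⁅(a' : G), (b' : G)⁆ ⁅(a : G), (b' : G)⁆ := by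
    have e3 : Cong (i + j + 1) ⁅(a : G) * ((a : G)⁻¹ * a'), (b' : G)⁆
        (⁅(a : G), (b' : G)⁆ * ⁅(a : G)⁻¹ * a', (b' : G)⁆) := cong_mul_left hai b'.2
    rw [← h1] at e3
    have e4 : Cong (i + j + 1) ⁅(a : G)⁻¹ * a', (b' : G)⁆ 1 := by
      have := comm_mem ha b'.2
      exact cong_one_iff.2 (by rwa [show i + 1 + j = i + j + 1 by ring] at this)
    have e5 := (Cong.refl (k := i + j + 1) ⁅(a : G), (b' : G)⁆).mul e4
    rw [mul_one] at e5
    exact e3.trans e5
  have e2 : Cong (i + j + 1) ⁅(a : G), (b' : G)⁆ ⁅(a : G), (b : G)⁆ := by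
    have e3 : Cong (i + j + 1) ⁅(a : G), (b : G) * ((b : G)⁻¹ * b')⁆
        (⁅(a : G), (b : G)⁆ * ⁅(a : G), (b : G)⁻¹ * b'⁆) := cong_mul_right a.2 hbj
    rw [← h2] at e3
    have e4 : Cong (i + j + 1) ⁅(a : G), (b : G)⁻¹ * b'⁆ 1 := by
      have := comm_mem a.2 hb
      exact cong_one_iff.2 (by rwa [show i + (j + 1) = i + j + 1 by ring] at this)
    have e5 := (Cong.refl (k := i + j + 1) ⁅(a : G), (b : G)⁆).mul e4
    rw [mul_one] at e5
    exact e3.trans e5
  exact (e1.trans e2).symm

/-- The bracket `Γ_i/Γ_{i+1} × Γ_j/Γ_{j+1} → Γ_{i+j}/Γ_{i+j+1}` induced by the commutator. It does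
not depend on the representatives, see `brkFun_cls`. -/
noncomputable def brkFun {i j : ℕ} (x : Gr G i) (y : Gr G j) : Gr G (i + j) :=
  cls (i + j) (commEl (rep x) (rep y))

lemma brkFun_cls {i j : ℕ} (a : Gam G i) (b : Gam G j) :
    brkFun (cls i a) (cls j b) = cls (i + j) (commEl a b) :=
  cls_eq_iff.2 (commEl_well (cls_eq_iff.1 (cls_rep (cls i a))) (cls_eq_iff.1 (cls_rep (cls j b))))

lemma brkFun_add_left {i j : ℕ} (x x' : Gr G i) (y : Gr G j) :
    brkFun (x + x') y = brkFun x y + brkFun x' y := by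
  obtain ⟨a, rfl⟩ := cls_surj x
  obtain ⟨a', rfl⟩ := cls_surj x'
  obtain ⟨b, rfl⟩ := cls_surj y
  rw [← cls_mul, brkFun_cls, brkFun_cls, brkFun_cls, ← cls_mul, cls_eq_iff]
  exact cong_mul_left a'.2 b.2

lemma brkFun_add_right {i j : ℕ} (x : Gr G i) (y y' : Gr G j) :
    brkFun x (y + y') = brkFun x y + brkFun x y' := by
  obtain ⟨a, rfl⟩ := cls_surj x
  obtain ⟨b, rfl⟩ := cls_surj y
  obtain ⟨b', rfl⟩ := cls_surj y'
  rw [← cls_mul, brkFun_cls, brkFun_cls, brkFun_cls, ← cls_mul, cls_eq_iff]
  exact cong_mul_right a.2 b'.2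

lemma brkFun_hom_add {i j : ℕ} (x x' : Gr G i) :
    AddMonoidHom.mk' (fun y : Gr G j => brkFun (x + x') y) (brkFun_add_right (x + x')) =
      AddMonoidHom.mk' (fun y : Gr G j => brkFun x y) (brkFun_add_right x) +
        AddMonoidHom.mk' (fun y : Gr G j => brkFun x' y) (brkFun_add_right x') := by
  apply AddMonoidHom.ext
  intro y
  exact brkFun_add_left x x' y

/-- The bracket as a biadditive map. -/
noncomputable def brk (i j : ℕ) : Gr G i →+ Gr G j →+ Gr G (i + j) :=
  AddMonoidHom.mk' (fun x => AddMonoidHom.mk' (fun y => brkFun x y) (brkFun_add_right x))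
    brkFun_hom_add

lemma brk_cls {i j : ℕ} (a : Gam G i) (b : Gam G j) :
    brk i j (cls i a) (cls j b) = cls (i + j) (commEl a b) := brkFun_cls a b

variable (G)

/-- The graded abelian group `E_0^*(G) = ⨁_k Γ_k G / Γ_{k+1} G`. (The summand `k = 0` is zero.) -/
def E0 : Type _ := ⨁ k, Gr G k

noncomputable instance E0.addCommGroup : AddCommGroup (E0 G) := DirectSum.instAddCommGroup

variable {G}

/-- The inclusion of `Γ_k G / Γ_{k+1} G` into `E_0^*(G)`. -/
noncomputable def incl (k : ℕ) : Gr G k →+ E0 G := DirectSum.of (fun k => Gr G k) k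

/-- The component in `Γ_k G / Γ_{k+1} G` of an element of `E_0^*(G)`. -/
def comp (x : E0 G) (k : ℕ) : Gr G k := DFunLike.coe (F := ⨁ k, Gr G k) x k

/-- The bracket of `E_0^*(G)` as a biadditive map (an auxiliary form). -/
noncomputable def brkHomAux : (⨁ k, Gr G k) →+ (⨁ k, Gr G k) →+ E0 G :=
  DirectSum.toAddMonoid fun i => AddMonoidHom.flip (DirectSum.toAddMonoid fun j =>
    AddMonoidHom.flip ((incl (i + j)).compHom.comp (brk i j)))

/-- The bracket of `E_0^*(G)` as a biadditive map (an auxiliary form). -/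
noncomputable def brkHom : E0 G →+ E0 G →+ E0 G := brkHomAux

lemma brkHom_incl {i j : ℕ} (x : Gr G i) (y : Gr G j) :
    brkHom (incl i x) (incl j y) = incl (i + j) (brk i j x y) := by
  change brkHomAux (DirectSum.of (fun k => Gr G k) i x) (DirectSum.of (fun k => Gr G k) j y) = _
  unfold brkHomAux
  rw [DirectSum.toAddMonoid_of, AddMonoidHom.flip_apply, DirectSum.toAddMonoid_of,
    AddMonoidHom.flip_apply, AddMonoidHom.comp_apply, AddMonoidHom.compHom_apply_apply]
  rfl

/-- The bracket of `E_0^*(G)`: the bilinear extension of the brackets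
`Γ_i/Γ_{i+1} × Γ_j/Γ_{j+1} → Γ_{i+j}/Γ_{i+j+1}`. -/
noncomputable def brkE (x y : E0 G) : E0 G :=
  ∑ᶠ p : ℕ × ℕ, incl (p.1 + p.2) (brkFun (comp x p.1) (comp y p.2))

lemma brkFun_zero_left {i j : ℕ} (y : Gr G j) : brkFun (0 : Gr G i) y = 0 := by
  change brk i j 0 y = 0
  rw [map_zero, AddMonoidHom.zero_apply]

lemma brkFun_zero_right {i j : ℕ} (x : Gr G i) : brkFun x (0 : Gr G j) = 0 := by
  change brk i j x 0 = 0
  rw [map_zero]

open Classical in
lemma brkHom_sum_left (s : Finset ℕ) (f : ℕ → E0 G) (z : E0 G) :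
    brkHom (∑ i ∈ s, f i) z = ∑ i ∈ s, brkHom (f i) z := by
  induction s using Finset.induction_on with
  | empty => rw [Finset.sum_empty, Finset.sum_empty, map_zero, AddMonoidHom.zero_apply]
  | insert a s ha ih =>
    rw [Finset.sum_insert ha, Finset.sum_insert ha, map_add, AddMonoidHom.add_apply, ih]

open Classical in
lemma brkHom_sum_right (s : Finset ℕ) (f : ℕ → E0 G) (z : E0 G) :
    brkHom z (∑ i ∈ s, f i) = ∑ i ∈ s, brkHom z (f i) := by
  induction s using Finset.induction_on with
  | empty => rw [Finset.sum_empty, Finset.sum_empty, map_zero]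
  | insert a s ha ih =>
    rw [Finset.sum_insert ha, Finset.sum_insert ha, map_add, ih]

open Classical in
lemma brkE_eq (x y : E0 G) : brkE x y = brkHom x y := by
  unfold brkE
  set sx : Finset ℕ := DFinsupp.support (show ⨁ k, Gr G k from x) with hsx
  set sy : Finset ℕ := DFinsupp.support (show ⨁ k, Gr G k from y) with hsy
  have hx : x = ∑ i ∈ sx, incl i (comp x i) :=
    (DirectSum.sum_support_of (show ⨁ k, Gr G k from x)).symm
  have hy : y = ∑ j ∈ sy, incl j (comp y j) :=
    (DirectSum.sum_support_of (show ⨁ k, Gr G k from y)).symm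
  have hcx : ∀ i, i ∉ sx → comp x i = 0 := by
    intro i hi
    have := (DFinsupp.notMem_support_iff (f := (show ⨁ k, Gr G k from x)) (i := i)).1 hi
    exact this
  have hcy : ∀ i, i ∉ sy → comp y i = 0 := by
    intro i hi
    have := (DFinsupp.notMem_support_iff (f := (show ⨁ k, Gr G k from y)) (i := i)).1 hi
    exact this
  rw [finsum_eq_sum_of_support_subset (s := sx ×ˢ sy)]
  · conv_rhs => rw [hx, hy]
    rw [Finset.sum_product, brkHom_sum_left]
    refine Finset.sum_congr rfl fun i _ => ?_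
    rw [brkHom_sum_right]
    refine Finset.sum_congr rfl fun j _ => ?_
    rw [brkHom_incl]
    rfl
  · intro p hp
    rw [Function.mem_support] at hp
    rw [Finset.coe_product, Set.mem_prod]
    constructor
    · by_contra h
      exact hp (by rw [hcx p.1 (fun h' => h h'), brkFun_zero_left, map_zero])
    · by_contra h
      exact hp (by rw [hcy p.2 (fun h' => h h'), brkFun_zero_right, map_zero])

lemma incl_eq {k l : ℕ} (h : k = l) {g : G} (hk : g ∈ Gam G k) (hl : g ∈ Gam G l) :
    incl k (cls k ⟨g, hk⟩) = incl l (cls l ⟨g, hl⟩) := by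
  subst h
  rfl

lemma cls_zero (x : Gr G 0) : x = 0 := by
  obtain ⟨a, rfl⟩ := cls_surj x
  rw [cls_eq_zero_iff]
  exact Subgroup.mem_top _

/-- induction on `E_0^*(G)` -/
lemma E0_induction {p : E0 G → Prop} (h0 : p 0) (h1 : ∀ (k : ℕ) (g : Gam G k),
    1 ≤ k → p (incl k (cls k g))) (h2 : ∀ x y, p x → p y → p (x + y)) (x : E0 G) : p x := by
  refine DirectSum.induction_on (β := fun k => Gr G k) (motive := p) x h0 ?_ h2
  intro k y
  rcases Nat.eq_zero_or_pos k with rfl | hk
  · rw [cls_zero y]
    have : (DirectSum.of (fun k => Gr G k) 0) 0 = (0 : ⨁ k, Gr G k) := map_zero _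
    rw [this]
    exact h0
  · obtain ⟨g, rfl⟩ := cls_surj y
    exact h1 k g hk

lemma incl_comm_add {i j : ℕ} (a : Gam G i) (b : Gam G j) :
    incl (i + j) (cls (i + j) (commEl a b)) + incl (j + i) (cls (j + i) (commEl b a)) = 0 := by
  have h1 : incl (j + i) (cls (j + i) (commEl b a)) =
      incl (i + j) (cls (i + j) ⟨⁅(b : G), (a : G)⁆, by
        have := comm_mem b.2 a.2
        rwa [add_comm j i] at this⟩) := incl_eq (add_comm j i) _ _
  rw [h1, ← map_add, ← cls_mul]
  have h2 : commEl a b * ⟨⁅(b : G), (a : G)⁆, by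
        have := comm_mem b.2 a.2
        rwa [add_comm j i] at this⟩ = 1 := by
    apply Subtype.ext
    change ⁅(a : G), (b : G)⁆ * ⁅(b : G), (a : G)⁆ = 1
    rw [← commutatorElement_inv (b : G) (a : G)]
    exact inv_mul_cancel _
  rw [h2, cls_one, map_zero]

lemma brkHom_skew (x y : E0 G) : brkHom x y + brkHom y x = 0 := by
  refine E0_induction (p := fun x => brkHom x y + brkHom y x = 0) ?_ ?_ ?_ x
  · rw [map_zero, map_zero, AddMonoidHom.zero_apply, add_zero]
  · intro i a _
    refine E0_induction (p := fun y => brkHom (incl i (cls i a)) y +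
      brkHom y (incl i (cls i a)) = 0) ?_ ?_ ?_ y
    · rw [map_zero, map_zero, AddMonoidHom.zero_apply, add_zero]
    · intro j b _
      rw [brkHom_incl, brkHom_incl, brk_cls, brk_cls]
      exact incl_comm_add a b
    · intro y z hy hz
      rw [map_add, map_add, AddMonoidHom.add_apply]
      calc _ = (brkHom (incl i (cls i a)) y + brkHom y (incl i (cls i a))) +
            (brkHom (incl i (cls i a)) z + brkHom z (incl i (cls i a))) := by abel
        _ = 0 := by rw [hy, hz, add_zero]
  · intro x z hx hz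
    rw [map_add, map_add, AddMonoidHom.add_apply]
    calc _ = (brkHom x y + brkHom y x) + (brkHom z y + brkHom y z) := by abel
      _ = 0 := by rw [hx, hz, add_zero]

lemma brkHom_self (x : E0 G) : brkHom x x = 0 := by
  refine E0_induction (p := fun x => brkHom x x = 0) ?_ ?_ ?_ x
  · rw [map_zero]
  · intro i a _
    rw [brkHom_incl, brk_cls]
    have : commEl a a = 1 := by
      apply Subtype.ext
      exact commutatorElement_self (a : G)
    rw [this, cls_one, map_zero]
  · intro x y hx hy
    rw [map_add, map_add, AddMonoidHom.add_apply, AddMonoidHom.add_apply, hx, hy]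
    have := brkHom_skew x y
    calc _ = brkHom x y + brkHom y x := by abel
      _ = 0 := this

lemma brkHom_jacobi (x y z : E0 G) :
    brkHom x (brkHom y z) = brkHom (brkHom x y) z + brkHom y (brkHom x z) := by
  refine E0_induction (p := fun x => brkHom x (brkHom y z) =
    brkHom (brkHom x y) z + brkHom y (brkHom x z)) ?_ ?_ ?_ x
  · simp only [map_zero, AddMonoidHom.zero_apply, add_zero]
  · intro i a hi
    refine E0_induction (p := fun y => brkHom (incl i (cls i a)) (brkHom y z) =
      brkHom (brkHom (incl i (cls i a)) y) z + brkHom y (brkHom (incl i (cls i a)) z)) ?_ ?_ ?_ y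
    · simp only [map_zero, AddMonoidHom.zero_apply, add_zero]
    · intro j b hj
      refine E0_induction (p := fun z => brkHom (incl i (cls i a)) (brkHom (incl j (cls j b)) z) =
        brkHom (brkHom (incl i (cls i a)) (incl j (cls j b))) z +
          brkHom (incl j (cls j b)) (brkHom (incl i (cls i a)) z)) ?_ ?_ ?_ z
      · simp only [map_zero, add_zero]
      · intro k c hk
        simp only [brkHom_incl, brk_cls]
        have m1 : ⁅(a : G), ⁅(b : G), (c : G)⁆⁆ ∈ Gam G (i + j + k) := by
          have := comm_mem a.2 (comm_mem b.2 c.2)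
          rwa [← add_assoc] at this
        have m2 : ⁅⁅(a : G), (b : G)⁆, (c : G)⁆ ∈ Gam G (i + j + k) :=
          comm_mem (comm_mem a.2 b.2) c.2
        have m3 : ⁅(b : G), ⁅(a : G), (c : G)⁆⁆ ∈ Gam G (i + j + k) := by
          have := comm_mem b.2 (comm_mem a.2 c.2)
          rwa [show j + (i + k) = i + j + k by ring] at this
        have e1 : incl (i + (j + k)) (cls (i + (j + k)) (commEl a (commEl b c))) =
            incl (i + j + k) (cls (i + j + k) ⟨_, m1⟩) := incl_eq (add_assoc i j k).symm _ _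
        have e3 : incl (j + (i + k)) (cls (j + (i + k)) (commEl b (commEl a c))) =
            incl (i + j + k) (cls (i + j + k) ⟨_, m3⟩) :=
          incl_eq (show j + (i + k) = i + j + k by ring) _ _
        rw [e1, e3, ← map_add]
        congr 1
        have e2 : cls (i + j + k) (commEl (commEl a b) c) = cls (i + j + k) ⟨_, m2⟩ := rfl
        rw [e2, ← cls_mul, cls_eq_iff]
        exact cong_jacobi hi hj hk a.2 b.2 c.2
      · intro u v hu hv
        simp only [map_add]
        rw [hu, hv]
        abel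
    · intro u v hu hv
      simp only [map_add, AddMonoidHom.add_apply]
      rw [hu, hv]
      abel
  · intro u v hu hv
    simp only [map_add, AddMonoidHom.add_apply]
    rw [hu, hv]
    abel

lemma brkE_add_left (x y z : E0 G) : brkE (x + y) z = brkE x z + brkE y z := by
  rw [brkE_eq, brkE_eq, brkE_eq, map_add, AddMonoidHom.add_apply]

lemma brkE_add_right (x y z : E0 G) : brkE x (y + z) = brkE x y + brkE x z := by
  rw [brkE_eq, brkE_eq, brkE_eq, map_add]

lemma brkE_self (x : E0 G) : brkE x x = 0 := by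
  rw [brkE_eq, brkHom_self]

lemma brkE_jacobi (x y z : E0 G) :
    brkE x (brkE y z) = brkE (brkE x y) z + brkE y (brkE x z) := by
  simp only [brkE_eq]
  exact brkHom_jacobi x y z

/-- The graded Lie ring `E_0^*(G)`, with bracket induced by the group commutator. -/
noncomputable instance E0.lieRing : LieRing (E0 G) where
  bracket := brkE
  add_lie := brkE_add_left
  lie_add := brkE_add_right
  lie_self := brkE_self
  leibniz_lie := brkE_jacobi

lemma lie_eq (x y : E0 G) : ⁅x, y⁆ = brkHom x y := brkE_eq x y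

lemma lie_incl {i j : ℕ} (a : Gam G i) (b : Gam G j) :
    ⁅incl i (cls i a), incl j (cls j b)⁆ = incl (i + j) (cls (i + j) (commEl a b)) := by
  rw [lie_eq, brkHom_incl, brk_cls]

end Pool.Agent.Helper720.Lcs
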