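import Pool.Agent.Helper720.LcsFree

set_option autoImplicit false

open scoped commutatorElement

namespace Pool.Agent.Helper720.Lcs

/-- Truncated noncommutative power series `1 + u1 + u2 + u3` in three variables. -/
@[ext]
structure UU where
  u1 : Fin 3 → ℤ
  u2 : Fin 3 → Fin 3 → ℤ
  u3 : Fin 3 → Fin 3 → Fin 3 → ℤ

namespace UU

instance : Mul UU := ⟨fun a b =>
  ⟨fun i => a.u1 i + b.u1 i,
   fun i j => a.u2 i j + a.u1 i * b.u1 j + b.u2 i j,
   fun i j k => a.u3 i j k + a.u2 i j * b.u1 k + a.u1 i * b.u2 j k + b.u3 i j k⟩⟩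

instance : One UU := ⟨⟨fun _ => 0, fun _ _ => 0, fun _ _ _ => 0⟩⟩

instance : Inv UU := ⟨fun a =>
  ⟨fun i => - a.u1 i,
   fun i j => - a.u2 i j + a.u1 i * a.u1 j,
   fun i j k => - a.u3 i j k + a.u2 i j * a.u1 k + a.u1 i * a.u2 j k -
     a.u1 i * a.u1 j * a.u1 k⟩⟩

@[simp] lemma mul_u1 (a b : UU) (i : Fin 3) : (a * b).u1 i = a.u1 i + b.u1 i := rfl
@[simp] lemma mul_u2 (a b : UU) (i j : Fin 3) :
    (a * b).u2 i j = a.u2 i j + a.u1 i * b.u1 j + b.u2 i j := rfl
@[simp] lemma mul_u3 (a b : UU) (i j k : Fin 3) :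
    (a * b).u3 i j k = a.u3 i j k + a.u2 i j * b.u1 k + a.u1 i * b.u2 j k + b.u3 i j k := rfl
@[simp] lemma one_u1 (i : Fin 3) : (1 : UU).u1 i = 0 := rfl
@[simp] lemma one_u2 (i j : Fin 3) : (1 : UU).u2 i j = 0 := rfl
@[simp] lemma one_u3 (i j k : Fin 3) : (1 : UU).u3 i j k = 0 := rfl
@[simp] lemma inv_u1 (a : UU) (i : Fin 3) : (a⁻¹).u1 i = - a.u1 i := rfl
@[simp] lemma inv_u2 (a : UU) (i j : Fin 3) :
    (a⁻¹).u2 i j = - a.u2 i j + a.u1 i * a.u1 j := rfl
@[simp] lemma inv_u3 (a : UU) (i j k : Fin 3) :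
    (a⁻¹).u3 i j k = - a.u3 i j k + a.u2 i j * a.u1 k + a.u1 i * a.u2 j k -
     a.u1 i * a.u1 j * a.u1 k := rfl

instance : Group UU := Group.ofLeftAxioms
  (by
    intro a b c
    ext <;> simp <;> ring)
  (by
    intro a
    ext <;> simp)
  (by
    intro a
    ext <;> simp
    ring)

/-- substitution of `X_l + D_l + E_l` for `X_l` -/
def act (D : Fin 3 → Fin 3 → Fin 3 → ℤ) (E : Fin 3 → Fin 3 → Fin 3 → Fin 3 → ℤ) : UU →* UU where
  toFun a :=
    ⟨a.u1,
     fun i j => a.u2 i j + ∑ l, a.u1 l * D l i j,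
     fun i j k => a.u3 i j k + ∑ l, (D l i j * a.u2 l k + D l j k * a.u2 i l) +
       ∑ l, a.u1 l * E l i j k⟩
  map_one' := by
    ext <;> simp
  map_mul' a b := by
    ext <;> simp [Fin.sum_univ_three] <;> ring

end UU

/-- the generator `1 + X_l` -/
def genU (l : Fin 3) : UU := ⟨fun i => if i = l then 1 else 0, fun _ _ => 0, fun _ _ _ => 0⟩

/-- the Magnus expansion truncated after degree three -/
def mag : FreeGroup (Fin 3) →* UU := FreeGroup.lift genU

lemma mag_of (l : Fin 3) : mag (FreeGroup.of l) = genU l := FreeGroup.lift_apply_of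

/-- The shuffle relation in degree two. -/
def Shuf (a : UU) : Prop :=
  ∀ i j, a.u2 i j + a.u2 j i = a.u1 i * a.u1 j - (if i = j then a.u1 i else 0)

lemma shuf_mag (g : FreeGroup (Fin 3)) : Shuf (mag g) := by
  have key : ∀ g ∈ (⊤ : Subgroup (FreeGroup (Fin 3))), Shuf (mag g) := by
    rw [← FreeGroup.closure_range_of]
    intro g hg
    induction hg using Subgroup.closure_induction with
    | mem g hg =>
      obtain ⟨l, rfl⟩ := hg
      rw [mag_of]
      intro i j
      simp only [genU]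
      split_ifs <;> simp_all
    | one =>
      rw [map_one]
      intro i j
      simp
    | mul g h _ _ hg hh =>
      rw [map_mul]
      intro i j
      have h1 := hg i j
      have h2 := hh i j
      simp only [UU.mul_u1, UU.mul_u2]
      split_ifs at h1 h2 ⊢ with hij
      · subst hij
        linear_combination h1 + h2
      · linear_combination h1 + h2
    | inv g _ hg =>
      rw [map_inv]
      intro i j
      have h1 := hg i j
      simp only [UU.inv_u1, UU.inv_u2]
      split_ifs at h1 ⊢ with hij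
      · subst hij
        linear_combination -h1
      · linear_combination -h1
  exact key g (Subgroup.mem_top g)

/-- Acting trivially on the abelianization of the free group of rank `n`. -/
def ActsTriv {n : ℕ} (φ : MulAut (FreeGroup (Fin n))) : Prop :=
  ∀ g : FreeGroup (Fin n), Abelianization.of (φ g) = Abelianization.of g

theorem actsTriv_mul {n : ℕ} {φ ψ : MulAut (FreeGroup (Fin n))} (hφ : ActsTriv φ)
    (hψ : ActsTriv ψ) : ActsTriv (φ * ψ) := by
  intro g
  rw [MulAut.mul_apply, hφ, hψ]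

theorem actsTriv_one {n : ℕ} : ActsTriv (1 : MulAut (FreeGroup (Fin n))) := fun _ => rfl

theorem actsTriv_inv {n : ℕ} {φ : MulAut (FreeGroup (Fin n))} (hφ : ActsTriv φ) :
    ActsTriv φ⁻¹ := by
  intro g
  have := hφ (φ⁻¹ g)
  rw [MulAut.apply_inv_self] at this
  exact this.symm

/-- The group `IA_n`: automorphisms of the free group on `n` generators acting trivially on the
abelianization. -/
def IA (n : ℕ) : Subgroup (MulAut (FreeGroup (Fin n))) where
  carrier := {φ | ActsTriv φ}
  mul_mem' := actsTriv_mul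
  one_mem' := actsTriv_one
  inv_mem' := actsTriv_inv

/-- degree one part of the Magnus expansion as a homomorphism -/
def mag1 : FreeGroup (Fin 3) →* Multiplicative (Fin 3 → ℤ) where
  toFun g := Multiplicative.ofAdd (mag g).u1
  map_one' := by
    rw [map_one]
    rfl
  map_mul' g h := by
    rw [map_mul]
    rfl

lemma mag1_IA {φ : MulAut (FreeGroup (Fin 3))} (hφ : φ ∈ IA 3) (g : FreeGroup (Fin 3)) :
    (mag (φ g)).u1 = (mag g).u1 := by
  have h1 : Abelianization.lift mag1 (Abelianization.of (φ g)) =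
      Abelianization.lift mag1 (Abelianization.of g) := by rw [hφ g]
  rw [Abelianization.lift_apply_of, Abelianization.lift_apply_of] at h1
  exact Multiplicative.ofAdd.injective h1

/-- degree two Magnus coefficients of the images of the generators -/
def DD (φ : MulAut (FreeGroup (Fin 3))) (l i j : Fin 3) : ℤ := (mag (φ (FreeGroup.of l))).u2 i j

/-- degree three Magnus coefficients of the images of the generators -/
def EE (φ : MulAut (FreeGroup (Fin 3))) (l i j k : Fin 3) : ℤ :=
  (mag (φ (FreeGroup.of l))).u3 i j k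

lemma mag_IA {φ : MulAut (FreeGroup (Fin 3))} (hφ : φ ∈ IA 3) (g : FreeGroup (Fin 3)) :
    mag (φ g) = UU.act (DD φ) (EE φ) (mag g) := by
  have h : mag.comp (φ : FreeGroup (Fin 3) ≃* FreeGroup (Fin 3)).toMonoidHom =
      (UU.act (DD φ) (EE φ)).comp mag := by
    apply FreeGroup.ext_hom
    intro l
    have h1 := mag1_IA hφ (FreeGroup.of l)
    rw [mag_of] at h1
    change mag (φ (FreeGroup.of l)) = UU.act (DD φ) (EE φ) (mag (FreeGroup.of l))
    rw [mag_of]
    ext i
    · rw [h1]
      rfl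
    · simp [UU.act, genU, DD]
    · simp [UU.act, genU, EE]
  exact DFunLike.congr_fun h g

/-- The two-step nilpotent group receiving the Magnus coefficients of automorphisms. -/
@[ext]
structure NN where
  d : Fin 3 → Fin 3 → Fin 3 → ℤ
  e : Fin 3 → Fin 3 → Fin 3 → Fin 3 → ℤ

/-- composition of derivations -/
def BB (D D' : Fin 3 → Fin 3 → Fin 3 → ℤ) (l i j k : Fin 3) : ℤ :=
  ∑ m, (D m i j * D' l m k + D m j k * D' l i m)

namespace NN

instance : Mul NN := ⟨fun a b =>
  ⟨fun l i j => a.d l i j + b.d l i j, fun l i j k => a.e l i j k + b.e l i j k +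
    BB a.d b.d l i j k⟩⟩

instance : One NN := ⟨⟨fun _ _ _ => 0, fun _ _ _ _ => 0⟩⟩

instance : Inv NN := ⟨fun a =>
  ⟨fun l i j => - a.d l i j, fun l i j k => - a.e l i j k + BB a.d a.d l i j k⟩⟩

@[simp] lemma mul_d (a b : NN) (l i j : Fin 3) : (a * b).d l i j = a.d l i j + b.d l i j := rfl
@[simp] lemma mul_e (a b : NN) (l i j k : Fin 3) :
    (a * b).e l i j k = a.e l i j k + b.e l i j k + BB a.d b.d l i j k := rfl
@[simp] lemma one_d (l i j : Fin 3) : (1 : NN).d l i j = 0 := rfl
@[simp] lemma one_e (l i j k : Fin 3) : (1 : NN).e l i j k = 0 := rfl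
@[simp] lemma inv_d (a : NN) (l i j : Fin 3) : (a⁻¹).d l i j = - a.d l i j := rfl
@[simp] lemma inv_e (a : NN) (l i j k : Fin 3) :
    (a⁻¹).e l i j k = - a.e l i j k + BB a.d a.d l i j k := rfl

instance : Group NN := Group.ofLeftAxioms
  (by
    intro a b c
    ext
    · simp
      ring
    · simp [BB, Fin.sum_univ_three]
      ring)
  (by
    intro a
    ext <;> simp [BB])
  (by
    intro a
    ext
    · simp
    · simp [BB, Fin.sum_univ_three]
      ring)

end NN

/-- The homomorphism from `IA_3` recording the Magnus coefficients. -/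
def toNN : IA 3 →* NN := MonoidHom.mk' (fun φ => ⟨DD φ.1, EE φ.1⟩) (by
  intro φ ψ
  have h : ∀ l, mag ((φ * ψ : IA 3).1 (FreeGroup.of l)) =
      UU.act (DD φ.1) (EE φ.1) (mag (ψ.1 (FreeGroup.of l))) := by
    intro l
    exact mag_IA φ.2 _
  have h1 : ∀ l, (mag (ψ.1 (FreeGroup.of l))).u1 = (genU l).u1 := by
    intro l
    rw [mag1_IA ψ.2, mag_of]
  ext l i j
  · change (mag ((φ * ψ : IA 3).1 (FreeGroup.of l))).u2 i j = DD φ.1 l i j + DD ψ.1 l i j
    rw [h]
    simp only [UU.act, MonoidHom.coe_mk, OneHom.coe_mk, h1, genU]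
    simp [DD]
    ring
  · rename_i k
    change (mag ((φ * ψ : IA 3).1 (FreeGroup.of l))).u3 i j k = EE φ.1 l i j k + EE ψ.1 l i j k +
      BB (DD φ.1) (DD ψ.1) l i j k
    rw [h]
    simp only [UU.act, MonoidHom.coe_mk, OneHom.coe_mk, h1, genU]
    simp [DD, EE, BB]
    ring)

lemma toNN_d (φ : IA 3) : (toNN φ).d = DD φ.1 := rfl
lemma toNN_e (φ : IA 3) : (toNN φ).e = EE φ.1 := rfl

lemma DD_skew (φ : IA 3) (l i j : Fin 3) : DD φ.1 l i j + DD φ.1 l j i = 0 := by
  have h := shuf_mag (φ.1 (FreeGroup.of l)) i j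
  rw [mag1_IA φ.2, mag_of] at h
  unfold DD
  rw [h]
  simp only [genU]
  split_ifs <;> simp_all

end Pool.Agent.Helper720.Lcs
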