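import Pool.Agent.Helper720.LevelDefs

set_option autoImplicit false

open MvPolynomial

namespace Pool.Agent.Helper720.Level

variable {K : Type*} [Field K] {n : ℕ}

/-- `I` is the ideal of all polynomials none of whose monomials divides a member of `W`. -/
def Desc (I : Ideal (MvPolynomial (Fin n) K)) (W : Finset (Fin n →₀ ℕ)) : Prop :=
  ∀ f : MvPolynomial (Fin n) K, f ∈ I ↔ ∀ m ∈ f.support, ∀ w ∈ W, ¬ m ≤ w

lemma Desc.monomial_mem {I : Ideal (MvPolynomial (Fin n) K)} {W : Finset (Fin n →₀ ℕ)}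
    (h : Desc I W) (m : Fin n →₀ ℕ) :
    MvPolynomial.monomial m (1 : K) ∈ I ↔ ∀ w ∈ W, ¬ m ≤ w := by
  rw [h]
  constructor
  · intro h1
    exact h1 m (by simp)
  · intro h1 m' hm'
    simp at hm'
    subst hm'
    exact h1

lemma Desc.coeff_eq_zero {I : Ideal (MvPolynomial (Fin n) K)} {W : Finset (Fin n →₀ ℕ)}
    (h : Desc I W) {f : MvPolynomial (Fin n) K} (hf : f ∈ I) {m w : Fin n →₀ ℕ} (hw : w ∈ W)
    (hm : m ≤ w) : f.coeff m = 0 := by
  by_contra hne
  exact (h f).1 hf m (MvPolynomial.mem_support_iff.2 hne) w hw hm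

lemma mem_socle {I : Ideal (MvPolynomial (Fin n) K)} {f : MvPolynomial (Fin n) K} :
    Ideal.Quotient.mk I f ∈ socle I ↔ ∀ j, X j * f ∈ I := by
  unfold socle
  rw [Submodule.mem_iInf]
  refine forall_congr' fun j => ?_
  rw [LinearMap.mem_ker, LinearMap.mulLeft_apply, ← map_mul, Ideal.Quotient.eq_zero_iff_mem]

lemma exists_single_add_le {m w : Fin n →₀ ℕ} (h : m ≤ w) (hne : m ≠ w) :
    ∃ j, Finsupp.single j 1 + m ≤ w := by
  by_contra hcon
  push Not at hcon
  apply hne
  apply le_antisymm h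
  intro j
  by_contra hlt
  push Not at hlt
  apply hcon j
  intro k
  by_cases hk : k = j
  · subst hk
    simp only [Finsupp.add_apply, Finsupp.single_eq_same]
    omega
  · have : (Finsupp.single j 1 : Fin n →₀ ℕ) k = 0 := by
      rw [Finsupp.single_apply, if_neg (fun h' => hk h'.symm)]
    simp only [Finsupp.add_apply, this, zero_add]
    exact h k

lemma degree_le_of_le {m w : Fin n →₀ ℕ} (h : m ≤ w) : m.degree ≤ w.degree :=
  Finsupp.degree_mono h

lemma eq_of_le_of_degree {m w : Fin n →₀ ℕ} (h : m ≤ w) (hd : w.degree ≤ m.degree) : m = w := by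
  by_contra hne
  obtain ⟨j, hj⟩ := exists_single_add_le h hne
  have := degree_le_of_le hj
  rw [map_add, Finsupp.degree_single] at this
  omega

lemma Desc.linearIndependent {I : Ideal (MvPolynomial (Fin n) K)} {W : Finset (Fin n →₀ ℕ)}
    (h : Desc I W) {ι : Type*} (v : ι → (Fin n →₀ ℕ)) (hv : Function.Injective v)
    (hvW : ∀ i, ∃ w ∈ W, v i ≤ w) :
    LinearIndependent K (fun i => Ideal.Quotient.mk I (MvPolynomial.monomial (v i) (1 : K))) := by
  rw [linearIndependent_iff']
  intro s g hg i hi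
  have h1 : ∑ i ∈ s, g i • Ideal.Quotient.mk I (MvPolynomial.monomial (v i) (1 : K)) =
      Ideal.Quotient.mk I (∑ i ∈ s, MvPolynomial.monomial (v i) (g i)) := by
    rw [map_sum]
    refine Finset.sum_congr rfl fun i _ => ?_
    have : MvPolynomial.monomial (v i) (g i) = g i • MvPolynomial.monomial (v i) (1 : K) := by
      rw [MvPolynomial.smul_monomial, smul_eq_mul, mul_one]
    rw [this]
    rfl
  rw [h1, Ideal.Quotient.eq_zero_iff_mem] at hg
  obtain ⟨w, hw, hle⟩ := hvW i
  have h2 := h.coeff_eq_zero hg hw hle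
  rw [MvPolynomial.coeff_sum, Finset.sum_eq_single i] at h2
  · simpa using h2
  · intro b _ hb
    rw [MvPolynomial.coeff_monomial, if_neg (fun h' => hb (hv h'))]
  · intro h'
    exact absurd hi h'


lemma Desc.sub_mem_of_coeff {I : Ideal (MvPolynomial (Fin n) K)} {W : Finset (Fin n →₀ ℕ)}
    (h : Desc I W) {f g : MvPolynomial (Fin n) K}
    (hfg : ∀ m, ∀ w ∈ W, m ≤ w → f.coeff m = g.coeff m) : f - g ∈ I := by
  rw [h]
  intro m hm w hw hle
  rw [MvPolynomial.mem_support_iff, MvPolynomial.coeff_sub, hfg m w hw hle, sub_self] at hm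
  exact hm rfl

/-- the class of the monomial `m` in `R / I` -/
noncomputable def cls (I : Ideal (MvPolynomial (Fin n) K)) (m : Fin n →₀ ℕ) :
    MvPolynomial (Fin n) K ⧸ I :=
  Ideal.Quotient.mk I (MvPolynomial.monomial m (1 : K))

lemma coeff_sum_monomial (s : Finset (Fin n →₀ ℕ)) (c : (Fin n →₀ ℕ) → K) (m : Fin n →₀ ℕ) :
    (∑ w ∈ s, MvPolynomial.monomial w (c w)).coeff m = if m ∈ s then c m else 0 := by
  rw [MvPolynomial.coeff_sum]
  simp_rw [MvPolynomial.coeff_monomial]
  rw [Finset.sum_ite_eq' s m]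

lemma mk_sum_monomial (I : Ideal (MvPolynomial (Fin n) K)) (s : Finset (Fin n →₀ ℕ))
    (c : (Fin n →₀ ℕ) → K) :
    Ideal.Quotient.mk I (∑ w ∈ s, MvPolynomial.monomial w (c w)) = ∑ w ∈ s, c w • cls I w := by
  rw [map_sum]
  refine Finset.sum_congr rfl fun i _ => ?_
  have : MvPolynomial.monomial i (c i) = c i • MvPolynomial.monomial i (1 : K) := by
    rw [MvPolynomial.smul_monomial, smul_eq_mul, mul_one]
  rw [this]
  rfl

lemma Desc.finite {I : Ideal (MvPolynomial (Fin n) K)} {W : Finset (Fin n →₀ ℕ)}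
    (h : Desc I W) : Module.Finite K (MvPolynomial (Fin n) K ⧸ I) := by
  classical
  set s : Finset (Fin n →₀ ℕ) := W.biUnion (fun w => Finset.Iic w) with hs
  refine ⟨⟨s.image (cls I), ?_⟩⟩
  rw [eq_top_iff]
  rintro a -
  obtain ⟨f, rfl⟩ := Ideal.Quotient.mk_surjective a
  have h1 : f - ∑ w ∈ s, MvPolynomial.monomial w (f.coeff w) ∈ I := by
    apply h.sub_mem_of_coeff
    intro m w hw hle
    rw [coeff_sum_monomial, if_pos]
    rw [hs, Finset.mem_biUnion]
    exact ⟨w, hw, Finset.mem_Iic.2 hle⟩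
  have h2 : Ideal.Quotient.mk I f = ∑ w ∈ s, f.coeff w • cls I w := by
    rw [← mk_sum_monomial]
    exact Ideal.Quotient.eq.2 h1
  rw [h2]
  refine Submodule.sum_mem _ fun w hw => Submodule.smul_mem _ _ (Submodule.subset_span ?_)
  rw [Finset.coe_image]
  exact ⟨w, hw, rfl⟩

lemma Desc.socle_eq {I : Ideal (MvPolynomial (Fin n) K)} {W : Finset (Fin n →₀ ℕ)}
    (h : Desc I W) {f : MvPolynomial (Fin n) K}
    (hf : Ideal.Quotient.mk I f ∈ socle I) :
    f - ∑ w ∈ W, MvPolynomial.monomial w (f.coeff w) ∈ I := by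
  apply h.sub_mem_of_coeff
  intro m w hw hle
  rw [coeff_sum_monomial]
  split_ifs with hm
  · rfl
  · have hne : m ≠ w := fun h' => hm (h' ▸ hw)
    obtain ⟨j, hj⟩ := exists_single_add_le hle hne
    rw [mem_socle] at hf
    have h1 := h.coeff_eq_zero (hf j) hw hj
    rwa [MvPolynomial.coeff_X_mul] at h1

lemma Desc.cls_mem_socle {I : Ideal (MvPolynomial (Fin n) K)} {W : Finset (Fin n →₀ ℕ)}
    (h : Desc I W) {e : ℕ} (hW : ∀ w ∈ W, w.degree = e) {w : Fin n →₀ ℕ} (hw : w ∈ W) :
    cls I w ∈ socle I := by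
  unfold cls
  rw [mem_socle]
  intro j
  rw [MvPolynomial.X, MvPolynomial.monomial_mul, one_mul, h.monomial_mem]
  intro w' hw' hle
  have := degree_le_of_le hle
  rw [map_add, Finsupp.degree_single, hW w hw, hW w' hw'] at this
  omega

lemma Desc.finrank_socle {I : Ideal (MvPolynomial (Fin n) K)} {W : Finset (Fin n →₀ ℕ)}
    (h : Desc I W) {e : ℕ} (hW : ∀ w ∈ W, w.degree = e) :
    Module.finrank K (socle I) = W.card := by
  have hli : LinearIndependent K (fun w : W => cls I (w : Fin n →₀ ℕ)) :=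
    h.linearIndependent (fun w : W => (w : Fin n →₀ ℕ)) Subtype.val_injective
      (fun w => ⟨w, w.2, le_rfl⟩)
  have hspan : socle I = Submodule.span K (Set.range (fun w : W => cls I (w : Fin n →₀ ℕ))) := by
    apply le_antisymm
    · intro a ha
      obtain ⟨f, rfl⟩ := Ideal.Quotient.mk_surjective a
      have h1 := h.socle_eq ha
      have h2 : Ideal.Quotient.mk I f = ∑ w ∈ W, f.coeff w • cls I w := by
        rw [← mk_sum_monomial]
        exact Ideal.Quotient.eq.2 h1
      rw [h2]
      refine Submodule.sum_mem _ fun w hw => Submodule.smul_mem _ _ (Submodule.subset_span ?_)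
      exact ⟨⟨w, hw⟩, rfl⟩
    · rw [Submodule.span_le]
      rintro _ ⟨w, rfl⟩
      exact h.cls_mem_socle hW w.2
  rw [hspan, finrank_span_eq_card hli, Fintype.card_coe]

/-- Polynomials described by an antichain in a single degree give level algebras. -/
lemma Desc.level {I : Ideal (MvPolynomial (Fin n) K)} {W : Finset (Fin n →₀ ℕ)}
    (h : Desc I W) {e : ℕ} (hW : ∀ w ∈ W, w.degree = e) :
    IsMonomialLevel I W.card (e + n) where
  monomial := by
    refine ⟨{s | ∀ w ∈ W, ¬ s ≤ w}, ?_⟩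
    ext f
    rw [h, MvPolynomial.mem_ideal_span_monomial_image]
    constructor
    · intro h1 m hm
      exact ⟨m, h1 m hm, le_rfl⟩
    · intro h1 m hm w hw hle
      obtain ⟨s, hs, hsm⟩ := h1 m hm
      exact hs w hw (hsm.trans hle)
  artinian := h.finite
  type_eq := h.finrank_socle hW
  socle_degree := by
    refine ⟨e, rfl, fun a ha => ?_⟩
    obtain ⟨f, rfl⟩ := Ideal.Quotient.mk_surjective a
    refine ⟨∑ w ∈ W, MvPolynomial.monomial w (f.coeff w), ?_, ?_⟩
    · refine MvPolynomial.IsHomogeneous.sum _ _ _ fun w hw => ?_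
      exact MvPolynomial.isHomogeneous_monomial _ (hW w hw)
    · exact (Ideal.Quotient.eq.2 (h.socle_eq ha)).symm

/-- The monomial ideal described by `W`. -/
lemma exists_desc (K : Type*) [Field K] (W : Finset (Fin n →₀ ℕ)) :
    ∃ I : Ideal (MvPolynomial (Fin n) K), Desc I W := by
  refine ⟨Ideal.span ((fun s => MvPolynomial.monomial s (1 : K)) '' {s | ∀ w ∈ W, ¬ s ≤ w}), ?_⟩
  intro f
  rw [MvPolynomial.mem_ideal_span_monomial_image]
  constructor
  · intro h1 m hm w hw hle
    obtain ⟨s, hs, hsm⟩ := h1 m hm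
    exact hs w hw (hsm.trans hle)
  · intro h1 m hm
    exact ⟨m, h1 m hm, le_rfl⟩

/-- Every monomial level algebra of positive type is described by the set of the
monomials of the socle degree outside the ideal. -/
lemma IsMonomialLevel.exists_desc {I : Ideal (MvPolynomial (Fin n) K)} {t d : ℕ}
    (hI : IsMonomialLevel I t d) :
    ∃ (e : ℕ) (W : Finset (Fin n →₀ ℕ)), e + n = d ∧ W.card = t ∧ (∀ w ∈ W, w.degree = e) ∧
      Desc I W := by
  classical
  obtain ⟨S, hS⟩ := hI.monomial
  obtain ⟨e, hed, hsoc⟩ := hI.socle_degree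
  have hmem : ∀ f : MvPolynomial (Fin n) K, f ∈ I ↔ ∀ m ∈ f.support, ∃ s ∈ S, s ≤ m := by
    intro f
    rw [hS, MvPolynomial.mem_ideal_span_monomial_image]
  set N : Set (Fin n →₀ ℕ) := {m | ∀ s ∈ S, ¬ s ≤ m} with hN
  have hcoeff : ∀ f ∈ I, ∀ m ∈ N, f.coeff m = 0 := by
    intro f hf m hm
    by_contra hne
    obtain ⟨s, hs, hle⟩ := (hmem f).1 hf m (MvPolynomial.mem_support_iff.2 hne)
    exact hm s hs hle
  have hli : LinearIndependent K (fun m : N => cls I (m : Fin n →₀ ℕ)) := by
    rw [linearIndependent_iff']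
    intro s g hg i hi
    have h1 : ∑ i ∈ s, g i • cls I (i : Fin n →₀ ℕ) =
        Ideal.Quotient.mk I (∑ i ∈ s, MvPolynomial.monomial (i : Fin n →₀ ℕ) (g i)) := by
      rw [map_sum]
      refine Finset.sum_congr rfl fun i _ => ?_
      have : MvPolynomial.monomial (i : Fin n →₀ ℕ) (g i) =
          g i • MvPolynomial.monomial (i : Fin n →₀ ℕ) (1 : K) := by
        rw [MvPolynomial.smul_monomial, smul_eq_mul, mul_one]
      rw [this]
      rfl
    rw [h1, Ideal.Quotient.eq_zero_iff_mem] at hg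
    have h2 := hcoeff _ hg i i.2
    rw [MvPolynomial.coeff_sum, Finset.sum_eq_single i] at h2
    · simpa using h2
    · intro b _ hb
      rw [MvPolynomial.coeff_monomial, if_neg (fun h' => hb (Subtype.ext h'))]
    · intro h'
      exact absurd hi h'
  have hNfin : N.Finite := by
    have := hI.artinian
    have h3 : Finite N := by
      by_contra hinf
      rw [not_finite_iff_infinite] at hinf
      have h4 := hli.cardinal_lift_le_rank
      have h5 := Module.rank_lt_aleph0 K (MvPolynomial (Fin n) K ⧸ I)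
      have h6 : Cardinal.aleph0 ≤ Cardinal.mk N := Cardinal.aleph0_le_mk N
      have h7 : Cardinal.lift.{0} (Module.rank K (MvPolynomial (Fin n) K ⧸ I)) <
          Cardinal.aleph0 := by
        rw [Cardinal.lift_lt_aleph0]
        exact h5
      have h8 := h4.trans_lt h7
      rw [Cardinal.lift_lt_aleph0] at h8
      exact absurd h8 (not_lt.2 h6)
    exact h3
  have htop : ∀ m ∈ N, (∀ j, Finsupp.single j 1 + m ∉ N) → m.degree = e := by
    intro m hm hmax
    have h1 : cls I m ∈ socle I := by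
      unfold cls
      rw [mem_socle]
      intro j
      rw [MvPolynomial.X, MvPolynomial.monomial_mul, one_mul, hmem]
      intro m' hm'
      simp at hm'
      subst hm'
      have := hmax j
      simp only [hN, Set.mem_ofPred_eq] at this
      push Not at this
      exact this
    obtain ⟨g, hg, hge⟩ := hsoc _ h1
    unfold cls at hge
    rw [Ideal.Quotient.eq] at hge
    have h2 := hcoeff _ hge m hm
    by_contra hne
    rw [MvPolynomial.coeff_sub, hg.coeff_eq_zero hne, MvPolynomial.coeff_monomial,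
      if_pos rfl] at h2
    simp at h2
  have hup : ∀ m ∈ N, ∃ w ∈ N, m ≤ w ∧ w.degree = e := by
    intro m hm
    obtain ⟨w, hmw, hw⟩ := hNfin.exists_le_maximal hm
    refine ⟨w, hw.1, hmw, htop w hw.1 fun j hj => ?_⟩
    have h1 := hw.2 hj (by
      intro k
      simp)
    have h2 := degree_le_of_le h1
    rw [map_add, Finsupp.degree_single] at h2
    omega
  have hdown : ∀ m w : Fin n →₀ ℕ, w ∈ N → m ≤ w → m ∈ N := by
    intro m w hw hle s hs hsm
    exact hw s hs (hsm.trans hle)
  set W : Finset (Fin n →₀ ℕ) := hNfin.toFinset.filter (fun m => m.degree = e) with hWdef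
  have hWmem : ∀ w, w ∈ W ↔ w ∈ N ∧ w.degree = e := by
    intro w
    rw [hWdef, Finset.mem_filter, Set.Finite.mem_toFinset]
  have hdesc : Desc I W := by
    intro f
    rw [hmem]
    refine forall₂_congr fun m _ => ?_
    constructor
    · rintro ⟨s, hs, hsm⟩ w hw hle
      exact ((hWmem w).1 hw).1 s hs (hsm.trans hle)
    · intro h1
      by_contra h2
      push Not at h2
      obtain ⟨w, hwN, hmw, hwe⟩ := hup m h2
      exact h1 w ((hWmem w).2 ⟨hwN, hwe⟩) hmw
  refine ⟨e, W, hed, ?_, fun w hw => ((hWmem w).1 hw).2, hdesc⟩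
  rw [← hdesc.finrank_socle (fun w hw => ((hWmem w).1 hw).2)]
  exact hI.type_eq

end Pool.Agent.Helper720.Level
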