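import Pool.Agent.Helper720.LevelExist

set_option autoImplicit false

open MvPolynomial

namespace Pool.Agent.Helper720.Level

variable {K : Type*} [Field K] {n : ℕ}

/-- the lowering operator attached to `w` -/
noncomputable def D (w : Fin n →₀ ℕ) (f : MvPolynomial (Fin n) K) : MvPolynomial (Fin n) K :=
  ∑ j, (C (w j : K) * pderiv j f - X j * pderiv j (pderiv j f))

lemma coeff_D (w : Fin n →₀ ℕ) (f : MvPolynomial (Fin n) K) (m : Fin n →₀ ℕ) :
    (D w f).coeff m =
      ∑ j, ((w j : K) - (m j : K)) * ((m j : K) + 1) * f.coeff (m + Finsupp.single j 1) := by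
  unfold D
  rw [coeff_sum]
  refine Finset.sum_congr rfl fun j _ => ?_
  rw [coeff_sub, coeff_C_mul, coeff_pderiv, coeff_X_mul']
  by_cases hj : m j = 0
  · rw [if_neg (by simpa using hj), hj]
    push_cast
    ring
  · have h1 : m - Finsupp.single j 1 + Finsupp.single j 1 = m := by
      apply tsub_add_cancel_of_le
      rw [Finsupp.single_le_iff]
      omega
    have h2 : (((m - Finsupp.single j 1 : Fin n →₀ ℕ) j : ℕ) : K) + 1 = m j := by
      rw [sub_single_apply_same, Nat.cast_sub (by omega)]
      push_cast
      ring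
    rw [if_pos (by simpa using hj), coeff_pderiv, h1, h2, coeff_pderiv]
    ring

lemma D_below {w : Fin n →₀ ℕ} {f : MvPolynomial (Fin n) K} (hf : ∀ m, m ≤ w → f.coeff m = 0) :
    ∀ m, m ≤ w → (D w f).coeff m = 0 := by
  intro m hm
  rw [coeff_D]
  refine Finset.sum_eq_zero fun j _ => ?_
  by_cases hj : m j = w j
  · rw [hj, sub_self, zero_mul, zero_mul]
  · have h1 : m + Finsupp.single j 1 ≤ w := by
      intro k
      have h2 := hm k
      by_cases hk : j = k
      · subst hk
        rw [Finsupp.add_apply, Finsupp.single_eq_same]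
        omega
      · rw [Finsupp.add_apply, single_apply_ne hk, add_zero]
        exact h2
    rw [hf _ h1, mul_zero]

lemma D_hom {w : Fin n →₀ ℕ} {f : MvPolynomial (Fin n) K} {i : ℕ} (hf : f.IsHomogeneous (i + 1)) :
    (D w f).IsHomogeneous i := by
  intro m hm
  rw [coeff_D] at hm
  obtain ⟨j, _, hj⟩ := Finset.exists_ne_zero_of_sum_ne_zero hm
  have h1 : f.coeff (m + Finsupp.single j 1) ≠ 0 := right_ne_zero_of_mul hj
  have h2 : (m + Finsupp.single j 1).degree = i + 1 := by
    by_contra hne
    exact h1 (hf.coeff_eq_zero hne)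
  rw [map_add, Finsupp.degree_single] at h2
  have h3 : m.degree = i := by omega
  rw [← h3, Finsupp.degree_eq_weight_one]
  rfl

lemma D_zero {w : Fin n →₀ ℕ} {f : MvPolynomial (Fin n) K} (hf : f.IsHomogeneous 0) :
    D w f = 0 := by
  ext m
  rw [coeff_D, coeff_zero]
  refine Finset.sum_eq_zero fun j _ => ?_
  rw [hf.coeff_eq_zero, mul_zero]
  rw [map_add, Finsupp.degree_single]
  omega

/-- the sum of the variables -/
noncomputable def ell (K : Type*) [Field K] (n : ℕ) : MvPolynomial (Fin n) K := ∑ j, X j

lemma lin_one : lin (fun _ : Fin n => (1 : K)) = ell K n := by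
  unfold lin ell
  simp

lemma ell_hom : (ell K n).IsHomogeneous 1 :=
  MvPolynomial.IsHomogeneous.sum _ _ _ fun _ _ => MvPolynomial.isHomogeneous_X _ _

lemma pderiv_ell (j : Fin n) : pderiv j (ell K n) = 1 := by
  classical
  unfold ell
  rw [map_sum, Finset.sum_eq_single j]
  · simp
  · intro k _ hk
    exact pderiv_X_of_ne hk
  · intro h
    exact absurd (Finset.mem_univ _) h

lemma D_ell_mul (w : Fin n →₀ ℕ) {f : MvPolynomial (Fin n) K} {i : ℕ} (hf : f.IsHomogeneous i) :
    D w (ell K n * f) = ell K n * D w f + C ((w.degree : K) - 2 * i) * f := by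
  unfold D
  have h1 : ∀ j, pderiv j (ell K n * f) = f + ell K n * pderiv j f := by
    intro j
    rw [pderiv_mul, pderiv_ell, one_mul]
  have h2 : ∀ j, pderiv j (f + ell K n * pderiv j f) =
      2 * pderiv j f + ell K n * pderiv j (pderiv j f) := by
    intro j
    rw [map_add, pderiv_mul, pderiv_ell, one_mul]
    ring
  have h3 : ∀ j : Fin n, C (w j : K) * pderiv j (ell K n * f) -
      X j * pderiv j (pderiv j (ell K n * f)) =
      C (w j : K) * f + ell K n * (C (w j : K) * pderiv j f - X j * pderiv j (pderiv j f)) -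
        2 * (X j * pderiv j f) := by
    intro j
    rw [h1, h2]
    ring
  rw [Finset.sum_congr rfl fun j _ => h3 j, Finset.sum_sub_distrib, Finset.sum_add_distrib,
    ← Finset.sum_mul, ← Finset.mul_sum, ← Finset.mul_sum, hf.sum_X_mul_pderiv]
  have h4 : (∑ j, C (w j : K) : MvPolynomial (Fin n) K) = C (w.degree : K) := by
    rw [Finsupp.degree_eq_sum, Nat.cast_sum, map_sum]
  rw [h4, map_sub, map_mul]
  have h5 : (C (2 : K) : MvPolynomial (Fin n) K) = 2 := by
    rw [← map_ofNat (C : K →+* MvPolynomial (Fin n) K) 2]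
  have h6 : (C (i : K) : MvPolynomial (Fin n) K) = (i : MvPolynomial (Fin n) K) := by
    rw [map_natCast]
  rw [h5, h6, nsmul_eq_mul]
  ring

lemma D_ell_pow (w : Fin n →₀ ℕ) {f : MvPolynomial (Fin n) K} {i : ℕ} (hf : f.IsHomogeneous i)
    (k : ℕ) :
    D w (ell K n ^ (k + 1) * f) = ell K n ^ (k + 1) * D w f +
      C (((k : K) + 1) * ((w.degree : K) - 2 * i - k)) * (ell K n ^ k * f) := by
  induction k with
  | zero =>
    rw [zero_add, pow_one, D_ell_mul w hf]
    push_cast
    ring_nf
  | succ k ih =>
    have h1 : (ell K n ^ (k + 1) * f).IsHomogeneous (k + 1 + i) := by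
      have := (ell_hom (K := K) (n := n)).pow (k + 1)
      rw [one_mul] at this
      exact this.mul hf
    have h2 : ell K n ^ (k + 1 + 1) * f = ell K n * (ell K n ^ (k + 1) * f) := by ring
    rw [h2, D_ell_mul w h1, ih]
    push_cast
    simp only [map_mul, map_sub, map_add, map_one, map_ofNat]
    ring

/-- Strong Lefschetz property of monomial complete intersections, injectivity part. -/
lemma ci_inj [CharZero K] (w : Fin n →₀ ℕ) : ∀ (i k : ℕ) (f : MvPolynomial (Fin n) K),
    f.IsHomogeneous i → k + 2 * i ≤ w.degree →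
    (∀ m, m ≤ w → (ell K n ^ k * f).coeff m = 0) → ∀ m, m ≤ w → f.coeff m = 0 := by
  intro i
  induction i with
  | zero =>
    intro k
    induction k with
    | zero =>
      intro f _ _ h
      simpa using h
    | succ k ih =>
      intro f hf hk h
      have h1 := D_below h
      rw [D_ell_pow w hf, D_zero hf, mul_zero, zero_add] at h1
      apply ih f hf (by omega)
      intro m hm
      have h2 := h1 m hm
      rw [coeff_C_mul, mul_eq_zero] at h2
      refine h2.resolve_left ?_
      have h3 : ((k : K) + 1) ≠ 0 := by exact_mod_cast Nat.succ_ne_zero k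
      have h4 : ((w.degree : K) - 2 * ((0 : ℕ) : K) - k) = ((w.degree - k : ℕ) : K) := by
        rw [Nat.cast_sub (by omega)]
        push_cast
        ring
      rw [h4]
      refine mul_ne_zero h3 ?_
      exact_mod_cast (by omega : w.degree - k ≠ 0)
  | succ i ihi =>
    intro k
    induction k with
    | zero =>
      intro f _ _ h
      simpa using h
    | succ k ih =>
      intro f hf hk h
      have h1 := D_below h
      rw [D_ell_pow w hf] at h1
      have h5 : ∀ m, m ≤ w → (D w f).coeff m = 0 := by
        apply ihi (k + 2) (D w f) (D_hom hf) (by omega)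
        intro m hm
        have h6 : ell K n ^ (k + 2) * D w f = ell K n * (ell K n ^ (k + 1) * D w f +
            C (((k : K) + 1) * ((w.degree : K) - 2 * ((i + 1 : ℕ) : K) - k)) *
              (ell K n ^ k * f)) -
            C (((k : K) + 1) * ((w.degree : K) - 2 * ((i + 1 : ℕ) : K) - k)) *
              (ell K n ^ (k + 1) * f) := by
          ring
        rw [h6, coeff_sub, coeff_C_mul, h m hm, mul_zero, sub_zero, ← lin_one, coeff_lin_mul]
        refine Finset.sum_eq_zero fun j _ => ?_
        by_cases hj : m j = 0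
        · rw [if_pos hj, mul_zero]
        · rw [if_neg hj, lin_one, h1 _ (tsub_le_self.trans hm), mul_zero]
      apply ih f hf (by omega)
      intro m hm
      have h2 := h1 m hm
      have h7 : (ell K n ^ (k + 1) * D w f).coeff m = 0 := by
        have : ∀ (r : ℕ) (g : MvPolynomial (Fin n) K), (∀ m, m ≤ w → g.coeff m = 0) →
            ∀ m, m ≤ w → (ell K n ^ r * g).coeff m = 0 := by
          intro r
          induction r with
          | zero => intro g hg; simpa using hg
          | succ r ihr =>
            intro g hg m hm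
            have h8 : ell K n ^ (r + 1) * g = ell K n * (ell K n ^ r * g) := by ring
            rw [h8, ← lin_one, coeff_lin_mul]
            refine Finset.sum_eq_zero fun j _ => ?_
            by_cases hj : m j = 0
            · rw [if_pos hj, mul_zero]
            · rw [if_neg hj, lin_one, ihr g hg _ (tsub_le_self.trans hm), mul_zero]
        exact this (k + 1) _ h5 m hm
      rw [coeff_add, h7, zero_add, coeff_C_mul, mul_eq_zero] at h2
      refine h2.resolve_left ?_
      have h3 : ((k : K) + 1) ≠ 0 := by exact_mod_cast Nat.succ_ne_zero k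
      have h4 : ((w.degree : K) - 2 * ((i + 1 : ℕ) : K) - k) =
          ((w.degree - 2 * (i + 1) - k : ℕ) : K) := by
        rw [Nat.cast_sub (by omega), Nat.cast_sub (by omega)]
        push_cast
        ring
      rw [h4]
      refine mul_ne_zero h3 ?_
      exact_mod_cast (by omega : w.degree - 2 * (i + 1) - k ≠ 0)

/-- Injectivity in the first half, for every monomial level algebra. -/
lemma inj_first_half [CharZero K] {W : Finset (Fin n →₀ ℕ)} {e i : ℕ}
    (hW : ∀ w ∈ W, w.degree = e) (hi : 2 * i + 1 ≤ e) : Function.Injective (T1 K W i) := by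
  rw [injective_iff_map_eq_zero]
  intro φ hφ
  ext m
  obtain ⟨⟨w, hw, hle⟩, _⟩ := mem_Pset.1 m.2
  have h1 := ci_inj w i 1 (emb W i φ) (emb_homogeneous W i φ) (by rw [hW w hw]; omega) (by
    intro m' hm'
    rw [pow_one, ← lin_one]
    by_cases hd : m'.degree = i + 1
    · have := congrFun hφ ⟨m', mem_Pset.2 ⟨⟨w, hw, hm'⟩, hd⟩⟩
      rwa [T_apply] at this
    · apply ((lin_homogeneous _).mul (emb_homogeneous W i φ)).coeff_eq_zero
      omega) m hle
  rw [coeff_emb, dif_pos m.2] at h1
  exact h1

end Pool.Agent.Helper720.Level
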