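import Mathlib

set_option autoImplicit false

open MvPolynomial

namespace Pool.Agent.Helper720.Level

variable {K : Type*} [Field K] {n : ℕ}

/-- The weak Lefschetz property of the graded algebra `R / I`, where `R = K[x_1, …, x_n]`:
there is a linear form `L` such that, for every `i`, multiplication by `L` from the degree `i`
part to the degree `i + 1` part of `R / I` is injective or surjective. -/
def HasWLP (I : Ideal (MvPolynomial (Fin n) K)) : Prop :=
  ∃ L : MvPolynomial (Fin n) K, L.IsHomogeneous 1 ∧ ∀ i : ℕ,
    (∀ f : MvPolynomial (Fin n) K, f.IsHomogeneous i → L * f ∈ I → f ∈ I) ∨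
    (∀ g : MvPolynomial (Fin n) K, g.IsHomogeneous (i + 1) →
      ∃ f : MvPolynomial (Fin n) K, f.IsHomogeneous i ∧ g - L * f ∈ I)

/-- The socle of `R / I`: the elements killed by all the variables. -/
noncomputable def socle (I : Ideal (MvPolynomial (Fin n) K)) :
    Submodule K (MvPolynomial (Fin n) K ⧸ I) :=
  ⨅ j : Fin n, LinearMap.ker (LinearMap.mulLeft K (Ideal.Quotient.mk I (X j)))

/-- `R / I` is a monomial level algebra in `n` variables, of type `t`, whose last syzygy module
is generated in degree `d`: the ideal `I` is monomial, `R / I` is Artinian, its socle has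
dimension `t` and is concentrated in degree `e = d - n`. -/
structure IsMonomialLevel (I : Ideal (MvPolynomial (Fin n) K)) (t d : ℕ) : Prop where
  monomial : ∃ S : Set (Fin n →₀ ℕ),
    I = Ideal.span ((fun s => MvPolynomial.monomial s (1 : K)) '' S)
  artinian : Module.Finite K (MvPolynomial (Fin n) K ⧸ I)
  type_eq : Module.finrank K (socle I) = t
  socle_degree : ∃ e : ℕ, e + n = d ∧ ∀ a ∈ socle I,
    ∃ g : MvPolynomial (Fin n) K, g.IsHomogeneous e ∧ Ideal.Quotient.mk I g = a

end Pool.Agent.Helper720.Level
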