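import Pool.Agent.Helper720.LevelMaps

set_option autoImplicit false

open MvPolynomial

namespace Pool.Agent.Helper720.Level

variable {K : Type*} [Field K] {n : ℕ}

/-- multiplication by the sum of the variables -/
noncomputable abbrev T1 (K : Type*) [Field K] {n : ℕ} (W : Finset (Fin n →₀ ℕ)) (i : ℕ) :
    (↥(Pset W i) → K) →ₗ[K] (↥(Pset W (i + 1)) → K) := T W i (fun _ => (1 : K))

/-- extension by zero -/
noncomputable def ext0 (P : Finset (Fin n →₀ ℕ)) (φ : ↥P → K) : (Fin n →₀ ℕ) → K :=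
  fun m => if h : m ∈ P then φ ⟨m, h⟩ else 0

lemma ext0_apply (P : Finset (Fin n →₀ ℕ)) (φ : ↥P → K) (m : ↥P) :
    ext0 P φ (m : Fin n →₀ ℕ) = φ m := by
  unfold ext0
  rw [dif_pos m.2]

lemma ext0_support (P : Finset (Fin n →₀ ℕ)) (φ : ↥P → K) (m : Fin n →₀ ℕ)
    (h : ext0 P φ m ≠ 0) : m ∈ P := by
  by_contra hm
  apply h
  unfold ext0
  rw [dif_neg hm]

lemma T1_apply (W : Finset (Fin n →₀ ℕ)) (i : ℕ) (φ : ↥(Pset W i) → K)
    (m' : ↥(Pset W (i + 1))) :
    T1 K W i φ m' = ∑ j, if (m' : Fin n →₀ ℕ) j = 0 then 0 else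
      ext0 (Pset W i) φ ((m' : Fin n →₀ ℕ) - Finsupp.single j 1) := by
  rw [T_apply, coeff_lin_mul]
  refine Finset.sum_congr rfl fun j _ => ?_
  rw [one_mul, coeff_emb]
  rfl

lemma inj_of {W : Finset (Fin n →₀ ℕ)} {i : ℕ}
    (h : ∀ f : (Fin n →₀ ℕ) → K, (∀ m, f m ≠ 0 → m ∈ Pset W i) →
      (∀ m ∈ Pset W (i + 1), ∑ j, (if m j = 0 then 0 else f (m - Finsupp.single j 1)) = 0) →
      ∀ m, f m = 0) : Function.Injective (T1 K W i) := by
  rw [injective_iff_map_eq_zero]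
  intro φ hφ
  ext m
  rw [← ext0_apply (Pset W i) φ m]
  apply h (ext0 _ φ) (ext0_support _ φ)
  intro m' hm'
  have := congrFun hφ ⟨m', hm'⟩
  rw [T1_apply] at this
  exact this

lemma not_inj_of {W : Finset (Fin n →₀ ℕ)} {i : ℕ}
    (f : (Fin n →₀ ℕ) → K) (hf : ∀ m, f m ≠ 0 → m ∈ Pset W i)
    (hf0 : ∀ m ∈ Pset W (i + 1), ∑ j, (if m j = 0 then 0 else f (m - Finsupp.single j 1)) = 0)
    {m₀ : Fin n →₀ ℕ} (hm₀ : f m₀ ≠ 0) : ¬ Function.Injective (T1 K W i) := by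
  intro hinj
  have hext : ext0 (Pset W i) (fun m => f (m : Fin n →₀ ℕ)) = f := by
    ext m
    unfold ext0
    split_ifs with h
    · rfl
    · by_contra h'
      exact h (hf m (Ne.symm h'))
  have h1 : T1 K W i (fun m => f (m : Fin n →₀ ℕ)) = 0 := by
    ext m'
    rw [T1_apply, hext]
    exact hf0 _ m'.2
  have h2 : (fun m : ↥(Pset W i) => f (m : Fin n →₀ ℕ)) = 0 := by
    apply hinj
    rw [h1, map_zero]
  have h3 := congrFun h2 ⟨m₀, hf m₀ hm₀⟩
  exact hm₀ h3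

lemma single_add_sub (m : Fin n →₀ ℕ) (j : Fin n) :
    Finsupp.single j 1 + m - Finsupp.single j 1 = m := by
  rw [add_comm, add_tsub_cancel_right]

lemma sub_eq_iff {m m' : Fin n →₀ ℕ} {j : Fin n} (hj : m' j ≠ 0) :
    m' - Finsupp.single j 1 = m ↔ m' = Finsupp.single j 1 + m := by
  have hle : Finsupp.single j 1 ≤ m' := by
    rw [Finsupp.single_le_iff]
    omega
  rw [tsub_eq_iff_eq_add_of_le hle, add_comm]

/-- the pairing formula -/
lemma pairing (W : Finset (Fin n →₀ ℕ)) (i : ℕ) (c : (Fin n →₀ ℕ) → K)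
    (hc : ∀ m, c m ≠ 0 → m ∈ Pset W (i + 1)) (m : ↥(Pset W i)) :
    ∑ m' : ↥(Pset W (i + 1)), c (m' : Fin n →₀ ℕ) * T1 K W i (Pi.single m 1) m' =
      ∑ j, c (Finsupp.single j 1 + (m : Fin n →₀ ℕ)) := by
  have hext : ∀ x, ext0 (Pset W i) (Pi.single m (1 : K)) x = if x = (m : Fin n →₀ ℕ) then 1 else 0 := by
    intro x
    unfold ext0
    split_ifs with h1 h2 h2
    · have : (⟨x, h1⟩ : ↥(Pset W i)) = m := Subtype.ext h2
      rw [this, Pi.single_eq_same]
    · rw [Pi.single_eq_of_ne]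
      intro h3
      exact h2 (congrArg Subtype.val h3)
    · exact absurd (h2 ▸ m.2) h1
    · rfl
  simp only [T1_apply, Finset.mul_sum]
  rw [Finset.sum_comm]
  refine Finset.sum_congr rfl fun j _ => ?_
  by_cases hmem : Finsupp.single j 1 + (m : Fin n →₀ ℕ) ∈ Pset W (i + 1)
  · rw [Finset.sum_eq_single ⟨_, hmem⟩]
    · have hne : (Finsupp.single j 1 + (m : Fin n →₀ ℕ) : Fin n →₀ ℕ) j ≠ 0 := by
        rw [Finsupp.add_apply, Finsupp.single_eq_same]
        omega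
      simp only
      rw [if_neg hne, hext, single_add_sub, if_pos rfl, mul_one]
    · intro b _ hb
      by_cases hbj : (b : Fin n →₀ ℕ) j = 0
      · rw [if_pos hbj, mul_zero]
      · rw [if_neg hbj, hext, if_neg, mul_zero]
        intro h'
        rw [sub_eq_iff hbj] at h'
        exact hb (Subtype.ext h')
    · intro h'
      exact absurd (Finset.mem_univ _) h'
  · have h0 : c (Finsupp.single j 1 + (m : Fin n →₀ ℕ)) = 0 := by
      by_contra h'
      exact hmem (hc _ h')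
    rw [h0]
    refine Finset.sum_eq_zero fun b _ => ?_
    by_cases hbj : (b : Fin n →₀ ℕ) j = 0
    · rw [if_pos hbj, mul_zero]
    · rw [if_neg hbj, hext, if_neg, mul_zero]
      intro h'
      rw [sub_eq_iff hbj] at h'
      exact hmem (h' ▸ b.2)

lemma down_closed {W : Finset (Fin n →₀ ℕ)} {i : ℕ} {m : Fin n →₀ ℕ} {j : Fin n}
    (h : Finsupp.single j 1 + m ∈ Pset W (i + 1)) : m ∈ Pset W i := by
  obtain ⟨⟨w, hw, hle⟩, hd⟩ := mem_Pset.1 h
  rw [map_add, Finsupp.degree_single] at hd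
  refine mem_Pset.2 ⟨⟨w, hw, le_trans ?_ hle⟩, by omega⟩
  intro k
  simp

lemma surj_of {W : Finset (Fin n →₀ ℕ)} {i : ℕ}
    (h : ∀ c : (Fin n →₀ ℕ) → K, (∀ m, c m ≠ 0 → m ∈ Pset W (i + 1)) →
      (∀ m, ∑ j, c (Finsupp.single j 1 + m) = 0) → ∀ m, c m = 0) :
    Function.Surjective (T1 K W i) := by
  classical
  rw [← LinearMap.range_eq_top]
  by_contra hne
  obtain ⟨ψ, hψ0, hψ⟩ := Submodule.exists_le_ker_of_lt_top _ (lt_top_iff_ne_top.2 hne)
  apply hψ0
  set c : (Fin n →₀ ℕ) → K := ext0 (Pset W (i + 1)) (fun m' => ψ (Pi.single m' 1)) with hc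
  have hsum : ∀ φ : ↥(Pset W (i + 1)) → K, ψ φ = ∑ m' : ↥(Pset W (i + 1)),
      c (m' : Fin n →₀ ℕ) * φ m' := by
    intro φ
    conv_lhs => rw [← Finset.univ_sum_single φ]
    rw [map_sum]
    refine Finset.sum_congr rfl fun m' _ => ?_
    rw [hc, ext0_apply]
    have : (Pi.single m' (φ m') : ↥(Pset W (i + 1)) → K) = φ m' • Pi.single m' 1 := by
      rw [← Pi.single_smul, smul_eq_mul, mul_one]
    rw [this, map_smul, smul_eq_mul, mul_comm]
  have hcs : ∀ m, c m ≠ 0 → m ∈ Pset W (i + 1) := ext0_support _ _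
  have h1 : ∀ m, ∑ j, c (Finsupp.single j 1 + m) = 0 := by
    intro m
    by_cases hm : m ∈ Pset W i
    · rw [← pairing W i c hcs ⟨m, hm⟩, ← hsum]
      exact LinearMap.mem_ker.1 (hψ (LinearMap.mem_range_self _ _))
    · refine Finset.sum_eq_zero fun j _ => ?_
      by_contra h'
      exact hm (down_closed (hcs _ h'))
  have h2 := h c hcs h1
  ext φ
  simp only [LinearMap.comp_apply, LinearMap.zero_apply]
  rw [hsum]
  exact Finset.sum_eq_zero fun m' _ => by rw [h2, zero_mul]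

lemma not_surj_of {W : Finset (Fin n →₀ ℕ)} {i : ℕ} (c : (Fin n →₀ ℕ) → K)
    (hcs : ∀ m, c m ≠ 0 → m ∈ Pset W (i + 1))
    (hc : ∀ m ∈ Pset W i, ∑ j, c (Finsupp.single j 1 + m) = 0)
    {m₀ : Fin n →₀ ℕ} (hm₀ : c m₀ ≠ 0) : ¬ Function.Surjective (T1 K W i) := by
  classical
  intro hsurj
  obtain ⟨φ, hφ⟩ := hsurj (Pi.single ⟨m₀, hcs m₀ hm₀⟩ 1)
  set ψ : (↥(Pset W (i + 1)) → K) →ₗ[K] K :=
    ∑ m' : ↥(Pset W (i + 1)), c (m' : Fin n →₀ ℕ) • LinearMap.proj m' with hψ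
  have hψa : ∀ x, ψ x = ∑ m' : ↥(Pset W (i + 1)), c (m' : Fin n →₀ ℕ) * x m' := by
    intro x
    rw [hψ, LinearMap.sum_apply]
    rfl
  have h1 : ∀ m : ↥(Pset W i), ψ (T1 K W i (Pi.single m 1)) = 0 := by
    intro m
    rw [hψa, pairing W i c hcs m]
    exact hc _ m.2
  have h2 : ψ ∘ₗ T1 K W i = 0 := by
    ext m
    simp only [LinearMap.comp_apply, LinearMap.zero_apply, LinearMap.coe_single]
    exact h1 m
  have h3 : ψ (T1 K W i φ) = 0 := LinearMap.congr_fun h2 φ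
  rw [hφ, hψa, Finset.sum_eq_single ⟨m₀, hcs m₀ hm₀⟩] at h3
  · rw [Pi.single_eq_same, mul_one] at h3
    exact hm₀ h3
  · intro b _ hb
    rw [Pi.single_eq_of_ne hb, mul_zero]
  · intro h'
    exact absurd (Finset.mem_univ _) h'

lemma not_surj_of_not_inj {W : Finset (Fin n →₀ ℕ)} {i : ℕ}
    (hcard : (Pset W i).card ≤ (Pset W (i + 1)).card)
    (h : ¬ Function.Injective (T1 K W i)) : ¬ Function.Surjective (T1 K W i) := by
  intro hsurj
  apply h
  have h1 : Module.finrank K (↥(Pset W i) → K) = Module.finrank K (↥(Pset W (i + 1)) → K) := by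
    apply le_antisymm
    · rw [Module.finrank_fintype_fun_eq_card, Module.finrank_fintype_fun_eq_card,
        Fintype.card_coe, Fintype.card_coe]
      exact hcard
    · exact LinearMap.finrank_le_finrank_of_surjective hsurj
  exact (LinearMap.injective_iff_surjective_of_finrank_eq_finrank h1).2 hsurj

lemma not_inj_of_card {W : Finset (Fin n →₀ ℕ)} {i : ℕ}
    (hcard : (Pset W (i + 1)).card < (Pset W i).card) : ¬ Function.Injective (T1 K W i) := by
  intro hinj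
  have h1 := LinearMap.finrank_le_finrank_of_injective hinj
  rw [Module.finrank_fintype_fun_eq_card, Module.finrank_fintype_fun_eq_card,
        Fintype.card_coe, Fintype.card_coe] at h1
  omega

end Pool.Agent.Helper720.Level
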