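import Pool.Agent.Helper720.LevelThree

set_option autoImplicit false

namespace Pool.Agent.Helper720.Level

/-- linear combination `a * r - b * s` of integer rows -/
def comb (a b : ℤ) : List ℤ → List ℤ → List ℤ
  | [], ys => ys.map (fun y => -(b * y))
  | x :: xs, [] => a * x :: comb a b xs []
  | x :: xs, y :: ys => (a * x - b * y) :: comb a b xs ys

/-- evaluation of a row at a vector of values -/
def dot {K : Type*} [Field K] : List ℤ → (ℕ → K) → K
  | [], _ => 0
  | x :: xs, F => (x : K) * F 0 + dot xs (fun k => F (k + 1))

lemma dot_map_neg {K : Type*} [Field K] (b : ℤ) (ys : List ℤ) (F : ℕ → K) :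
    dot (ys.map (fun y => -(b * y))) F = - ((b : K) * dot ys F) := by
  induction ys generalizing F with
  | nil => simp [dot]
  | cons y ys ih =>
    simp only [List.map_cons, dot, ih]
    push_cast
    ring

lemma dot_comb {K : Type*} [Field K] (a b : ℤ) (r s : List ℤ) (F : ℕ → K) :
    dot (comb a b r s) F = (a : K) * dot r F - (b : K) * dot s F := by
  induction r generalizing s F with
  | nil =>
    simp only [comb, dot_map_neg, dot]
    ring
  | cons x xs ih =>
    cases s with
    | nil =>
      simp only [comb, dot, ih]
      push_cast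
      ring
    | cons y ys =>
      simp only [comb, dot, ih]
      push_cast
      ring

/-- Gaussian elimination on the columns `k, k+1, …`, with `fuel` columns. -/
def elim : ℕ → ℕ → List (List ℤ) → List (List ℤ) → List (List ℤ)
  | 0, _, used, unused => used ++ unused
  | fuel + 1, k, used, unused =>
    match unused.find? (fun r => r.getD k 0 != 0) with
    | none => elim fuel (k + 1) used unused
    | some p =>
      let pk := p.getD k 0
      elim fuel (k + 1) (p :: used.map (fun s => comb pk (s.getD k 0) s p))
        ((unused.filter (fun r => r != p)).map (fun s => comb pk (s.getD k 0) s p))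

lemma elim_sound {K : Type*} [Field K] (F : ℕ → K) : ∀ (fuel k : ℕ) (used unused : List (List ℤ)),
    (∀ r ∈ used, dot r F = 0) → (∀ r ∈ unused, dot r F = 0) →
    ∀ r ∈ elim fuel k used unused, dot r F = 0 := by
  intro fuel
  induction fuel with
  | zero =>
    intro k used unused h1 h2 r hr
    simp only [elim, List.mem_append] at hr
    rcases hr with hr | hr
    · exact h1 r hr
    · exact h2 r hr
  | succ fuel ih =>
    intro k used unused h1 h2 r hr
    unfold elim at hr
    cases hfind : unused.find? (fun r => r.getD k 0 != 0) with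
    | none =>
      rw [hfind] at hr
      exact ih _ _ _ h1 h2 r hr
    | some p =>
      rw [hfind] at hr
      have hp : p ∈ unused := List.mem_of_find?_eq_some hfind
      refine ih _ _ _ ?_ ?_ r hr
      · intro s hs
        rw [List.mem_cons] at hs
        rcases hs with rfl | hs
        · exact h2 _ hp
        · rw [List.mem_map] at hs
          obtain ⟨s', hs', rfl⟩ := hs
          rw [dot_comb, h1 s' hs', h2 p hp]
          ring
      · intro s hs
        rw [List.mem_map] at hs
        obtain ⟨s', hs', rfl⟩ := hs
        rw [List.mem_filter] at hs'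
        rw [dot_comb, h2 s' hs'.1, h2 p hp]
        ring

/-- the row `r` has exactly one nonzero entry, in position `k` -/
def isUnit : ℕ → List ℤ → Bool
  | _, [] => false
  | 0, x :: xs => x != 0 && xs.all (fun y => y == 0)
  | k + 1, x :: xs => x == 0 && isUnit k xs

lemma dot_zero {K : Type*} [Field K] (xs : List ℤ) (h : xs.all (fun y => y == 0) = true)
    (F : ℕ → K) : dot xs F = 0 := by
  induction xs generalizing F with
  | nil => rfl
  | cons x xs ih =>
    simp only [List.all_cons, Bool.and_eq_true, beq_iff_eq] at h
    simp only [dot, h.1, ih h.2]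
    simp

lemma isUnit_sound {K : Type*} [Field K] [CharZero K] (k : ℕ) (r : List ℤ) (F : ℕ → K)
    (h : isUnit k r = true) (h0 : dot r F = 0) : F k = 0 := by
  induction r generalizing k F with
  | nil => simp [isUnit] at h
  | cons x xs ih =>
    cases k with
    | zero =>
      simp only [isUnit, Bool.and_eq_true, bne_iff_ne] at h
      rw [dot, dot_zero xs h.2, add_zero] at h0
      have hx : (x : K) ≠ 0 := by exact_mod_cast h.1
      exact (mul_eq_zero.1 h0).resolve_left hx
    | succ k =>
      simp only [isUnit, Bool.and_eq_true, beq_iff_eq] at h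
      simp only [dot, h.1, Int.cast_zero, zero_mul, zero_add] at h0
      exact ih k (fun k => F (k + 1)) h.2 h0

/-- every variable in the list `need` is forced to vanish -/
def forced (cols : ℕ) (rows : List (List ℤ)) (need : List ℕ) : Bool :=
  let R := elim cols 0 [] rows
  need.all (fun k => R.any (fun r => isUnit k r))

lemma forced_sound {K : Type*} [Field K] [CharZero K] {cols : ℕ} {rows : List (List ℤ)}
    {need : List ℕ} (h : forced cols rows need = true) (F : ℕ → K)
    (hF : ∀ r ∈ rows, dot r F = 0) : ∀ k ∈ need, F k = 0 := by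
  intro k hk
  unfold forced at h
  simp only [List.all_eq_true, List.any_eq_true] at h
  obtain ⟨r, hr, hu⟩ := h k hk
  exact isUnit_sound k r F hu (elim_sound F cols 0 [] rows (by simp) hF r hr)

/-- triples of exponents -/
abbrev Tri := ℕ × ℕ × ℕ

def quadL : List Tri := [(2,0,0),(1,1,0),(1,0,1),(0,2,0),(0,1,1),(0,0,2)]
def cubL : List Tri :=
  [(3,0,0),(2,1,0),(2,0,1),(1,2,0),(1,1,1),(1,0,2),(0,3,0),(0,2,1),(0,1,2),(0,0,3)]
def quartL : List Tri :=
  [(4,0,0),(3,1,0),(3,0,1),(2,2,0),(2,1,1),(2,0,2),(1,3,0),(1,2,1),(1,1,2),(1,0,3),
   (0,4,0),(0,3,1),(0,2,2),(0,1,3),(0,0,4)]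

def dv (p q : Tri) : Bool := p.1 ≤ q.1 && p.2.1 ≤ q.2.1 && p.2.2 ≤ q.2.2

/-- rows of the injectivity system for the set `W` -/
def injRows (W : List Tri) : List (List ℤ) :=
  (cubL.filter (fun m => W.any (dv m))).map (fun m => quadL.map (fun q => if dv q m then 1 else 0))

def injNeed (W : List Tri) : List ℕ :=
  (List.range 6).filter (fun l => W.any (dv (quadL.getD l (0,0,0))))

def surjRows (W : List Tri) : List (List ℤ) :=
  quadL.map (fun q => cubL.map (fun m => if dv q m && W.any (dv m) then 1 else 0))

def surjNeed (W : List Tri) : List ℕ :=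
  (List.range 10).filter (fun l => W.any (dv (cubL.getD l (0,0,0))))

def chk (W : List Tri) : Bool :=
  forced 6 (injRows W) (injNeed W) || forced 10 (surjRows W) (surjNeed W)

set_option maxRecDepth 100000 in
lemma chk_cub : (cubL.sublistsLen 4).all chk = true := by decide +kernel

set_option maxRecDepth 100000 in
lemma chk_quart : (quartL.sublistsLen 4).all chk = true := by decide +kernel

end Pool.Agent.Helper720.Level
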