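import Pool.Agent.Helper720.LevelTransfer

set_option autoImplicit false

namespace Pool.Agent.Helper720.Level

variable (K : Type*) [Field K] [CharZero K] {n : ℕ}

def W26 : List (Fin 4 → ℕ) := [![2,2,1,1], ![1,1,2,2]]

def A26 : List ((Fin 4 → ℕ) × ℤ) :=
  [(![2,1,0,0], 1), (![1,2,0,0], -1), (![2,0,1,0], -1), (![2,0,0,1], -1), (![0,2,1,0], 1),
   (![0,2,0,1], 1), (![1,0,1,1], 2), (![0,1,1,1], -2), (![1,0,2,0], -2), (![1,0,0,2], -2),
   (![0,1,2,0], 2), (![0,1,0,2], 2)]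

def C26 : List ((Fin 4 → ℕ) × ℤ) :=
  [(![2,2,0,0], -2), (![0,0,2,2], -2), (![2,1,1,0], 1), (![2,1,0,1], 1), (![1,2,1,0], 1),
   (![1,2,0,1], 1), (![1,0,2,1], 1), (![1,0,1,2], 1), (![0,1,2,1], 1), (![0,1,1,2], 1),
   (![2,0,1,1], -1), (![0,2,1,1], -1), (![1,1,2,0], -1), (![1,1,0,2], -1), (![1,1,1,1], -1)]

def W34 : List (Fin 3 → ℕ) := [![2,2,0], ![2,0,2], ![0,2,2]]

def A34 : List ((Fin 3 → ℕ) × ℤ) :=
  [(![2,0,0], 1), (![0,2,0], 1), (![0,0,2], 1), (![1,1,0], -1), (![1,0,1], -1), (![0,1,1], -1)]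

def C34 : List ((Fin 3 → ℕ) × ℤ) :=
  [(![2,1,0], 1), (![1,2,0], -1), (![0,2,1], 1), (![0,1,2], -1), (![1,0,2], 1), (![2,0,1], -1)]

def W45 : List (Fin 3 → ℕ) := [![5,0,0], ![4,1,0], ![2,2,1], ![1,4,0]]

def A45 : List ((Fin 3 → ℕ) × ℤ) := [(![2,0,1], 1), (![1,1,1], -1), (![0,2,1], 1)]

def C45 : List ((Fin 3 → ℕ) × ℤ) :=
  [(![2,2,0], 1), (![3,1,0], -1), (![4,0,0], 1), (![1,3,0], -1), (![0,4,0], 1)]

lemma example_two (hn : 4 ≤ n) : ∃ W : Finset (Fin n →₀ ℕ), W.card = 2 ∧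
    (∀ w ∈ W, w.degree = 6) ∧
      ¬ Function.Injective (T1 K W 3) ∧ ¬ Function.Surjective (T1 K W 3) := by
  have h := transfer (K := K) hn (W := (W26.map vm).toFinset) (e := 6) (i := 3)
    (W_degree (by decide))
    (not_inj_check W26 3 3 A26 ![2,1,0,0] (by decide) (by decide) (by decide +kernel) (by decide))
    (not_surj_check W26 3 3 C26 ![2,2,0,0] (by decide) (by decide) (by decide +kernel) (by decide))
  rw [W_card (by decide)] at h
  exact h

lemma example_three (hn : 3 ≤ n) : ∃ W : Finset (Fin n →₀ ℕ), W.card = 3 ∧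
    (∀ w ∈ W, w.degree = 4) ∧
      ¬ Function.Injective (T1 K W 2) ∧ ¬ Function.Surjective (T1 K W 2) := by
  have h := transfer (K := K) hn (W := (W34.map vm).toFinset) (e := 4) (i := 2)
    (W_degree (by decide))
    (not_inj_check W34 3 2 A34 ![2,0,0] (by decide) (by decide) (by decide +kernel) (by decide))
    (not_surj_check W34 3 2 C34 ![2,1,0] (by decide) (by decide) (by decide +kernel) (by decide))
  rw [W_card (by decide)] at h
  exact h

lemma example_four (hn : 3 ≤ n) : ∃ W : Finset (Fin n →₀ ℕ), W.card = 4 ∧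
    (∀ w ∈ W, w.degree = 5) ∧
      ¬ Function.Injective (T1 K W 3) ∧ ¬ Function.Surjective (T1 K W 3) := by
  have h := transfer (K := K) hn (W := (W45.map vm).toFinset) (e := 5) (i := 3)
    (W_degree (by decide))
    (not_inj_check W45 6 3 A45 ![2,0,1] (by decide) (by decide) (by decide +kernel) (by decide))
    (not_surj_check W45 6 3 C45 ![2,2,0] (by decide) (by decide) (by decide +kernel) (by decide))
  rw [W_card (by decide)] at h
  exact h

end Pool.Agent.Helper720.Level
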