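import Pool.Agent.Helper720.LevelLower

set_option autoImplicit false

namespace Pool.Agent.Helper720.Level

variable {K : Type*} [Field K] {n : ℕ}

/-- Closed sets of every intermediate size. -/
lemma exists_closed {α : Type*} [DecidableEq α] (U core : Finset α) (hcore : core ⊆ U)
    (wt : α → ℕ) (R : α → α → Prop)
    (hR : ∀ b ∈ U, b ∉ core → ∀ c, R b c → c = b ∨ (c ∈ U ∧ wt c < wt b)) (s : ℕ)
    (h1 : core.card ≤ s) (h2 : s ≤ U.card) :
    ∃ W : Finset α, core ⊆ W ∧ W ⊆ U ∧ W.card = s ∧ ∀ b ∈ W, b ∉ core → ∀ c, R b c → c ∈ W := by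
  induction s, h1 using Nat.le_induction with
  | base => exact ⟨core, le_rfl, hcore, rfl, fun b hb hb' => absurd hb hb'⟩
  | succ s hs ih =>
    obtain ⟨W, hW1, hW2, hW3, hW4⟩ := ih (by omega)
    have hne : (U \ W).Nonempty := by
      rw [← Finset.card_pos, Finset.card_sdiff_of_subset hW2]
      omega
    obtain ⟨b, hb, hmin⟩ := Finset.exists_min_image (U \ W) wt hne
    rw [Finset.mem_sdiff] at hb
    refine ⟨insert b W, hW1.trans (Finset.subset_insert _ _), ?_, ?_, ?_⟩
    · intro x hx
      rw [Finset.mem_insert] at hx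
      rcases hx with rfl | hx
      · exact hb.1
      · exact hW2 hx
    · rw [Finset.card_insert_of_notMem hb.2, hW3]
    · intro x hx hxc c hc
      rw [Finset.mem_insert] at hx ⊢
      rcases hx with rfl | hx
      · rcases hR x hb.1 hxc c hc with h | ⟨h, hlt⟩
        · exact Or.inl h
        · right
          by_contra hcW
          have := hmin c (Finset.mem_sdiff.2 ⟨h, hcW⟩)
          omega
      · exact Or.inr (hW4 x hx hxc c hc)

/-- weight function -/
noncomputable def wt (b : Fin n →₀ ℕ) : ℕ := ∑ k : Fin n, (k : ℕ) * b k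

lemma wt_add (a b : Fin n →₀ ℕ) : wt (a + b) = wt a + wt b := by
  unfold wt
  rw [← Finset.sum_add_distrib]
  refine Finset.sum_congr rfl fun k _ => ?_
  rw [Finsupp.add_apply]
  ring

lemma wt_single (j : Fin n) : wt (Finsupp.single j 1) = (j : ℕ) := by
  unfold wt
  rw [Finset.sum_eq_single j]
  · rw [Finsupp.single_eq_same, mul_one]
  · intro k _ hk
    rw [single_apply_ne (Ne.symm hk), mul_zero]
  · intro h
    exact absurd (Finset.mem_univ _) h

lemma exists_sub_of_mem_Pset {W : Finset (Fin n →₀ ℕ)} {e : ℕ} (hW : ∀ w ∈ W, w.degree = e + 1)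
    {a : Fin n →₀ ℕ} (ha : a ∈ Pset W e) : ∃ j, Finsupp.single j 1 + a ∈ W := by
  obtain ⟨⟨w, hw, hle⟩, hd⟩ := mem_Pset.1 ha
  have hwd := hW w hw
  have hne : a ≠ w := by
    rintro rfl
    omega
  obtain ⟨j, hj⟩ := exists_single_add_le hle hne
  refine ⟨j, ?_⟩
  have : Finsupp.single j 1 + a = w := by
    apply eq_of_le_of_degree hj
    rw [map_add, Finsupp.degree_single]
    omega
  rw [this]
  exact hw

lemma Pset_top {W : Finset (Fin n →₀ ℕ)} {e : ℕ} (hW : ∀ w ∈ W, w.degree = e) :
    Pset W e = W := by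
  ext m
  rw [mem_Pset]
  constructor
  · rintro ⟨⟨w, hw, hle⟩, hd⟩
    have : m = w := eq_of_le_of_degree hle (by rw [hW w hw, hd])
    rw [this]
    exact hw
  · intro hm
    exact ⟨⟨m, hm, le_rfl⟩, hW m hm⟩

/-- The failure criterion. The variables `x0, x1, x2` are distinct; `m` does not involve `x0`. -/
lemma fails_of {W : Finset (Fin n →₀ ℕ)} {e : ℕ} (hW : ∀ w ∈ W, w.degree = e + 1)
    {x0 x1 x2 : Fin n} (h01 : x0 ≠ x1) (h02 : x0 ≠ x2) (m z : Fin n →₀ ℕ) (hm0 : m x0 = 0)
    (hw0 : Finsupp.single x0 1 + (Finsupp.single x1 1 + m) ∈ W)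
    (hM0 : ∀ j, Finsupp.single j 1 + (Finsupp.single x0 1 + m) ∈ W → j = x1)
    (hM1 : ∀ j, Finsupp.single j 1 + (Finsupp.single x1 1 + m) ∈ W → j = x0)
    (hcl : ∀ a j, Finsupp.single j 1 + a ∈ W → a ≠ Finsupp.single x0 1 + m →
      (Finsupp.single x0 1 + a ∈ W) ∨
      ((∃ k, k ≠ x0 ∧ a = Finsupp.single k 1 + m) ∧ Finsupp.single x2 1 + a ∈ W))
    (hz : z ∈ W) (hz0 : z x0 = 0) (hz2 : ∀ k, z ≠ Finsupp.single x2 1 + (Finsupp.single k 1 + m)) :
    ¬ Function.Injective (T1 K W e) ∧ ¬ Function.Surjective (T1 K W e) := by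
  classical
  have hmdeg : m.degree + 1 = e := by
    have := hW _ hw0
    rw [map_add, map_add, Finsupp.degree_single, Finsupp.degree_single] at this
    omega
  have hne01 : Finsupp.single x0 1 + m ≠ Finsupp.single x1 1 + m := by
    intro h
    exact h01 (Finsupp.single_left_injective one_ne_zero (add_right_cancel h))
  set f : (Fin n →₀ ℕ) → K := fun a => (if a = Finsupp.single x0 1 + m then 1 else 0) -
    (if a = Finsupp.single x1 1 + m then 1 else 0) with hf
  have hninj : ¬ Function.Injective (T1 K W e) := by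
    refine not_inj_of f ?_ ?_ (m₀ := Finsupp.single x0 1 + m) ?_
    · intro a ha
      rw [hf] at ha
      simp only at ha
      have hor : a = Finsupp.single x0 1 + m ∨ a = Finsupp.single x1 1 + m := by
        by_contra hcon
        push Not at hcon
        rw [if_neg hcon.1, if_neg hcon.2] at ha
        simp at ha
      rcases hor with rfl | rfl
      · refine mem_Pset.2 ⟨⟨_, hw0, ?_⟩, ?_⟩
        · exact add_le_add_right le_add_self _
        · rw [map_add, Finsupp.degree_single]
          omega
      · refine mem_Pset.2 ⟨⟨_, hw0, ?_⟩, ?_⟩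
        · exact le_add_self
        · rw [map_add, Finsupp.degree_single]
          omega
    · intro M hM
      rw [Pset_top hW] at hM
      have key : ∀ j, (if M j = 0 then 0 else f (M - Finsupp.single j 1)) =
          (if M = Finsupp.single x0 1 + (Finsupp.single x1 1 + m) ∧ j = x1 then (1 : K) else 0) -
          (if M = Finsupp.single x0 1 + (Finsupp.single x1 1 + m) ∧ j = x0 then 1 else 0) := by
        intro j
        by_cases hMj : M j = 0
        · rw [if_pos hMj, if_neg, if_neg, sub_zero]
          · rintro ⟨rfl, rfl⟩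
            rw [Finsupp.add_apply, Finsupp.single_eq_same] at hMj
            omega
          · rintro ⟨rfl, rfl⟩
            rw [Finsupp.add_apply, Finsupp.add_apply, Finsupp.single_eq_same] at hMj
            omega
        · rw [if_neg hMj, hf]
          simp only [sub_eq_iff hMj]
          have e1 : (M = Finsupp.single j 1 + (Finsupp.single x0 1 + m)) ↔
              (M = Finsupp.single x0 1 + (Finsupp.single x1 1 + m) ∧ j = x1) := by
            constructor
            · intro h
              have hj := hM0 j (h ▸ hM)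
              subst hj
              exact ⟨by rw [h, add_left_comm], rfl⟩
            · rintro ⟨h, rfl⟩
              rw [h, add_left_comm]
          have e2 : (M = Finsupp.single j 1 + (Finsupp.single x1 1 + m)) ↔
              (M = Finsupp.single x0 1 + (Finsupp.single x1 1 + m) ∧ j = x0) := by
            constructor
            · intro h
              have hj := hM1 j (h ▸ hM)
              subst hj
              exact ⟨h, rfl⟩
            · rintro ⟨h, rfl⟩
              exact h
          simp only [e1, e2]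
      rw [Finset.sum_congr rfl fun j _ => key j, Finset.sum_sub_distrib]
      by_cases hMw : M = Finsupp.single x0 1 + (Finsupp.single x1 1 + m)
      · simp [hMw]
      · simp [hMw]
    · rw [hf]
      simp only
      rw [if_neg hne01]
      simp
  refine ⟨hninj, not_surj_of_not_inj ?_ hninj⟩
  rw [Pset_top hW]
  set φ : (Fin n →₀ ℕ) → (Fin n →₀ ℕ) := fun a =>
    if a = Finsupp.single x0 1 + m then z else
      if Finsupp.single x0 1 + a ∈ W then Finsupp.single x0 1 + a else Finsupp.single x2 1 + a
    with hφ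
  have h2 : ∀ a ∈ Pset W e, a ≠ Finsupp.single x0 1 + m → Finsupp.single x0 1 + a ∉ W →
      (∃ k, k ≠ x0 ∧ a = Finsupp.single k 1 + m) ∧ Finsupp.single x2 1 + a ∈ W := by
    intro a ha hne hnot
    obtain ⟨j, hj⟩ := exists_sub_of_mem_Pset hW ha
    exact (hcl a j hj hne).resolve_left hnot
  have h3 : ∀ a ∈ Pset W e, a ≠ Finsupp.single x0 1 + m → Finsupp.single x0 1 + a ∉ W →
      (Finsupp.single x2 1 + a : Fin n →₀ ℕ) x0 = 0 := by
    intro a ha hne hnot
    obtain ⟨⟨k, hk, rfl⟩, _⟩ := h2 a ha hne hnot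
    rw [Finsupp.add_apply, Finsupp.add_apply, single_apply_ne (Ne.symm h02), single_apply_ne hk,
      hm0]
    rfl
  apply Finset.card_le_card_of_injOn φ
  · intro a ha
    have ha' : a ∈ Pset W e := ha
    rw [hφ]
    simp only
    split_ifs with h4 h5
    · exact hz
    · exact h5
    · exact (h2 a ha' h4 h5).2
  · intro a ha b hb hab
    have ha' : a ∈ Pset W e := ha
    have hb' : b ∈ Pset W e := hb
    rw [hφ] at hab
    simp only at hab
    split_ifs at hab with h4 h5 h6 h7 h8 h9 h10 h11
    · rw [h4, h5]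
    · exfalso
      rw [hab, Finsupp.add_apply, Finsupp.single_eq_same] at hz0
      omega
    · exfalso
      obtain ⟨⟨k, _, hbk⟩, _⟩ := h2 b hb' h5 h6
      rw [hbk] at hab
      exact hz2 k hab
    · exfalso
      rw [← hab, Finsupp.add_apply, Finsupp.single_eq_same] at hz0
      omega
    · exact add_left_cancel hab
    · exfalso
      have := h3 b hb' h8 h9
      rw [← hab, Finsupp.add_apply, Finsupp.single_eq_same] at this
      omega
    · exfalso
      obtain ⟨⟨k, _, hbk⟩, _⟩ := h2 a ha' h4 h7
      rw [hbk] at hab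
      exact hz2 k hab.symm
    · exfalso
      have := h3 a ha' h4 h7
      rw [hab, Finsupp.add_apply, Finsupp.single_eq_same] at this
      omega
    · exact add_left_cancel hab


/-- The forbidden monomials: the terms of `(x_0 - x_1) (x_0 + ... + x_{n-1}) m`. -/
noncomputable def forb (x0 x1 : Fin n) (m : Fin n →₀ ℕ) : Finset (Fin n →₀ ℕ) :=
  ((Finset.univ.erase x1).image fun j => Finsupp.single j 1 + (Finsupp.single x0 1 + m)) ∪
  ((Finset.univ.erase x0).image fun j => Finsupp.single j 1 + (Finsupp.single x1 1 + m))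

lemma card_forb (x0 x1 : Fin n) (m : Fin n →₀ ℕ) : (forb x0 x1 m).card ≤ 2 * (n - 1) := by
  unfold forb
  refine (Finset.card_union_le _ _).trans ?_
  have h1 := Finset.card_image_le (s := Finset.univ.erase x1)
    (f := fun j => Finsupp.single j 1 + (Finsupp.single x0 1 + m))
  have h2 := Finset.card_image_le (s := Finset.univ.erase x0)
    (f := fun j => Finsupp.single j 1 + (Finsupp.single x1 1 + m))
  rw [Finset.card_erase_of_mem (Finset.mem_univ _), Finset.card_univ, Fintype.card_fin] at h1 h2
  omega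

lemma mem_forb {x0 x1 : Fin n} {m b : Fin n →₀ ℕ} : b ∈ forb x0 x1 m ↔
    (∃ j, j ≠ x1 ∧ b = Finsupp.single j 1 + (Finsupp.single x0 1 + m)) ∨
    (∃ j, j ≠ x0 ∧ b = Finsupp.single j 1 + (Finsupp.single x1 1 + m)) := by
  unfold forb
  rw [Finset.mem_union, Finset.mem_image, Finset.mem_image]
  constructor
  · rintro (⟨j, hj, rfl⟩ | ⟨j, hj, rfl⟩)
    · exact Or.inl ⟨j, Finset.ne_of_mem_erase hj, rfl⟩
    · exact Or.inr ⟨j, Finset.ne_of_mem_erase hj, rfl⟩
  · rintro (⟨j, hj, rfl⟩ | ⟨j, hj, rfl⟩)
    · exact Or.inl ⟨j, Finset.mem_erase.2 ⟨hj, Finset.mem_univ _⟩, rfl⟩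
    · exact Or.inr ⟨j, Finset.mem_erase.2 ⟨hj, Finset.mem_univ _⟩, rfl⟩

/-- The general construction, with an explicit core. -/
lemma exists_of_core {e s : ℕ} {x0 x1 x2 : Fin n} (hx0 : (x0 : ℕ) = 0) (hx1 : (x1 : ℕ) = 1)
    (hx2 : (x2 : ℕ) = 2) (m z : Fin n →₀ ℕ) (hm0 : m x0 = 0)
    (core : Finset (Fin n →₀ ℕ))
    (hcored : ∀ b ∈ core, b.degree = e + 1) (hcoref : ∀ b ∈ core, b ∉ forb x0 x1 m)
    (hw0 : Finsupp.single x0 1 + (Finsupp.single x1 1 + m) ∈ core)
    (hcorecl : ∀ a j, Finsupp.single j 1 + a ∈ core → a ≠ Finsupp.single x0 1 + m →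
      (Finsupp.single x0 1 + a ∈ core) ∨
      ((∃ k, k ≠ x0 ∧ a = Finsupp.single k 1 + m) ∧ Finsupp.single x2 1 + a ∈ core))
    (hz : z ∈ core) (hz0 : z x0 = 0)
    (hz2 : ∀ k, z ≠ Finsupp.single x2 1 + (Finsupp.single k 1 + m))
    (h1 : core.card ≤ s) (h2 : s + 2 * (n - 1) ≤ (n + (e + 1) - 1).choose (e + 1)) :
    ∃ W : Finset (Fin n →₀ ℕ), W.card = s ∧ (∀ w ∈ W, w.degree = e + 1) ∧
      ¬ Function.Injective (T1 K W e) ∧ ¬ Function.Surjective (T1 K W e) := by
  classical
  have h01 : x0 ≠ x1 := by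
    intro h
    rw [h] at hx0
    omega
  have h02 : x0 ≠ x2 := by
    intro h
    rw [h] at hx0
    omega
  have h12 : x1 ≠ x2 := by
    intro h
    rw [h] at hx1
    omega
  set U := allMon n (e + 1) \ forb x0 x1 m with hU
  have hUmem : ∀ b, b ∈ U ↔ b.degree = e + 1 ∧ b ∉ forb x0 x1 m := by
    intro b
    rw [hU, Finset.mem_sdiff, mem_allMon]
  have hcoreU : core ⊆ U := fun b hb => (hUmem b).2 ⟨hcored b hb, hcoref b hb⟩
  have hUcard : s ≤ U.card := by
    have h3 := Finset.le_card_sdiff (forb x0 x1 m) (allMon n (e + 1))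
    have h4 := card_forb x0 x1 m
    rw [card_allMon, ← hU] at h3
    omega
  -- the successor relation
  let R : (Fin n →₀ ℕ) → (Fin n →₀ ℕ) → Prop := fun b c =>
    ∃ a j, Finsupp.single j 1 + a = b ∧ a ≠ Finsupp.single x0 1 + m ∧
      (if ∃ k, k ≠ x0 ∧ a = Finsupp.single k 1 + m then c = Finsupp.single x2 1 + a
        else c = Finsupp.single x0 1 + a)
  obtain ⟨W, hW1, hW2, hW3, hW4⟩ := exists_closed U core hcoreU wt R (by
    rintro b hb hbc c ⟨a, j, rfl, hane, hc⟩
    obtain ⟨hbd, hbf⟩ := (hUmem _).1 hb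
    rw [map_add, Finsupp.degree_single] at hbd
    split_ifs at hc with hk
    · subst hc
      obtain ⟨k, hkx0, rfl⟩ := hk
      have hjx0 : j ≠ x0 := by
        rintro rfl
        by_cases hkx1 : k = x1
        · subst hkx1
          exact hbc hw0
        · exact hbf (mem_forb.2 (Or.inl ⟨k, hkx1, add_left_comm _ _ _⟩))
      by_cases hkx1 : k = x1
      · exfalso
        subst hkx1
        exact hbf (mem_forb.2 (Or.inr ⟨j, hjx0, rfl⟩))
      have hjx1 : j ≠ x1 := by
        rintro rfl
        exact hbf (mem_forb.2 (Or.inr ⟨k, hkx0, add_left_comm _ _ _⟩))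
      by_cases hjx2 : j = x2
      · left
        rw [hjx2]
      · right
        have hj2 : 2 < (j : ℕ) := by
          have e0 : (j : ℕ) ≠ 0 := fun h => hjx0 (Fin.ext (by omega))
          have e1 : (j : ℕ) ≠ 1 := fun h => hjx1 (Fin.ext (by omega))
          have e2 : (j : ℕ) ≠ 2 := fun h => hjx2 (Fin.ext (by omega))
          omega
        refine ⟨(hUmem _).2 ⟨?_, ?_⟩, ?_⟩
        · rw [map_add, Finsupp.degree_single]
          exact hbd
        · intro hf
          rw [mem_forb] at hf
          rcases hf with ⟨l, hl, hle⟩ | ⟨l, hl, hle⟩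
          · have h5 := DFunLike.congr_fun hle x0
            simp only [Finsupp.add_apply, Finsupp.single_eq_same,
              single_apply_ne (Ne.symm h02), single_apply_ne hkx0, hm0] at h5
            omega
          · have h5 := DFunLike.congr_fun hle x1
            simp only [Finsupp.add_apply, Finsupp.single_eq_same,
              single_apply_ne (Ne.symm h12), single_apply_ne hkx1] at h5
            omega
        · simp only [wt_add, wt_single]
          omega
    · subst hc
      by_cases hjx0 : j = x0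
      · left
        rw [hjx0]
      · right
        refine ⟨(hUmem _).2 ⟨?_, ?_⟩, ?_⟩
        · rw [map_add, Finsupp.degree_single]
          exact hbd
        · intro hf
          rw [mem_forb] at hf
          rcases hf with ⟨l, hl, hle⟩ | ⟨l, hl, hle⟩
          · -- then a = single l + m
            have ha : a = Finsupp.single l 1 + m := by
              rw [add_left_comm] at hle
              exact add_left_cancel hle
            by_cases hlx0 : l = x0
            · exact hane (by rw [ha, hlx0])
            · exact hk ⟨l, hlx0, ha⟩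
          · have h5 := DFunLike.congr_fun hle x0
            simp only [Finsupp.add_apply, Finsupp.single_eq_same,
              single_apply_ne (Ne.symm h01), single_apply_ne hl, hm0] at h5
            omega
        · simp only [wt_add, wt_single]
          have e0 : (j : ℕ) ≠ 0 := fun h => hjx0 (Fin.ext (by omega))
          omega) s h1 hUcard
  refine ⟨W, hW3, fun w hw => ((hUmem w).1 (hW2 hw)).1, ?_⟩
  apply fails_of (fun w hw => ((hUmem w).1 (hW2 hw)).1) h01 h02 m z hm0 (hW1 hw0)
  · intro j hj
    by_contra hne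
    exact ((hUmem _).1 (hW2 hj)).2 (mem_forb.2 (Or.inl ⟨j, hne, rfl⟩))
  · intro j hj
    by_contra hne
    exact ((hUmem _).1 (hW2 hj)).2 (mem_forb.2 (Or.inr ⟨j, hne, rfl⟩))
  · intro a j hj hane
    by_cases hc : Finsupp.single j 1 + a ∈ core
    · rcases hcorecl a j hc hane with h | ⟨h, h'⟩
      · exact Or.inl (hW1 h)
      · exact Or.inr ⟨h, hW1 h'⟩
    · by_cases hk : ∃ k, k ≠ x0 ∧ a = Finsupp.single k 1 + m
      · right
        refine ⟨hk, hW4 _ hj hc _ ⟨a, j, rfl, hane, ?_⟩⟩
        rw [if_pos hk]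
      · left
        refine hW4 _ hj hc _ ⟨a, j, rfl, hane, ?_⟩
        rw [if_neg hk]
  · exact hW1 hz
  · exact hz0
  · exact hz2


lemma sub_eq_of_single_add {a b : Fin n →₀ ℕ} {j : Fin n} (h : Finsupp.single j 1 + a = b) :
    a = b - Finsupp.single j 1 := by
  rw [← h, single_add_sub]

/-- Failure of the WLP in socle degree at least three. -/
lemma exists_fail_three (hn : 3 ≤ n) (q s : ℕ) (h1 : q + 5 ≤ s)
    (h2 : s + 2 * (n - 1) ≤ (n + (q + 3) - 1).choose (q + 3)) :
    ∃ W : Finset (Fin n →₀ ℕ), W.card = s ∧ (∀ w ∈ W, w.degree = q + 3) ∧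
      ¬ Function.Injective (T1 K W (q + 2)) ∧ ¬ Function.Surjective (T1 K W (q + 2)) := by
  classical
  obtain ⟨x0, hx0⟩ : ∃ x : Fin n, (x : ℕ) = 0 := ⟨⟨0, by omega⟩, rfl⟩
  obtain ⟨x1, hx1⟩ : ∃ x : Fin n, (x : ℕ) = 1 := ⟨⟨1, by omega⟩, rfl⟩
  obtain ⟨x2, hx2⟩ : ∃ x : Fin n, (x : ℕ) = 2 := ⟨⟨2, by omega⟩, rfl⟩
  have h01 : x0 ≠ x1 := by
    intro h
    rw [h] at hx0
    omega
  have h02 : x0 ≠ x2 := by
    intro h
    rw [h] at hx0
    omega
  have h12 : x1 ≠ x2 := by
    intro h
    rw [h] at hx1
    omega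
  set m : Fin n →₀ ℕ := Finsupp.single x1 q + Finsupp.single x2 1 with hm
  set w0 : Fin n →₀ ℕ := Finsupp.single x0 1 + (Finsupp.single x1 1 + m) with hw0
  set C := (allMon n (q + 3)).filter (fun b => ∀ k, k ≠ x0 → k ≠ x1 → b k = 0) with hC
  have hCmem : ∀ b, b ∈ C ↔ b.degree = q + 3 ∧ ∀ k, k ≠ x0 → k ≠ x1 → b k = 0 := by
    intro b
    rw [hC, Finset.mem_filter, mem_allMon]
  have hCdeg : ∀ b ∈ C, b x0 + b x1 = q + 3 := by
    intro b hb
    obtain ⟨hd, hk⟩ := (hCmem b).1 hb
    rw [Finsupp.degree_eq_sum, ← Finset.add_sum_erase _ _ (Finset.mem_univ x0),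
      ← Finset.add_sum_erase _ _ (Finset.mem_erase.2 ⟨Ne.symm h01, Finset.mem_univ x1⟩),
      Finset.sum_eq_zero, add_zero] at hd
    · exact hd
    · intro k hk'
      rw [Finset.mem_erase, Finset.mem_erase] at hk'
      exact hk k hk'.2.1 hk'.1
  have hCcard : C.card ≤ q + 4 := by
    have h3 : C.card ≤ (Finset.range (q + 4)).card := by
      apply Finset.card_le_card_of_injOn (fun b => b x0)
      · intro b hb
        have := hCdeg b hb
        simp only [Finset.coe_range, Set.mem_Iio]
        omega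
      · intro b hb c hc hbc
        simp only at hbc
        have hb1 := hCdeg b hb
        have hc1 := hCdeg c hc
        ext k
        by_cases hk0 : k = x0
        · rw [hk0, hbc]
        · by_cases hk1 : k = x1
          · rw [hk1]
            omega
          · rw [((hCmem b).1 hb).2 k hk0 hk1, ((hCmem c).1 hc).2 k hk0 hk1]
    rwa [Finset.card_range] at h3
  have hm0 : m x0 = 0 := by
    rw [hm, Finsupp.add_apply, single_apply_ne (Ne.symm h01), single_apply_ne (Ne.symm h02)]
  have hm2 : m x2 = 1 := by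
    rw [hm, Finsupp.add_apply, single_apply_ne h12, Finsupp.single_eq_same]
  have hmd : m.degree = q + 1 := by
    rw [hm, map_add, Finsupp.degree_single, Finsupp.degree_single]
  have hw0d : w0.degree = q + 3 := by
    rw [hw0, map_add, map_add, Finsupp.degree_single, Finsupp.degree_single, hmd]
    omega
  have hcoremem : ∀ b, b ∈ insert w0 C ↔ b = w0 ∨
      (b.degree = q + 3 ∧ ∀ k, k ≠ x0 → k ≠ x1 → b k = 0) := by
    intro b
    rw [Finset.mem_insert, hCmem]
  refine exists_of_core (e := q + 2) hx0 hx1 hx2 m (Finsupp.single x1 (q + 3)) hm0 (insert w0 C)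
    ?_ ?_ ?_ ?_ ?_ ?_ ?_ ?_ h2
  · intro b hb
    rcases (hcoremem b).1 hb with rfl | h
    · exact hw0d
    · exact h.1
  · intro b hb hf
    rw [mem_forb] at hf
    rcases (hcoremem b).1 hb with rfl | h
    · rcases hf with ⟨j, hj, hje⟩ | ⟨j, hj, hje⟩
      · apply hj
        rw [hw0, add_left_comm] at hje
        exact (Finsupp.single_left_injective one_ne_zero (add_right_cancel hje)).symm
      · apply hj
        rw [hw0] at hje
        exact (Finsupp.single_left_injective one_ne_zero (add_right_cancel hje)).symm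
    · have hb2 := h.2 x2 (Ne.symm h02) (Ne.symm h12)
      rcases hf with ⟨j, hj, rfl⟩ | ⟨j, hj, rfl⟩
      · rw [Finsupp.add_apply, Finsupp.add_apply, hm2] at hb2
        omega
      · rw [Finsupp.add_apply, Finsupp.add_apply, hm2] at hb2
        omega
  · exact (hcoremem _).2 (Or.inl rfl)
  · intro a j hj hane
    left
    rw [hcoremem]
    rcases (hcoremem _).1 hj with h | ⟨hd, hk⟩
    · by_cases hj0 : j = x0
      · left
        rw [← hj0, h]
      · by_cases hj1 : j = x1
        · exfalso
          apply hane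
          rw [hw0, add_left_comm, hj1] at h
          exact add_left_cancel h
        · by_cases hj2 : j = x2
          · right
            have hae : a = Finsupp.single x0 1 + Finsupp.single x1 (q + 1) := by
              rw [hj2] at h
              apply add_left_cancel (a := Finsupp.single x2 1)
              rw [h, hw0, hm, Finsupp.single_add x1 q 1]
              abel
            constructor
            · rw [map_add, hae, map_add, Finsupp.degree_single, Finsupp.degree_single]
              omega
            · intro k hk0 hk1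
              rw [hae, Finsupp.add_apply, Finsupp.add_apply, single_apply_ne (Ne.symm hk0),
                single_apply_ne (Ne.symm hk1)]
              rfl
          · exfalso
            have h5 := DFunLike.congr_fun h j
            rw [hw0, hm] at h5
            simp only [Finsupp.add_apply, Finsupp.single_eq_same, single_apply_ne (Ne.symm hj0),
              single_apply_ne (Ne.symm hj1), single_apply_ne (Ne.symm hj2)] at h5
            omega
    · right
      constructor
      · rw [map_add, Finsupp.degree_single] at hd ⊢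
        exact hd
      · intro k hk0 hk1
        have h5 := hk k hk0 hk1
        rw [Finsupp.add_apply] at h5 ⊢
        rw [single_apply_ne (Ne.symm hk0)]
        omega
  · rw [hcoremem]
    right
    constructor
    · rw [Finsupp.degree_single]
    · intro k _ hk1
      exact single_apply_ne (Ne.symm hk1) _
  · exact single_apply_ne (Ne.symm h01) _
  · intro k hk
    have h5 := DFunLike.congr_fun hk x2
    rw [single_apply_ne h12, Finsupp.add_apply, Finsupp.single_eq_same] at h5
    omega
  · refine (Finset.card_insert_le _ _).trans ?_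
    omega

/-- Failure of the WLP in socle degree two. -/
lemma exists_fail_two (hn : 4 ≤ n) (s : ℕ) (h1 : 4 ≤ s)
    (h2 : s + 2 * (n - 1) ≤ (n + 2 - 1).choose 2) :
    ∃ W : Finset (Fin n →₀ ℕ), W.card = s ∧ (∀ w ∈ W, w.degree = 2) ∧
      ¬ Function.Injective (T1 K W 1) ∧ ¬ Function.Surjective (T1 K W 1) := by
  classical
  obtain ⟨x0, hx0⟩ : ∃ x : Fin n, (x : ℕ) = 0 := ⟨⟨0, by omega⟩, rfl⟩
  obtain ⟨x1, hx1⟩ : ∃ x : Fin n, (x : ℕ) = 1 := ⟨⟨1, by omega⟩, rfl⟩
  obtain ⟨x2, hx2⟩ : ∃ x : Fin n, (x : ℕ) = 2 := ⟨⟨2, by omega⟩, rfl⟩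
  obtain ⟨x3, hx3⟩ : ∃ x : Fin n, (x : ℕ) = 3 := ⟨⟨3, by omega⟩, rfl⟩
  have hne : ∀ {a b : Fin n} {i j : ℕ}, (a : ℕ) = i → (b : ℕ) = j → i ≠ j → a ≠ b := by
    intro a b i j ha hb hij hab
    rw [hab] at ha
    omega
  have h01 := hne hx0 hx1 (by norm_num)
  have h02 := hne hx0 hx2 (by norm_num)
  have h03 := hne hx0 hx3 (by norm_num)
  have h12 := hne hx1 hx2 (by norm_num)
  have h13 := hne hx1 hx3 (by norm_num)
  have h23 := hne hx2 hx3 (by norm_num)
  set e : Fin n → Fin n → (Fin n →₀ ℕ) := fun i j => Finsupp.single i 1 + Finsupp.single j 1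
    with he
  have hcase : ∀ {i j k : Fin n} {a : Fin n →₀ ℕ}, Finsupp.single k 1 + a = e i j →
      (a = Finsupp.single j 1 ∧ k = i) ∨ (a = Finsupp.single i 1 ∧ k = j) := by
    intro i j k a h
    by_cases hki : k = i
    · left
      subst hki
      exact ⟨add_left_cancel h, rfl⟩
    · by_cases hkj : k = j
      · right
        subst hkj
        rw [he] at h
        simp only at h
        rw [add_comm (Finsupp.single i 1)] at h
        exact ⟨add_left_cancel h, rfl⟩
      · exfalso
        have h5 := DFunLike.congr_fun h k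
        rw [he] at h5
        simp only [Finsupp.add_apply, Finsupp.single_eq_same, single_apply_ne (Ne.symm hki),
          single_apply_ne (Ne.symm hkj)] at h5
        omega
  have hed : ∀ i j, (e i j).degree = 2 := by
    intro i j
    rw [he]
    simp only
    rw [map_add, Finsupp.degree_single, Finsupp.degree_single]
  set core : Finset (Fin n →₀ ℕ) := {e x0 x1, e x2 x2, e x2 x3, e x3 x3} with hcore
  have hcoremem : ∀ b, b ∈ core ↔ b = e x0 x1 ∨ b = e x2 x2 ∨ b = e x2 x3 ∨ b = e x3 x3 := by
    intro b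
    rw [hcore]
    simp only [Finset.mem_insert, Finset.mem_singleton]
  refine exists_of_core (e := 1) hx0 hx1 hx2 0 (e x3 x3) rfl core
    ?_ ?_ ?_ ?_ ?_ ?_ ?_ ?_ h2
  · intro b hb
    rcases (hcoremem b).1 hb with rfl | rfl | rfl | rfl <;> exact hed _ _
  · intro b hb hf
    rw [mem_forb] at hf
    simp only [add_zero] at hf
    rcases (hcoremem b).1 hb with rfl | rfl | rfl | rfl
    · rcases hf with ⟨j, hj, hje⟩ | ⟨j, hj, hje⟩
      · rcases hcase hje.symm with ⟨ha, _⟩ | ⟨_, hb⟩
        · exact h01 (Finsupp.single_left_injective one_ne_zero ha)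
        · exact hj hb
      · rcases hcase hje.symm with ⟨_, hb⟩ | ⟨ha, _⟩
        · exact hj hb
        · exact h01 (Finsupp.single_left_injective one_ne_zero ha.symm)
    · rcases hf with ⟨j, hj, hje⟩ | ⟨j, hj, hje⟩
      · rcases hcase hje.symm with ⟨ha, _⟩ | ⟨ha, _⟩ <;>
        exact h02 (Finsupp.single_left_injective one_ne_zero ha)
      · rcases hcase hje.symm with ⟨ha, _⟩ | ⟨ha, _⟩ <;>
        exact h12 (Finsupp.single_left_injective one_ne_zero ha)
    · rcases hf with ⟨j, hj, hje⟩ | ⟨j, hj, hje⟩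
      · rcases hcase hje.symm with ⟨ha, _⟩ | ⟨ha, _⟩
        · exact h03 (Finsupp.single_left_injective one_ne_zero ha)
        · exact h02 (Finsupp.single_left_injective one_ne_zero ha)
      · rcases hcase hje.symm with ⟨ha, _⟩ | ⟨ha, _⟩
        · exact h13 (Finsupp.single_left_injective one_ne_zero ha)
        · exact h12 (Finsupp.single_left_injective one_ne_zero ha)
    · rcases hf with ⟨j, hj, hje⟩ | ⟨j, hj, hje⟩
      · rcases hcase hje.symm with ⟨ha, _⟩ | ⟨ha, _⟩ <;>
        exact h03 (Finsupp.single_left_injective one_ne_zero ha)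
      · rcases hcase hje.symm with ⟨ha, _⟩ | ⟨ha, _⟩ <;>
        exact h13 (Finsupp.single_left_injective one_ne_zero ha)
  · rw [hcoremem, add_zero]
    exact Or.inl rfl
  · intro a j hj hane
    rw [add_zero] at hane
    rcases (hcoremem _).1 hj with h | h | h | h
    · rcases hcase h with ⟨ha, _⟩ | ⟨ha, _⟩
      · left
        rw [ha, hcoremem]
        exact Or.inl rfl
      · exact absurd ha hane
    · right
      have ha : a = Finsupp.single x2 1 := by
        rcases hcase h with ⟨ha, _⟩ | ⟨ha, _⟩ <;> exact ha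
      refine ⟨⟨x2, Ne.symm h02, by rw [ha, add_zero]⟩, ?_⟩
      rw [ha, hcoremem]
      exact Or.inr (Or.inl rfl)
    · right
      rcases hcase h with ⟨ha, _⟩ | ⟨ha, _⟩
      · refine ⟨⟨x3, Ne.symm h03, by rw [ha, add_zero]⟩, ?_⟩
        rw [ha, hcoremem]
        exact Or.inr (Or.inr (Or.inl rfl))
      · refine ⟨⟨x2, Ne.symm h02, by rw [ha, add_zero]⟩, ?_⟩
        rw [ha, hcoremem]
        exact Or.inr (Or.inl rfl)
    · right
      have ha : a = Finsupp.single x3 1 := by
        rcases hcase h with ⟨ha, _⟩ | ⟨ha, _⟩ <;> exact ha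
      refine ⟨⟨x3, Ne.symm h03, by rw [ha, add_zero]⟩, ?_⟩
      rw [ha, hcoremem]
      exact Or.inr (Or.inr (Or.inl rfl))
  · rw [hcoremem]
    exact Or.inr (Or.inr (Or.inr rfl))
  · rw [he]
    simp only
    rw [Finsupp.add_apply, single_apply_ne (Ne.symm h03)]
  · intro k hk
    have h5 := DFunLike.congr_fun hk x2
    rw [he] at h5
    simp only [Finsupp.add_apply, single_apply_ne (Ne.symm h23), Finsupp.single_eq_same] at h5
    omega
  · refine le_trans ?_ h1
    rw [hcore]
    exact Finset.card_le_four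

end Pool.Agent.Helper720.Level
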