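import Pool.Agent.Helper720.LevelElim

set_option autoImplicit false

namespace Pool.Agent.Helper720.Level

variable {K : Type*} [Field K]

/-- the monomial with the given exponents -/
noncomputable def mon (p : Tri) : Fin 3 →₀ ℕ :=
  Finsupp.equivFunOnFinite.symm ![p.1, p.2.1, p.2.2]

@[simp] lemma mon_zero (p : Tri) : mon p 0 = p.1 := rfl
@[simp] lemma mon_one (p : Tri) : mon p 1 = p.2.1 := rfl
@[simp] lemma mon_two (p : Tri) : mon p 2 = p.2.2 := rfl

lemma mon_surj (m : Fin 3 →₀ ℕ) : mon (m 0, m 1, m 2) = m := by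
  ext j
  fin_cases j <;> rfl

lemma mon_inj {p q : Tri} (h : mon p = mon q) : p = q := by
  have h0 := DFunLike.congr_fun h 0
  have h1 := DFunLike.congr_fun h 1
  have h2 := DFunLike.congr_fun h 2
  simp only [mon_zero, mon_one, mon_two] at h0 h1 h2
  exact Prod.ext h0 (Prod.ext h1 h2)

lemma mon_le {p q : Tri} : mon p ≤ mon q ↔ dv p q = true := by
  unfold dv
  simp only [Bool.and_eq_true, decide_eq_true_eq]
  constructor
  · intro h
    exact ⟨⟨h 0, h 1⟩, h 2⟩
  · rintro ⟨⟨h0, h1⟩, h2⟩ j
    fin_cases j
    · exact h0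
    · exact h1
    · exact h2

lemma mon_degree (p : Tri) : (mon p).degree = p.1 + p.2.1 + p.2.2 := by
  rw [Finsupp.degree_eq_sum, Fin.sum_univ_three]
  rfl

lemma mem_quadL {p : Tri} : p ∈ quadL ↔ p.1 + p.2.1 + p.2.2 = 2 := by
  obtain ⟨a, b, c⟩ := p
  constructor
  · intro h
    simp only [quadL, List.mem_cons, Prod.mk.injEq, List.not_mem_nil, or_false] at h
    simp only
    omega
  · intro h
    simp only at h
    simp only [quadL, List.mem_cons, Prod.mk.injEq, List.not_mem_nil, or_false]
    omega

lemma mem_cubL {p : Tri} : p ∈ cubL ↔ p.1 + p.2.1 + p.2.2 = 3 := by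
  obtain ⟨a, b, c⟩ := p
  constructor
  · intro h
    simp only [cubL, List.mem_cons, Prod.mk.injEq, List.not_mem_nil, or_false] at h
    simp only
    omega
  · intro h
    simp only at h
    obtain rfl : c = 3 - a - b := by omega
    have ha : a ≤ 3 := by omega
    have hb : b ≤ 3 := by omega
    interval_cases a <;> interval_cases b <;> first | omega | decide

lemma mem_quartL {p : Tri} : p ∈ quartL ↔ p.1 + p.2.1 + p.2.2 = 4 := by
  obtain ⟨a, b, c⟩ := p
  constructor
  · intro h
    simp only [quartL, List.mem_cons, Prod.mk.injEq, List.not_mem_nil, or_false] at h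
    simp only
    omega
  · intro h
    simp only at h
    obtain rfl : c = 4 - a - b := by omega
    have ha : a ≤ 4 := by omega
    have hb : b ≤ 4 := by omega
    interval_cases a <;> interval_cases b <;> first | omega | decide

lemma mon_sub_zero (a b c : ℕ) : mon (a, b, c) - Finsupp.single 0 1 = mon (a - 1, b, c) := by
  ext j
  fin_cases j <;> simp [mon]

lemma mon_sub_one (a b c : ℕ) : mon (a, b, c) - Finsupp.single 1 1 = mon (a, b - 1, c) := by
  ext j
  fin_cases j <;> simp [mon]

lemma mon_sub_two (a b c : ℕ) : mon (a, b, c) - Finsupp.single 2 1 = mon (a, b, c - 1) := by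
  ext j
  fin_cases j <;> simp [mon]

lemma mon_add_zero (a b c : ℕ) : Finsupp.single 0 1 + mon (a, b, c) = mon (a + 1, b, c) := by
  ext j
  fin_cases j <;> simp [mon, add_comm]

lemma mon_add_one (a b c : ℕ) : Finsupp.single 1 1 + mon (a, b, c) = mon (a, b + 1, c) := by
  ext j
  fin_cases j <;> simp [mon, add_comm]

lemma mon_add_two (a b c : ℕ) : Finsupp.single 2 1 + mon (a, b, c) = mon (a, b, c + 1) := by
  ext j
  fin_cases j <;> simp [mon, add_comm]

/-- the system for injectivity -/
lemma inj_row (f : (Fin 3 →₀ ℕ) → K) {m : Tri} (hm : m ∈ cubL) :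
    dot (quadL.map (fun q => if dv q m then (1 : ℤ) else 0))
      (fun l => f (mon (quadL.getD l (0, 0, 0)))) =
    ∑ j, (if mon m j = 0 then 0 else f (mon m - Finsupp.single j 1)) := by
  rw [Fin.sum_univ_three]
  simp only [cubL, List.mem_cons, List.not_mem_nil, or_false] at hm
  rcases hm with rfl | rfl | rfl | rfl | rfl | rfl | rfl | rfl | rfl | rfl <;>
    simp [quadL, dot, dv, mon_sub_zero, mon_sub_one, mon_sub_two, add_comm]

lemma surj_row (c : (Fin 3 →₀ ℕ) → K) {q : Tri} (hq : q ∈ quadL) (P : Tri → Bool)
    (hP : ∀ m ∈ cubL, P m = false → c (mon m) = 0) :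
    dot (cubL.map (fun m => if dv q m && P m then (1 : ℤ) else 0))
      (fun l => c (mon (cubL.getD l (0, 0, 0)))) =
    ∑ j, c (Finsupp.single j 1 + mon q) := by
  have key : ∀ (L : List Tri) (G : ℕ → K), (∀ l, l < L.length → P (L.getD l (0,0,0)) = false → G l = 0) →
      dot (L.map (fun m => if dv q m && P m then (1 : ℤ) else 0)) G =
      dot (L.map (fun m => if dv q m then (1 : ℤ) else 0)) G := by
    intro L
    induction L with
    | nil => intro G _; rfl
    | cons x xs ih =>
      intro G hG
      simp only [List.map_cons, dot]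
      rw [ih (fun k => G (k + 1)) (by
        intro l hl h
        apply hG (l + 1)
        · simpa using hl
        · simpa using h)]
      congr 1
      have h0 := hG 0 (by simp)
      simp only [List.getD_cons_zero] at h0
      cases hPx : P x with
      | true => simp
      | false => rw [h0 hPx, mul_zero, mul_zero]
  rw [key]
  · rw [Fin.sum_univ_three]
    simp only [quadL, List.mem_cons, List.not_mem_nil, or_false] at hq
    rcases hq with rfl | rfl | rfl | rfl | rfl | rfl <;>
      simp [cubL, dot, dv, mon_add_zero, mon_add_one, mon_add_two, add_comm,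
        add_assoc]
  · intro l hl h
    apply hP _ _ h
    rw [List.getD_eq_getElem _ _ hl]
    exact List.getElem_mem hl

/-- The elimination check proves maximal rank from degree two to degree three. -/
lemma rank_of_chk [CharZero K] {W : Finset (Fin 3 →₀ ℕ)} (L : List Tri)
    (hL : ∀ p, mon p ∈ W ↔ p ∈ L) (h : chk L = true) :
    Function.Injective (T1 K W 2) ∨ Function.Surjective (T1 K W 2) := by
  have hmem : ∀ (p : Tri) (i : ℕ), p.1 + p.2.1 + p.2.2 = i →
      (mon p ∈ Pset W i ↔ L.any (dv p) = true) := by
    intro p i hp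
    rw [mem_Pset, List.any_eq_true]
    constructor
    · rintro ⟨⟨w, hw, hle⟩, _⟩
      rw [← mon_surj w] at hw hle
      exact ⟨_, (hL _).1 hw, mon_le.1 hle⟩
    · rintro ⟨w, hw, hle⟩
      exact ⟨⟨mon w, (hL _).2 hw, mon_le.2 hle⟩, by rw [mon_degree, hp]⟩
  unfold chk at h
  rw [Bool.or_eq_true] at h
  rcases h with h | h
  · left
    apply inj_of
    intro f hf hker m
    by_contra hm
    have hmP := hf m hm
    rw [← mon_surj m] at hmP hm
    have hdeg := (mem_Pset.1 hmP).2
    rw [mon_degree] at hdeg
    have hq : (m 0, m 1, m 2) ∈ quadL := mem_quadL.2 hdeg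
    obtain ⟨l, hl, hlq⟩ := List.getElem_of_mem hq
    have h1 := forced_sound h (fun l => f (mon (quadL.getD l (0, 0, 0)))) (by
      intro r hr
      unfold injRows at hr
      rw [List.mem_map] at hr
      obtain ⟨m', hm', rfl⟩ := hr
      rw [List.mem_filter] at hm'
      rw [inj_row f hm'.1]
      exact hker _ ((hmem m' 3 (mem_cubL.1 hm'.1)).2 hm'.2)) l (by
      unfold injNeed
      rw [List.mem_filter, List.mem_range]
      refine ⟨hl, ?_⟩
      rw [List.getD_eq_getElem _ _ hl, hlq]
      exact (hmem _ 2 hdeg).1 hmP)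
    rw [List.getD_eq_getElem _ _ hl, hlq] at h1
    exact hm h1
  · right
    apply surj_of
    intro c hc hc0 m
    by_contra hm
    have hmP := hc m hm
    rw [← mon_surj m] at hmP hm
    have hdeg := (mem_Pset.1 hmP).2
    rw [mon_degree] at hdeg
    have hq : (m 0, m 1, m 2) ∈ cubL := mem_cubL.2 hdeg
    obtain ⟨l, hl, hlq⟩ := List.getElem_of_mem hq
    have h1 := forced_sound h (fun l => c (mon (cubL.getD l (0, 0, 0)))) (by
      intro r hr
      unfold surjRows at hr
      rw [List.mem_map] at hr
      obtain ⟨q', hq', rfl⟩ := hr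
      rw [surj_row c hq' (fun m => L.any (dv m))]
      · exact hc0 _
      · intro m' hm' hfalse
        by_contra hne
        have := (hmem m' 3 (mem_cubL.1 hm')).1 (hc _ hne)
        rw [this] at hfalse
        exact absurd hfalse (by decide)) l (by
      unfold surjNeed
      rw [List.mem_filter, List.mem_range]
      refine ⟨hl, ?_⟩
      rw [List.getD_eq_getElem _ _ hl, hlq]
      exact (hmem _ 3 hdeg).1 hmP)
    rw [List.getD_eq_getElem _ _ hl, hlq] at h1
    exact hm h1

lemma sublist_of {W : Finset (Fin 3 →₀ ℕ)} {e s : ℕ} (hW : ∀ w ∈ W, w.degree = e)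
    (hcard : W.card = s) (A : List Tri) (hA : ∀ p, p ∈ A ↔ p.1 + p.2.1 + p.2.2 = e)
    (hnd : A.Nodup) : ∃ L ∈ A.sublistsLen s, ∀ p, mon p ∈ W ↔ p ∈ L := by
  classical
  refine ⟨A.filter (fun p => decide (mon p ∈ W)), ?_, ?_⟩
  · rw [List.mem_sublistsLen]
    refine ⟨List.filter_sublist, ?_⟩
    rw [← hcard, ← List.toFinset_card_of_nodup (hnd.filter _)]
    apply Finset.card_bij (fun p _ => mon p)
    · intro p hp
      rw [List.mem_toFinset, List.mem_filter, decide_eq_true_eq] at hp
      exact hp.2
    · intro p _ q _ h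
      exact mon_inj h
    · intro w hw
      refine ⟨(w 0, w 1, w 2), ?_, mon_surj w⟩
      rw [List.mem_toFinset, List.mem_filter, decide_eq_true_eq, mon_surj]
      refine ⟨(hA _).2 ?_, hw⟩
      have := hW w hw
      rw [← mon_surj w, mon_degree] at this
      exact this
  · intro p
    rw [List.mem_filter, decide_eq_true_eq]
    constructor
    · intro h
      refine ⟨(hA p).2 ?_, h⟩
      have := hW _ h
      rwa [mon_degree] at this
    · exact fun h => h.2

/-- Three variables, type four, socle degree at most four: maximal rank in every degree. -/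
lemma four_wlp [CharZero K] {W : Finset (Fin 3 →₀ ℕ)} {e : ℕ} (he : e ≤ 4)
    (hW : ∀ w ∈ W, w.degree = e) (hcard : W.card = 4) (i : ℕ) :
    Function.Injective (T1 K W i) ∨ Function.Surjective (T1 K W i) := by
  rcases Nat.lt_or_ge i e with hlt | hge
  · rcases Nat.lt_or_ge (2 * i) e with h1 | h1
    · exact Or.inl (inj_first_half hW (by omega))
    · have h3 : e = 2 ∨ e = 3 ∨ e = 4 := by omega
      rcases h3 with rfl | rfl | rfl
      · left
        apply inj_of_large hW _ hlt
        rw [hcard]
        decide
      · have : i = 2 := by omega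
        subst this
        obtain ⟨L, hL, hL2⟩ := sublist_of hW hcard cubL (fun p => mem_cubL) (by decide)
        exact rank_of_chk L hL2 (List.all_eq_true.1 chk_cub L hL)
      · have h4 : i = 2 ∨ i = 3 := by omega
        rcases h4 with rfl | rfl
        · obtain ⟨L, hL, hL2⟩ := sublist_of hW hcard quartL (fun p => mem_quartL) (by decide)
          exact rank_of_chk L hL2 (List.all_eq_true.1 chk_quart L hL)
        · right
          apply surj_of_few
          rw [Pset_top hW, hcard]
  · exact Or.inr (surj_of_ge hW hge)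

end Pool.Agent.Helper720.Level
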