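import Pool.Agent.Helper720.LevelSparse

set_option autoImplicit false

namespace Pool.Agent.Helper720.Level

variable {K : Type*} [Field K] {n : ℕ}

/-- all monomials of degree `e` -/
noncomputable def allMon (n e : ℕ) : Finset (Fin n →₀ ℕ) := Finset.finsuppAntidiag Finset.univ e

lemma mem_allMon {e : ℕ} {m : Fin n →₀ ℕ} : m ∈ allMon n e ↔ m.degree = e := by
  unfold allMon
  rw [Finset.mem_finsuppAntidiag, Finsupp.degree_eq_sum]
  simp

lemma card_allMon (n e : ℕ) : (allMon n e).card = (n + e - 1).choose e := by
  unfold allMon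
  rw [Finset.card_finsuppAntidiag_nat_eq_choose]
  simp

lemma surj_of_ge {W : Finset (Fin n →₀ ℕ)} {e i : ℕ} (hW : ∀ w ∈ W, w.degree = e) (hi : e ≤ i) :
    Function.Surjective (T1 K W i) := by
  have h0 : ∀ m, m ∉ Pset W (i + 1) := by
    intro m hm
    obtain ⟨⟨w, hw, hle⟩, hd⟩ := mem_Pset.1 hm
    have := degree_le_of_le hle
    rw [hW w hw] at this
    omega
  apply surj_of
  intro c hc _ m
  by_contra hne
  exact h0 m (hc m hne)

lemma exists_lt_of_degree_lt {m w : Fin n →₀ ℕ} (h : m ≤ w) (hd : m.degree < w.degree) :
    ∃ j, m j < w j := by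
  by_contra hcon
  push Not at hcon
  have : w = m := le_antisymm hcon h
  rw [this] at hd
  exact lt_irrefl _ hd

/-- When the type is large, multiplication by the sum of the variables is injective below the
socle degree. -/
lemma inj_of_large [CharZero K] {W : Finset (Fin n →₀ ℕ)} {e i : ℕ}
    (hW : ∀ w ∈ W, w.degree = e)
    (hcard : (n + e - 1).choose e < W.card + 2 * (n - 1)) (hi : i < e) :
    Function.Injective (T1 K W i) := by
  classical
  apply inj_of
  intro f hf hker
  by_contra hcon
  push Not at hcon
  obtain ⟨m₀, hm₀⟩ := hcon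
  obtain ⟨⟨w₀, hw₀, hle₀⟩, hd₀⟩ := mem_Pset.1 (hf m₀ hm₀)
  obtain ⟨j₀, hj₀⟩ := exists_lt_of_degree_lt hle₀ (by rw [hd₀, hW w₀ hw₀]; exact hi)
  set v := w₀ - Finsupp.single j₀ 1 with hv
  have hvw : v + Finsupp.single j₀ 1 = w₀ := by
    apply tsub_add_cancel_of_le
    rw [Finsupp.single_le_iff]
    omega
  have hm₀v : m₀ ≤ v := by
    intro k
    rw [hv]
    by_cases hk : j₀ = k
    · subst hk
      rw [sub_single_apply_same]
      omega
    · rw [sub_single_apply_ne hk]
      exact hle₀ k
  set u := v - m₀ with hu
  have huv : u + m₀ = v := tsub_add_cancel_of_le hm₀v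
  have hvd : v.degree + 1 = e := by
    rw [← hW w₀ hw₀, ← hvw, map_add, Finsupp.degree_single]
  have hud : u.degree + i = v.degree := by
    rw [← huv, map_add, hd₀]
  set g : (Fin n →₀ ℕ) → K := fun m =>
    if u ≤ m ∧ m ∈ Pset W (e - 1) then f (m - u) else 0 with hg
  have hvP : v ∈ Pset W (e - 1) := by
    refine mem_Pset.2 ⟨⟨w₀, hw₀, ?_⟩, by omega⟩
    rw [← hvw]
    exact le_self_add
  have hgv : g v ≠ 0 := by
    rw [hg]
    simp only
    rw [if_pos ⟨by rw [← huv]; exact le_self_add, hvP⟩, ← huv, add_tsub_cancel_left]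
    exact hm₀
  have hgs : ∀ m, g m ≠ 0 → m ∈ Pset W (e - 1) := by
    intro m hm
    rw [hg] at hm
    simp only [ne_eq, ite_eq_right_iff, Classical.not_imp] at hm
    exact hm.1.2
  have hgd : ∀ m, g m ≠ 0 → m.degree = e - 1 := fun m hm => (mem_Pset.1 (hgs m hm)).2
  have hWz : ∀ M ∈ W, mulS Finset.univ g M = 0 := by
    intro M hM
    have hMd := hW M hM
    unfold mulS
    by_cases huM : u ≤ M
    · have hM' : M - u ∈ Pset W (i + 1) := by
        refine mem_Pset.2 ⟨⟨M, hM, tsub_le_self⟩, ?_⟩
        have : M - u + u = M := tsub_add_cancel_of_le huM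
        have h2 : (M - u).degree + u.degree = M.degree := by
          conv_rhs => rw [← this]
          rw [map_add]
        omega
      refine Eq.trans (Finset.sum_congr rfl fun j _ => ?_) (hker _ hM')
      by_cases hj : (M - u) j = 0
      · rw [if_pos hj]
        by_cases hMj : M j = 0
        · rw [if_pos hMj]
        · rw [if_neg hMj, hg]
          simp only
          rw [if_neg]
          rintro ⟨hle, _⟩
          have h1 := hle j
          rw [sub_single_apply_same] at h1
          rw [Finsupp.tsub_apply] at hj
          have h2 := huM j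
          omega
      · rw [if_neg hj]
        rw [Finsupp.tsub_apply] at hj
        have hMj : M j ≠ 0 := by omega
        rw [if_neg hMj, hg]
        simp only
        have h1 : M - Finsupp.single j 1 - u = M - u - Finsupp.single j 1 := tsub_right_comm
        rw [if_pos, h1]
        constructor
        · intro k
          by_cases hk : j = k
          · subst hk
            rw [sub_single_apply_same]
            omega
          · rw [sub_single_apply_ne hk]
            exact huM k
        · refine mem_Pset.2 ⟨⟨M, hM, tsub_le_self⟩, ?_⟩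
          have := degree_sub_single hMj
          omega
    · refine Finset.sum_eq_zero fun j _ => ?_
      by_cases hMj : M j = 0
      · rw [if_pos hMj]
      · rw [if_neg hMj, hg]
        simp only
        rw [if_neg]
        rintro ⟨hle, _⟩
        exact huM (hle.trans tsub_le_self)
  set A := (Pset W (e - 1)).filter (fun m => g m ≠ 0) with hA
  have hAmem : ∀ m, m ∈ A ↔ g m ≠ 0 := by
    intro m
    rw [hA, Finset.mem_filter]
    exact ⟨fun h => h.2, fun h => ⟨hgs m h, h⟩⟩
  have huniq : ∀ m, g m ≠ 0 → m = v := by
    intro m hm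
    by_contra hne
    have h1 := sparse n Finset.univ (by simp) g (e - 1) A hAmem
      (fun m hm => hgd m ((hAmem m).1 hm))
      (fun _ _ _ _ j hj => absurd (Finset.mem_univ j) hj)
      ⟨m, (hAmem m).2 hm, v, (hAmem v).2 hgv, hne⟩
      (allMon n e \ W)
      (by
        intro M hM
        rw [Finset.mem_sdiff, mem_allMon]
        refine ⟨?_, fun hMW => hM (hWz M hMW)⟩
        unfold mulS at hM
        obtain ⟨j, _, hj⟩ := Finset.exists_ne_zero_of_sum_ne_zero hM
        by_cases h0 : M j = 0
        · rw [if_pos h0] at hj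
          exact absurd rfl hj
        · rw [if_neg h0] at hj
          have h2 := hgd _ hj
          have h3 := degree_sub_single h0
          omega)
    have hsub : W ⊆ allMon n e := fun w hw => mem_allMon.2 (hW w hw)
    rw [Finset.card_sdiff_of_subset hsub, card_allMon, Finset.card_univ, Fintype.card_fin] at h1
    have h2 := Finset.card_le_card hsub
    rw [card_allMon] at h2
    omega
  have h1 := hWz w₀ hw₀
  unfold mulS at h1
  rw [Finset.sum_eq_single j₀] at h1
  · rw [if_neg (by rw [← hvw, Finsupp.add_apply, Finsupp.single_eq_same]; omega)] at h1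
    exact hgv h1
  · intro j _ hj
    by_cases h0 : w₀ j = 0
    · rw [if_pos h0]
    · rw [if_neg h0]
      by_contra hne
      have h2 := huniq _ hne
      have h3 := DFunLike.congr_fun h2 j
      rw [hv, sub_single_apply_same, sub_single_apply_ne (Ne.symm hj)] at h3
      omega
  · intro h
    exact absurd (Finset.mem_univ _) h

end Pool.Agent.Helper720.Level
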