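import Pool.Agent.Helper720.LevelBridge

set_option autoImplicit false

open MvPolynomial

namespace Pool.Agent.Helper720.Level

variable {K : Type*} [Field K] {n : ℕ}

/-- the monomials of degree `i` dividing a member of `W` -/
noncomputable def Pset (W : Finset (Fin n →₀ ℕ)) (i : ℕ) : Finset (Fin n →₀ ℕ) :=
  (W.biUnion fun w => Finset.Iic w).filter (fun m => m.degree = i)

lemma mem_Pset {W : Finset (Fin n →₀ ℕ)} {i : ℕ} {m : Fin n →₀ ℕ} :
    m ∈ Pset W i ↔ (∃ w ∈ W, m ≤ w) ∧ m.degree = i := by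
  simp [Pset]

/-- the linear form with coefficients `a` -/
noncomputable def lin (a : Fin n → K) : MvPolynomial (Fin n) K := ∑ j, C (a j) * X j

lemma lin_homogeneous (a : Fin n → K) : (lin a).IsHomogeneous 1 :=
  MvPolynomial.IsHomogeneous.sum _ _ _ fun _ _ => MvPolynomial.isHomogeneous_C_mul_X _ _

lemma exists_lin {L : MvPolynomial (Fin n) K} (hL : L.IsHomogeneous 1) : ∃ a, L = lin a := by
  refine ⟨fun j => L.coeff (Finsupp.single j 1), ?_⟩
  ext m
  unfold lin
  rw [MvPolynomial.coeff_sum]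
  simp_rw [MvPolynomial.coeff_C_mul, MvPolynomial.coeff_X]
  by_cases hm : m.degree = 1
  · obtain ⟨j, hj⟩ : ∃ j, m = Finsupp.single j 1 := by
      have h0 : m ≠ 0 := by
        intro h
        rw [h] at hm
        simp at hm
      obtain ⟨j, hj⟩ := Finsupp.ne_iff.1 h0
      refine ⟨j, (eq_of_le_of_degree ?_ ?_).symm⟩
      · intro k
        by_cases hk : k = j
        · subst hk
          rw [Finsupp.single_eq_same]
          exact Nat.one_le_iff_ne_zero.2 hj
        · rw [Finsupp.single_apply, if_neg (fun h' => hk h'.symm)]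
          exact Nat.zero_le _
      · rw [Finsupp.degree_single, hm]
    subst hj
    rw [Finset.sum_eq_single j]
    · simp
    · intro b _ hb
      rw [if_neg, mul_zero]
      intro h
      exact hb (Finsupp.single_left_injective one_ne_zero h)
    · intro h
      exact absurd (Finset.mem_univ _) h
  · rw [hL.coeff_eq_zero hm, Finset.sum_eq_zero]
    intro j _
    rw [if_neg, mul_zero]
    rintro rfl
    simp at hm

lemma coeff_lin_mul (a : Fin n → K) (f : MvPolynomial (Fin n) K) (m : Fin n →₀ ℕ) :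
    (lin a * f).coeff m =
      ∑ j, a j * (if m j = 0 then 0 else f.coeff (m - Finsupp.single j 1)) := by
  unfold lin
  rw [Finset.sum_mul, MvPolynomial.coeff_sum]
  refine Finset.sum_congr rfl fun j _ => ?_
  rw [mul_assoc, MvPolynomial.coeff_C_mul, MvPolynomial.coeff_X_mul']
  by_cases h : m j = 0
  · rw [if_pos h, if_neg (by simpa using h)]
  · rw [if_neg h, if_pos (by simpa using h)]

/-- polynomial with given coefficients on the degree `i` monomials dividing members of `W` -/
noncomputable def emb (W : Finset (Fin n →₀ ℕ)) (i : ℕ) :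
    (↥(Pset W i) → K) →ₗ[K] MvPolynomial (Fin n) K where
  toFun φ := ∑ m : ↥(Pset W i), MvPolynomial.monomial (m : Fin n →₀ ℕ) (φ m)
  map_add' φ ψ := by
    simp [Finset.sum_add_distrib]
  map_smul' c φ := by
    simp [Finset.smul_sum, MvPolynomial.smul_monomial]

lemma coeff_emb (W : Finset (Fin n →₀ ℕ)) (i : ℕ) (φ : ↥(Pset W i) → K) (m : Fin n →₀ ℕ) :
    (emb W i φ).coeff m = if h : m ∈ Pset W i then φ ⟨m, h⟩ else 0 := by
  change (∑ m : ↥(Pset W i), MvPolynomial.monomial (m : Fin n →₀ ℕ) (φ m)).coeff m = _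
  rw [MvPolynomial.coeff_sum]
  simp_rw [MvPolynomial.coeff_monomial]
  split_ifs with h
  · rw [Finset.sum_eq_single ⟨m, h⟩]
    · rw [if_pos rfl]
    · intro b _ hb
      rw [if_neg]
      intro h'
      exact hb (Subtype.ext h')
    · intro h'
      exact absurd (Finset.mem_univ _) h'
  · refine Finset.sum_eq_zero fun b _ => ?_
    rw [if_neg]
    rintro rfl
    exact h b.2

lemma emb_homogeneous (W : Finset (Fin n →₀ ℕ)) (i : ℕ) (φ : ↥(Pset W i) → K) :
    (emb W i φ).IsHomogeneous i :=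
  MvPolynomial.IsHomogeneous.sum _ _ _ fun m _ =>
    MvPolynomial.isHomogeneous_monomial _ (mem_Pset.1 m.2).2

/-- multiplication by the linear form `lin a` on the graded pieces -/
noncomputable def T (W : Finset (Fin n →₀ ℕ)) (i : ℕ) (a : Fin n → K) :
    (↥(Pset W i) → K) →ₗ[K] (↥(Pset W (i + 1)) → K) :=
  LinearMap.pi fun m' =>
    (MvPolynomial.lcoeff K (m' : Fin n →₀ ℕ)) ∘ₗ (LinearMap.mulLeft K (lin a)) ∘ₗ (emb W i)

lemma T_apply (W : Finset (Fin n →₀ ℕ)) (i : ℕ) (a : Fin n → K) (φ : ↥(Pset W i) → K)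
    (m' : ↥(Pset W (i + 1))) :
    T W i a φ m' = (lin a * emb W i φ).coeff (m' : Fin n →₀ ℕ) := rfl

lemma Desc.sub_emb_mem {I : Ideal (MvPolynomial (Fin n) K)} {W : Finset (Fin n →₀ ℕ)}
    (h : Desc I W) {i : ℕ} {f : MvPolynomial (Fin n) K} (hf : f.IsHomogeneous i) :
    f - emb W i (fun m => f.coeff (m : Fin n →₀ ℕ)) ∈ I := by
  apply h.sub_mem_of_coeff
  intro m w hw hle
  rw [coeff_emb]
  split_ifs with hm
  · rfl
  · apply hf.coeff_eq_zero
    intro hd
    exact hm (mem_Pset.2 ⟨⟨w, hw, hle⟩, hd⟩)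

lemma Desc.inj_iff {I : Ideal (MvPolynomial (Fin n) K)} {W : Finset (Fin n →₀ ℕ)}
    (h : Desc I W) (i : ℕ) (a : Fin n → K) :
    (∀ f : MvPolynomial (Fin n) K, f.IsHomogeneous i → lin a * f ∈ I → f ∈ I) ↔
      Function.Injective (T W i a) := by
  constructor
  · intro h1
    rw [injective_iff_map_eq_zero]
    intro φ hφ
    have h2 : lin a * emb W i φ ∈ I := by
      rw [h]
      intro m hm w hw hle
      rw [MvPolynomial.mem_support_iff] at hm
      apply hm
      have hd : m.degree = i + 1 := by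
        by_contra hne
        apply hm
        apply ((lin_homogeneous a).mul (emb_homogeneous W i φ)).coeff_eq_zero
        omega
      have := congrFun hφ ⟨m, mem_Pset.2 ⟨⟨w, hw, hle⟩, hd⟩⟩
      rwa [T_apply] at this
    have h3 := h1 _ (emb_homogeneous W i φ) h2
    ext m
    obtain ⟨⟨w, hw, hle⟩, hd⟩ := mem_Pset.1 m.2
    have h4 := h.coeff_eq_zero h3 hw hle
    rw [coeff_emb, dif_pos m.2] at h4
    exact h4
  · intro h1 f hf hL
    have h2 := h.sub_emb_mem hf
    set φ : ↥(Pset W i) → K := fun m => f.coeff (m : Fin n →₀ ℕ) with hφ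
    have h3 : lin a * emb W i φ ∈ I := by
      have h4 : lin a * emb W i φ = lin a * f - lin a * (f - emb W i φ) := by ring
      rw [h4]
      exact I.sub_mem hL (I.mul_mem_left _ h2)
    have h5 : T W i a φ = 0 := by
      ext m'
      rw [T_apply]
      obtain ⟨⟨w, hw, hle⟩, hd⟩ := mem_Pset.1 m'.2
      exact h.coeff_eq_zero h3 hw hle
    have h6 : φ = 0 := by
      apply h1
      rw [h5, map_zero]
    rw [h6, map_zero, sub_zero] at h2
    exact h2

lemma Desc.surj_iff {I : Ideal (MvPolynomial (Fin n) K)} {W : Finset (Fin n →₀ ℕ)}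
    (h : Desc I W) (i : ℕ) (a : Fin n → K) :
    (∀ g : MvPolynomial (Fin n) K, g.IsHomogeneous (i + 1) →
      ∃ f : MvPolynomial (Fin n) K, f.IsHomogeneous i ∧ g - lin a * f ∈ I) ↔
      Function.Surjective (T W i a) := by
  constructor
  · intro h1 ψ
    obtain ⟨f, hf, hfI⟩ := h1 (emb W (i + 1) ψ) (emb_homogeneous _ _ _)
    refine ⟨fun m => f.coeff (m : Fin n →₀ ℕ), ?_⟩
    have h2 := h.sub_emb_mem hf
    set φ : ↥(Pset W i) → K := fun m => f.coeff (m : Fin n →₀ ℕ) with hφ
    have h3 : emb W (i + 1) ψ - lin a * emb W i φ ∈ I := by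
      have h4 : emb W (i + 1) ψ - lin a * emb W i φ =
          (emb W (i + 1) ψ - lin a * f) + lin a * (f - emb W i φ) := by ring
      rw [h4]
      exact I.add_mem hfI (I.mul_mem_left _ h2)
    ext m'
    obtain ⟨⟨w, hw, hle⟩, hd⟩ := mem_Pset.1 m'.2
    have h5 := h.coeff_eq_zero h3 hw hle
    rw [MvPolynomial.coeff_sub, coeff_emb, dif_pos m'.2, sub_eq_zero] at h5
    rw [T_apply]
    exact h5.symm
  · intro h1 g hg
    obtain ⟨φ, hφ⟩ := h1 (fun m => g.coeff (m : Fin n →₀ ℕ))
    refine ⟨emb W i φ, emb_homogeneous _ _ _, ?_⟩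
    apply h.sub_mem_of_coeff
    intro m w hw hle
    by_cases hd : m.degree = i + 1
    · have h2 := congrFun hφ ⟨m, mem_Pset.2 ⟨⟨w, hw, hle⟩, hd⟩⟩
      rw [T_apply] at h2
      exact h2.symm
    · rw [hg.coeff_eq_zero hd]
      symm
      apply ((lin_homogeneous a).mul (emb_homogeneous W i φ)).coeff_eq_zero
      omega

lemma T_add_smul (W : Finset (Fin n →₀ ℕ)) (i : ℕ) (a b : Fin n → K) (s : K) :
    T W i (fun j => a j + s * b j) = T W i a + s • T W i b := by
  ext φ m'
  simp only [LinearMap.comp_apply, LinearMap.add_apply, LinearMap.smul_apply, Pi.add_apply,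
    Pi.smul_apply, T_apply, smul_eq_mul, coeff_lin_mul]
  rw [Finset.mul_sum, ← Finset.sum_add_distrib]
  refine Finset.sum_congr rfl fun j _ => ?_
  ring

/-- evaluation of the monomial `m` at the point `a` -/
noncomputable def mp (a : Fin n → K) (m : Fin n →₀ ℕ) : K := ∏ j, a j ^ m j

lemma mp_ne_zero {a : Fin n → K} (ha : ∀ j, a j ≠ 0) (m : Fin n →₀ ℕ) : mp a m ≠ 0 :=
  Finset.prod_ne_zero_iff.2 fun j _ => pow_ne_zero _ (ha j)

lemma mp_sub_single (a : Fin n → K) (m : Fin n →₀ ℕ) (j : Fin n) (hj : m j ≠ 0) :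
    a j * mp a (m - Finsupp.single j 1) = mp a m := by
  unfold mp
  rw [← Finset.mul_prod_erase _ _ (Finset.mem_univ j),
    ← Finset.mul_prod_erase _ (fun j => a j ^ m j) (Finset.mem_univ j), ← mul_assoc]
  congr 1
  · rw [Finsupp.tsub_apply, Finsupp.single_eq_same, ← pow_succ']
    congr 1
    omega
  · refine Finset.prod_congr rfl fun k hk => ?_
    have : (Finsupp.single j 1 : Fin n →₀ ℕ) k = 0 := by
      rw [Finsupp.single_apply, if_neg]
      exact fun h => (Finset.ne_of_mem_erase hk) h.symm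
    rw [Finsupp.tsub_apply, this, tsub_zero]

lemma T_torus (W : Finset (Fin n →₀ ℕ)) (i : ℕ) (a : Fin n → K) (φ : ↥(Pset W i) → K)
    (m' : ↥(Pset W (i + 1))) :
    T W i a (fun m => mp a (m : Fin n →₀ ℕ) * φ m) m' =
      mp a (m' : Fin n →₀ ℕ) * T W i (fun _ => 1) φ m' := by
  simp only [T_apply, coeff_lin_mul, Finset.mul_sum, coeff_emb]
  refine Finset.sum_congr rfl fun j _ => ?_
  by_cases hj : (m' : Fin n →₀ ℕ) j = 0
  · simp [hj]
  · rw [if_neg hj, if_neg hj]
    split_ifs with h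
    · rw [← mp_sub_single a _ j hj]
      ring
    · simp

lemma inj_torus (W : Finset (Fin n →₀ ℕ)) (i : ℕ) {a : Fin n → K} (ha : ∀ j, a j ≠ 0)
    (h : Function.Injective (T W i a)) : Function.Injective (T W i (fun _ => (1 : K))) := by
  rw [injective_iff_map_eq_zero]
  intro φ hφ
  have h1 : T W i a (fun m => mp a (m : Fin n →₀ ℕ) * φ m) = 0 := by
    ext m'
    rw [T_torus, hφ]
    simp
  have h2 : (fun m : ↥(Pset W i) => mp a (m : Fin n →₀ ℕ) * φ m) = 0 := by
    apply h
    rw [h1, map_zero]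
  ext m
  have h3 := congrFun h2 m
  simp only [Pi.zero_apply, mul_eq_zero] at h3
  exact h3.resolve_left (mp_ne_zero ha _)

lemma surj_torus (W : Finset (Fin n →₀ ℕ)) (i : ℕ) {a : Fin n → K} (ha : ∀ j, a j ≠ 0)
    (h : Function.Surjective (T W i a)) : Function.Surjective (T W i (fun _ => (1 : K))) := by
  intro ψ
  obtain ⟨φ', hφ'⟩ := h (fun m => mp a (m : Fin n →₀ ℕ) * ψ m)
  refine ⟨fun m => (mp a (m : Fin n →₀ ℕ))⁻¹ * φ' m, ?_⟩
  have h1 : (fun m : ↥(Pset W i) => mp a (m : Fin n →₀ ℕ) * ((mp a (m : Fin n →₀ ℕ))⁻¹ * φ' m))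
      = φ' := by
    ext m
    rw [← mul_assoc, mul_inv_cancel₀ (mp_ne_zero ha _), one_mul]
  ext m'
  have h2 := T_torus W i a (fun m => (mp a (m : Fin n →₀ ℕ))⁻¹ * φ' m) m'
  rw [h1, hφ'] at h2
  exact (mul_left_cancel₀ (mp_ne_zero ha _) h2).symm

/-- an endomorphism perturbation of the identity is injective for almost all parameters -/
lemma exists_good {V : Type*} [AddCommGroup V] [Module K V] [FiniteDimensional K V] [Infinite K]
    (N : V →ₗ[K] V) (a : Fin n → K) :
    ∃ s : K, (∀ j, a j + s ≠ 0) ∧ Function.Injective (LinearMap.id + s • N : V →ₗ[K] V) := by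
  have h1 : Set.Finite {μ : K | Module.End.HasEigenvalue N μ} := Module.End.finite_hasEigenvalue N
  have h2 : Set.Finite ((fun μ : K => -μ⁻¹) '' {μ : K | Module.End.HasEigenvalue N μ}) :=
    h1.image _
  have h3 : Set.Finite (Set.range fun j => -a j) := Set.finite_range _
  obtain ⟨s, hs⟩ := ((h2.union h3).union (Set.finite_singleton (0 : K))).infinite_compl.nonempty
  simp only [Set.mem_compl_iff, Set.mem_union, not_or] at hs
  obtain ⟨⟨hs1, hs2⟩, hs3⟩ := hs
  have hs0 : s ≠ 0 := fun h => hs3 (by simp [h])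
  refine ⟨s, fun j hj => hs2 ⟨j, by linear_combination -hj⟩, ?_⟩
  rw [injective_iff_map_eq_zero]
  intro v hv
  by_contra hv0
  apply hs1
  refine ⟨-s⁻¹, ?_, by simp⟩
  apply Module.End.hasEigenvalue_of_hasEigenvector (x := v)
  refine ⟨?_, hv0⟩
  rw [Module.End.mem_eigenspace_iff]
  simp only [LinearMap.add_apply, LinearMap.id_apply, LinearMap.smul_apply] at hv
  have h4 : s • N v = -v := by
    rw [eq_neg_iff_add_eq_zero, add_comm]
    exact hv
  have h5 : N v = s⁻¹ • (s • N v) := by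
    rw [smul_smul, inv_mul_cancel₀ hs0, one_smul]
  rw [h5, h4, smul_neg, neg_smul]

lemma inj_generic [Infinite K] (W : Finset (Fin n →₀ ℕ)) (i : ℕ) {a : Fin n → K}
    (h : Function.Injective (T W i a)) : Function.Injective (T W i (fun _ => (1 : K))) := by
  obtain ⟨g, hg⟩ := (T W i a).exists_leftInverse_of_injective (LinearMap.ker_eq_bot.2 h)
  obtain ⟨s, hs, hinj⟩ := exists_good (g ∘ₗ T W i (fun _ => (1 : K))) a
  have h1 : g ∘ₗ T W i (fun j => a j + s * 1) =
      LinearMap.id + s • (g ∘ₗ T W i (fun _ => (1 : K))) := by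
    rw [T_add_smul W i a (fun _ => 1) s, LinearMap.comp_add, hg, LinearMap.comp_smul]
  rw [← h1] at hinj
  apply inj_torus W i (a := fun j => a j + s * 1)
  · intro j
    rw [mul_one]
    exact hs j
  · rw [LinearMap.coe_comp] at hinj
    exact hinj.of_comp

lemma surj_generic [Infinite K] (W : Finset (Fin n →₀ ℕ)) (i : ℕ) {a : Fin n → K}
    (h : Function.Surjective (T W i a)) : Function.Surjective (T W i (fun _ => (1 : K))) := by
  obtain ⟨g, hg⟩ := (T W i a).exists_rightInverse_of_surjective (LinearMap.range_eq_top.2 h)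
  obtain ⟨s, hs, hinj⟩ := exists_good (T W i (fun _ => (1 : K)) ∘ₗ g) a
  have h1 : T W i (fun j => a j + s * 1) ∘ₗ g =
      LinearMap.id + s • (T W i (fun _ => (1 : K)) ∘ₗ g) := by
    rw [T_add_smul W i a (fun _ => 1) s, LinearMap.add_comp, hg, LinearMap.smul_comp]
  rw [← h1] at hinj
  have hsurj := LinearMap.surjective_of_injective hinj
  apply surj_torus W i (a := fun j => a j + s * 1)
  · intro j
    rw [mul_one]
    exact hs j
  · rw [LinearMap.coe_comp] at hsurj
    exact hsurj.of_comp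

/-- the sum of the variables decides the weak Lefschetz property of a monomial algebra -/
lemma Desc.hasWLP_iff [Infinite K] {I : Ideal (MvPolynomial (Fin n) K)}
    {W : Finset (Fin n →₀ ℕ)} (h : Desc I W) :
    HasWLP I ↔ ∀ i, Function.Injective (T W i (fun _ => (1 : K))) ∨
      Function.Surjective (T W i (fun _ => (1 : K))) := by
  constructor
  · rintro ⟨L, hL, hi⟩ i
    obtain ⟨a, rfl⟩ := exists_lin hL
    rcases hi i with h1 | h1
    · exact Or.inl (inj_generic W i ((h.inj_iff i a).1 h1))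
    · exact Or.inr (surj_generic W i ((h.surj_iff i a).1 h1))
  · intro h1
    refine ⟨lin fun _ => 1, lin_homogeneous _, fun i => ?_⟩
    rw [h.inj_iff, h.surj_iff]
    exact h1 i

end Pool.Agent.Helper720.Level
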