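import Pool.Agent.Helper720.LevelDual

set_option autoImplicit false

namespace Pool.Agent.Helper720.Level

variable {K : Type*} [Field K] {n : ℕ}

/-- multiplication by the sum of the variables in `S`, on coefficient functions -/
noncomputable def mulS (S : Finset (Fin n)) (f : (Fin n →₀ ℕ) → K) (m : Fin n →₀ ℕ) : K :=
  ∑ j ∈ S, if m j = 0 then 0 else f (m - Finsupp.single j 1)

lemma single_apply_ne {j k : Fin n} (h : j ≠ k) (a : ℕ) : (Finsupp.single j a : Fin n →₀ ℕ) k = 0 := by
  rw [Finsupp.single_apply, if_neg h]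

lemma sub_single_apply_ne {m : Fin n →₀ ℕ} {j k : Fin n} (h : j ≠ k) (a : ℕ) :
    (m - Finsupp.single j a) k = m k := by
  rw [Finsupp.tsub_apply, single_apply_ne h, tsub_zero]

lemma sub_single_apply_same {m : Fin n →₀ ℕ} {j : Fin n} (a : ℕ) :
    (m - Finsupp.single j a) j = m j - a := by
  rw [Finsupp.tsub_apply, Finsupp.single_eq_same]

lemma degree_sub_single {m : Fin n →₀ ℕ} {j : Fin n} (h : m j ≠ 0) :
    (m - Finsupp.single j 1).degree + 1 = m.degree := by
  have h1 : m - Finsupp.single j 1 + Finsupp.single j 1 = m := by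
    apply tsub_add_cancel_of_le
    rw [Finsupp.single_le_iff]
    omega
  conv_rhs => rw [← h1]
  rw [map_add, Finsupp.degree_single]

lemma degree_pos_of_lt {m μ : Fin n →₀ ℕ} {i : Fin n} (hd : μ.degree ≤ m.degree)
    (hi : m i < μ i) : ∃ j, j ≠ i ∧ μ j < m j := by
  by_contra hcon
  push Not at hcon
  have h1 : m ≤ μ := by
    intro k
    by_cases hk : k = i
    · subst hk
      exact hi.le
    · exact hcon k hk
  have h2 := eq_of_le_of_degree h1 hd
  rw [h2] at hi
  exact lt_irrefl _ hi

/-- the sum at a level, given the structure of the next level -/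
lemma level_sum {S : Finset (Fin n)} {i : Fin n} {f : (Fin n →₀ ℕ) → K}
    {d r a : ℕ} {μ : Fin n →₀ ℕ}
    (hP : ∀ m : Fin n →₀ ℕ, m.degree = d → (∀ j, j ∉ S → m j = μ j) → m i = a →
      ((∀ j, j ≠ i → μ j ≤ m j) → ∃ q : ℕ, 0 < q ∧ f m = (-1) ^ r * (q : K) * f μ) ∧
      ((∃ j, j ≠ i ∧ m j < μ j) → f m = 0))
    (M : Fin n →₀ ℕ) (hMd : M.degree = d + 1) (hMS : ∀ j, j ∉ S → M j = μ j) (hMi : M i = a) :
    ((∀ j, j ≠ i → μ j ≤ M j) → (∃ j ∈ S.erase i, μ j < M j) →
      ∃ q : ℕ, 0 < q ∧ (∑ j ∈ S.erase i, if M j = 0 then 0 else f (M - Finsupp.single j 1)) =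
        (-1) ^ r * (q : K) * f μ) ∧
    ((∃ j, j ≠ i ∧ M j < μ j) →
      (∑ j ∈ S.erase i, if M j = 0 then 0 else f (M - Finsupp.single j 1)) = 0) := by
  have hdeg : ∀ j, M j ≠ 0 → (M - Finsupp.single j 1).degree = d := by
    intro j hj
    have := degree_sub_single hj
    omega
  constructor
  · intro hle hex
    have hterm : ∀ j ∈ S.erase i, ∃ q : ℕ, (μ j < M j → 0 < q) ∧
        (if M j = 0 then 0 else f (M - Finsupp.single j 1)) = (-1) ^ r * (q : K) * f μ := by
      intro j hj
      have hji : j ≠ i := Finset.ne_of_mem_erase hj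
      have hjS : j ∈ S := Finset.mem_of_mem_erase hj
      by_cases h0 : M j = 0
      · refine ⟨0, fun h => ?_, by simp [h0]⟩
        omega
      · rw [if_neg h0]
        have h1 := hP (M - Finsupp.single j 1) (hdeg j h0) (fun k hk => by
          have hjk : j ≠ k := by
            rintro rfl
            exact hk hjS
          rw [sub_single_apply_ne hjk]
          exact hMS k hk) (by rw [sub_single_apply_ne hji]; exact hMi)
        rcases Nat.lt_or_ge (μ j) (M j) with hlt | hge
        · obtain ⟨q, hq, hfq⟩ := h1.1 (fun k hk => by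
            by_cases hkj : j = k
            · subst hkj
              rw [sub_single_apply_same]
              omega
            · rw [sub_single_apply_ne hkj]
              exact hle k hk)
          exact ⟨q, fun _ => hq, hfq⟩
        · refine ⟨0, fun h => by omega, ?_⟩
          rw [h1.2 ⟨j, hji, by
            rw [sub_single_apply_same]
            have := hle j hji
            omega⟩]
          simp
    choose! q hq hfq using hterm
    obtain ⟨j₀, hj₀, hlt⟩ := hex
    refine ⟨∑ j ∈ S.erase i, q j, ?_, ?_⟩
    · exact lt_of_lt_of_le (hq j₀ hj₀ hlt)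
        (Finset.single_le_sum (f := q) (fun _ _ => Nat.zero_le _) hj₀)
    · rw [Finset.sum_congr rfl hfq, Nat.cast_sum, Finset.mul_sum, Finset.sum_mul]
  · rintro ⟨l, hl, hlt⟩
    refine Finset.sum_eq_zero fun j hj => ?_
    have hji : j ≠ i := Finset.ne_of_mem_erase hj
    have hjS : j ∈ S := Finset.mem_of_mem_erase hj
    by_cases h0 : M j = 0
    · rw [if_pos h0]
    · rw [if_neg h0]
      have h1 := hP (M - Finsupp.single j 1) (hdeg j h0) (fun k hk => by
        have hjk : j ≠ k := by
          rintro rfl
          exact hk hjS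
        rw [sub_single_apply_ne hjk]
        exact hMS k hk) (by rw [sub_single_apply_ne hji]; exact hMi)
      apply h1.2
      refine ⟨l, hl, ?_⟩
      by_cases hkj : j = l
      · subst hkj
        rw [sub_single_apply_same]
        omega
      · rw [sub_single_apply_ne hkj]
        exact hlt

lemma mulS_split {S : Finset (Fin n)} {i : Fin n} (hi : i ∈ S) (f : (Fin n →₀ ℕ) → K)
    (m : Fin n →₀ ℕ) :
    mulS S f m = (if m i = 0 then 0 else f (m - Finsupp.single i 1)) +
      ∑ j ∈ S.erase i, if m j = 0 then 0 else f (m - Finsupp.single j 1) := by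
  unfold mulS
  rw [← Finset.add_sum_erase _ _ hi]

/-- If only one monomial of positive relative `i`-level occurs in the product, then `f` is
determined by its top monomial. -/
lemma levels {S : Finset (Fin n)} {i : Fin n} (hi : i ∈ S) {f : (Fin n →₀ ℕ) → K}
    {d k : ℕ} {μ : Fin n →₀ ℕ}
    (hμd : μ.degree = d)
    (hmax : ∀ m, f m ≠ 0 → m i = μ i → m = μ)
    (hprod : ∀ m, k < m i → m i ≤ μ i → mulS S f m = 0) :
    ∀ r, r ≤ μ i - k → ∀ m : Fin n →₀ ℕ, m.degree = d → (∀ j, j ∉ S → m j = μ j) →
      m i = μ i - r →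
      ((∀ j, j ≠ i → μ j ≤ m j) → ∃ q : ℕ, 0 < q ∧ f m = (-1) ^ r * (q : K) * f μ) ∧
      ((∃ j, j ≠ i ∧ m j < μ j) → f m = 0) := by
  intro r
  induction r with
  | zero =>
    intro _ m hm _ hmi
    rw [Nat.sub_zero] at hmi
    constructor
    · intro hle
      refine ⟨1, one_pos, ?_⟩
      have h1 : μ ≤ m := by
        intro j
        by_cases hj : j = i
        · subst hj
          exact hmi.ge
        · exact hle j hj
      have h2 : μ = m := eq_of_le_of_degree h1 (by rw [hm, hμd])
      rw [h2]
      simp
    · rintro ⟨j, _, hlt⟩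
      by_contra hne
      rw [hmax m hne hmi] at hlt
      exact lt_irrefl _ hlt
  | succ r ih =>
    intro hr m hm hmS hmi
    have hik : k < μ i := by omega
    have hMi : (m + Finsupp.single i 1 : Fin n →₀ ℕ) i = μ i - r := by
      rw [Finsupp.add_apply, Finsupp.single_eq_same]
      omega
    have hMo : ∀ j, j ≠ i → (m + Finsupp.single i 1 : Fin n →₀ ℕ) j = m j := by
      intro j hj
      rw [Finsupp.add_apply, single_apply_ne (Ne.symm hj), add_zero]
    have hM := level_sum (ih (by omega)) (m + Finsupp.single i 1)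
      (by rw [map_add, Finsupp.degree_single, hm])
      (fun j hj => by
        rw [hMo j (fun h => hj (h ▸ hi))]
        exact hmS j hj) hMi
    have hz := hprod (m + Finsupp.single i 1) (by rw [hMi]; omega) (by rw [hMi]; omega)
    rw [mulS_split hi, if_neg (by rw [hMi]; omega), add_tsub_cancel_right] at hz
    constructor
    · intro hle
      obtain ⟨j, hji, hjlt⟩ := degree_pos_of_lt (m := m) (μ := μ) (i := i) (by rw [hm, hμd])
        (by omega)
      have hjS : j ∈ S := by
        by_contra hj
        rw [hmS j hj] at hjlt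
        exact lt_irrefl _ hjlt
      obtain ⟨q, hq, hfq⟩ := hM.1 (fun l hl => by rw [hMo l hl]; exact hle l hl)
        ⟨j, Finset.mem_erase.2 ⟨hji, hjS⟩, by rw [hMo j hji]; exact hjlt⟩
      refine ⟨q, hq, ?_⟩
      rw [hfq] at hz
      rw [pow_succ]
      linear_combination hz
    · rintro ⟨l, hl, hlt⟩
      rw [hM.2 ⟨l, hl, by rw [hMo l hl]; exact hlt⟩, add_zero] at hz
      exact hz


/-- Case B of the sparse lemma. -/
lemma sparse_caseB {S : Finset (Fin n)} {f : (Fin n →₀ ℕ) → K}
    {ν : Fin n → (Fin n →₀ ℕ)} (hν : ∀ i ∈ S, f (ν i) ≠ 0)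
    (hmin : ∀ i ∈ S, ∀ m, f m ≠ 0 → m ≠ ν i → ν i i < m i)
    {i₁ i₂ : Fin n} (h₁ : i₁ ∈ S) (h₂ : i₂ ∈ S) (h₁₂ : ν i₁ ≠ ν i₂)
    (B : Finset (Fin n →₀ ℕ)) (hB : ∀ m, mulS S f m ≠ 0 → m ∈ B) :
    2 * (S.card - 1) ≤ B.card := by
  have key : ∀ i ∈ S, ∀ j ∈ S.erase i, mulS S f (ν i + Finsupp.single j 1) ≠ 0 := by
    intro i hi j hj
    have hji : j ≠ i := Finset.ne_of_mem_erase hj
    have hjS : j ∈ S := Finset.mem_of_mem_erase hj
    unfold mulS
    rw [Finset.sum_eq_single j]
    · rw [if_neg, add_tsub_cancel_right]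
      · exact hν i hi
      · rw [Finsupp.add_apply, Finsupp.single_eq_same]
        omega
    · intro l _ hlj
      by_cases h0 : (ν i + Finsupp.single j 1 : Fin n →₀ ℕ) l = 0
      · rw [if_pos h0]
      · rw [if_neg h0]
        by_contra hne
        by_cases hli : l = i
        · subst hli
          rw [Finsupp.add_apply, single_apply_ne hji, add_zero] at h0
          have h1 : (ν l + Finsupp.single j 1 - Finsupp.single l 1 : Fin n →₀ ℕ) l = ν l l - 1 := by
            rw [sub_single_apply_same, Finsupp.add_apply, single_apply_ne hji, add_zero]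
          have h2 : ν l + Finsupp.single j 1 - Finsupp.single l 1 ≠ ν l := by
            intro h
            rw [h] at h1
            omega
          have h3 := hmin l hi _ hne h2
          omega
        · have h1 : (ν i + Finsupp.single j 1 - Finsupp.single l 1 : Fin n →₀ ℕ) i = ν i i := by
            rw [sub_single_apply_ne hli, Finsupp.add_apply, single_apply_ne hji, add_zero]
          have h2 : ν i + Finsupp.single j 1 - Finsupp.single l 1 ≠ ν i := by
            intro h
            have h3 := DFunLike.congr_fun h j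
            rw [sub_single_apply_ne hlj, Finsupp.add_apply, Finsupp.single_eq_same] at h3
            omega
          have h3 := hmin i hi _ hne h2
          omega
    · intro h
      exact absurd hjS h
  set T₁ : Finset (Fin n →₀ ℕ) := (S.erase i₁).image (fun j => ν i₁ + Finsupp.single j 1) with hT₁
  set T₂ : Finset (Fin n →₀ ℕ) := (S.erase i₂).image (fun j => ν i₂ + Finsupp.single j 1) with hT₂
  have hinj : ∀ (x : Fin n →₀ ℕ), Function.Injective (fun j : Fin n => x + Finsupp.single j 1) := by
    intro x j k h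
    simp only at h
    exact Finsupp.single_left_injective one_ne_zero (add_left_cancel h)
  have hc₁ : T₁.card = S.card - 1 := by
    rw [hT₁, Finset.card_image_of_injective _ (hinj _), Finset.card_erase_of_mem h₁]
  have hc₂ : T₂.card = S.card - 1 := by
    rw [hT₂, Finset.card_image_of_injective _ (hinj _), Finset.card_erase_of_mem h₂]
  have hdisj : Disjoint T₁ T₂ := by
    rw [Finset.disjoint_left]
    intro x hx₁ hx₂
    rw [hT₁, Finset.mem_image] at hx₁
    rw [hT₂, Finset.mem_image] at hx₂
    obtain ⟨j, hj, rfl⟩ := hx₁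
    obtain ⟨k, hk, hjk⟩ := hx₂
    have h1 := DFunLike.congr_fun hjk i₁
    have hji : j ≠ i₁ := Finset.ne_of_mem_erase hj
    rw [Finsupp.add_apply, Finsupp.add_apply, single_apply_ne hji, add_zero] at h1
    have h2 := hmin i₁ h₁ (ν i₂) (hν i₂ h₂) (Ne.symm h₁₂)
    omega
  have hsub : T₁ ∪ T₂ ⊆ B := by
    intro x hx
    rw [Finset.mem_union] at hx
    rcases hx with hx | hx
    · rw [hT₁, Finset.mem_image] at hx
      obtain ⟨j, hj, rfl⟩ := hx
      exact hB _ (key i₁ h₁ j hj)
    · rw [hT₂, Finset.mem_image] at hx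
      obtain ⟨j, hj, rfl⟩ := hx
      exact hB _ (key i₂ h₂ j hj)
  have h3 := Finset.card_le_card hsub
  rw [Finset.card_union_of_disjoint hdisj, hc₁, hc₂] at h3
  omega


lemma mulS_bottom {S : Finset (Fin n)} {i : Fin n} (hi : i ∈ S) {f : (Fin n →₀ ℕ) → K} {κ : ℕ}
    (hmin : ∀ m, f m ≠ 0 → κ ≤ m i) (m : Fin n →₀ ℕ) :
    mulS (S.erase i) (fun m => if m i = κ then f m else 0) m =
      if m i = κ then mulS S f m else 0 := by
  split_ifs with hm
  · rw [mulS_split hi]
    have h1 : (if m i = 0 then 0 else f (m - Finsupp.single i 1)) = 0 := by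
      split_ifs with h0
      · rfl
      · by_contra hne
        have := hmin _ hne
        rw [sub_single_apply_same] at this
        omega
    rw [h1, zero_add]
    unfold mulS
    refine Finset.sum_congr rfl fun j hj => ?_
    have hji : j ≠ i := Finset.ne_of_mem_erase hj
    by_cases h0 : m j = 0
    · rw [if_pos h0, if_pos h0]
    · rw [if_neg h0, if_neg h0]
      simp only [sub_single_apply_ne hji, if_pos hm]
  · unfold mulS
    refine Finset.sum_eq_zero fun j hj => ?_
    have hji : j ≠ i := Finset.ne_of_mem_erase hj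
    by_cases h0 : m j = 0
    · rw [if_pos h0]
    · rw [if_neg h0]
      simp only [sub_single_apply_ne hji, if_neg hm]

/-- Case A, the situation in which only one monomial lies above the bottom level. -/
lemma sparse_caseA {S : Finset (Fin n)} [CharZero K] {i : Fin n} (hi : i ∈ S)
    (hS : 2 ≤ S.card) {f : (Fin n →₀ ℕ) → K}
    {d κ : ℕ} {μ : Fin n →₀ ℕ} (hμ : f μ ≠ 0)
    (hμd : μ.degree = d)
    (hmin : ∀ m, f m ≠ 0 → κ ≤ m i)
    (hlt : κ < μ i)
    (hmax : ∀ m, f m ≠ 0 → m i = μ i → m = μ)
    (hprod : ∀ m, κ < m i → m i ≤ μ i → mulS S f m = 0)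
    (hprod' : mulS S f (μ + Finsupp.single i 1) ≠ 0)
    (B : Finset (Fin n →₀ ℕ)) (hB : ∀ m, mulS S f m ≠ 0 → m ∈ B) :
    2 * (S.card - 1) ≤ B.card := by
  set R := μ i - κ with hR
  have hlev := levels hi hμd hmax hprod R le_rfl
  have hsum := level_sum (a := μ i - R) hlev
  have hbot : ∀ m : Fin n →₀ ℕ, m.degree = d + 1 → (∀ j, j ∉ S → m j = μ j) → m i = κ →
      (∀ j, j ≠ i → μ j ≤ m j) → m ∈ B := by
    intro m hmd hmS hmi hle
    apply hB
    have h1 := hsum m hmd hmS (by omega)
    obtain ⟨j, hji, hjlt⟩ := degree_pos_of_lt (m := m) (μ := μ) (i := i) (by omega) (by omega)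
    have hjS : j ∈ S := by
      by_contra hj
      rw [hmS j hj] at hjlt
      exact lt_irrefl _ hjlt
    obtain ⟨q, hq, hfq⟩ := h1.1 hle ⟨j, Finset.mem_erase.2 ⟨hji, hjS⟩, hjlt⟩
    have h2 : (if m i = 0 then 0 else f (m - Finsupp.single i 1)) = 0 := by
      split_ifs with h0
      · rfl
      · by_contra hne
        have := hmin _ hne
        rw [sub_single_apply_same] at this
        omega
    rw [mulS_split hi, h2, zero_add, hfq]
    have hq0 : (q : K) ≠ 0 := by
      exact_mod_cast hq.ne'
    exact mul_ne_zero (mul_ne_zero (pow_ne_zero _ (by norm_num)) hq0) hμ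
  set b : Fin n →₀ ℕ := μ - Finsupp.single i R with hb
  have hbi : b i = κ := by
    rw [hb, sub_single_apply_same]
    omega
  have hbj : ∀ j, j ≠ i → b j = μ j := fun j hj => by
    rw [hb, sub_single_apply_ne (Ne.symm hj)]
  have hbd : b.degree + R = d := by
    have h1 : b + Finsupp.single i R = μ := by
      apply tsub_add_cancel_of_le
      rw [Finsupp.single_le_iff]
      omega
    rw [← hμd, ← h1, map_add, Finsupp.degree_single]
  obtain ⟨j₀, hj₀⟩ : (S.erase i).Nonempty := by
    rw [← Finset.card_pos, Finset.card_erase_of_mem hi]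
    omega
  have hj₀i : j₀ ≠ i := Finset.ne_of_mem_erase hj₀
  have hj₀S : j₀ ∈ S := Finset.mem_of_mem_erase hj₀
  set T₁ : Finset (Fin n →₀ ℕ) := (S.erase i).image (fun j => b + Finsupp.single j (R + 1)) with hT₁
  set T₂ : Finset (Fin n →₀ ℕ) := ((S.erase i).erase j₀).image
    (fun j => b + Finsupp.single j₀ R + Finsupp.single j 1) with hT₂
  have hT₁B : T₁ ⊆ B := by
    intro x hx
    rw [hT₁, Finset.mem_image] at hx
    obtain ⟨j, hj, rfl⟩ := hx
    have hji : j ≠ i := Finset.ne_of_mem_erase hj
    have hjS : j ∈ S := Finset.mem_of_mem_erase hj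
    apply hbot
    · rw [map_add, Finsupp.degree_single]
      omega
    · intro k hk
      have hjk : j ≠ k := by
        rintro rfl
        exact hk hjS
      have hki : k ≠ i := by
        rintro rfl
        exact hk hi
      rw [Finsupp.add_apply, single_apply_ne hjk, add_zero, hbj k hki]
    · rw [Finsupp.add_apply, single_apply_ne hji, add_zero, hbi]
    · intro k hk
      rw [Finsupp.add_apply, hbj k hk]
      exact Nat.le_add_right _ _
  have hT₂B : T₂ ⊆ B := by
    intro x hx
    rw [hT₂, Finset.mem_image] at hx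
    obtain ⟨j, hj', rfl⟩ := hx
    have hj : j ∈ S.erase i := Finset.mem_of_mem_erase hj'
    have hji : j ≠ i := Finset.ne_of_mem_erase hj
    have hjS : j ∈ S := Finset.mem_of_mem_erase hj
    apply hbot
    · rw [map_add, map_add, Finsupp.degree_single, Finsupp.degree_single]
      omega
    · intro k hk
      have hjk : j ≠ k := by
        rintro rfl
        exact hk hjS
      have hj₀k : j₀ ≠ k := by
        rintro rfl
        exact hk hj₀S
      have hki : k ≠ i := by
        rintro rfl
        exact hk hi
      rw [Finsupp.add_apply, Finsupp.add_apply, single_apply_ne hjk, single_apply_ne hj₀k, add_zero,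
        add_zero, hbj k hki]
    · rw [Finsupp.add_apply, Finsupp.add_apply, single_apply_ne hji, single_apply_ne hj₀i, add_zero,
        add_zero, hbi]
    · intro k hk
      rw [Finsupp.add_apply, Finsupp.add_apply, hbj k hk, add_assoc]
      exact Nat.le_add_right _ _
  have hc₁ : T₁.card = S.card - 1 := by
    rw [hT₁, Finset.card_image_of_injective, Finset.card_erase_of_mem hi]
    intro j k h
    simp only at h
    exact Finsupp.single_left_injective (Nat.succ_ne_zero R) (add_left_cancel h)
  have hc₂ : T₂.card = S.card - 2 := by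
    rw [hT₂, Finset.card_image_of_injective, Finset.card_erase_of_mem hj₀,
      Finset.card_erase_of_mem hi]
    · omega
    · intro j k h
      simp only at h
      exact Finsupp.single_left_injective one_ne_zero (add_left_cancel h)
  have hdisj : Disjoint T₁ T₂ := by
    rw [Finset.disjoint_left]
    intro x hx₁ hx₂
    rw [hT₁, Finset.mem_image] at hx₁
    rw [hT₂, Finset.mem_image] at hx₂
    obtain ⟨j, hj, rfl⟩ := hx₁
    obtain ⟨k, hk, hjk⟩ := hx₂
    have hkj₀ : k ≠ j₀ := Finset.ne_of_mem_erase hk
    have h1 := DFunLike.congr_fun hjk k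
    rw [Finsupp.add_apply, Finsupp.add_apply, Finsupp.add_apply, single_apply_ne (Ne.symm hkj₀),
      Finsupp.single_eq_same] at h1
    by_cases hjk' : j = k
    · subst hjk'
      rw [Finsupp.single_eq_same] at h1
      omega
    · rw [single_apply_ne hjk'] at h1
      omega
  have htop : μ + Finsupp.single i 1 ∈ B := hB _ hprod'
  have htop₁ : μ + Finsupp.single i 1 ∉ T₁ ∪ T₂ := by
    intro hx
    have h1 : (μ + Finsupp.single i 1 : Fin n →₀ ℕ) i = κ := by
      rw [Finset.mem_union] at hx
      rcases hx with hx | hx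
      · rw [hT₁, Finset.mem_image] at hx
        obtain ⟨j, hj, hjx⟩ := hx
        rw [← hjx, Finsupp.add_apply, single_apply_ne (Finset.ne_of_mem_erase hj), add_zero, hbi]
      · rw [hT₂, Finset.mem_image] at hx
        obtain ⟨j, hj, hjx⟩ := hx
        rw [← hjx, Finsupp.add_apply, Finsupp.add_apply, single_apply_ne hj₀i,
          single_apply_ne (Finset.ne_of_mem_erase (Finset.mem_of_mem_erase hj)), add_zero,
          add_zero, hbi]
    rw [Finsupp.add_apply, Finsupp.single_eq_same] at h1
    omega
  have hsub : insert (μ + Finsupp.single i 1) (T₁ ∪ T₂) ⊆ B := by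
    intro x hx
    rw [Finset.mem_insert, Finset.mem_union] at hx
    rcases hx with rfl | hx | hx
    · exact htop
    · exact hT₁B hx
    · exact hT₂B hx
  have h3 := Finset.card_le_card hsub
  rw [Finset.card_insert_of_notMem htop₁, Finset.card_union_of_disjoint hdisj, hc₁, hc₂] at h3
  omega

/-- The product of the sum of the variables in `S` with a form that is not a monomial has at
least `2 (|S| - 1)` terms. -/
theorem sparse [CharZero K] : ∀ (k : ℕ) (S : Finset (Fin n)), S.card = k →
    ∀ (f : (Fin n →₀ ℕ) → K) (d : ℕ) (A : Finset (Fin n →₀ ℕ)), (∀ m, m ∈ A ↔ f m ≠ 0) →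
    (∀ m ∈ A, m.degree = d) → (∀ m ∈ A, ∀ m' ∈ A, ∀ j, j ∉ S → m j = m' j) →
    (∃ m ∈ A, ∃ m' ∈ A, m ≠ m') →
    ∀ B : Finset (Fin n →₀ ℕ), (∀ m, mulS S f m ≠ 0 → m ∈ B) → 2 * (S.card - 1) ≤ B.card := by
  intro k
  induction k with
  | zero =>
    intro S hS f d A _ _ _ _ B _
    rw [hS]
    simp
  | succ k ih =>
    intro S hS f d A hA hdeg hout h2 B hB
    obtain ⟨a₁, ha₁, a₂, ha₂, ha₁₂⟩ := h2
    have hAne : A.Nonempty := ⟨a₁, ha₁⟩
    by_cases hcase : ∃ i ∈ S, ∃ m₁ ∈ A, ∃ m₂ ∈ A, m₁ ≠ m₂ ∧ m₁ i = m₂ i ∧ ∀ m ∈ A, m₁ i ≤ m i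
    · obtain ⟨i, hi, m₁, hm₁, m₂, hm₂, hne, heq, hmin⟩ := hcase
      set κ := m₁ i with hκ
      have hmin' : ∀ m, f m ≠ 0 → κ ≤ m i := fun m hm => hmin m ((hA m).2 hm)
      have hIH := ih (S.erase i) (by rw [Finset.card_erase_of_mem hi, hS]; rfl)
        (fun m => if m i = κ then f m else 0) d (A.filter (fun m => m i = κ))
        (by
          intro m
          rw [Finset.mem_filter, hA]
          constructor
          · rintro ⟨h1, h2⟩
            simp only [h2, if_true]
            exact h1
          · intro h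
            simp only [ne_eq, ite_eq_right_iff, Classical.not_imp] at h
            exact ⟨h.2, h.1⟩)
        (fun m hm => hdeg m (Finset.mem_filter.1 hm).1)
        (by
          intro m hm m' hm' j hj
          rw [Finset.mem_filter] at hm hm'
          by_cases hji : j = i
          · subst hji
            rw [hm.2, hm'.2]
          · exact hout m hm.1 m' hm'.1 j (fun h => hj (Finset.mem_erase.2 ⟨hji, h⟩)))
        ⟨m₁, Finset.mem_filter.2 ⟨hm₁, rfl⟩, m₂, Finset.mem_filter.2 ⟨hm₂, heq.symm⟩, hne⟩
        (B.filter (fun m => m i = κ))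
        (by
          intro m hm
          rw [mulS_bottom hi hmin'] at hm
          simp only [ne_eq, ite_eq_right_iff, Classical.not_imp] at hm
          exact Finset.mem_filter.2 ⟨hB m hm.2, hm.1⟩)
      rw [Finset.card_erase_of_mem hi, hS] at hIH
      obtain ⟨μ, hμA, hμmax⟩ := Finset.exists_max_image A (fun m => m i) hAne
      have hμ : f μ ≠ 0 := (hA μ).1 hμA
      have htop : ∀ m, f m ≠ 0 → m i = μ i → mulS S f (m + Finsupp.single i 1) ≠ 0 := by
        intro m hm hmi
        rw [mulS_split hi, if_neg (by rw [Finsupp.add_apply, Finsupp.single_eq_same]; omega),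
          add_tsub_cancel_right, Finset.sum_eq_zero, add_zero]
        · exact hm
        · intro j hj
          have hji : j ≠ i := Finset.ne_of_mem_erase hj
          split_ifs with h0
          · rfl
          · by_contra hne'
            have h1 := hμmax _ ((hA _).2 hne')
            rw [sub_single_apply_ne hji, Finsupp.add_apply, Finsupp.single_eq_same] at h1
            omega
      have hμB : μ + Finsupp.single i 1 ∈ B := hB _ (htop μ hμ rfl)
      have hκμ : κ ≤ μ i := hmin μ hμA
      have hμi : (μ + Finsupp.single i 1 : Fin n →₀ ℕ) i = μ i + 1 := by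
        rw [Finsupp.add_apply, Finsupp.single_eq_same]
      by_cases hother : ∃ m ∈ B, m ≠ μ + Finsupp.single i 1 ∧ κ < m i
      · obtain ⟨m, hmB, hmne, hmi⟩ := hother
        have hsub : insert m (insert (μ + Finsupp.single i 1) (B.filter (fun m => m i = κ))) ⊆ B := by
          intro x hx
          rw [Finset.mem_insert, Finset.mem_insert, Finset.mem_filter] at hx
          rcases hx with rfl | rfl | hx
          · exact hmB
          · exact hμB
          · exact hx.1
        have h3 := Finset.card_le_card hsub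
        rw [Finset.card_insert_of_notMem, Finset.card_insert_of_notMem] at h3
        · rw [hS]
          omega
        · rw [Finset.mem_filter]
          rintro ⟨_, h4⟩
          omega
        · rw [Finset.mem_insert, Finset.mem_filter]
          rintro (h4 | ⟨_, h4⟩)
          · exact hmne h4
          · omega
      · push Not at hother
        have hprod : ∀ m, κ < m i → m i ≤ μ i → mulS S f m = 0 := by
          intro m h1 h2
          by_contra hne'
          have h3 := hother m (hB m hne')
          have h4 : m ≠ μ + Finsupp.single i 1 := by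
            intro h
            rw [h] at h2
            omega
          have := h3 h4
          omega
        have hmax : ∀ m, f m ≠ 0 → m i = μ i → m = μ := by
          intro m hm hmi
          by_contra hne'
          have h3 := hother (m + Finsupp.single i 1) (hB _ (htop m hm hmi))
            (fun h => hne' (add_right_cancel h))
          rw [Finsupp.add_apply, Finsupp.single_eq_same] at h3
          omega
        have hlt : κ < μ i := by
          rcases Nat.lt_or_ge κ (μ i) with h | h
          · exact h
          · exfalso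
            have h1 : m₁ = μ := hmax m₁ ((hA _).1 hm₁) (by omega)
            have h2 : m₂ = μ := hmax m₂ ((hA _).1 hm₂) (by omega)
            exact hne (h1.trans h2.symm)
        rcases Nat.lt_or_ge S.card 2 with hlt2 | hge2
        · omega
        · exact sparse_caseA hi hge2 hμ (hdeg μ hμA) hmin' hlt hmax hprod (htop μ hμ rfl) B hB
    · push Not at hcase
      have hex : ∀ i : Fin n, ∃ ν ∈ A, ∀ m ∈ A, ν i ≤ m i := fun i =>
        Finset.exists_min_image A (fun m => m i) hAne
      choose ν hνA hνmin using hex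
      have hstrict : ∀ i ∈ S, ∀ m, f m ≠ 0 → m ≠ ν i → ν i i < m i := by
        intro i hi m hm hmne
        have h1 := hνmin i m ((hA m).2 hm)
        rcases Nat.lt_or_ge (ν i i) (m i) with h | h
        · exact h
        · exfalso
          obtain ⟨m', hm', hlt⟩ := hcase i hi (ν i) (hνA i) m ((hA m).2 hm) (Ne.symm hmne)
            (le_antisymm h1 h)
          have := hνmin i m' hm'
          omega
      by_cases hall : ∃ i₁ ∈ S, ∃ i₂ ∈ S, ν i₁ ≠ ν i₂
      · obtain ⟨i₁, h₁, i₂, h₂, h₁₂⟩ := hall
        exact sparse_caseB (fun i _ => (hA _).1 (hνA i)) hstrict h₁ h₂ h₁₂ B hB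
      · exfalso
        push Not at hall
        obtain ⟨i₀, hi₀⟩ : S.Nonempty := by
          rw [← Finset.card_pos, hS]
          omega
        have hle : ∀ m ∈ A, ν i₀ = m := by
          intro m hm
          apply eq_of_le_of_degree
          · intro j
            by_cases hj : j ∈ S
            · rw [hall i₀ hi₀ j hj]
              exact hνmin j m hm
            · exact (hout _ (hνA i₀) m hm j hj).le
          · rw [hdeg m hm, hdeg _ (hνA i₀)]
        exact ha₁₂ ((hle a₁ ha₁).symm.trans (hle a₂ ha₂))

end Pool.Agent.Helper720.Level
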