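import Pool.Agent.Helper720.LevelCI

set_option autoImplicit false

namespace Pool.Agent.Helper720.Level

variable {K : Type*} [Field K] {n : ℕ}

lemma sub_add_single {m : Fin n →₀ ℕ} {j : Fin n} (h : m j ≠ 0) :
    Finsupp.single j 1 + (m - Finsupp.single j 1) = m := by
  rw [add_comm]
  apply tsub_add_cancel_of_le
  rw [Finsupp.single_le_iff]
  omega

/-- A nonzero translation invariant function in degree `d` has at least `d + 1` terms. -/
theorem terms : ∀ (k : ℕ) (S : Finset (Fin n)), S.card = k →
    ∀ (c : (Fin n →₀ ℕ) → K) (d : ℕ) (A : Finset (Fin n →₀ ℕ)), (∀ m, m ∈ A ↔ c m ≠ 0) →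
    (∀ m, ∑ j ∈ S, c (Finsupp.single j 1 + m) = 0) →
    (∀ m ∈ A, ∑ j ∈ S, m j = d) → A.Nonempty → d + 1 ≤ A.card := by
  intro k
  induction k with
  | zero =>
    intro S hS c d A _ _ hd hne
    rw [Finset.card_eq_zero] at hS
    obtain ⟨m, hm⟩ := hne
    have := hd m hm
    rw [hS, Finset.sum_empty] at this
    have h1 := Finset.card_pos.2 ⟨m, hm⟩
    omega
  | succ k ih =>
    intro S hS c d A hA hc hd hne
    obtain ⟨i, hi⟩ : S.Nonempty := by
      rw [← Finset.card_pos, hS]
      omega
    obtain ⟨μ, hμA, hμmax⟩ := Finset.exists_max_image A (fun m => m i) hne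
    set a := μ i with ha
    have had : a ≤ d := by
      rw [← hd μ hμA]
      exact Finset.single_le_sum (f := fun j => μ j) (fun _ _ => Nat.zero_le _) hi
    have hIH := ih (S.erase i) (by rw [Finset.card_erase_of_mem hi, hS]; rfl)
      (fun m => if m i = a then c m else 0) (d - a) (A.filter (fun m => m i = a))
      (by
        intro m
        rw [Finset.mem_filter, hA]
        constructor
        · rintro ⟨h1, h2⟩
          simp only [h2, if_true]
          exact h1
        · intro h
          simp only [ne_eq, ite_eq_right_iff, Classical.not_imp] at h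
          exact ⟨h.2, h.1⟩)
      (by
        intro m
        by_cases hm : m i = a
        · have h1 := hc m
          rw [← Finset.add_sum_erase _ _ hi] at h1
          have h2 : c (Finsupp.single i 1 + m) = 0 := by
            by_contra h3
            have h4 := hμmax _ ((hA _).2 h3)
            rw [Finsupp.add_apply, Finsupp.single_eq_same] at h4
            omega
          rw [h2, zero_add] at h1
          refine Eq.trans (Finset.sum_congr rfl fun j hj => ?_) h1
          have hji : j ≠ i := Finset.ne_of_mem_erase hj
          simp only [Finsupp.add_apply, single_apply_ne hji, zero_add, hm, if_true]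
        · refine Finset.sum_eq_zero fun j hj => ?_
          have hji : j ≠ i := Finset.ne_of_mem_erase hj
          simp only [Finsupp.add_apply, single_apply_ne hji, zero_add, hm, if_false])
      (by
        intro m hm
        rw [Finset.mem_filter] at hm
        have h1 := hd m hm.1
        rw [← Finset.add_sum_erase _ _ hi] at h1
        omega)
      ⟨μ, Finset.mem_filter.2 ⟨hμA, rfl⟩⟩
    have hlev : ∀ l, l ≤ a → ∃ m ∈ A, m i = a - l := by
      intro l
      induction l with
      | zero => exact fun _ => ⟨μ, hμA, rfl⟩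
      | succ l ihl =>
        intro hl
        obtain ⟨m, hm, hmi⟩ := ihl (by omega)
        have hmi0 : m i ≠ 0 := by omega
        have h1 := hc (m - Finsupp.single i 1)
        rw [← Finset.add_sum_erase _ _ hi, sub_add_single hmi0] at h1
        have h2 : ∑ j ∈ S.erase i, c (Finsupp.single j 1 + (m - Finsupp.single i 1)) ≠ 0 := by
          intro h3
          rw [h3, add_zero] at h1
          exact (hA m).1 hm h1
        obtain ⟨j, hj, hj2⟩ := Finset.exists_ne_zero_of_sum_ne_zero h2
        have hji : j ≠ i := Finset.ne_of_mem_erase hj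
        refine ⟨_, (hA _).2 hj2, ?_⟩
        rw [Finsupp.add_apply, single_apply_ne hji, zero_add, sub_single_apply_same]
        omega
    have h1 : Finset.range a ⊆ (A.filter (fun m => ¬ m i = a)).image (fun m => m i) := by
      intro l hl
      rw [Finset.mem_range] at hl
      rw [Finset.mem_image]
      obtain ⟨m, hm, hmi⟩ := hlev (a - l) (by omega)
      refine ⟨m, Finset.mem_filter.2 ⟨hm, by omega⟩, by omega⟩
    have h2 := (Finset.card_le_card h1).trans Finset.card_image_le
    rw [Finset.card_range] at h2
    have h3 := Finset.card_filter_add_card_filter_not (s := A) (fun m => m i = a)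
    omega

/-- Translation invariant functions on few monomials vanish. -/
lemma zero_of_few {c : (Fin n →₀ ℕ) → K} {d : ℕ} {P : Finset (Fin n →₀ ℕ)}
    (hP : ∀ m ∈ P, m.degree = d) (hc : ∀ m, c m ≠ 0 → m ∈ P)
    (hc0 : ∀ m, ∑ j, c (Finsupp.single j 1 + m) = 0) (hcard : P.card ≤ d) : ∀ m, c m = 0 := by
  classical
  by_contra hcon
  push Not at hcon
  obtain ⟨m₀, hm₀⟩ := hcon
  set A := P.filter (fun m => c m ≠ 0) with hA
  have hAm : ∀ m, m ∈ A ↔ c m ≠ 0 := by
    intro m
    rw [hA, Finset.mem_filter]
    exact ⟨fun h => h.2, fun h => ⟨hc m h, h⟩⟩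
  have h1 := terms n Finset.univ (by simp) c d A hAm hc0 (by
    intro m hm
    rw [← Finsupp.degree_eq_sum]
    exact hP m (hc m ((hAm m).1 hm))) ⟨m₀, (hAm m₀).2 hm₀⟩
  have h2 : A.card ≤ P.card := Finset.card_filter_le _ _
  omega

lemma surj_of_few {W : Finset (Fin n →₀ ℕ)} {i : ℕ} (h : (Pset W (i + 1)).card ≤ i + 1) :
    Function.Surjective (T1 K W i) :=
  surj_of fun _ hc hc0 => zero_of_few (fun _ hm => (mem_Pset.1 hm).2) hc hc0 h

end Pool.Agent.Helper720.Level
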