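import Pool.Agent.Helper720.LevelTwoB

set_option autoImplicit false

namespace Pool.Agent.Helper720.Level

variable {K : Type*} [Field K] {n : ℕ}

lemma edge_eq {x y : Fin n} (hxy : x ≠ y) (f : (Fin n →₀ ℕ) → K) :
    (∑ j, if (Finsupp.single x 1 + Finsupp.single y 1 : Fin n →₀ ℕ) j = 0 then 0 else
      f (Finsupp.single x 1 + Finsupp.single y 1 - Finsupp.single j 1)) =
    f (Finsupp.single y 1) + f (Finsupp.single x 1) := by
  rw [sum_two_vars hxy f]
  · rw [if_neg, if_neg, single_add_sub, add_comm (Finsupp.single x 1), single_add_sub]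
    · rw [Finsupp.add_apply, Finsupp.single_eq_same]
      omega
    · rw [Finsupp.add_apply, Finsupp.single_eq_same]
      omega
  · intro j hjx hjy
    rw [Finsupp.add_apply, single_apply_ne (Ne.symm hjx), single_apply_ne (Ne.symm hjy)]

lemma loop_eq (x : Fin n) (f : (Fin n →₀ ℕ) → K) :
    (∑ j, if (Finsupp.single x 1 + Finsupp.single x 1 : Fin n →₀ ℕ) j = 0 then 0 else
      f (Finsupp.single x 1 + Finsupp.single x 1 - Finsupp.single j 1)) =
    f (Finsupp.single x 1) := by
  rw [Finset.sum_eq_single x]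
  · rw [if_neg, single_add_sub]
    rw [Finsupp.add_apply, Finsupp.single_eq_same]
    omega
  · intro j _ hj
    rw [if_pos]
    rw [Finsupp.add_apply, single_apply_ne (Ne.symm hj)]
  · intro h
    exact absurd (Finset.mem_univ _) h

lemma pair_inj {a b c d : Fin n}
    (h : Finsupp.single a 1 + Finsupp.single b 1 =
      (Finsupp.single c 1 + Finsupp.single d 1 : Fin n →₀ ℕ)) :
    (a = c ∧ b = d) ∨ (a = d ∧ b = c) := by
  by_cases hac : a = c
  · left
    subst hac
    exact ⟨rfl, Finsupp.single_left_injective one_ne_zero (add_left_cancel h)⟩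
  · right
    by_cases had : a = d
    · subst had
      refine ⟨rfl, ?_⟩
      rw [add_comm (Finsupp.single c 1)] at h
      exact Finsupp.single_left_injective one_ne_zero (add_left_cancel h)
    · exfalso
      have h5 := DFunLike.congr_fun h a
      simp only [Finsupp.add_apply, Finsupp.single_eq_same, single_apply_ne (Ne.symm hac),
        single_apply_ne (Ne.symm had)] at h5
      omega

/-- three edges -/
lemma three_edges [CharZero K] {W : Finset (Fin n →₀ ℕ)} (hW : ∀ w ∈ W, w.degree = 2)
    (hcard : W.card = 3) :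
    Function.Injective (T1 K W 1) ∨ Function.Surjective (T1 K W 1) := by
  classical
  by_contra hcon
  push Not at hcon
  obtain ⟨hninj, hnsurj⟩ := hcon
  apply hnsurj
  apply surj_of
  intro c hc hc0
  rw [Pset_top hW] at hc
  by_contra hne
  push Not at hne
  obtain ⟨m₀, hm₀⟩ := hne
  apply hninj
  -- `c` does not vanish on `W`
  have hcW : ∀ w ∈ W, c w ≠ 0 := by
    set A := W.filter (fun m => c m ≠ 0) with hA
    have hAm : ∀ m, m ∈ A ↔ c m ≠ 0 := by
      intro m
      rw [hA, Finset.mem_filter]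
      exact ⟨fun h => h.2, fun h => ⟨hc m h, h⟩⟩
    have h1 := terms n Finset.univ (by simp) c 2 A hAm hc0 (by
      intro m hm
      rw [← Finsupp.degree_eq_sum]
      exact hW m (hc m ((hAm m).1 hm))) ⟨m₀, (hAm m₀).2 hm₀⟩
    have h2 : A = W := Finset.eq_of_subset_of_card_le (Finset.filter_subset _ _) (by omega)
    intro w hw
    rw [← h2] at hw
    exact (hAm w).1 hw
  have hother : ∀ p q, c (Finsupp.single q 1 + Finsupp.single p 1) ≠ 0 →
      ∃ r, r ≠ q ∧ c (Finsupp.single r 1 + Finsupp.single p 1) ≠ 0 := by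
    intro p q h
    have h1 := hc0 (Finsupp.single p 1)
    rw [← Finset.add_sum_erase _ _ (Finset.mem_univ q)] at h1
    have h2 : ∑ j ∈ Finset.univ.erase q, c (Finsupp.single j 1 + Finsupp.single p 1) ≠ 0 := by
      intro h3
      rw [h3, add_zero] at h1
      exact h h1
    obtain ⟨r, hr, hr2⟩ := Finset.exists_ne_zero_of_sum_ne_zero h2
    exact ⟨r, Finset.ne_of_mem_erase hr, hr2⟩
  apply inj_of
  intro f hf hker
  rw [Pset_top hW] at hker
  by_contra hne
  push Not at hne
  obtain ⟨m, hm⟩ := hne
  have hmP := hf m hm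
  obtain ⟨q, hq⟩ := exists_sub_of_mem_Pset hW hmP
  have hmd := (mem_Pset.1 hmP).2
  obtain ⟨p, hp⟩ : ∃ p, m = Finsupp.single p 1 := by
    obtain ⟨p, hp⟩ : ∃ p, m p ≠ 0 := by
      by_contra hcon
      push Not at hcon
      have : m = 0 := by
        ext k
        exact hcon k
      rw [this, map_zero] at hmd
      omega
    refine ⟨p, (eq_of_le_of_degree ?_ ?_).symm⟩
    · rw [Finsupp.single_le_iff]
      omega
    · rw [Finsupp.degree_single, hmd]
  subst hp
  have hloop : ∀ x, f (Finsupp.single x 1) ≠ 0 →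
      c (Finsupp.single x 1 + Finsupp.single x 1) = 0 := by
    intro x hx
    by_contra h
    have h1 := hker _ (hc _ h)
    rw [loop_eq] at h1
    exact hx h1
  have hedge : ∀ x y, x ≠ y → c (Finsupp.single x 1 + Finsupp.single y 1) ≠ 0 →
      f (Finsupp.single y 1) + f (Finsupp.single x 1) = 0 := by
    intro x y hxy h
    have h1 := hker _ (hc _ h)
    rwa [edge_eq hxy] at h1
  have hq' := hcW _ hq
  have hqp : q ≠ p := by
    rintro rfl
    exact hq' (hloop _ hm)
  obtain ⟨q₂, hq₂q, hq₂⟩ := hother p q hq'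
  have hq₂p : q₂ ≠ p := by
    rintro rfl
    exact hq₂ (hloop _ hm)
  have e1 := hedge q p hqp hq'
  have e2 := hedge q₂ p hq₂p hq₂
  have hfq : f (Finsupp.single q 1) ≠ 0 := by
    intro h
    rw [h, add_zero] at e1
    exact hm e1
  have hfq₂ : f (Finsupp.single q₂ 1) ≠ 0 := by
    intro h
    rw [h, add_zero] at e2
    exact hm e2
  have hq'' : c (Finsupp.single p 1 + Finsupp.single q 1) ≠ 0 := by
    rw [add_comm]
    exact hq'
  have hq₂'' : c (Finsupp.single p 1 + Finsupp.single q₂ 1) ≠ 0 := by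
    rw [add_comm]
    exact hq₂
  obtain ⟨r, hrp, hr⟩ := hother q p hq''
  obtain ⟨s, hsp, hs⟩ := hother q₂ p hq₂''
  have hrq : r ≠ q := by
    rintro rfl
    exact hr (hloop _ hfq)
  have hsq₂ : s ≠ q₂ := by
    rintro rfl
    exact hs (hloop _ hfq₂)
  -- the four edges are not all distinct
  set w₁ := Finsupp.single q 1 + Finsupp.single p 1 with hw₁
  set w₂ := Finsupp.single q₂ 1 + Finsupp.single p 1 with hw₂
  set w₃ := Finsupp.single r 1 + Finsupp.single q 1 with hw₃
  set w₄ := Finsupp.single s 1 + Finsupp.single q₂ 1 with hw₄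
  have h12 : w₁ ≠ w₂ := by
    intro h
    rcases pair_inj h with ⟨h1, _⟩ | ⟨h1, _⟩
    · exact hq₂q h1.symm
    · exact hqp h1
  have h13 : w₁ ≠ w₃ := by
    intro h
    rcases pair_inj h with ⟨h1, _⟩ | ⟨_, h1⟩
    · exact hrq h1.symm
    · exact hrp h1.symm
  have h14 : w₁ ≠ w₄ := by
    intro h
    rcases pair_inj h with ⟨_, h1⟩ | ⟨h1, _⟩
    · exact hq₂p h1.symm
    · exact hq₂q h1.symm
  have h23 : w₂ ≠ w₃ := by
    intro h
    rcases pair_inj h with ⟨_, h1⟩ | ⟨h1, _⟩
    · exact hqp h1.symm
    · exact hq₂q h1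
  have h24 : w₂ ≠ w₄ := by
    intro h
    rcases pair_inj h with ⟨h1, _⟩ | ⟨_, h1⟩
    · exact hsq₂ h1.symm
    · exact hsp h1.symm
  have h34 : w₃ = w₄ := by
    by_contra h34
    have hsub : ({w₁, w₂, w₃, w₄} : Finset (Fin n →₀ ℕ)) ⊆ W := by
      intro x hx
      simp only [Finset.mem_insert, Finset.mem_singleton] at hx
      rcases hx with rfl | rfl | rfl | rfl
      · exact hc _ hq'
      · exact hc _ hq₂
      · exact hc _ hr
      · exact hc _ hs
    have h5 := Finset.card_le_card hsub
    rw [Finset.card_insert_of_notMem (by simp [h12, h13, h14]),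
      Finset.card_insert_of_notMem (by simp [h23, h24]),
      Finset.card_insert_of_notMem (by simp [h34]), Finset.card_singleton, hcard] at h5
    omega
  have hrq₂ : r = q₂ := by
    rcases pair_inj h34 with ⟨_, h1⟩ | ⟨h1, _⟩
    · exact absurd h1.symm hq₂q
    · exact h1
  rw [hw₃, hrq₂] at hr
  have e3 := hedge q₂ q hq₂q hr
  have h2 : (2 : K) * f (Finsupp.single p 1) = 0 := by
    linear_combination e1 + e2 - e3
  exact hm ((mul_eq_zero.1 h2).resolve_left two_ne_zero)

/-- Type three, socle degree at most three: maximal rank in every degree. -/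
lemma three_wlp [CharZero K] {W : Finset (Fin n →₀ ℕ)} {e : ℕ} (he : e ≤ 3)
    (hW : ∀ w ∈ W, w.degree = e) (hcard : W.card = 3) (i : ℕ) :
    Function.Injective (T1 K W i) ∨ Function.Surjective (T1 K W i) := by
  rcases Nat.lt_or_ge i e with hlt | hge
  · rcases Nat.lt_or_ge (2 * i) e with h1 | h1
    · exact Or.inl (inj_first_half hW (by omega))
    · by_cases h2 : e = 2
      · subst h2
        have : i = 1 := by omega
        subst this
        exact three_edges hW hcard
      · right
        apply surj_of_few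
        have h3 : i + 1 = e := by omega
        rw [h3, Pset_top hW, hcard]
        omega
  · exact Or.inr (surj_of_ge hW hge)

end Pool.Agent.Helper720.Level
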