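import Pool.Agent.Helper720.LevelDual

set_option autoImplicit false

namespace Pool.Agent.Helper720.Level

variable {K : Type*} [Field K] {k n : ℕ}

open Finsupp in
lemma degree_embDomain (ι : Fin k ↪ Fin n) (m : Fin k →₀ ℕ) :
    (Finsupp.embDomain ι m).degree = m.degree := by
  rw [Finsupp.embDomain_eq_mapDomain, Finsupp.degree_mapDomain]

lemma mem_Pset_emb (ι : Fin k ↪ Fin n) {W : Finset (Fin k →₀ ℕ)} {W' : Finset (Fin n →₀ ℕ)}
    (hW' : ∀ w', w' ∈ W' ↔ ∃ w ∈ W, Finsupp.embDomain ι w = w') {i : ℕ} {m' : Fin n →₀ ℕ} :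
    m' ∈ Pset W' i ↔ ∃ m ∈ Pset W i, Finsupp.embDomain ι m = m' := by
  constructor
  · intro h
    obtain ⟨⟨w', hw', hle⟩, hd⟩ := mem_Pset.1 h
    obtain ⟨w, hw, rfl⟩ := (hW' w').1 hw'
    obtain ⟨m, rfl⟩ := Finsupp.isLowerSet_range_embDomain ι hle ⟨w, rfl⟩
    refine ⟨m, mem_Pset.2 ⟨⟨w, hw, ?_⟩, ?_⟩, rfl⟩
    · exact (Finsupp.embDomain_le_embDomain_iff_le _ _ _).1 hle
    · rwa [degree_embDomain] at hd
  · rintro ⟨m, hm, rfl⟩
    obtain ⟨⟨w, hw, hle⟩, hd⟩ := mem_Pset.1 hm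
    refine mem_Pset.2 ⟨⟨_, (hW' _).2 ⟨w, hw, rfl⟩, ?_⟩, ?_⟩
    · exact (Finsupp.embDomain_le_embDomain_iff_le _ _ _).2 hle
    · rw [degree_embDomain, hd]

/-- extension of a function along the embedding -/
noncomputable def extE (ι : Fin k ↪ Fin n) (f : (Fin k →₀ ℕ) → K) : (Fin n →₀ ℕ) → K :=
  Function.extend (Finsupp.embDomain ι) f 0

lemma extE_apply (ι : Fin k ↪ Fin n) (f : (Fin k →₀ ℕ) → K) (m : Fin k →₀ ℕ) :
    extE ι f (Finsupp.embDomain ι m) = f m :=
  (Finsupp.embDomain_injective ι).extend_apply _ _ _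

lemma extE_ne (ι : Fin k ↪ Fin n) (f : (Fin k →₀ ℕ) → K) {m' : Fin n →₀ ℕ}
    (h : extE ι f m' ≠ 0) : ∃ m, f m ≠ 0 ∧ Finsupp.embDomain ι m = m' := by
  by_cases hm : ∃ m, Finsupp.embDomain ι m = m'
  · obtain ⟨m, rfl⟩ := hm
    rw [extE_apply] at h
    exact ⟨m, h, rfl⟩
  · exfalso
    apply h
    unfold extE
    rw [Function.extend_apply' _ _ _ hm]
    rfl

lemma transfer_inj (ι : Fin k ↪ Fin n) {W : Finset (Fin k →₀ ℕ)} {W' : Finset (Fin n →₀ ℕ)}
    (hW' : ∀ w', w' ∈ W' ↔ ∃ w ∈ W, Finsupp.embDomain ι w = w') {i : ℕ}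
    (h : ¬ Function.Injective (T1 K W i)) : ¬ Function.Injective (T1 K W' i) := by
  classical
  intro hinj
  apply h
  apply inj_of
  intro f hf hker m₀
  by_contra hm₀
  refine not_inj_of (extE ι f) ?_ ?_ (m₀ := Finsupp.embDomain ι m₀) ?_ hinj
  · intro m' hm'
    obtain ⟨m, hm, rfl⟩ := extE_ne ι f hm'
    exact (mem_Pset_emb ι hW').2 ⟨m, hf m hm, rfl⟩
  · intro m' hm'
    obtain ⟨m, hm, rfl⟩ := (mem_Pset_emb ι hW').1 hm'
    refine Eq.trans ?_ (hker m hm)
    rw [← Finset.sum_subset (Finset.subset_univ (Finset.univ.map ι))]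
    · rw [Finset.sum_map]
      refine Finset.sum_congr rfl fun j _ => ?_
      rw [Finsupp.embDomain_apply_self, ← Finsupp.embDomain_single, ← Finsupp.embDomain_tsub,
        extE_apply]
    · intro j _ hj
      rw [if_pos]
      apply Finsupp.embDomain_of_notMem_range
      rintro ⟨l, rfl⟩
      exact hj (Finset.mem_map_of_mem _ (Finset.mem_univ _))
  · rw [extE_apply]
    exact hm₀

lemma transfer_surj (ι : Fin k ↪ Fin n) {W : Finset (Fin k →₀ ℕ)} {W' : Finset (Fin n →₀ ℕ)}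
    (hW' : ∀ w', w' ∈ W' ↔ ∃ w ∈ W, Finsupp.embDomain ι w = w') {i : ℕ}
    (h : ¬ Function.Surjective (T1 K W i)) : ¬ Function.Surjective (T1 K W' i) := by
  classical
  intro hsurj
  apply h
  apply surj_of
  intro c hc hc0 m₀
  by_contra hm₀
  refine not_surj_of (extE ι c) ?_ ?_ (m₀ := Finsupp.embDomain ι m₀) ?_ hsurj
  · intro m' hm'
    obtain ⟨m, hm, rfl⟩ := extE_ne ι c hm'
    exact (mem_Pset_emb ι hW').2 ⟨m, hc m hm, rfl⟩
  · intro m' hm'
    obtain ⟨m, hm, rfl⟩ := (mem_Pset_emb ι hW').1 hm'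
    refine Eq.trans ?_ (hc0 m)
    rw [← Finset.sum_subset (Finset.subset_univ (Finset.univ.map ι))]
    · rw [Finset.sum_map]
      refine Finset.sum_congr rfl fun j _ => ?_
      rw [← Finsupp.embDomain_single, ← Finsupp.embDomain_add, extE_apply]
    · intro j _ hj
      by_contra hne
      obtain ⟨m₁, _, hm₁⟩ := extE_ne ι c hne
      have h1 := DFunLike.congr_fun hm₁ j
      rw [Finsupp.embDomain_of_notMem_range ι m₁ j (by
        rintro ⟨l, rfl⟩
        exact hj (Finset.mem_map_of_mem _ (Finset.mem_univ _))), Finsupp.add_apply,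
        Finsupp.single_eq_same] at h1
      omega
  · rw [extE_apply]
    exact hm₀

/-- A failure in `k` variables gives a failure in `n ≥ k` variables. -/
theorem transfer (hkn : k ≤ n) {W : Finset (Fin k →₀ ℕ)} {e i : ℕ} (hW : ∀ w ∈ W, w.degree = e)
    (h1 : ¬ Function.Injective (T1 K W i)) (h2 : ¬ Function.Surjective (T1 K W i)) :
    ∃ W' : Finset (Fin n →₀ ℕ), W'.card = W.card ∧ (∀ w ∈ W', w.degree = e) ∧
      ¬ Function.Injective (T1 K W' i) ∧ ¬ Function.Surjective (T1 K W' i) := by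
  classical
  set ι : Fin k ↪ Fin n := (Fin.castLEEmb hkn) with hι
  have hW' : ∀ w', w' ∈ W.image (Finsupp.embDomain ι) ↔
      ∃ w ∈ W, Finsupp.embDomain ι w = w' := by
    intro w'
    rw [Finset.mem_image]
  refine ⟨W.image (Finsupp.embDomain ι),
    Finset.card_image_of_injective _ (Finsupp.embDomain_injective ι), ?_,
    transfer_inj ι hW' h1, transfer_surj ι hW' h2⟩
  intro w' hw'
  obtain ⟨w, hw, rfl⟩ := (hW' w').1 hw'
  rw [degree_embDomain, hW w hw]

/-- the monomial with exponent vector `v` -/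
noncomputable def vm (v : Fin k → ℕ) : Fin k →₀ ℕ := Finsupp.equivFunOnFinite.symm v

lemma vm_apply (v : Fin k → ℕ) (j : Fin k) : vm v j = v j := rfl

lemma vm_surj (m : Fin k →₀ ℕ) : vm (fun j => m j) = m := by
  ext j
  rfl

lemma vm_inj : Function.Injective (vm (k := k)) := Finsupp.equivFunOnFinite.symm.injective

/-- membership test -/
def PV (W : List (Fin k → ℕ)) (i : ℕ) (v : Fin k → ℕ) : Bool :=
  decide (∑ j, v j = i) && W.any (fun w => decide (∀ j, v j ≤ w j))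

lemma mem_PV {W : List (Fin k → ℕ)} {i : ℕ} {v : Fin k → ℕ} :
    vm v ∈ Pset ((W.map vm).toFinset) i ↔ PV W i v = true := by
  rw [mem_Pset]
  unfold PV
  rw [Bool.and_eq_true, decide_eq_true_eq, List.any_eq_true, Finsupp.degree_eq_sum]
  simp only [vm_apply, List.mem_toFinset, List.mem_map, decide_eq_true_eq]
  constructor
  · rintro ⟨⟨w, ⟨w', hw', rfl⟩, hle⟩, hd⟩
    exact ⟨hd, w', hw', fun j => hle j⟩
  · rintro ⟨hd, w', hw', hle⟩
    exact ⟨⟨vm w', ⟨w', hw', rfl⟩, fun j => hle j⟩, hd⟩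

/-- value of an association list -/
def val (A : List ((Fin k → ℕ) × ℤ)) (v : Fin k → ℕ) : ℤ :=
  ((A.find? (fun a => decide (a.1 = v))).map Prod.snd).getD 0

lemma val_ne {A : List ((Fin k → ℕ) × ℤ)} {v : Fin k → ℕ} (h : val A v ≠ 0) :
    ∃ a ∈ A, a.1 = v := by
  unfold val at h
  cases hf : A.find? (fun a => decide (a.1 = v)) with
  | none =>
    rw [hf] at h
    exact absurd rfl h
  | some a =>
    have h1 := List.find?_some hf
    rw [decide_eq_true_eq] at h1
    exact ⟨a, List.mem_of_find?_eq_some hf, h1⟩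

lemma exists_lt_of_PV {W : List (Fin k → ℕ)} {i B : ℕ} (hB : ∀ w ∈ W, ∀ j, w j < B)
    {v : Fin k → ℕ} (h : PV W i v = true) : ∃ u : Fin k → Fin B, v = fun j => (u j : ℕ) := by
  unfold PV at h
  rw [Bool.and_eq_true, List.any_eq_true] at h
  obtain ⟨_, w, hw, hle⟩ := h
  rw [decide_eq_true_eq] at hle
  exact ⟨fun j => ⟨v j, lt_of_le_of_lt (hle j) (hB w hw j)⟩, rfl⟩

lemma not_inj_check [CharZero K] (W : List (Fin k → ℕ)) (B i : ℕ)
    (A : List ((Fin k → ℕ) × ℤ)) (v₀ : Fin k → ℕ)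
    (hB : ∀ w ∈ W, ∀ j, w j < B) (hA : ∀ a ∈ A, PV W i a.1 = true)
    (h : ∀ u : Fin k → Fin B, PV W (i + 1) (fun j => (u j : ℕ)) = true →
      ∑ j, (if (u j : ℕ) = 0 then 0 else
        val A (fun l => if l = j then (u l : ℕ) - 1 else (u l : ℕ))) = 0)
    (hv₀ : val A v₀ ≠ 0) : ¬ Function.Injective (T1 K ((W.map vm).toFinset) i) := by
  apply not_inj_of (fun m => ((val A (fun j => m j) : ℤ) : K)) (m₀ := vm v₀)
  · intro m hm
    rw [← vm_surj m]
    rw [mem_PV]
    obtain ⟨a, ha, hav⟩ := val_ne (A := A) (v := fun j => m j) (by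
      intro h0
      apply hm
      simp only [h0, Int.cast_zero])
    rw [← hav]
    exact hA a ha
  · intro m hm
    rw [← vm_surj m, mem_PV] at hm
    obtain ⟨u, hu⟩ := exists_lt_of_PV hB hm
    have h1 := h u (by rw [← hu]; exact hm)
    have hu' : ∀ j, m j = (u j : ℕ) := fun j => congrFun hu j
    refine Eq.trans ?_ ((congrArg (Int.cast (R := K)) h1).trans Int.cast_zero)
    rw [Int.cast_sum]
    refine Finset.sum_congr rfl fun j _ => ?_
    rw [hu' j]
    split_ifs with hj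
    · simp
    · congr 2
      ext l
      rw [Finsupp.tsub_apply, hu' l]
      by_cases hl : l = j
      · subst hl
        simp
      · rw [if_neg hl, Finsupp.single_apply, if_neg (fun h' => hl h'.symm)]
        simp
  · simp only [vm_apply]
    exact_mod_cast hv₀

lemma not_surj_check [CharZero K] (W : List (Fin k → ℕ)) (B i : ℕ)
    (A : List ((Fin k → ℕ) × ℤ)) (v₀ : Fin k → ℕ)
    (hB : ∀ w ∈ W, ∀ j, w j < B) (hA : ∀ a ∈ A, PV W (i + 1) a.1 = true)
    (h : ∀ u : Fin k → Fin B, PV W i (fun j => (u j : ℕ)) = true →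
      ∑ j, val A (fun l => if l = j then (u l : ℕ) + 1 else (u l : ℕ)) = 0)
    (hv₀ : val A v₀ ≠ 0) : ¬ Function.Surjective (T1 K ((W.map vm).toFinset) i) := by
  apply not_surj_of (fun m => ((val A (fun j => m j) : ℤ) : K)) (m₀ := vm v₀)
  · intro m hm
    rw [← vm_surj m]
    rw [mem_PV]
    obtain ⟨a, ha, hav⟩ := val_ne (A := A) (v := fun j => m j) (by
      intro h0
      apply hm
      simp only [h0, Int.cast_zero])
    rw [← hav]
    exact hA a ha
  · intro m hm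
    rw [← vm_surj m, mem_PV] at hm
    obtain ⟨u, hu⟩ := exists_lt_of_PV hB hm
    have h1 := h u (by rw [← hu]; exact hm)
    have hu' : ∀ j, m j = (u j : ℕ) := fun j => congrFun hu j
    refine Eq.trans ?_ ((congrArg (Int.cast (R := K)) h1).trans Int.cast_zero)
    rw [Int.cast_sum]
    refine Finset.sum_congr rfl fun j _ => ?_
    congr 2
    ext l
    rw [Finsupp.add_apply, hu' l]
    by_cases hl : l = j
    · subst hl
      simp [add_comm]
    · rw [if_neg hl, Finsupp.single_apply, if_neg (fun h' => hl h'.symm)]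
      simp
  · simp only [vm_apply]
    exact_mod_cast hv₀

lemma W_card {W : List (Fin k → ℕ)} (h : W.Nodup) :
    ((W.map vm).toFinset).card = W.length := by
  rw [List.toFinset_card_of_nodup (h.map vm_inj), List.length_map]

lemma W_degree {W : List (Fin k → ℕ)} {e : ℕ} (h : ∀ w ∈ W, ∑ j, w j = e) :
    ∀ w ∈ (W.map vm).toFinset, w.degree = e := by
  intro w hw
  rw [List.mem_toFinset, List.mem_map] at hw
  obtain ⟨v, hv, rfl⟩ := hw
  rw [Finsupp.degree_eq_sum]
  exact h v hv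

end Pool.Agent.Helper720.Level
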