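import Pool.Agent.Helper720.LevelTerms

set_option autoImplicit false

namespace Pool.Agent.Helper720.Level

variable {K : Type*} [Field K] {n : ℕ}

lemma single_add_le_iff {m a : Fin n →₀ ℕ} {v w j : Fin n}
    (h : Finsupp.single v 1 + (Finsupp.single w 1 + m) = a) (hj : Finsupp.single j 1 + m ≤ a) :
    j = v ∨ j = w := by
  by_contra hcon
  push Not at hcon
  have h1 := hj j
  rw [← h] at h1
  simp only [Finsupp.add_apply, Finsupp.single_eq_same, single_apply_ne (Ne.symm hcon.1),
    single_apply_ne (Ne.symm hcon.2)] at h1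
  omega

lemma pair_eq {c : (Fin n →₀ ℕ) → K} (hc0 : ∀ m, ∑ j, c (Finsupp.single j 1 + m) = 0)
    {m a : Fin n →₀ ℕ} {v w : Fin n} (hvw : v ≠ w)
    (h : Finsupp.single v 1 + (Finsupp.single w 1 + m) = a)
    (hs : ∀ j, c (Finsupp.single j 1 + m) ≠ 0 → Finsupp.single j 1 + m ≤ a) :
    c (Finsupp.single v 1 + m) + c (Finsupp.single w 1 + m) = 0 := by
  rw [← hc0 m, ← Finset.sum_pair hvw (f := fun j => c (Finsupp.single j 1 + m))]
  apply Finset.sum_subset (Finset.subset_univ _)
  intro j _ hj
  by_contra hne
  rcases single_add_le_iff h (hs j hne) with rfl | rfl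
  · exact hj (Finset.mem_insert_self _ _)
  · exact hj (Finset.mem_insert_of_mem (Finset.mem_singleton_self _))

lemma pair_eq_same {c : (Fin n →₀ ℕ) → K} (hc0 : ∀ m, ∑ j, c (Finsupp.single j 1 + m) = 0)
    {m a : Fin n →₀ ℕ} {v : Fin n}
    (h : Finsupp.single v 1 + (Finsupp.single v 1 + m) = a)
    (hs : ∀ j, c (Finsupp.single j 1 + m) ≠ 0 → Finsupp.single j 1 + m ≤ a) :
    c (Finsupp.single v 1 + m) = 0 := by
  rw [← hc0 m]
  symm
  apply Finset.sum_eq_single v
  · intro j _ hj
    by_contra hne
    rcases single_add_le_iff h (hs j hne) with rfl | rfl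
    · exact hj rfl
    · exact hj rfl
  · intro h'
    exact absurd (Finset.mem_univ _) h'

/-- Level propagation. -/
lemma level_prop {c : (Fin n →₀ ℕ) → K} (hc0 : ∀ m, ∑ j, c (Finsupp.single j 1 + m) = 0)
    {u : Fin n} {k : ℕ} (hk : ∀ m : Fin n →₀ ℕ, m u = k → c m = 0) :
    ∀ l, k ≤ l → ∀ m : Fin n →₀ ℕ, m u = l → c m = 0 := by
  intro l hl
  induction l, hl using Nat.le_induction with
  | base => exact hk
  | succ l hl ih =>
    intro m hm
    have h1 := hc0 (m - Finsupp.single u 1)
    rw [← Finset.add_sum_erase _ _ (Finset.mem_univ u), sub_add_single (by omega),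
      Finset.sum_eq_zero, add_zero] at h1
    · exact h1
    · intro j hj
      have hju : j ≠ u := Finset.ne_of_mem_erase hj
      apply ih
      rw [Finsupp.add_apply, single_apply_ne hju, zero_add, sub_single_apply_same]
      omega

lemma exists_add_eq {m a : Fin n →₀ ℕ} (h : m ≤ a) (hd : m.degree + 1 = a.degree) :
    ∃ j, Finsupp.single j 1 + m = a := by
  have hne : m ≠ a := by
    rintro rfl
    omega
  obtain ⟨j, hj⟩ := exists_single_add_le h hne
  refine ⟨j, eq_of_le_of_degree hj ?_⟩
  rw [map_add, Finsupp.degree_single]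
  omega

/-- The dual statement for a single monomial. -/
lemma ci_dual {c : (Fin n →₀ ℕ) → K} [CharZero K]
    (hc0 : ∀ m, ∑ j, c (Finsupp.single j 1 + m) = 0) {b : Fin n →₀ ℕ} (hb : 3 ≤ b.degree)
    (hs : ∀ m, c m ≠ 0 → m.degree + 1 = b.degree ∧ m ≤ b) : ∀ m, c m = 0 := by
  classical
  rcases Nat.lt_or_ge b.support.card b.degree with hlt | hge
  · apply zero_of_few (d := b.degree - 1)
      (P := b.support.image (fun j => b - Finsupp.single j 1)) _ _ hc0
    · refine Finset.card_image_le.trans ?_
      omega
    · intro m hm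
      rw [Finset.mem_image] at hm
      obtain ⟨j, hj, rfl⟩ := hm
      have := degree_sub_single (Finsupp.mem_support_iff.1 hj)
      omega
    · intro m hm
      obtain ⟨hd, hle⟩ := hs m hm
      obtain ⟨j, hj⟩ := exists_add_eq hle hd
      rw [Finset.mem_image]
      refine ⟨j, ?_, ?_⟩
      · rw [Finsupp.mem_support_iff, ← hj, Finsupp.add_apply, Finsupp.single_eq_same]
        omega
      · rw [← hj, single_add_sub]
  · intro m
    by_contra hm
    obtain ⟨hd, hle⟩ := hs m hm
    obtain ⟨v, hv⟩ := exists_add_eq hle hd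
    have hcard : 3 ≤ b.support.card := by omega
    have hvb : v ∈ b.support := by
      rw [Finsupp.mem_support_iff, ← hv, Finsupp.add_apply, Finsupp.single_eq_same]
      omega
    have h1 : 1 < (b.support.erase v).card := by
      rw [Finset.card_erase_of_mem hvb]
      omega
    obtain ⟨w, hw, x, hx, hwx⟩ := Finset.one_lt_card.1 h1
    have hwv : w ≠ v := Finset.ne_of_mem_erase hw
    have hxv : x ≠ v := Finset.ne_of_mem_erase hx
    have hwb := Finsupp.mem_support_iff.1 (Finset.mem_of_mem_erase hw)
    have hxb := Finsupp.mem_support_iff.1 (Finset.mem_of_mem_erase hx)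
    have hvb' := Finsupp.mem_support_iff.1 hvb
    set r := b - Finsupp.single v 1 - Finsupp.single w 1 - Finsupp.single x 1 with hr
    have hb3 : b = Finsupp.single v 1 + (Finsupp.single w 1 + (Finsupp.single x 1 + r)) := by
      rw [hr, sub_add_single, sub_add_single, sub_add_single hvb']
      · rw [sub_single_apply_ne (Ne.symm hwv)]
        exact hwb
      · rw [sub_single_apply_ne hwx, sub_single_apply_ne (Ne.symm hxv)]
        exact hxb
    have hsb : ∀ (m' : Fin n →₀ ℕ) (j : Fin n), c (Finsupp.single j 1 + m') ≠ 0 →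
        Finsupp.single j 1 + m' ≤ b := fun m' j h => (hs _ h).2
    have e1 := pair_eq hc0 (m := Finsupp.single x 1 + r) (a := b) (v := v) (w := w)
      (Ne.symm hwv) hb3.symm (hsb _)
    have e2 := pair_eq hc0 (m := Finsupp.single w 1 + r) (a := b) (v := v) (w := x)
      (Ne.symm hxv) (by rw [hb3]; congr 1; exact add_left_comm _ _ _) (hsb _)
    have e3 := pair_eq hc0 (m := Finsupp.single v 1 + r) (a := b) (v := w) (w := x)
      hwx (by rw [hb3]; abel) (hsb _)
    have hmv : m = Finsupp.single w 1 + (Finsupp.single x 1 + r) := by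
      apply add_left_cancel (a := Finsupp.single v 1)
      rw [hv, ← hb3]
    have t1 : Finsupp.single x 1 + (Finsupp.single w 1 + r) = m := by
      rw [hmv, add_left_comm]
    have t2 : Finsupp.single v 1 + (Finsupp.single w 1 + r) =
        Finsupp.single w 1 + (Finsupp.single v 1 + r) := add_left_comm _ _ _
    have t3 : Finsupp.single v 1 + (Finsupp.single x 1 + r) =
        Finsupp.single x 1 + (Finsupp.single v 1 + r) := add_left_comm _ _ _
    rw [← hmv] at e1
    rw [t1, t2] at e2
    rw [t3] at e1
    have h2 : (2 : K) * c m = 0 := by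
      linear_combination e1 + e2 - e3
    rcases mul_eq_zero.1 h2 with h3 | h3
    · exact two_ne_zero h3
    · exact hm h3

/-- If `a u ≥ 2` and `b u = 0`, translation invariant functions below `a` and `b` vanish. -/
lemma two_case_zero {c : (Fin n →₀ ℕ) → K} [CharZero K]
    (hc0 : ∀ m, ∑ j, c (Finsupp.single j 1 + m) = 0) {a b : Fin n →₀ ℕ} {e : ℕ} (he : 4 ≤ e)
    (ha : a.degree = e) (hb : b.degree = e) {u : Fin n} (hau : 2 ≤ a u) (hbu : b u = 0)
    (hs : ∀ m, c m ≠ 0 → m.degree + 1 = e ∧ (m ≤ a ∨ m ≤ b)) : ∀ m, c m = 0 := by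
  have hsa : ∀ (m : Fin n →₀ ℕ), m u ≠ 0 → ∀ j, c (Finsupp.single j 1 + m) ≠ 0 →
      Finsupp.single j 1 + m ≤ a := by
    intro m hm j hne
    rcases (hs _ hne).2 with h | h
    · exact h
    · exfalso
      have := h u
      rw [hbu, Finsupp.add_apply] at this
      omega
  -- the value at `a - e_u`
  have hu : c (a - Finsupp.single u 1) = 0 := by
    rcases Nat.lt_or_ge (a u) 3 with hlt | hge
    · have hau2 : a u = 2 := by omega
      -- choose `v`, `w`
      set a' := a - Finsupp.single u 2 with ha'
      have hsum : Finsupp.single u 2 + a' = a := by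
        rw [add_comm]
        apply tsub_add_cancel_of_le
        rw [Finsupp.single_le_iff]
        exact hau
      have ha'u : a' u = 0 := by
        rw [ha', sub_single_apply_same]
        omega
      have ha'd : a'.degree + 2 = e := by
        rw [← ha, ← hsum, map_add, Finsupp.degree_single]
        omega
      obtain ⟨v, hv⟩ : ∃ v, a' v ≠ 0 := by
        by_contra hcon
        push Not at hcon
        have : a' = 0 := by
          ext k
          exact hcon k
        rw [this, map_zero] at ha'd
        omega
      have hvu : v ≠ u := by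
        rintro rfl
        exact hv ha'u
      set a'' := a' - Finsupp.single v 1 with ha''
      have ha''s : Finsupp.single v 1 + a'' = a' := sub_add_single hv
      have ha''d : a''.degree + 1 = a'.degree := by
        rw [← ha''s, map_add, Finsupp.degree_single, add_comm]
      obtain ⟨w, hw⟩ : ∃ w, a'' w ≠ 0 := by
        by_contra hcon
        push Not at hcon
        have : a'' = 0 := by
          ext k
          exact hcon k
        rw [this, map_zero] at ha''d
        omega
      have ha''u : a'' u = 0 := by
        rw [ha'', sub_single_apply_ne hvu]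
        exact ha'u
      have hwu : w ≠ u := by
        rintro rfl
        exact hw ha''u
      set r := a'' - Finsupp.single w 1 with hr
      have hrs : Finsupp.single w 1 + r = a'' := sub_add_single hw
      have haa : a = Finsupp.single u 1 + (Finsupp.single u 1 + (Finsupp.single v 1 +
          (Finsupp.single w 1 + r))) := by
        rw [hrs, ha''s, ← add_assoc, ← Finsupp.single_add]
        exact hsum.symm
      have e1 := pair_eq hc0 (m := Finsupp.single u 1 + (Finsupp.single w 1 + r)) (a := a)
        (v := u) (w := v) (Ne.symm hvu) (by rw [haa]; abel)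
        (hsa _ (by simp only [Finsupp.add_apply, Finsupp.single_eq_same]; omega))
      have e2 := pair_eq hc0 (m := Finsupp.single u 1 + (Finsupp.single v 1 + r)) (a := a)
        (v := u) (w := w) (Ne.symm hwu) (by rw [haa]; abel)
        (hsa _ (by simp only [Finsupp.add_apply, Finsupp.single_eq_same]; omega))
      have hau' : a - Finsupp.single u 1 = Finsupp.single u 1 + (Finsupp.single v 1 +
          (Finsupp.single w 1 + r)) := by
        conv_lhs => rw [haa]
        rw [single_add_sub]
      have t1 : Finsupp.single v 1 + (Finsupp.single u 1 + (Finsupp.single w 1 + r)) =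
          a - Finsupp.single u 1 := by
        rw [hau']
        abel
      have t2 : Finsupp.single w 1 + (Finsupp.single u 1 + (Finsupp.single v 1 + r)) =
          a - Finsupp.single u 1 := by
        rw [hau']
        abel
      rw [t1] at e1
      rw [t2] at e2
      by_cases hvw : v = w
      · have e3 := pair_eq_same hc0 (m := Finsupp.single u 1 + (Finsupp.single u 1 + r)) (a := a)
          (v := v) (by rw [haa, ← hvw]; abel)
          (hsa _ (by simp only [Finsupp.add_apply, Finsupp.single_eq_same]; omega))
        have t3 : Finsupp.single u 1 + (Finsupp.single u 1 + (Finsupp.single w 1 + r)) =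
            Finsupp.single v 1 + (Finsupp.single u 1 + (Finsupp.single u 1 + r)) := by
          rw [hvw]
          abel
        rw [t3, e3, zero_add] at e1
        exact e1
      · have e3 := pair_eq hc0 (m := Finsupp.single u 1 + (Finsupp.single u 1 + r)) (a := a)
          (v := v) (w := w) hvw (by rw [haa]; abel)
          (hsa _ (by simp only [Finsupp.add_apply, Finsupp.single_eq_same]; omega))
        have t3 : Finsupp.single u 1 + (Finsupp.single u 1 + (Finsupp.single w 1 + r)) =
            Finsupp.single w 1 + (Finsupp.single u 1 + (Finsupp.single u 1 + r)) := by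
          abel
        have t4 : Finsupp.single u 1 + (Finsupp.single u 1 + (Finsupp.single v 1 + r)) =
            Finsupp.single v 1 + (Finsupp.single u 1 + (Finsupp.single u 1 + r)) := by
          abel
        rw [t3] at e1
        rw [t4] at e2
        have h2 : (2 : K) * c (a - Finsupp.single u 1) = 0 := by
          linear_combination e1 + e2 - e3
        exact (mul_eq_zero.1 h2).resolve_left two_ne_zero
    · set r := a - Finsupp.single u 2 with hr
      have hsum : Finsupp.single u 2 + r = a := by
        rw [add_comm]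
        apply tsub_add_cancel_of_le
        rw [Finsupp.single_le_iff]
        exact hau
      have haa : Finsupp.single u 1 + (Finsupp.single u 1 + r) = a := by
        rw [← add_assoc, ← Finsupp.single_add]
        exact hsum
      have e3 := pair_eq_same hc0 (m := r) (a := a) (v := u) haa
          (hsa _ (by rw [hr, sub_single_apply_same]; omega))
      have : a - Finsupp.single u 1 = Finsupp.single u 1 + r := by
        rw [← haa, single_add_sub]
      rw [this]
      exact e3
  -- all values below `a` vanish
  have hall : ∀ m, m ≤ a → c m = 0 := by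
    intro m hm
    by_contra hne
    obtain ⟨j, hj⟩ := exists_add_eq hm (by rw [ha]; exact (hs m hne).1)
    by_cases hju : j = u
    · subst hju
      apply hne
      rw [← hj, single_add_sub] at hu
      exact hu
    · have hmu : m u = a u := by
        rw [← hj, Finsupp.add_apply, single_apply_ne hju, zero_add]
      have hmu0 : m u ≠ 0 := by omega
      have e1 := pair_eq hc0 (m := m - Finsupp.single u 1) (a := a) (v := j) (w := u) hju
        (by rw [sub_add_single hmu0]; exact hj)
        (hsa _ (by rw [sub_single_apply_same]; omega))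
      rw [sub_add_single hmu0] at e1
      have t1 : Finsupp.single j 1 + (m - Finsupp.single u 1) = a - Finsupp.single u 1 := by
        apply add_left_cancel (a := Finsupp.single u 1)
        rw [sub_add_single (by omega : a u ≠ 0), add_left_comm, sub_add_single hmu0]
        exact hj
      rw [t1, hu, zero_add] at e1
      exact hne e1
  apply ci_dual hc0 (b := b) (by omega)
  intro m hm
  obtain ⟨hd, h | h⟩ := hs m hm
  · exact absurd (hall m h) hm
  · exact ⟨by rw [hb]; exact hd, h⟩


lemma exists_le_of_degree {b : Fin n →₀ ℕ} {d : ℕ} (h : d ≤ b.degree) :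
    ∃ m, m ≤ b ∧ m.degree = d := by
  obtain ⟨k, hk⟩ := Nat.exists_eq_add_of_le h
  induction k generalizing d with
  | zero => exact ⟨b, le_rfl, by omega⟩
  | succ k ih =>
    obtain ⟨m, hm, hmd⟩ := ih (d := d + 1) (by omega) (by omega)
    obtain ⟨j, hj⟩ : ∃ j, m j ≠ 0 := by
      by_contra hcon
      push Not at hcon
      have : m = 0 := by
        ext k
        exact hcon k
      rw [this, map_zero] at hmd
      omega
    refine ⟨m - Finsupp.single j 1, tsub_le_self.trans hm, ?_⟩
    have := degree_sub_single hj
    omega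

lemma two_levels {c : (Fin n →₀ ℕ) → K}
    (hc0 : ∀ m, ∑ j, c (Finsupp.single j 1 + m) = 0) {b : Fin n →₀ ℕ} {e : ℕ}
    (hb : b.degree = e) {u : Fin n} (hbu : b u = 1)
    (hs0 : ∀ m : Fin n →₀ ℕ, m u = 0 → c m ≠ 0 → m ≤ b) :
    ∀ k, ∀ m : Fin n →₀ ℕ, m.degree + 1 = e → m u = k →
      ((∀ j, j ≠ u → m j ≤ b j) →
        ∃ q : ℕ, 0 < q ∧ c m = (-1) ^ k * (q : K) * c (b - Finsupp.single u 1)) ∧
      ((∃ j, j ≠ u ∧ b j < m j) → c m = 0) := by
  intro k
  induction k with
  | zero =>
    intro m hm hmu
    constructor
    · intro hle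
      refine ⟨1, one_pos, ?_⟩
      have h1 : m ≤ b - Finsupp.single u 1 := by
        intro j
        by_cases hj : u = j
        · subst hj
          rw [hmu]
          exact Nat.zero_le _
        · rw [sub_single_apply_ne hj]
          exact hle j (Ne.symm hj)
      have h2 : m = b - Finsupp.single u 1 := by
        apply eq_of_le_of_degree h1
        have := degree_sub_single (m := b) (j := u) (by omega)
        omega
      rw [← h2]
      simp
    · rintro ⟨j, _, hlt⟩
      by_contra hne
      have := hs0 m hmu hne j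
      omega
  | succ k ih =>
    intro m hm hmu
    have hmu0 : m u ≠ 0 := by omega
    have h1 := hc0 (m - Finsupp.single u 1)
    rw [← Finset.add_sum_erase _ _ (Finset.mem_univ u), sub_add_single hmu0] at h1
    have hMd : ∀ j, (Finsupp.single j 1 + (m - Finsupp.single u 1)).degree + 1 = e := by
      intro j
      have := degree_sub_single hmu0
      rw [map_add, Finsupp.degree_single]
      omega
    have hMu : ∀ j, j ≠ u → (Finsupp.single j 1 + (m - Finsupp.single u 1) : Fin n →₀ ℕ) u = k := by
      intro j hj
      rw [Finsupp.add_apply, single_apply_ne hj, zero_add, sub_single_apply_same]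
      omega
    have hMl : ∀ j l, l ≠ u → (Finsupp.single j 1 + (m - Finsupp.single u 1) : Fin n →₀ ℕ) l =
        (Finsupp.single j 1 : Fin n →₀ ℕ) l + m l := by
      intro j l hl
      rw [Finsupp.add_apply, sub_single_apply_ne (Ne.symm hl)]
    constructor
    · intro hle
      have hterm : ∀ j ∈ Finset.univ.erase u, ∃ q : ℕ, (m j < b j → 0 < q) ∧
          c (Finsupp.single j 1 + (m - Finsupp.single u 1)) =
            (-1) ^ k * (q : K) * c (b - Finsupp.single u 1) := by
        intro j hj
        have hju : j ≠ u := Finset.ne_of_mem_erase hj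
        have h2 := ih _ (hMd j) (hMu j hju)
        rcases Nat.lt_or_ge (m j) (b j) with hlt | hge
        · obtain ⟨q, hq, hcq⟩ := h2.1 (fun l hl => by
            rw [hMl j l hl]
            by_cases hlj : j = l
            · subst hlj
              rw [Finsupp.single_eq_same]
              omega
            · rw [single_apply_ne hlj, zero_add]
              exact hle l hl)
          exact ⟨q, fun _ => hq, hcq⟩
        · refine ⟨0, fun h => by omega, ?_⟩
          rw [h2.2 ⟨j, hju, by
            rw [hMl j j hju, Finsupp.single_eq_same]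
            omega⟩]
          simp
      choose! q hq hcq using hterm
      obtain ⟨j₀, hj₀, hlt⟩ : ∃ j, j ≠ u ∧ m j < b j := by
        by_contra hcon
        push Not at hcon
        have h3 : b ≤ m := by
          intro l
          by_cases hl : l = u
          · subst hl
            omega
          · exact hcon l hl
        have := degree_le_of_le h3
        omega
      have hj₀' : j₀ ∈ Finset.univ.erase u := Finset.mem_erase.2 ⟨hj₀, Finset.mem_univ _⟩
      refine ⟨∑ j ∈ Finset.univ.erase u, q j, ?_, ?_⟩
      · exact lt_of_lt_of_le (hq j₀ hj₀' hlt)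
          (Finset.single_le_sum (f := q) (fun _ _ => Nat.zero_le _) hj₀')
      · rw [Finset.sum_congr rfl hcq] at h1
        rw [Nat.cast_sum, Finset.mul_sum, Finset.sum_mul, pow_succ]
        have h4 : ∀ x ∈ Finset.univ.erase u, (-1 : K) ^ k * -1 * (q x : K) *
            c (b - Finsupp.single u 1) = - ((-1) ^ k * (q x : K) * c (b - Finsupp.single u 1)) := by
          intro x _
          ring
        rw [Finset.sum_congr rfl h4, Finset.sum_neg_distrib]
        linear_combination h1
    · rintro ⟨l, hl, hlt⟩
      rw [Finset.sum_eq_zero, add_zero] at h1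
      · exact h1
      · intro j hj
        have hju : j ≠ u := Finset.ne_of_mem_erase hj
        apply (ih _ (hMd j) (hMu j hju)).2
        refine ⟨l, hl, ?_⟩
        rw [hMl j l hl]
        omega

/-- If `a u ≥ 2` and `b u = 1`, there is exactly one exceptional pair. -/
lemma two_case_one {c : (Fin n →₀ ℕ) → K} [CharZero K]
    (hc0 : ∀ m, ∑ j, c (Finsupp.single j 1 + m) = 0) {a b : Fin n →₀ ℕ} {e : ℕ} (he : 4 ≤ e)
    (ha : a.degree = e) (hb : b.degree = e) {u : Fin n} (hau : 2 ≤ a u) (hbu : b u = 1)
    (hs : ∀ m, c m ≠ 0 → m.degree + 1 = e ∧ (m ≤ a ∨ m ≤ b)) (hne : ∃ m, c m ≠ 0) :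
    ∃ v, v ≠ u ∧ e = 4 ∧ a = Finsupp.single u 3 + Finsupp.single v 1 ∧
      b = Finsupp.single u 1 + Finsupp.single v 3 := by
  have hs0 : ∀ m : Fin n →₀ ℕ, m u = 0 → c m ≠ 0 → m ≤ b := by
    intro m hmu hm
    obtain ⟨hd, h | h⟩ := hs m hm
    · exfalso
      obtain ⟨j, hj⟩ := exists_add_eq h (by omega)
      rw [← hj, Finsupp.add_apply, hmu, add_zero, Finsupp.single_apply] at hau
      split_ifs at hau <;> omega
    · exact h
  have hlev := two_levels hc0 hb hbu hs0
  have hβ : c (b - Finsupp.single u 1) ≠ 0 := by
    intro hβ0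
    obtain ⟨m, hm⟩ := hne
    apply hm
    apply level_prop hc0 (u := u) (k := 0) _ (m u) (Nat.zero_le _) m rfl
    intro m' hm'
    by_contra hne'
    have h1 := hs0 m' hm' hne'
    obtain ⟨j, hj⟩ := exists_add_eq h1 (by rw [hb]; exact (hs m' hne').1)
    have hju : j = u := by
      by_contra hju
      rw [← hj, Finsupp.add_apply, single_apply_ne hju, hm'] at hbu
      omega
    subst hju
    apply hne'
    rw [← hj, single_add_sub] at hβ0
    exact hβ0
  have hnz : ∀ m : Fin n →₀ ℕ, m.degree + 1 = e → (∀ j, j ≠ u → m j ≤ b j) → c m ≠ 0 := by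
    intro m hm hle
    obtain ⟨q, hq, hcq⟩ := (hlev (m u) m hm rfl).1 hle
    rw [hcq]
    have hq0 : (q : K) ≠ 0 := by
      exact_mod_cast hq.ne'
    exact mul_ne_zero (mul_ne_zero (pow_ne_zero _ (by norm_num)) hq0) hβ
  have hina : ∀ m : Fin n →₀ ℕ, m.degree + 1 = e → (∀ j, j ≠ u → m j ≤ b j) → 2 ≤ m u →
      m ≤ a := by
    intro m hm hle hmu
    rcases (hs m (hnz m hm hle)).2 with h | h
    · exact h
    · exfalso
      have := h u
      omega
  have hau' : e - 1 ≤ a u := by
    have h1 := hina (Finsupp.single u (e - 1)) (by rw [Finsupp.degree_single]; omega)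
      (fun j hj => by rw [single_apply_ne (Ne.symm hj)]; exact Nat.zero_le _)
      (by rw [Finsupp.single_eq_same]; omega)
    have h2 := h1 u
    rwa [Finsupp.single_eq_same] at h2
  -- an element of level two
  have hb' : (b - Finsupp.single u 1).degree + 1 = e := by
    have := degree_sub_single (m := b) (j := u) (by omega)
    omega
  have htwo : ∀ m' : Fin n →₀ ℕ, m' ≤ b - Finsupp.single u 1 → m'.degree + 3 = e →
      ∃ j, Finsupp.single j 1 + (Finsupp.single u 2 + m') = a := by
    intro m' hm' hd
    have hm'u : m' u = 0 := by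
      have := hm' u
      rw [sub_single_apply_same, hbu] at this
      omega
    have h1 : (Finsupp.single u 2 + m').degree + 1 = e := by
      rw [map_add, Finsupp.degree_single]
      omega
    have h2 := hina (Finsupp.single u 2 + m') h1
      (fun j hj => by
        rw [Finsupp.add_apply, single_apply_ne (Ne.symm hj), zero_add]
        have := hm' j
        rwa [sub_single_apply_ne (Ne.symm hj)] at this)
      (by rw [Finsupp.add_apply, Finsupp.single_eq_same]; omega)
    exact exists_add_eq h2 (by omega)
  have he4 : e = 4 := by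
    obtain ⟨m', hm', hd'⟩ := exists_le_of_degree (b := b - Finsupp.single u 1) (d := e - 3)
      (by omega)
    obtain ⟨j, hj⟩ := htwo m' hm' (by omega)
    have hm'u : m' u = 0 := by
      have := hm' u
      rw [sub_single_apply_same, hbu] at this
      omega
    have h3 := DFunLike.congr_fun hj u
    rw [Finsupp.add_apply, Finsupp.add_apply, Finsupp.single_eq_same, hm'u,
      Finsupp.single_apply] at h3
    split_ifs at h3 <;> omega
  subst he4
  have huniq : ∀ v, v ≠ u → b v ≠ 0 → a = Finsupp.single u 3 + Finsupp.single v 1 := by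
    intro v hv hbv
    obtain ⟨j, hj⟩ := htwo (Finsupp.single v 1) (by
      rw [Finsupp.single_le_iff, sub_single_apply_ne (Ne.symm hv)]
      omega) (by rw [Finsupp.degree_single])
    have hju : j = u := by
      by_contra hju
      rw [← hj] at hau'
      rw [Finsupp.add_apply, Finsupp.add_apply, Finsupp.single_eq_same, single_apply_ne hju,
        single_apply_ne hv] at hau'
      omega
    rw [← hj, hju, ← add_assoc, ← Finsupp.single_add]
  obtain ⟨v, hv, hbv⟩ : ∃ v, v ≠ u ∧ b v ≠ 0 := by
    by_contra hcon
    push Not at hcon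
    have h3 : b ≤ Finsupp.single u 1 := by
      intro l
      by_cases hl : l = u
      · subst hl
        rw [Finsupp.single_eq_same, hbu]
      · rw [hcon l hl]
        exact Nat.zero_le _
    have := degree_le_of_le h3
    rw [Finsupp.degree_single] at this
    omega
  have hav := huniq v hv hbv
  refine ⟨v, hv, rfl, hav, ?_⟩
  have hzero : ∀ l, l ≠ u → l ≠ v → b l = 0 := by
    intro l hlu hlv
    by_contra hbl
    have h3 := huniq l hlu hbl
    rw [hav] at h3
    exact hlv (Finsupp.single_left_injective one_ne_zero (add_left_cancel h3)).symm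
  have hle : Finsupp.single u 1 ≤ b := by
    rw [Finsupp.single_le_iff]
    omega
  have hsum : b = Finsupp.single u 1 + Finsupp.single v (b v) := by
    ext l
    by_cases hlu : l = u
    · subst hlu
      rw [Finsupp.add_apply, Finsupp.single_eq_same, single_apply_ne hv, hbu]
    · by_cases hlv : l = v
      · subst hlv
        rw [Finsupp.add_apply, Finsupp.single_eq_same, single_apply_ne (Ne.symm hlu), zero_add]
      · rw [hzero l hlu hlv, Finsupp.add_apply, single_apply_ne (Ne.symm hlu),
          single_apply_ne (Ne.symm hlv)]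
  have hbv3 : b v = 3 := by
    have h3 := hb
    rw [hsum, map_add, Finsupp.degree_single, Finsupp.degree_single] at h3
    omega
  rw [hbv3] at hsum
  exact hsum

lemma degree_eq_card {a : Fin n →₀ ℕ} (ha : ∀ u, a u ≤ 1) : a.degree = a.support.card := by
  rw [Finsupp.degree_apply, Finset.card_eq_sum_ones]
  refine Finset.sum_congr rfl fun j hj => ?_
  have h1 := Finsupp.mem_support_iff.1 hj
  have h2 := ha j
  omega

lemma sq_aux {c : (Fin n →₀ ℕ) → K} [CharZero K]
    (hc0 : ∀ m, ∑ j, c (Finsupp.single j 1 + m) = 0) {a b : Fin n →₀ ℕ} {e : ℕ} (he : 4 ≤ e)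
    (ha : a.degree = e) (ha1 : ∀ u, a u ≤ 1)
    (hs : ∀ m, c m ≠ 0 → m.degree + 1 = e ∧ (m ≤ a ∨ m ≤ b)) {u : Fin n} (hau : a u ≠ 0)
    (hbu : b u = 0) {m : Fin n →₀ ℕ} (hma : m ≤ a) (hm : c m ≠ 0) :
    m = a - Finsupp.single u 1 := by
  have hsa : ∀ (m : Fin n →₀ ℕ), m u ≠ 0 → ∀ j, c (Finsupp.single j 1 + m) ≠ 0 →
      Finsupp.single j 1 + m ≤ a := by
    intro m hm j hne
    rcases (hs _ hne).2 with h | h
    · exact h
    · exfalso
      have := h u
      rw [hbu, Finsupp.add_apply] at this
      omega
  obtain ⟨v, hv⟩ := exists_add_eq hma (by rw [ha]; exact (hs m hm).1)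
  by_cases hvu : v = u
  · rw [← hvu, ← hv, single_add_sub]
  · exfalso
    have hav : a v ≠ 0 := by
      rw [← hv, Finsupp.add_apply, Finsupp.single_eq_same]
      omega
    have hcard : 1 < ((a.support.erase u).erase v).card := by
      rw [Finset.card_erase_of_mem (Finset.mem_erase.2 ⟨hvu, Finsupp.mem_support_iff.2 hav⟩),
        Finset.card_erase_of_mem (Finsupp.mem_support_iff.2 hau), ← degree_eq_card ha1]
      omega
    obtain ⟨w, hw, x, hx, hwx⟩ := Finset.one_lt_card.1 hcard
    have hwv : w ≠ v := Finset.ne_of_mem_erase hw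
    have hxv : x ≠ v := Finset.ne_of_mem_erase hx
    have hwu : w ≠ u := Finset.ne_of_mem_erase (Finset.mem_of_mem_erase hw)
    have hxu : x ≠ u := Finset.ne_of_mem_erase (Finset.mem_of_mem_erase hx)
    have hwa := Finsupp.mem_support_iff.1 (Finset.mem_of_mem_erase (Finset.mem_of_mem_erase hw))
    have hxa := Finsupp.mem_support_iff.1 (Finset.mem_of_mem_erase (Finset.mem_of_mem_erase hx))
    set r := a - Finsupp.single v 1 - Finsupp.single w 1 - Finsupp.single x 1 with hr
    have hru : r u ≠ 0 := by
      rw [hr, sub_single_apply_ne hxu, sub_single_apply_ne hwu, sub_single_apply_ne hvu]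
      exact hau
    have hb3 : a = Finsupp.single v 1 + (Finsupp.single w 1 + (Finsupp.single x 1 + r)) := by
      rw [hr, sub_add_single, sub_add_single, sub_add_single hav]
      · rw [sub_single_apply_ne (Ne.symm hwv)]
        exact hwa
      · rw [sub_single_apply_ne hwx, sub_single_apply_ne (Ne.symm hxv)]
        exact hxa
    have hru' : ∀ y, (Finsupp.single y 1 + r : Fin n →₀ ℕ) u ≠ 0 := by
      intro y
      rw [Finsupp.add_apply]
      omega
    have e1 := pair_eq hc0 (m := Finsupp.single x 1 + r) (a := a) (v := v) (w := w)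
      (Ne.symm hwv) hb3.symm (hsa _ (hru' x))
    have e2 := pair_eq hc0 (m := Finsupp.single w 1 + r) (a := a) (v := v) (w := x)
      (Ne.symm hxv) (by rw [hb3]; congr 1; exact add_left_comm _ _ _) (hsa _ (hru' w))
    have e3 := pair_eq hc0 (m := Finsupp.single v 1 + r) (a := a) (v := w) (w := x)
      hwx (by rw [hb3]; abel) (hsa _ (hru' v))
    have hmv : m = Finsupp.single w 1 + (Finsupp.single x 1 + r) := by
      apply add_left_cancel (a := Finsupp.single v 1)
      rw [hv, ← hb3]
    have t1 : Finsupp.single x 1 + (Finsupp.single w 1 + r) = m := by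
      rw [hmv, add_left_comm]
    have t2 : Finsupp.single v 1 + (Finsupp.single w 1 + r) =
        Finsupp.single w 1 + (Finsupp.single v 1 + r) := add_left_comm _ _ _
    have t3 : Finsupp.single v 1 + (Finsupp.single x 1 + r) =
        Finsupp.single x 1 + (Finsupp.single v 1 + r) := add_left_comm _ _ _
    rw [← hmv] at e1
    rw [t1, t2] at e2
    rw [t3] at e1
    have h2 : (2 : K) * c m = 0 := by
      linear_combination e1 + e2 - e3
    rcases mul_eq_zero.1 h2 with h3 | h3
    · exact two_ne_zero h3
    · exact hm h3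

lemma two_case_sq {c : (Fin n →₀ ℕ) → K} [CharZero K]
    (hc0 : ∀ m, ∑ j, c (Finsupp.single j 1 + m) = 0) {a b : Fin n →₀ ℕ} {e : ℕ} (he : 4 ≤ e)
    (ha : a.degree = e) (hb : b.degree = e) (hab : a ≠ b) (ha1 : ∀ u, a u ≤ 1)
    (hb1 : ∀ u, b u ≤ 1)
    (hs : ∀ m, c m ≠ 0 → m.degree + 1 = e ∧ (m ≤ a ∨ m ≤ b)) : ∀ m, c m = 0 := by
  classical
  obtain ⟨u, hu⟩ : ∃ u, b u < a u := by
    by_contra hcon
    push Not at hcon
    exact hab (eq_of_le_of_degree hcon (by rw [ha, hb]))
  obtain ⟨v, hv⟩ : ∃ v, a v < b v := by
    by_contra hcon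
    push Not at hcon
    exact hab (eq_of_le_of_degree hcon (by rw [ha, hb])).symm
  have hau := ha1 u
  have hbv := hb1 v
  apply zero_of_few (d := e - 1) (P := {a - Finsupp.single u 1, b - Finsupp.single v 1}) _ _ hc0
  · exact Finset.card_le_two.trans (by omega)
  · intro m hm
    rw [Finset.mem_insert, Finset.mem_singleton] at hm
    rcases hm with rfl | rfl
    · have := degree_sub_single (m := a) (j := u) (by omega)
      omega
    · have := degree_sub_single (m := b) (j := v) (by omega)
      omega
  · intro m hm
    rw [Finset.mem_insert, Finset.mem_singleton]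
    rcases (hs m hm).2 with h | h
    · left
      exact sq_aux hc0 he ha ha1 hs (by omega) (by omega) h hm
    · right
      exact sq_aux hc0 he hb hb1 (fun m hm => ⟨(hs m hm).1, (hs m hm).2.symm⟩) (by omega)
        (by omega) h hm

lemma mem_Pset_pair {a b m : Fin n →₀ ℕ} {i : ℕ} :
    m ∈ Pset {a, b} i ↔ (m ≤ a ∨ m ≤ b) ∧ m.degree = i := by
  rw [mem_Pset]
  simp

/-- Type two: surjectivity from degree `e - 2`, with one exceptional pair. -/
lemma two_surj [CharZero K] {a b : Fin n →₀ ℕ} {e : ℕ} (he : 2 ≤ e)
    (ha : a.degree = e + 2) (hb : b.degree = e + 2) (hab : a ≠ b) :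
    Function.Surjective (T1 K {a, b} e) ∨ ∃ u v, v ≠ u ∧ e = 2 ∧
      ((a = Finsupp.single u 3 + Finsupp.single v 1 ∧
        b = Finsupp.single u 1 + Finsupp.single v 3) ∨
       (b = Finsupp.single u 3 + Finsupp.single v 1 ∧
        a = Finsupp.single u 1 + Finsupp.single v 3)) := by
  by_contra hcon
  push Not at hcon
  obtain ⟨h1, h2⟩ := hcon
  apply h1
  apply surj_of
  intro c hc hc0
  have hs : ∀ m, c m ≠ 0 → m.degree + 1 = e + 2 ∧ (m ≤ a ∨ m ≤ b) := by
    intro m hm
    obtain ⟨h, hd⟩ := mem_Pset_pair.1 (hc m hm)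
    exact ⟨by omega, h⟩
  have hs' : ∀ m, c m ≠ 0 → m.degree + 1 = e + 2 ∧ (m ≤ b ∨ m ≤ a) := fun m hm =>
    ⟨(hs m hm).1, (hs m hm).2.symm⟩
  by_cases hc1 : ∃ u, 2 ≤ a u
  · obtain ⟨u, hu⟩ := hc1
    rcases Nat.lt_or_ge (b u) 2 with hlt | hge
    · rcases Nat.lt_or_ge (b u) 1 with hlt1 | hge1
      · exact two_case_zero hc0 (by omega) ha hb hu (by omega) hs
      · by_contra hne
        push Not at hne
        obtain ⟨v, hv, he4, hav, hbv⟩ := two_case_one hc0 (by omega) ha hb hu (by omega) hs hne
        exact (h2 u v hv (by omega)).1 hav hbv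
    · intro m
      apply level_prop hc0 (u := u) (k := 0) _ (m u) (Nat.zero_le _) m rfl
      intro m' hm'
      by_contra hne
      obtain ⟨hd, h | h⟩ := hs m' hne
      · obtain ⟨j, hj⟩ := exists_add_eq h (by omega)
        rw [← hj, Finsupp.add_apply, hm', add_zero, Finsupp.single_apply] at hu
        split_ifs at hu <;> omega
      · obtain ⟨j, hj⟩ := exists_add_eq h (by omega)
        rw [← hj, Finsupp.add_apply, hm', add_zero, Finsupp.single_apply] at hge
        split_ifs at hge <;> omega
  · push Not at hc1
    by_cases hc2 : ∃ u, 2 ≤ b u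
    · obtain ⟨u, hu⟩ := hc2
      have hau := hc1 u
      rcases Nat.lt_or_ge (a u) 1 with hlt1 | hge1
      · exact two_case_zero hc0 (by omega) hb ha hu (by omega) hs'
      · by_contra hne
        push Not at hne
        obtain ⟨v, hv, he4, hav, hbv⟩ := two_case_one hc0 (by omega) hb ha hu (by omega) hs' hne
        exact (h2 u v hv (by omega)).2 hav hbv
    · push Not at hc2
      exact two_case_sq hc0 (by omega) ha hb hab (fun u => by have := hc1 u; omega)
        (fun u => by have := hc2 u; omega) hs

end Pool.Agent.Helper720.Level
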