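import Pool.Agent.Helper720.LevelTwo

set_option autoImplicit false

namespace Pool.Agent.Helper720.Level

variable {K : Type*} [Field K] {n : ℕ}

lemma sum_two_vars {u v : Fin n} (huv : u ≠ v) (f : (Fin n →₀ ℕ) → K) {m : Fin n →₀ ℕ}
    (hm : ∀ j, j ≠ u → j ≠ v → m j = 0) :
    (∑ j, if m j = 0 then 0 else f (m - Finsupp.single j 1)) =
      (if m u = 0 then 0 else f (m - Finsupp.single u 1)) +
      (if m v = 0 then 0 else f (m - Finsupp.single v 1)) := by
  rw [← Finset.sum_pair huv (f := fun j => if m j = 0 then 0 else f (m - Finsupp.single j 1))]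
  symm
  apply Finset.sum_subset (Finset.subset_univ _)
  intro j _ hj
  rw [Finset.mem_insert, Finset.mem_singleton, not_or] at hj
  rw [if_pos (hm j hj.1 hj.2)]

lemma exceptional_inj {u v : Fin n} (huv : v ≠ u) :
    Function.Injective (T1 K {Finsupp.single u 3 + Finsupp.single v 1,
      Finsupp.single u 1 + Finsupp.single v 3} 2) := by
  set W : Finset (Fin n →₀ ℕ) := {Finsupp.single u 3 + Finsupp.single v 1,
      Finsupp.single u 1 + Finsupp.single v 3} with hW
  have hmem : ∀ i j, (i ≤ 3 ∧ j ≤ 1) ∨ (i ≤ 1 ∧ j ≤ 3) →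
      Finsupp.single u i + Finsupp.single v j ∈ Pset W (i + j) := by
    intro i j hij
    rw [hW, mem_Pset_pair]
    constructor
    · rcases hij with ⟨h1, h2⟩ | ⟨h1, h2⟩
      · left
        exact add_le_add (Finsupp.single_le_single.2 h1) (Finsupp.single_le_single.2 h2)
      · right
        exact add_le_add (Finsupp.single_le_single.2 h1) (Finsupp.single_le_single.2 h2)
    · rw [map_add, Finsupp.degree_single, Finsupp.degree_single]
  have happ : ∀ (i j : ℕ) (k : Fin n), k ≠ u → k ≠ v →
      (Finsupp.single u i + Finsupp.single v j : Fin n →₀ ℕ) k = 0 := by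
    intro i j k h1 h2
    rw [Finsupp.add_apply, single_apply_ne (Ne.symm h1), single_apply_ne (Ne.symm h2)]
  have happu : ∀ (i j : ℕ), (Finsupp.single u i + Finsupp.single v j : Fin n →₀ ℕ) u = i := by
    intro i j
    rw [Finsupp.add_apply, Finsupp.single_eq_same, single_apply_ne huv, add_zero]
  have happv : ∀ (i j : ℕ), (Finsupp.single u i + Finsupp.single v j : Fin n →₀ ℕ) v = j := by
    intro i j
    rw [Finsupp.add_apply, Finsupp.single_eq_same, single_apply_ne (Ne.symm huv), zero_add]
  have hsubu : ∀ (i j : ℕ), Finsupp.single u (i + 1) + Finsupp.single v j - Finsupp.single u 1 =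
      Finsupp.single u i + Finsupp.single v j := by
    intro i j
    rw [Finsupp.single_add, add_comm (Finsupp.single u i), add_assoc, single_add_sub]
  have hsubv : ∀ (i j : ℕ), Finsupp.single u i + Finsupp.single v (j + 1) - Finsupp.single v 1 =
      Finsupp.single u i + Finsupp.single v j := by
    intro i j
    rw [Finsupp.single_add, add_comm (Finsupp.single v j), add_left_comm, single_add_sub]
  apply inj_of
  intro f hf hker
  have e1 := hker _ (hmem 3 0 (Or.inl ⟨le_rfl, by norm_num⟩))
  rw [sum_two_vars (Ne.symm huv) f (happ 3 0), happu, happv, if_neg (by norm_num), if_pos rfl,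
    hsubu 2 0, add_zero] at e1
  have e2 := hker _ (hmem 2 1 (Or.inl ⟨by norm_num, le_rfl⟩))
  rw [sum_two_vars (Ne.symm huv) f (happ 2 1), happu, happv, if_neg (by norm_num),
    if_neg (by norm_num), hsubu 1 1, hsubv 2 0, e1, add_zero] at e2
  have e3 := hker _ (hmem 0 3 (Or.inr ⟨by norm_num, le_rfl⟩))
  rw [sum_two_vars (Ne.symm huv) f (happ 0 3), happu, happv, if_pos rfl,
    if_neg (by norm_num), hsubv 0 2, zero_add] at e3
  intro m
  by_contra hne
  have hm := hf m hne
  rw [hW, mem_Pset_pair] at hm
  obtain ⟨hle, hd⟩ := hm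
  have hm0 : ∀ k, k ≠ u → k ≠ v → m k = 0 := by
    intro k hku hkv
    rcases hle with h | h
    · have := h k
      rw [happ 3 1 k hku hkv] at this
      omega
    · have := h k
      rw [happ 1 3 k hku hkv] at this
      omega
  have hms : m = Finsupp.single u (m u) + Finsupp.single v (m v) := by
    ext k
    by_cases hku : k = u
    · subst hku
      rw [happu]
    · by_cases hkv : k = v
      · subst hkv
        rw [happv]
      · rw [hm0 k hku hkv, happ _ _ k hku hkv]
  rw [hms, map_add, Finsupp.degree_single, Finsupp.degree_single] at hd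
  have hcases : (m u = 2 ∧ m v = 0) ∨ (m u = 1 ∧ m v = 1) ∨ (m u = 0 ∧ m v = 2) := by omega
  rcases hcases with ⟨h1, h2⟩ | ⟨h1, h2⟩ | ⟨h1, h2⟩
  · rw [hms, h1, h2] at hne
    exact hne e1
  · rw [hms, h1, h2] at hne
    exact hne e2
  · rw [hms, h1, h2] at hne
    exact hne e3

/-- Type two, socle degree at most five: maximal rank in every degree. -/
lemma two_wlp [CharZero K] {a b : Fin n →₀ ℕ} {e : ℕ} (he : e ≤ 5)
    (ha : a.degree = e) (hb : b.degree = e) (hab : a ≠ b) (i : ℕ) :
    Function.Injective (T1 K {a, b} i) ∨ Function.Surjective (T1 K {a, b} i) := by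
  have hW : ∀ w ∈ ({a, b} : Finset (Fin n →₀ ℕ)), w.degree = e := by
    intro w hw
    rw [Finset.mem_insert, Finset.mem_singleton] at hw
    rcases hw with rfl | rfl <;> assumption
  rcases Nat.lt_or_ge i e with hlt | hge
  · rcases Nat.lt_or_ge (2 * i) e with h1 | h1
    · exact Or.inl (inj_first_half hW (by omega))
    · by_cases h2 : i + 1 = e
      · right
        apply surj_of_few
        rw [h2, Pset_top hW]
        exact Finset.card_le_two.trans (by omega)
      · obtain ⟨k, rfl⟩ : ∃ k, e = k + 2 := ⟨e - 2, by omega⟩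
        have hik : i = k := by omega
        subst hik
        rcases two_surj (K := K) (by omega) ha hb hab with h | ⟨u, v, hvu, he2, h | h⟩
        · exact Or.inr h
        · left
          obtain ⟨rfl, rfl⟩ := h
          subst he2
          exact exceptional_inj hvu
        · left
          obtain ⟨rfl, rfl⟩ := h
          subst he2
          rw [Finset.pair_comm]
          exact exceptional_inj hvu
  · exact Or.inr (surj_of_ge hW hge)

end Pool.Agent.Helper720.Level
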