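import Pool.Agent.Helper720.PowDefs

set_option autoImplicit false

open MvPolynomial

namespace Pool.Agent.Helper720.Pow

variable {K : Type*} [Field K] {n : ℕ}

/-- the `d`-floor of a monomial -/
def fl (d : ℕ) (m : Fin n →₀ ℕ) : ℕ := ∑ j, m j / d

lemma fl_add_le (d : ℕ) (m m' : Fin n →₀ ℕ) : fl d m + fl d m' ≤ fl d (m + m') := by
  unfold fl
  rw [← Finset.sum_add_distrib]
  refine Finset.sum_le_sum fun j _ => ?_
  rw [Finsupp.add_apply]
  exact Nat.div_add_div_le_add_div

/-- polynomials all of whose monomials have floor at least `k` -/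
def flIdeal (K : Type*) [Field K] (n d k : ℕ) : Ideal (MvPolynomial (Fin n) K) where
  carrier := {f | ∀ m ∈ f.support, k ≤ fl d m}
  zero_mem' := by simp
  add_mem' := by
    intro f g hf hg m hm
    rcases Finset.mem_union.1 (MvPolynomial.support_add hm) with h | h
    · exact hf m h
    · exact hg m h
  smul_mem' := by
    intro r f hf m hm
    rw [smul_eq_mul] at hm
    obtain ⟨a, _, b, hb, rfl⟩ := Finset.mem_add.1 (MvPolynomial.support_mul r f hm)
    exact (hf b hb).trans ((Nat.le_add_left _ _).trans (fl_add_le d a b))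

lemma mem_flIdeal {d k : ℕ} {f : MvPolynomial (Fin n) K} :
    f ∈ flIdeal K n d k ↔ ∀ m ∈ f.support, k ≤ fl d m := Iff.rfl

lemma prod_mem (d : ℕ) (q : Fin n → ℕ) (s : Finset (Fin n)) :
    ∏ j ∈ s, ((X j : MvPolynomial (Fin n) K) ^ d) ^ q j ∈
      (Ideal.span (Set.range fun j : Fin n => (X j : MvPolynomial (Fin n) K) ^ d)) ^
        (∑ j ∈ s, q j) := by
  classical
  induction s using Finset.induction_on with
  | empty => simp
  | insert a s ha ih =>
    rw [Finset.prod_insert ha, Finset.sum_insert ha, pow_add]
    exact Ideal.mul_mem_mul (Ideal.pow_mem_pow (Ideal.subset_span (Set.mem_range_self a)) _) ih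

lemma powIdeal_eq {d : ℕ} (hd : 1 ≤ d) (k : ℕ) : powIdeal K n d k = flIdeal K n d k := by
  classical
  apply le_antisymm
  · unfold powIdeal
    have h1 : Ideal.span (Set.range fun j : Fin n => (X j : MvPolynomial (Fin n) K) ^ d) ≤
        flIdeal K n d 1 := by
      rw [Ideal.span_le]
      rintro _ ⟨j, rfl⟩ m hm
      simp only [X_pow_eq_monomial] at hm
      rw [support_monomial, if_neg one_ne_zero, Finset.mem_singleton] at hm
      subst hm
      unfold fl
      refine le_trans ?_ (Finset.single_le_sum (fun _ _ => Nat.zero_le _) (Finset.mem_univ j))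
      rw [Finsupp.single_eq_same, Nat.div_self hd]
    have h2 : ∀ k, (Ideal.span (Set.range fun j : Fin n => (X j : MvPolynomial (Fin n) K) ^ d)) ^ k
        ≤ flIdeal K n d k := by
      intro k
      induction k with
      | zero =>
        intro f _ m _
        exact Nat.zero_le _
      | succ k ih =>
        rw [pow_succ]
        refine (Ideal.mul_mono ih h1).trans ?_
        rw [Ideal.mul_le]
        intro r hr s hs m hm
        obtain ⟨a, ha, b, hb, rfl⟩ := Finset.mem_add.1 (MvPolynomial.support_mul r s hm)
        have h3 := hr a ha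
        have h4 := hs b hb
        exact (Nat.add_le_add h3 h4).trans (fl_add_le d a b)
    exact h2 k
  · intro f hf
    rw [f.as_sum]
    refine Ideal.sum_mem _ fun m hm => ?_
    have h1 : monomial m (coeff m f) =
        monomial (Finsupp.equivFunOnFinite.symm fun j => m j % d) (coeff m f) *
          ∏ j, ((X j : MvPolynomial (Fin n) K) ^ d) ^ (m j / d) := by
      have h2 : ∏ j, ((X j : MvPolynomial (Fin n) K) ^ d) ^ (m j / d) =
          monomial (Finsupp.equivFunOnFinite.symm fun j => d * (m j / d)) 1 := by
        rw [MvPolynomial.monomial_eq, map_one, one_mul, Finsupp.prod_fintype _ _ (by simp)]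
        refine Finset.prod_congr rfl fun j _ => ?_
        rw [← pow_mul]
        rfl
      rw [h2, monomial_mul, mul_one]
      have h3 : m = (Finsupp.equivFunOnFinite.symm fun j => m j % d) +
          (Finsupp.equivFunOnFinite.symm fun j => d * (m j / d)) := by
        ext j
        simp [Nat.mod_add_div]
      exact congrArg (fun x => monomial x (coeff m f)) h3
    rw [h1]
    apply Ideal.mul_mem_left
    exact Ideal.pow_le_pow_right (hf m hm) (prod_mem d _ Finset.univ)

lemma mem_powIdeal {d k : ℕ} (hd : 1 ≤ d) {f : MvPolynomial (Fin n) K} :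
    f ∈ powIdeal K n d k ↔ ∀ m, fl d m < k → coeff m f = 0 := by
  rw [powIdeal_eq hd, mem_flIdeal]
  constructor
  · intro h m hm
    by_contra hne
    exact absurd (h m (mem_support_iff.2 hne)) (by omega)
  · intro h m hm
    by_contra hlt
    exact (mem_support_iff.1 hm) (h m (by omega))

/-- the sum of the variables -/
noncomputable def el (K : Type*) [Field K] (n : ℕ) : MvPolynomial (Fin n) K := ∑ j, X j

lemma el_hom : (el K n).IsHomogeneous 1 :=
  MvPolynomial.IsHomogeneous.sum _ _ _ fun _ _ => MvPolynomial.isHomogeneous_X _ _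

/-- product of factorials -/
def fact (w : Fin n →₀ ℕ) : ℕ := ∏ j, (w j).factorial

lemma fact_ne_zero (w : Fin n →₀ ℕ) : fact w ≠ 0 :=
  Finset.prod_ne_zero_iff.2 fun _ _ => Nat.factorial_ne_zero _

/-- falling factorial of multi-indices -/
def ff (w m : Fin n →₀ ℕ) : ℕ := ∏ j, (w j).descFactorial (m j)

lemma sub_single_apply (w : Fin n →₀ ℕ) (c j : Fin n) :
    (w - Finsupp.single c 1 : Fin n →₀ ℕ) j = if j = c then w j - 1 else w j := by
  rw [Finsupp.tsub_apply, Finsupp.single_apply]
  by_cases h : j = c
  · rw [if_pos h.symm, if_pos h]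
  · rw [if_neg (fun h' => h h'.symm), if_neg h, Nat.sub_zero]

lemma fact_sub (w : Fin n →₀ ℕ) {c : Fin n} (hc : w c ≠ 0) :
    fact w = w c * fact (w - Finsupp.single c 1) := by
  unfold fact
  rw [← Finset.mul_prod_erase _ _ (Finset.mem_univ c),
    ← Finset.mul_prod_erase _ (fun j => ((w - Finsupp.single c 1 : Fin n →₀ ℕ) j).factorial)
      (Finset.mem_univ c), ← mul_assoc]
  congr 1
  · rw [sub_single_apply, if_pos rfl]
    exact (Nat.mul_factorial_pred hc).symm
  · refine Finset.prod_congr rfl fun j hj => ?_
    rw [sub_single_apply, if_neg (Finset.ne_of_mem_erase hj)]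

lemma ff_sub (w m : Fin n →₀ ℕ) (c : Fin n) :
    ((w c : ℤ) * ff (w - Finsupp.single c 1) m) = ff w m * ((w c : ℤ) - m c) := by
  unfold ff
  rw [← Finset.mul_prod_erase _ _ (Finset.mem_univ c),
    ← Finset.mul_prod_erase _ (fun j => (w j).descFactorial (m j)) (Finset.mem_univ c)]
  have h1 : ∏ x ∈ Finset.univ.erase c, ((w - Finsupp.single c 1 : Fin n →₀ ℕ) x).descFactorial (m x) =
      ∏ x ∈ Finset.univ.erase c, (w x).descFactorial (m x) := by
    refine Finset.prod_congr rfl fun j hj => ?_
    rw [sub_single_apply, if_neg (Finset.ne_of_mem_erase hj)]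
  rw [h1, sub_single_apply, if_pos rfl]
  have h2 : ((w c : ℤ) * (w c - 1).descFactorial (m c)) =
      (w c).descFactorial (m c) * ((w c : ℤ) - m c) := by
    rcases Nat.eq_zero_or_pos (w c) with h | h
    · rw [h]
      rcases Nat.eq_zero_or_pos (m c) with h' | h'
      · rw [h']
        simp
      · rw [Nat.descFactorial_eq_zero_iff_lt.2 h']
        simp
    · obtain ⟨a, ha⟩ : ∃ a, w c = a + 1 := ⟨w c - 1, by omega⟩
      rw [ha, Nat.add_sub_cancel]
      have h3 : (a + 1) * a.descFactorial (m c) = (a + 1 - m c) * (a + 1).descFactorial (m c) := by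
        rw [← Nat.succ_descFactorial_succ, Nat.descFactorial_succ]
      rcases Nat.lt_or_ge a (m c) with h4 | h4
      · rcases Nat.lt_or_ge (a + 1) (m c) with h5 | h5
        · rw [Nat.descFactorial_eq_zero_iff_lt.2 h4, Nat.descFactorial_eq_zero_iff_lt.2 h5]
          simp
        · have h6 : m c = a + 1 := by omega
          rw [Nat.descFactorial_eq_zero_iff_lt.2 h4, h6]
          push_cast
          ring
      · have h5 : (((a + 1 - m c : ℕ) : ℤ)) = (a : ℤ) + 1 - m c := by
          push_cast [Nat.cast_sub (show m c ≤ a + 1 by omega)]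
          ring
        have h6 := congrArg (fun x : ℕ => (x : ℤ)) h3
        push_cast at h6
        rw [h5] at h6
        push_cast
        rw [h6]
        ring
  push_cast
  rw [← mul_assoc, h2]
  ring

lemma degree_sub_single {w : Fin n →₀ ℕ} {c : Fin n} (hc : w c ≠ 0) :
    (w - Finsupp.single c 1).degree + 1 = w.degree := by
  have hle : Finsupp.single c 1 ≤ w := by
    rw [Finsupp.single_le_iff]
    omega
  conv_rhs => rw [← tsub_add_cancel_of_le hle]
  rw [map_add, Finsupp.degree_single]

lemma coeff_el_mul (f : MvPolynomial (Fin n) K) (w : Fin n →₀ ℕ) :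
    coeff w (el K n * f) = ∑ c, if w c = 0 then 0 else coeff (w - Finsupp.single c 1) f := by
  unfold el
  rw [Finset.sum_mul, coeff_sum]
  refine Finset.sum_congr rfl fun c _ => ?_
  rw [coeff_X_mul']
  by_cases h : w c = 0
  · rw [if_pos h, if_neg (by simpa using h)]
  · rw [if_neg h, if_pos (by simpa using h)]

/-- The coefficients of powers of the sum of the variables times a monomial. -/
lemma coeff_el_pow (j : ℕ) (m w : Fin n →₀ ℕ) (hw : w.degree = j + m.degree) :
    (fact w : K) * coeff w (el K n ^ j * monomial m 1) = (j.factorial : K) * (ff w m : K) := by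
  induction j generalizing w with
  | zero =>
    rw [pow_zero, one_mul, coeff_monomial, Nat.factorial_zero, Nat.cast_one, one_mul]
    by_cases h : m = w
    · subst h
      rw [if_pos rfl, mul_one]
      unfold fact ff
      congr 2
      funext i
      exact (Nat.descFactorial_self _).symm
    · rw [if_neg h, mul_zero]
      have h1 : ∃ c, w c < m c := by
        by_contra hcon
        push Not at hcon
        apply h
        have hle : m ≤ w := hcon
        obtain ⟨r, hr⟩ := exists_add_of_le hle
        rw [hr, map_add] at hw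
        have : r = 0 := (Finsupp.degree_eq_zero_iff r).1 (by omega)
        rw [hr, this, add_zero]
      obtain ⟨c, hc⟩ := h1
      have h2 : ff w m = 0 := Finset.prod_eq_zero (Finset.mem_univ c)
        (Nat.descFactorial_eq_zero_iff_lt.2 hc)
      rw [h2, Nat.cast_zero]
  | succ j ih =>
    rw [pow_succ', mul_assoc, coeff_el_mul, Finset.mul_sum]
    have h1 : ∀ c : Fin n, (fact w : K) * (if w c = 0 then 0 else
        coeff (w - Finsupp.single c 1) (el K n ^ j * monomial m 1)) =
        (j.factorial : K) * ((ff w m : K) * ((w c : K) - m c)) := by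
      intro c
      have h2 : ((w c : K) * ff (w - Finsupp.single c 1) m) = ff w m * ((w c : K) - m c) := by
        have := congrArg (fun x : ℤ => (x : K)) (ff_sub w m c)
        push_cast at this
        exact this
      by_cases hc : w c = 0
      · rw [if_pos hc, mul_zero, ← h2, hc]
        simp
      · rw [if_neg hc, fact_sub w hc]
        have h3 := ih (w - Finsupp.single c 1) (by
          have := degree_sub_single hc
          omega)
        push_cast
        rw [mul_assoc, h3, ← h2]
        ring
    rw [Finset.sum_congr rfl (fun c _ => h1 c), ← Finset.mul_sum, ← Finset.mul_sum,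
      Finset.sum_sub_distrib]
    have h4 : (∑ c, (w c : K)) - ∑ c, (m c : K) = (j : K) + 1 := by
      rw [← Nat.cast_sum, ← Nat.cast_sum, ← Finsupp.degree_eq_sum, ← Finsupp.degree_eq_sum, hw]
      push_cast
      ring
    rw [h4, Nat.factorial_succ]
    push_cast
    ring

lemma el_ne_zero (hn : 1 ≤ n) : el K n ≠ 0 := by
  intro h
  have h1 : coeff (Finsupp.single (⟨0, hn⟩ : Fin n) 1) (el K n) = 1 := by
    unfold el
    rw [coeff_sum, Finset.sum_eq_single (⟨0, hn⟩ : Fin n)]
    · rw [MvPolynomial.coeff_X, if_pos rfl]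
    · intro b _ hb
      rw [MvPolynomial.coeff_X, if_neg]
      intro h'
      exact hb (Finsupp.single_left_injective one_ne_zero h')
    · intro h'
      exact absurd (Finset.mem_univ _) h'
  rw [h, coeff_zero] at h1
  exact zero_ne_one h1

end Pool.Agent.Helper720.Pow
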