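import Pool.Agent.Helper720.PowSemi

set_option autoImplicit false

open MvPolynomial

namespace Pool.Agent.Helper720.Pow

variable {K : Type*} [Field K] {n : ℕ}

lemma sum3 (hn : 3 ≤ n) (g : Fin n → ℕ) :
    g ⟨0, by omega⟩ + g ⟨1, by omega⟩ + g ⟨2, by omega⟩ ≤ ∑ c, g c := by
  classical
  have h : ∑ c ∈ ({⟨0, by omega⟩, ⟨1, by omega⟩, ⟨2, by omega⟩} : Finset (Fin n)), g c ≤
      ∑ c, g c := Finset.sum_le_sum_of_subset (Finset.subset_univ _)
  rw [Finset.sum_insert (by simp), Finset.sum_insert (by simp), Finset.sum_singleton] at h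
  omega

lemma sum4 (hn : 4 ≤ n) (g : Fin n → ℕ) :
    g ⟨0, by omega⟩ + g ⟨1, by omega⟩ + g ⟨2, by omega⟩ + g ⟨3, by omega⟩ ≤ ∑ c, g c := by
  classical
  have h : ∑ c ∈ ({⟨0, by omega⟩, ⟨1, by omega⟩, ⟨2, by omega⟩, ⟨3, by omega⟩} :
      Finset (Fin n)), g c ≤ ∑ c, g c := Finset.sum_le_sum_of_subset (Finset.subset_univ _)
  rw [Finset.sum_insert (by simp), Finset.sum_insert (by simp), Finset.sum_insert (by simp),
    Finset.sum_singleton] at h
  omega

/-- Monomials outside the ideal in the top degrees. -/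
lemma outside {d k s : ℕ} (hd : 1 ≤ d) (hs : s < d)
    {w : Fin n →₀ ℕ} (hw : w.degree + s = (k - 1) * d + n * (d - 1)) (hfl : fl d w < k) :
    ∑ c, w c / d = k - 1 ∧ ∑ c, (d - 1 - w c % d) = s := by
  have h1 : ∀ c, w c = d * (w c / d) + w c % d := fun c => (Nat.div_add_mod _ _).symm
  have h2 : w.degree = d * (∑ c, w c / d) + ∑ c, w c % d := by
    rw [Finsupp.degree_eq_sum, Finset.mul_sum, ← Finset.sum_add_distrib]
    exact Finset.sum_congr rfl fun c _ => h1 c
  have h3 : ∑ c, w c % d + ∑ c, (d - 1 - w c % d) = n * (d - 1) := by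
    rw [← Finset.sum_add_distrib]
    have h4 : ∀ c : Fin n, w c % d + (d - 1 - w c % d) = d - 1 := by
      intro c
      have := Nat.mod_lt (w c) (show 0 < d by omega)
      omega
    rw [Finset.sum_congr rfl fun c _ => h4 c, Finset.sum_const, Finset.card_univ,
      Fintype.card_fin, smul_eq_mul]
  unfold fl at hfl
  obtain ⟨x, hx⟩ : ∃ x, k - 1 = (∑ c, w c / d) + x := ⟨k - 1 - ∑ c, w c / d, by omega⟩
  have h5 : (k - 1) * d = d * (∑ c, w c / d) + d * x := by
    rw [hx]
    ring
  have h6 : d * x + ∑ c, (d - 1 - w c % d) = s := by omega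
  have h7 : x = 0 := by
    by_contra hne
    have : d * 1 ≤ d * x := Nat.mul_le_mul_left _ (by omega)
    omega
  rw [h7] at h6 hx
  omega

lemma not_slp [CharZero K] (hn : 3 ≤ n) {d k s i : ℕ} (hd : 1 ≤ d) (hk : 1 ≤ k) (hs : s < d)
    (hi : i + 2 ≤ k * (s + 1)) (hiD : i + s < (k - 1) * d + n * (d - 1)) (hik : i < d * k)
    (F : List (Fin n × ℕ)) (hF : F.length ≤ i)
    (hvan : ∀ q ρ : Fin n → ℕ, ∑ c, q c = k - 1 → ∑ c, ρ c = s → (∀ c, ρ c < d) →
      ∃ p ∈ F, d * q p.1 + (d - 1) - ρ p.1 = p.2)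
    (hne : ∀ p ∈ F, p.2 ≠ 0 ∧ (p.1 = ⟨2, by omega⟩ → p.2 + s < (k - 1) * d + n * (d - 1))) :
    ¬ HasSLP (powIdeal K n d k) := by
  intro h
  rw [hasSLP_iff hd] at h
  rcases h i ((k - 1) * d + n * (d - 1) - s - i) (by omega) with h | h
  · refine not_inj hd F hF (by omega) hik ?_
      (Finsupp.single ⟨2, by omega⟩ ((k - 1) * d + n * (d - 1) - s)) ?_ ?_ h
    · intro w hw hfl
      obtain ⟨h1, h2⟩ := outside hd hs (by omega) hfl
      obtain ⟨p, hp, hpw⟩ := hvan (fun c => w c / d) (fun c => d - 1 - w c % d) h1 h2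
        (fun c => by omega)
      refine ⟨p, hp, ?_⟩
      rw [← hpw]
      have h3 := Nat.div_add_mod (w p.1) d
      have h4 := Nat.mod_lt (w p.1) (show 0 < d by omega)
      omega
    · rw [Finsupp.degree_single]
    · intro p hp
      obtain ⟨h1, h2⟩ := hne p hp
      rw [Finsupp.single_apply]
      split_ifs with h3
      · have := h2 h3.symm
        omega
      · exact fun h4 => h1 h4.symm
  · exact not_surj (by omega) hd hk hs hi (by omega) h

lemma neg_C1 [CharZero K] (hn : 3 ≤ n) {d k : ℕ} (hd : 2 ≤ d) (hk : 4 ≤ k) :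
    ¬ HasSLP (powIdeal K n d k) := by
  have hkd : (k - 1) * 2 ≤ (k - 1) * d := Nat.mul_le_mul_left _ hd
  have hnd : n * 1 ≤ n * (d - 1) := Nat.mul_le_mul_left _ (by omega)
  refine not_slp (s := 1) (i := 2 * k - 2) hn (by omega) (by omega) (by omega) (by omega)
    (by omega) ?_
    ((List.range ((k + 1) / 2)).map (fun l => ((⟨0, by omega⟩ : Fin n), d * l + (d - 1))) ++
      ((List.range ((k + 1) / 2)).map (fun l => ((⟨1, by omega⟩ : Fin n), d * l + (d - 1))) ++
      (List.range (k / 2)).map (fun l => ((⟨2, by omega⟩ : Fin n), d * l + (d - 1))))) ?_ ?_ ?_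
  · have : 2 * k ≤ d * k := Nat.mul_le_mul_right _ hd
    omega
  · simp only [List.length_append, List.length_map, List.length_range]
    omega
  · intro q ρ hq hρ hρd
    by_contra hcon
    push Not at hcon
    have h3 := sum3 hn q
    have h4 := sum3 hn ρ
    have g0 : ρ ⟨0, by omega⟩ = 0 → (k + 1) / 2 ≤ q ⟨0, by omega⟩ := by
      intro h0
      by_contra hlt
      refine hcon (⟨0, by omega⟩, d * q ⟨0, by omega⟩ + (d - 1)) ?_ (by simp only [h0]; omega)
      rw [List.mem_append]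
      left
      rw [List.mem_map]
      exact ⟨_, List.mem_range.2 (by omega), rfl⟩
    have g1 : ρ ⟨1, by omega⟩ = 0 → (k + 1) / 2 ≤ q ⟨1, by omega⟩ := by
      intro h0
      by_contra hlt
      refine hcon (⟨1, by omega⟩, d * q ⟨1, by omega⟩ + (d - 1)) ?_ (by simp only [h0]; omega)
      rw [List.mem_append, List.mem_append]
      right
      left
      rw [List.mem_map]
      exact ⟨_, List.mem_range.2 (by omega), rfl⟩
    have g2 : ρ ⟨2, by omega⟩ = 0 → k / 2 ≤ q ⟨2, by omega⟩ := by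
      intro h0
      by_contra hlt
      refine hcon (⟨2, by omega⟩, d * q ⟨2, by omega⟩ + (d - 1)) ?_ (by simp only [h0]; omega)
      rw [List.mem_append, List.mem_append]
      right
      right
      rw [List.mem_map]
      exact ⟨_, List.mem_range.2 (by omega), rfl⟩
    omega
  · intro p hp
    rw [List.mem_append, List.mem_append, List.mem_map, List.mem_map, List.mem_map] at hp
    rcases hp with ⟨l, hl, rfl⟩ | ⟨l, hl, rfl⟩ | ⟨l, hl, rfl⟩
    · refine ⟨by simp only; omega, fun h => ?_⟩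
      simp at h
    · refine ⟨by simp only; omega, fun h => ?_⟩
      simp at h
    · refine ⟨by simp only; omega, fun _ => ?_⟩
      rw [List.mem_range] at hl
      simp only
      have h1 : d * (l + 1) ≤ d * (k - 1) := Nat.mul_le_mul_left _ (by omega)
      rw [mul_comm (k - 1) d]
      rw [mul_add, mul_one] at h1
      omega

lemma neg_C1' [CharZero K] (hn : 4 ≤ n) {d : ℕ} (hd : 2 ≤ d) :
    ¬ HasSLP (powIdeal K n d 3) := by
  have hnd : 4 * (d - 1) ≤ n * (d - 1) := Nat.mul_le_mul_right _ (by omega)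
  refine not_slp (s := 1) (i := 4) (by omega) (by omega) (by omega) (by omega) (by omega)
    (by omega) (by omega)
    [(⟨0, by omega⟩, d - 1), (⟨1, by omega⟩, d - 1), (⟨2, by omega⟩, d - 1),
      (⟨3, by omega⟩, d - 1)] (by simp) ?_ ?_
  · intro q ρ hq hρ hρd
    by_contra hcon
    push Not at hcon
    have h3 := sum4 hn q
    have h4 := sum4 hn ρ
    have key : ∀ c : Fin n, (c, d - 1) ∈ ([(⟨0, by omega⟩, d - 1), (⟨1, by omega⟩, d - 1),
        (⟨2, by omega⟩, d - 1), (⟨3, by omega⟩, d - 1)] : List (Fin n × ℕ)) →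
        1 ≤ q c + ρ c := by
      intro c hc
      have h5 := hcon _ hc
      simp only at h5
      by_contra hlt
      have h6 : q c = 0 := by omega
      have h7 : ρ c = 0 := by omega
      rw [h6, h7] at h5
      omega
    have k0 := key ⟨0, by omega⟩ (by simp)
    have k1 := key ⟨1, by omega⟩ (by simp)
    have k2 := key ⟨2, by omega⟩ (by simp)
    have k3 := key ⟨3, by omega⟩ (by simp)
    omega
  · intro p hp
    simp only [List.mem_cons, List.not_mem_nil, or_false] at hp
    rcases hp with rfl | rfl | rfl | rfl <;> refine ⟨by simp only; omega, fun _ => ?_⟩ <;>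
      simp only <;> omega

lemma neg_C2 [CharZero K] (hn : 4 ≤ n) {d : ℕ} (hd : 3 ≤ d) :
    ¬ HasSLP (powIdeal K n d 2) := by
  have hnd : 4 * (d - 1) ≤ n * (d - 1) := Nat.mul_le_mul_right _ (by omega)
  refine not_slp (s := 2) (i := 4) (by omega) (by omega) (by omega) (by omega) (by omega)
    (by omega) (by omega)
    [(⟨0, by omega⟩, d - 1), (⟨1, by omega⟩, d - 1), (⟨2, by omega⟩, d - 1),
      (⟨3, by omega⟩, d - 1)] (by simp) ?_ ?_
  · intro q ρ hq hρ hρd
    by_contra hcon
    push Not at hcon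
    have h3 := sum4 hn q
    have h4 := sum4 hn ρ
    have key : ∀ c : Fin n, (c, d - 1) ∈ ([(⟨0, by omega⟩, d - 1), (⟨1, by omega⟩, d - 1),
        (⟨2, by omega⟩, d - 1), (⟨3, by omega⟩, d - 1)] : List (Fin n × ℕ)) →
        1 ≤ q c + ρ c := by
      intro c hc
      have h5 := hcon _ hc
      simp only at h5
      by_contra hlt
      have h6 : q c = 0 := by omega
      have h7 : ρ c = 0 := by omega
      rw [h6, h7] at h5
      omega
    have k0 := key ⟨0, by omega⟩ (by simp)
    have k1 := key ⟨1, by omega⟩ (by simp)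
    have k2 := key ⟨2, by omega⟩ (by simp)
    have k3 := key ⟨3, by omega⟩ (by simp)
    omega
  · intro p hp
    simp only [List.mem_cons, List.not_mem_nil, or_false] at hp
    rcases hp with rfl | rfl | rfl | rfl <;> refine ⟨by simp only; omega, fun _ => ?_⟩ <;>
      simp only <;> omega

lemma neg_C3 [CharZero K] {d : ℕ} (hd : 4 ≤ d) :
    ¬ HasSLP (powIdeal K 3 d 2) := by
  refine not_slp (s := 3) (i := 6) (by omega) (by omega) (by omega) (by omega) (by omega)
    (by omega) (by omega)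
    [(⟨0, by omega⟩, d - 1), (⟨1, by omega⟩, d - 1), (⟨2, by omega⟩, d - 1),
      (⟨0, by omega⟩, d - 2), (⟨1, by omega⟩, d - 2), (⟨2, by omega⟩, d - 2)] (by simp) ?_ ?_
  · intro q ρ hq hρ hρd
    by_contra hcon
    push Not at hcon
    have h3 := sum3 (le_refl 3) q
    have h4 := sum3 (le_refl 3) ρ
    have key : ∀ c : Fin 3, 1 ≤ q c ∨ 2 ≤ ρ c := by
      intro c
      have h5 : d * q c + (d - 1) - ρ c ≠ d - 1 := hcon (c, d - 1) (by
        fin_cases c <;> simp)
      have h6 : d * q c + (d - 1) - ρ c ≠ d - 2 := hcon (c, d - 2) (by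
        fin_cases c <;> simp)
      by_contra hlt
      have h7 : q c = 0 := by omega
      rw [h7] at h5 h6
      omega
    have k0 := key ⟨0, by omega⟩
    have k1 := key ⟨1, by omega⟩
    have k2 := key ⟨2, by omega⟩
    omega
  · intro p hp
    simp only [List.mem_cons, List.not_mem_nil, or_false] at hp
    rcases hp with rfl | rfl | rfl | rfl | rfl | rfl <;>
      refine ⟨by simp only; omega, fun _ => ?_⟩ <;> simp only <;> omega

lemma neg_C4 [CharZero K] {d : ℕ} (hd : 3 ≤ d) :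
    ¬ HasSLP (powIdeal K 3 d 3) := by
  refine not_slp (s := 2) (i := 7) (by omega) (by omega) (by omega) (by omega) (by omega)
    (by omega) (by omega)
    [(⟨0, by omega⟩, d - 1), (⟨1, by omega⟩, d - 1), (⟨2, by omega⟩, d - 1),
      (⟨0, by omega⟩, 2 * d - 1), (⟨1, by omega⟩, 2 * d - 1),
      (⟨0, by omega⟩, d - 2), (⟨1, by omega⟩, d - 2)] (by simp) ?_ ?_
  · intro q ρ hq hρ hρd
    by_contra hcon
    push Not at hcon
    have h3 := sum3 (le_refl 3) q
    have h4 := sum3 (le_refl 3) ρ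
    have key : ∀ c : Fin 3, c ≠ 2 → 2 ≤ q c + ρ c := by
      intro c hc
      have h5 : d * q c + (d - 1) - ρ c ≠ d - 1 := hcon (c, d - 1) (by
        fin_cases c <;> simp)
      have h6 : d * q c + (d - 1) - ρ c ≠ d - 2 := hcon (c, d - 2) (by
        fin_cases c
        · simp
        · simp
        · exact absurd rfl hc)
      have h7 : d * q c + (d - 1) - ρ c ≠ 2 * d - 1 := hcon (c, 2 * d - 1) (by
        fin_cases c
        · simp
        · simp
        · exact absurd rfl hc)
      by_contra hlt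
      have h8 : (q c = 0 ∧ ρ c = 0) ∨ (q c = 0 ∧ ρ c = 1) ∨ (q c = 1 ∧ ρ c = 0) := by omega
      rcases h8 with ⟨h8, h9⟩ | ⟨h8, h9⟩ | ⟨h8, h9⟩ <;> rw [h8, h9] at h5 h6 h7 <;> omega
    have k0 := key ⟨0, by omega⟩ (by simp)
    have k1 := key ⟨1, by omega⟩ (by simp)
    have k2 : 1 ≤ q ⟨2, by omega⟩ + ρ ⟨2, by omega⟩ := by
      have h5 : d * q ⟨2, by omega⟩ + (d - 1) - ρ ⟨2, by omega⟩ ≠ d - 1 :=
        hcon (⟨2, by omega⟩, d - 1) (by simp)
      by_contra hlt
      have h6 : q ⟨2, by omega⟩ = 0 := by omega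
      have h7 : ρ ⟨2, by omega⟩ = 0 := by omega
      rw [h6, h7] at h5
      omega
    omega
  · intro p hp
    simp only [List.mem_cons, List.not_mem_nil, or_false] at hp
    rcases hp with rfl | rfl | rfl | rfl | rfl | rfl | rfl <;>
      refine ⟨by simp only; omega, fun _ => ?_⟩ <;> simp only <;> omega

/-- The negative half of the classification. -/
theorem slp_neg [CharZero K] {d k : ℕ} (hd : 1 ≤ d) (hk : 1 ≤ k)
    (h : HasSLP (powIdeal K n d k)) :
    n ≤ 2 ∨ d = 1 ∨ k = 1 ∨ (d = 2 ∧ k = 2) ∨ (n = 3 ∧ d = 2 ∧ k = 3) ∨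
      (n = 3 ∧ d = 3 ∧ k = 2) := by
  by_contra hcon
  push Not at hcon
  obtain ⟨h1, h2, h3, h4, h5, h6⟩ := hcon
  rcases Nat.lt_or_ge k 4 with hk4 | hk4
  · rcases (by omega : k = 2 ∨ k = 3) with rfl | rfl
    · rcases Nat.lt_or_ge n 4 with hn4 | hn4
      · obtain rfl : n = 3 := by omega
        have : d ≠ 3 := fun hd3 => h6 rfl hd3 rfl
        have : d ≠ 2 := fun hd2 => h4 hd2 rfl
        exact neg_C3 (by omega) h
      · have : d ≠ 2 := fun hd2 => h4 hd2 rfl
        exact neg_C2 hn4 (by omega) h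
    · rcases Nat.lt_or_ge n 4 with hn4 | hn4
      · obtain rfl : n = 3 := by omega
        have : d ≠ 2 := fun hd2 => h5 rfl hd2 rfl
        exact neg_C4 (by omega) h
      · exact neg_C1' hn4 (by omega) h
  · exact neg_C1 (by omega) (by omega) hk4 h

end Pool.Agent.Helper720.Pow
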