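import Pool.Agent.Helper720.PowPosC
import Pool.Agent.Helper720.PowNegCases
import Pool.Agent.Helper720.LevelFour

set_option autoImplicit false

open MvPolynomial

namespace Pool.Agent.Helper720.Pow

open Level (Tri mon mon_surj mon_inj mon_degree allMon mem_allMon)

variable {K : Type*} [Field K]

/-- exponents of the monomials of degree `i` in three variables -/
def tri (i : ℕ) : List Tri :=
  (List.range (i + 1)).flatMap fun a => (List.range (i + 1 - a)).map fun b => (a, b, i - a - b)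

/-- those outside the ideal -/
def outl (d k t : ℕ) : List Tri :=
  (tri t).filter fun p => decide (p.1 / d + p.2.1 / d + p.2.2 / d < k)

/-- falling factorials -/
def ee (w m : Tri) : ℤ :=
  ((w.1.descFactorial m.1 * (w.2.1.descFactorial m.2.1 * w.2.2.descFactorial m.2.2) : ℕ) : ℤ)

/-- checks that the rows of `B` separate the unknowns -/
def chkInv (P Q : List Tri) (e : Tri → Tri → ℤ) (B : List (List ℤ)) : Bool :=
  decide (B.length = P.length) && decide P.Nodup && (P.zip B).all fun pr => P.all fun p =>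
    (decide (((pr.2.zip Q).map fun rq => rq.1 * e rq.2 p).sum = 0)) != decide (p = pr.1)

lemma mem_tri {i : ℕ} {p : Tri} : p ∈ tri i ↔ p.1 + p.2.1 + p.2.2 = i := by
  obtain ⟨a, b, c⟩ := p
  unfold tri
  simp only [List.mem_flatMap, List.mem_range, List.mem_map, Prod.mk.injEq]
  constructor
  · rintro ⟨a', ha', b', hb', h1, h2, h3⟩
    omega
  · intro h
    exact ⟨a, by omega, b, by omega, rfl, rfl, by omega⟩

lemma mem_outl {d k t : ℕ} {p : Tri} : p ∈ outl d k t ↔ (mon p).degree = t ∧ fl d (mon p) < k := by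
  unfold outl
  rw [List.mem_filter, mem_tri, mon_degree, decide_eq_true_eq]
  unfold fl
  rw [Fin.sum_univ_three]
  rfl

lemma ff_mon (w m : Tri) : ((ff (mon w) (mon m) : ℕ) : ℤ) = ee w m := by
  unfold ff ee
  rw [Fin.prod_univ_three, mul_assoc]
  rfl

lemma swap_sum (x : Tri → K) (P : List Tri) (e : Tri → Tri → ℤ) (L : List (ℤ × Tri)) :
    (L.map fun rq => (rq.1 : K) * (P.map fun p => (e rq.2 p : K) * x p).sum).sum =
      (P.map fun p => (((L.map fun rq => rq.1 * e rq.2 p).sum : ℤ) : K) * x p).sum := by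
  induction L with
  | nil => simp
  | cons a L ih =>
    simp only [List.map_cons, List.sum_cons]
    rw [ih, ← List.sum_map_mul_left, ← List.sum_map_add]
    congr 1
    refine List.map_congr_left fun p _ => ?_
    push_cast
    ring

lemma chk_sound [CharZero K] {P Q : List Tri} {e : Tri → Tri → ℤ} {B : List (List ℤ)}
    (h : chkInv P Q e B = true) (x : Tri → K)
    (hx : ∀ q ∈ Q, (P.map fun p => (e q p : K) * x p).sum = 0) : ∀ p ∈ P, x p = 0 := by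
  classical
  unfold chkInv at h
  rw [Bool.and_eq_true, Bool.and_eq_true, decide_eq_true_eq, decide_eq_true_eq,
    List.all_eq_true] at h
  obtain ⟨⟨hlen, hnd⟩, hall⟩ := h
  intro p hp
  obtain ⟨l, hl, rfl⟩ := List.getElem_of_mem hp
  have hmem : (P[l], B[l]'(by omega)) ∈ P.zip B := by
    rw [List.mem_iff_getElem]
    exact ⟨l, by rw [List.length_zip]; omega, by rw [List.getElem_zip]⟩
  have h1 := hall _ hmem
  rw [List.all_eq_true] at h1
  set L := (B[l]'(by omega)).zip Q with hL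
  have h2 := swap_sum x P e L
  have h3 : (L.map fun rq => (rq.1 : K) * (P.map fun p => (e rq.2 p : K) * x p).sum).sum = 0 := by
    apply List.sum_eq_zero
    intro y hy
    rw [List.mem_map] at hy
    obtain ⟨rq, hrq, rfl⟩ := hy
    rw [hx rq.2 (List.of_mem_zip hrq).2, mul_zero]
  rw [h3, ← List.sum_toFinset _ hnd, Finset.sum_eq_single P[l]] at h2
  · have h4 := h1 P[l] hp
    simp only [bne_iff_ne, ne_eq, decide_eq_decide, iff_true] at h4
    have h5 : (((L.map fun rq => rq.1 * e rq.2 P[l]).sum : ℤ) : K) ≠ 0 := by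
      exact_mod_cast h4
    exact (mul_eq_zero.1 h2.symm).resolve_left h5
  · intro b hb hbp
    have h4 := h1 b (List.mem_toFinset.1 hb)
    simp only [bne_iff_ne, ne_eq, decide_eq_decide, not_iff] at h4
    have h5 : (L.map fun rq => rq.1 * e rq.2 b).sum = 0 := by
      by_contra hne
      exact hbp (h4.1 hne)
    rw [h5, Int.cast_zero, zero_mul]
  · intro hne
    exact absurd (List.mem_toFinset.2 hp) hne

lemma sum_eq_list (P : List Tri) (hP : P.Nodup) (S : Finset (Fin 3 →₀ ℕ))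
    (F : (Fin 3 →₀ ℕ) → K) (h1 : ∀ w ∈ S, F w ≠ 0 → ∃ p ∈ P, w = mon p)
    (h2 : ∀ p ∈ P, F (mon p) ≠ 0 → mon p ∈ S) :
    ∑ w ∈ S, F w = (P.map fun p => F (mon p)).sum := by
  classical
  have h3 : (P.map fun p => F (mon p)).sum = ((P.map mon).map F).sum := by
    rw [List.map_map]
    rfl
  have h4 : (P.map mon).Nodup := hP.map fun _ _ => mon_inj
  rw [h3, ← List.sum_toFinset _ h4]
  refine Finset.sum_congr_of_eq_on_inter ?_ ?_ fun _ _ _ => rfl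
  · intro w hw hne
    by_contra hF
    obtain ⟨p, hp, rfl⟩ := h1 w hw hF
    exact hne (List.mem_toFinset.2 (List.mem_map.2 ⟨p, hp, rfl⟩))
  · intro w hw hne
    by_contra hF
    obtain ⟨p, hp, rfl⟩ := List.mem_map.1 (List.mem_toFinset.1 hw)
    exact hne (h2 p hp hF)

lemma chk_nodup {P Q : List Tri} {e : Tri → Tri → ℤ} {B : List (List ℤ)}
    (h : chkInv P Q e B = true) : P.Nodup := by
  unfold chkInv at h
  rw [Bool.and_eq_true, Bool.and_eq_true, decide_eq_true_eq, decide_eq_true_eq] at h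
  exact h.1.2

lemma inj_cert [CharZero K] {d k i j : ℕ} (hd : 1 ≤ d) {B : List (List ℤ)}
    (h : chkInv (tri i) (outl d k (i + j)) ee B = true) : InjAt K 3 d k i j := by
  classical
  intro f hf hJ
  rw [mem_powIdeal hd] at hJ
  have h0 := chk_sound h (fun p => coeff (mon p) f) (by
    intro q hq
    obtain ⟨hqd, hqfl⟩ := mem_outl.1 hq
    have h1 := hJ _ hqfl
    rw [coeff_mul_sum] at h1
    have h2 : ∑ m ∈ f.support, (ff (mon q) m : K) * coeff m f = 0 := by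
      have hj : (j.factorial : K) ≠ 0 := Nat.cast_ne_zero.2 (Nat.factorial_ne_zero j)
      apply (mul_eq_zero.1 _).resolve_left hj
      rw [Finset.mul_sum, ← mul_zero (fact (mon q) : K), ← h1, Finset.mul_sum]
      refine Finset.sum_congr rfl fun m hm => ?_
      have h3 := coeff_el_pow (K := K) j m (mon q) (by
        rw [degree_of_coeff hf (mem_support_iff.1 hm), hqd, add_comm])
      rw [mul_left_comm (fact (mon q) : K), h3]
      ring
    rw [← h2, sum_eq_list (tri i) (chk_nodup h)]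
    · refine congrArg List.sum (List.map_congr_left fun p _ => ?_)
      rw [← ff_mon]
      push_cast
      rfl
    · intro w hw _
      refine ⟨(w 0, w 1, w 2), ?_, (mon_surj w).symm⟩
      rw [mem_tri]
      have h3 := degree_of_coeff hf (mem_support_iff.1 hw)
      rw [Finsupp.degree_eq_sum, Fin.sum_univ_three] at h3
      exact h3
    · intro p _ hne
      exact mem_support_iff.2 (right_ne_zero_of_mul hne))
  have h1 : f = 0 := by
    ext m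
    rw [coeff_zero]
    by_contra hne
    have h3 := degree_of_coeff hf hne
    rw [Finsupp.degree_eq_sum, Fin.sum_univ_three] at h3
    apply hne
    rw [← mon_surj m]
    exact h0 _ (mem_tri.2 h3)
  rw [h1]
  exact Ideal.zero_mem _

lemma surj_cert [CharZero K] {d k i j : ℕ} (hd : 1 ≤ d) {B : List (List ℤ)}
    (h : chkInv (outl d k (i + j)) (tri i) (fun q p => ee p q) B = true) :
    SurjAt K 3 d k i j := by
  classical
  apply surj_of_dual hd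
  intro c hc hsum
  have h0 := chk_sound h (fun p => c (mon p) / (fact (mon p) : K)) (by
    intro q hq
    rw [mem_tri] at hq
    have h1 := hsum (mon q) (by rw [mon_degree, hq])
    rw [sum_eq_list (outl d k (i + j)) (chk_nodup h)] at h1
    · have hj : (j.factorial : K) ≠ 0 := Nat.cast_ne_zero.2 (Nat.factorial_ne_zero j)
      apply (mul_eq_zero.1 _).resolve_left hj
      rw [← h1, ← List.sum_map_mul_left]
      refine congrArg List.sum (List.map_congr_left fun p hp => ?_)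
      have h3 := coeff_el_pow (K := K) j (mon q) (mon p) (by
        rw [(mem_outl.1 hp).1, mon_degree, hq, add_comm])
      have hfp : (fact (mon p) : K) ≠ 0 := Nat.cast_ne_zero.2 (fact_ne_zero _)
      have h4 : coeff (mon p) (el K 3 ^ j * monomial (mon q) 1) =
          (j.factorial : K) * (ff (mon p) (mon q) : K) / fact (mon p) := by
        rw [eq_div_iff hfp, mul_comm]
        exact h3
      rw [h4, ← ff_mon]
      push_cast
      ring
    · intro w hw hne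
      obtain ⟨h3, h4⟩ := hc w (right_ne_zero_of_mul hne)
      refine ⟨(w 0, w 1, w 2), ?_, (mon_surj w).symm⟩
      rw [mem_outl, mon_surj]
      exact ⟨h3, h4⟩
    · intro p hp _
      rw [mem_allMon]
      exact (mem_outl.1 hp).1)
  intro w
  by_contra hne
  obtain ⟨h3, h4⟩ := hc w hne
  have h5 := h0 (w 0, w 1, w 2) (by
    rw [mem_outl, mon_surj]
    exact ⟨h3, h4⟩)
  simp only [mon_surj] at h5
  rw [div_eq_zero_iff] at h5
  rcases h5 with h5 | h5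
  · exact hne h5
  · exact (Nat.cast_ne_zero.2 (fact_ne_zero w)) h5

def B23i27 : List (List ℤ) := [[24, -12, 3, -12, 2, 3],
  [-15, 60, -15, -10, -10, 6],
  [3, -12, 24, 2, -12, 3],
  [-15, -10, 6, 60, -10, -15],
  [6, -10, -15, -10, 60, -15],
  [3, 2, 3, -12, -12, 24]]

set_option maxRecDepth 100000 in
lemma B23i27_ok : chkInv (tri 2) (outl 2 3 7) ee B23i27 = true := by decide +kernel

def B23i46 : List (List ℤ) := [[15, -10, 3, 15, -30, 0, 30, -15, 0, 0, 0, -10, 30, -30, 10, 0, 0, 0],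
  [9, 10, -3, -15, 30, 0, -30, 15, 0, 0, 0, 10, -30, 30, -10, 0, 0, 0],
  [-1, 10, -1, 5, -20, 30, -20, 5, 0, 0, 0, 0, 0, 0, 0, 0, 0, 0],
  [-3, 10, 9, -15, 90, -180, 150, -45, 0, 0, 0, -10, 30, -30, 10, 0, 0, 0],
  [3, -10, 15, 15, -90, 180, -150, 45, 0, 0, 0, 10, -30, 30, -10, 0, 0, 0],
  [-15, 10, -3, 9, 30, 0, -30, 15, 0, 0, 0, 10, -30, 30, -10, 0, 0, 0],
  [-1, -10, 3, -1, 10, 0, 30, -15, 0, 0, 0, -10, 30, -30, 10, 0, 0, 0],
  [3, -10, -1, -1, -10, 20, 10, 5, 0, 0, 0, 10, -30, 30, -10, 0, 0, 0],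
  [-3, 10, -15, 9, -30, 60, -90, 75, 0, 0, 0, -10, 30, -30, 10, 0, 0, 0],
  [5, 0, -1, -1, -20, 0, 0, 5, 0, 30, -10, 10, -20, 10, 0, 0, 0, 0],
  [-1, 10, -1, 3, -10, 0, -30, 5, 0, 20, 20, -10, 10, 10, -10, 0, 0, 0],
  [-1, 0, 5, -1, 10, -10, 10, -25, 0, -10, 30, 0, 10, -20, 10, 0, 0, 0],
  [-15, -10, 9, -3, 90, 0, 30, -45, 0, -180, 60, 10, 150, -90, 10, 0, 0, 0],
  [9, -10, -15, -3, -30, 0, 30, 75, 0, 60, -180, 10, -90, 150, 10, 0, 0, 0],
  [15, 10, 15, 3, -90, 0, -30, -75, 0, 180, 180, -10, -150, -150, -10, 120, 0, 0]]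

set_option maxRecDepth 100000 in
lemma B23i46_ok : chkInv (tri 4) (outl 2 3 6) ee B23i46 = true := by decide +kernel

def B23s27 : List (List ℤ) := [[8, -5, 1, -5, 2, 1],
  [-6, 30, -6, -5, -5, 1],
  [1, -5, 8, 2, -5, 1],
  [-6, -5, 1, 30, -5, -6],
  [1, -5, -6, -5, 30, -6],
  [1, 2, 1, -5, -5, 8]]

set_option maxRecDepth 100000 in
lemma B23s27_ok : chkInv (outl 2 3 7) (tri 2) (fun q p => ee p q) B23s27 = true := by
  decide +kernel

def B23s56 : List (List ℤ) := [[1, 1, 0, 0, 0, 0, -1, 0, 0, 0, 0, 0, 0, 0, 0, 0, 0, 0, 0, 0, 0],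
  [0, 0, 1, 1, 0, 0, 0, 0, -1, 0, 0, 0, 0, 0, 0, 0, 0, 0, 0, 0, 0],
  [0, 0, 0, 0, 1, 1, 0, 0, 0, 0, -1, 0, 0, 0, 0, 0, 0, 0, 0, 0, 0],
  [1, -1, 0, 0, 0, 0, 1, 0, 0, 0, 0, 0, 0, 0, 0, 0, 0, 0, 0, 0, 0],
  [-1, 1, 0, 0, 0, 0, 1, 0, 0, 0, 0, 0, 0, 0, 0, 0, 0, 0, 0, 0, 0],
  [0, 0, 1, -1, 0, 0, 0, 0, 1, 0, 0, 0, 0, 0, 0, 0, 0, 0, 0, 0, 0],
  [0, 0, -1, 1, 0, 0, 0, 0, 1, 0, 0, 0, 0, 0, 0, 0, 0, 0, 0, 0, 0],
  [0, 0, 0, 0, 1, -1, 0, 0, 0, 0, 1, 0, 0, 0, 0, 0, 0, 0, 0, 0, 0],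
  [0, 0, 0, 0, -1, 1, 0, 0, 0, 0, 1, 0, 0, 0, 0, 0, 0, 0, 0, 0, 0],
  [1, -1, -1, 1, 0, 0, -1, 2, -1, 0, 0, 0, 0, 0, 0, 0, 0, 0, 0, 0, 0],
  [0, 0, 1, -1, -1, 1, 0, 0, -1, 2, -1, 0, 0, 0, 0, 0, 0, 0, 0, 0, 0],
  [-1, 1, 1, -1, 0, 0, 1, -2, 1, 0, 0, 2, 0, 0, 0, 0, 0, 0, 0, 0, 0],
  [-1, 1, 1, -1, 0, 0, 1, -2, 1, 0, 0, 0, 2, 0, 0, 0, 0, 0, 0, 0, 0],
  [0, 0, -1, 1, 1, -1, 0, 0, 1, -2, 1, 0, 0, 2, 0, 0, 0, 0, 0, 0, 0],
  [0, 0, -1, 1, 1, -1, 0, 0, 1, -2, 1, 0, 0, 0, 2, 0, 0, 0, 0, 0, 0],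
  [1, -1, 0, 0, -1, 1, -1, 2, -2, 2, -1, 0, -2, -2, 0, 0, 2, 0, 0, 0, 0],
  [-1, 1, 0, 0, 1, -1, 1, -2, 2, -2, 1, 0, 2, 2, 0, 0, -2, 0, 2, 0, 0],
  [-1, 1, 0, 0, 1, -1, 1, -2, 2, -2, 1, 0, 2, 2, 0, 0, -2, 0, 0, 2, 0]]

set_option maxRecDepth 100000 in
lemma B23s56_ok : chkInv (outl 2 3 6) (tri 5) (fun q p => ee p q) B23s56 = true := by
  decide +kernel

def B32i19 : List (List ℤ) := [[7, -2, -2],
  [-2, 7, -2],
  [-2, -2, 7]]

set_option maxRecDepth 100000 in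
lemma B32i19_ok : chkInv (tri 1) (outl 3 2 9) ee B32i19 = true := by decide +kernel

def B32i28 : List (List ℤ) := [[12, -4, 12, -27, 9, 0, 1, 0, 0],
  [4, 4, -16, 21, -11, 0, 1, 0, 0],
  [-4, 12, 12, -15, -3, 0, 1, 0, 0],
  [-16, 4, 4, 21, -7, 0, -3, 0, 0],
  [4, -16, 4, -15, 29, 0, -3, 0, 0],
  [12, 12, -4, -15, -23, 0, 21, 0, 0]]

set_option maxRecDepth 100000 in
lemma B32i28_ok : chkInv (tri 2) (outl 3 2 8) ee B32i28 = true := by decide +kernel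

def B32i47 : List (List ℤ) := [[15, 1, 60, -120, 20, -10, 15, -120, 270, -90, 25, 0, -100, 25, 25, 0, -10, 0],
  [25, -3, -40, 80, -60, 30, -45, 220, -390, 270, -75, 0, 20, -5, -5, 0, 2, 0],
  [1, 1, -10, 20, 20, -10, 15, -50, 60, -90, 25, 0, 40, -10, -10, 0, 4, 0],
  [-3, 25, 30, -60, 80, -40, -45, 150, -180, 60, -5, 0, 20, -5, -5, 0, 2, 0],
  [1, 15, -10, 20, -120, 60, 15, -50, 60, 120, -45, 0, -100, 25, 25, 0, -10, 0],
  [-45, -3, -40, 220, 10, 2, 25, 80, -390, -10, -5, 0, 300, -75, -75, 0, 30, 0],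
  [-5, 2, 22, -30, 5, -6, -5, -30, 120, -40, 15, 0, -60, 15, 15, 0, -6, 0],
  [2, -5, -6, 5, -30, 22, -5, 40, -90, 170, -55, 0, -60, 15, 15, 0, -6, 0],
  [-3, -45, 2, 10, 220, -40, 25, -130, 240, -640, 205, 0, 300, -75, -75, 0, 30, 0],
  [15, 1, -10, -50, -15, 4, 1, 20, 60, 50, -10, 0, -100, 25, 25, 0, -10, 0],
  [-5, -5, -6, 40, 40, -6, 2, 5, -90, -110, 15, 0, 220, -55, -55, 0, 22, 0],
  [1, 15, 4, -15, -50, -10, 1, -15, 60, 50, 25, 0, -100, 25, 25, 0, -10, 0],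
  [-45, 25, 30, 150, -130, 2, -3, -60, -180, 270, -5, 0, -190, 205, -5, 0, -40, 0],
  [25, -45, 2, -130, 150, 30, -3, 10, 240, -150, -75, 0, -190, -5, 205, 0, -40, 0],
  [15, 15, -10, -50, -50, -10, 1, 20, 60, 50, 25, 0, -30, -45, -45, 0, 60, 0]]

set_option maxRecDepth 100000 in
lemma B32i47_ok : chkInv (tri 4) (outl 3 2 7) ee B32i47 = true := by decide +kernel

def B32i56 : List (List ℤ) := [[10, -10, 5, -2, 8, -30, 40, -20, 0, 2, -5, 20, -30, 20, -5, 0, 0, 0, 0, 0, 0, 0],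
  [8, 10, -5, 2, -8, 30, -40, 20, 0, -2, 5, -20, 30, -20, 5, 0, 0, 0, 0, 0, 0, 0],
  [-8, 35, 5, -2, 8, -30, 40, -20, 0, 2, -5, 20, -30, 20, -5, 0, 0, 0, 0, 0, 0, 0],
  [-2, 5, 35, -8, 2, 0, -20, 40, -30, 8, -5, 20, -30, 20, -5, 0, 0, 0, 0, 0, 0, 0],
  [2, -5, 10, 8, -2, 0, 20, -40, 30, -8, 5, -20, 30, -20, 5, 0, 0, 0, 0, 0, 0, 0],
  [-2, 5, -10, 10, 2, 0, -20, 40, -30, 8, -5, 20, -30, 20, -5, 0, 0, 0, 0, 0, 0, 0],
  [-10, 10, -5, 2, 10, 30, -40, 20, 0, -2, 5, -20, 30, -20, 5, 0, 0, 0, 0, 0, 0, 0],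
  [1, -10, 5, -2, -1, 15, 40, -20, 0, 2, -5, 20, -30, 20, -5, 0, 0, 0, 0, 0, 0, 0],
  [2, -5, -5, 2, -2, 0, 20, 20, 0, -2, 5, -20, 30, -20, 5, 0, 0, 0, 0, 0, 0, 0],
  [-2, 5, -10, 1, 2, 0, -20, 40, 15, -1, -5, 20, -30, 20, -5, 0, 0, 0, 0, 0, 0, 0],
  [2, -5, 10, -10, -2, 0, 20, -40, 30, 10, 5, -20, 30, -20, 5, 0, 0, 0, 0, 0, 0, 0],
  [10, -10, 5, -2, -10, -30, 40, -20, 0, 2, 40, 20, -30, 20, -5, 0, 0, 0, 0, 0, 0, 0],
  [-4, 10, -5, 2, 4, 0, -40, 20, 0, -2, -10, 40, 30, -20, 5, 0, 0, 0, 0, 0, 0, 0],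
  [2, -5, 10, -4, -2, 0, 20, -40, 0, 4, 5, -20, 30, 40, -10, 0, 0, 0, 0, 0, 0, 0],
  [-2, 5, -10, 10, 2, 0, -20, 40, -30, -10, -5, 20, -30, 20, 40, 0, 0, 0, 0, 0, 0, 0],
  [10, -25, 20, -8, -10, 0, 100, -80, 0, 8, 25, -100, -30, 80, -20, 120, -60, 15, -30, 15, 0, 0],
  [2, -5, -5, 2, -2, 0, 20, 20, 0, -2, 5, -20, -60, -20, 5, 60, 60, -15, 30, -15, 0, 0],
  [-8, 20, -25, 10, 8, 0, -80, 100, 0, -10, -20, 80, -30, -100, 25, -60, 120, 15, -30, 15, 0, 0],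
  [-10, 25, -20, 8, 10, 0, -100, 80, 0, -8, -25, 100, 30, -80, 20, -120, 60, 30, 30, -15, 0, 0],
  [8, -20, 25, -10, -8, 0, 80, -100, 0, 10, 20, -80, 30, 100, -25, 60, -120, -15, 30, 30, 0, 0],
  [10, -25, 20, -8, -10, 0, 100, -80, 0, 8, 25, -100, -30, 80, -20, 120, -60, -30, -30, 15, 18,
    0]]

set_option maxRecDepth 100000 in
lemma B32i56_ok : chkInv (tri 5) (outl 3 2 6) ee B32i56 = true := by decide +kernel

def B32s19 : List (List ℤ) := [[7, -2, -2],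
  [-2, 7, -2],
  [-2, -2, 7]]

set_option maxRecDepth 100000 in
lemma B32s19_ok : chkInv (outl 3 2 9) (tri 1) (fun q p => ee p q) B32s19 = true := by
  decide +kernel

def B32s38 : List (List ℤ) := [[12, 5, -5, 2, -25, 14, -3, 5, -5, 0],
  [2, -5, 5, 12, -3, 14, -25, -5, 5, 0],
  [30, -65, 25, -6, 25, 6, -5, -5, 1, 0],
  [-102, 125, -25, 0, 125, -120, 35, -25, 35, 0],
  [0, -25, 125, -102, 35, -120, 125, 35, -25, 0],
  [-6, 25, -65, 30, -5, 6, 25, 1, -5, 0],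
  [34, -45, -45, 34, -65, 164, -65, -15, -15, 0],
  [-10, 17, 15, -12, 15, -58, 25, 25, -5, 0],
  [-12, 15, 17, -10, 25, -58, 15, -5, 25, 0]]

set_option maxRecDepth 100000 in
lemma B32s38_ok : chkInv (outl 3 2 8) (tri 3) (fun q p => ee p q) B32s38 = true := by
  decide +kernel

def B32s57 : List (List ℤ) := [[1, 2, 1, 0, 0, 0, -2, -2, 0, 0, 0, 3, 0, 0, 0, 0, 0, 0, 0, 0, 0],
  [0, 0, 0, 1, 2, 1, 0, 0, 0, -2, -2, 0, 0, 0, 3, 0, 0, 0, 0, 0, 0],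
  [1, 0, -1, 0, 0, 0, 0, 1, 0, 0, 0, -1, 0, 0, 0, 0, 0, 0, 0, 0, 0],
  [-1, 0, 1, 0, 0, 0, 1, 0, 0, 0, 0, -1, 0, 0, 0, 0, 0, 0, 0, 0, 0],
  [0, 0, 0, 1, 0, -1, 0, 0, 0, 0, 1, 0, 0, 0, -1, 0, 0, 0, 0, 0, 0],
  [0, 0, 0, -1, 0, 1, 0, 0, 0, 1, 0, 0, 0, 0, -1, 0, 0, 0, 0, 0, 0],
  [1, -2, 3, 0, 0, 0, 2, -2, 0, 0, 0, 1, 0, 0, 0, 0, 0, 0, 0, 0, 0],
  [-1, 1, -1, 0, 0, 0, 0, 0, 0, 0, 0, 1, 0, 0, 0, 0, 0, 0, 0, 0, 0],
  [3, -2, 1, 0, 0, 0, -2, 2, 0, 0, 0, 1, 0, 0, 0, 0, 0, 0, 0, 0, 0],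
  [0, 0, 0, 1, -2, 3, 0, 0, 0, 2, -2, 0, 0, 0, 1, 0, 0, 0, 0, 0, 0],
  [0, 0, 0, -1, 1, -1, 0, 0, 0, 0, 0, 0, 0, 0, 1, 0, 0, 0, 0, 0, 0],
  [0, 0, 0, 3, -2, 1, 0, 0, 0, -2, 2, 0, 0, 0, 1, 0, 0, 0, 0, 0, 0],
  [-2, 2, -2, -2, 2, -2, 1, -2, 3, -2, 1, 0, 0, 0, 0, 0, 0, 0, 0, 0, 0],
  [4, -6, 8, 7, -6, 5, 0, 4, -12, 6, -2, -4, 6, 0, -1, 0, 0, 0, 0, 0, 0],
  [5, -6, 7, 8, -6, 4, -2, 6, -12, 4, 0, -1, 0, 6, -4, 0, 0, 0, 0, 0, 0],
  [-2, 4, -6, -5, 4, -3, -1, -2, 9, -4, 1, 4, -6, 0, 1, 3, 0, 0, 0, 0, 0],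
  [-5, 8, -11, -11, 8, -5, 0, -6, 18, -6, 0, 5, -6, -6, 5, 0, 3, 0, 0, 0, 0],
  [-3, 4, -5, -6, 4, -2, 1, -4, 9, -2, -1, 1, 0, -6, 4, 0, 0, 3, 0, 0, 0]]

set_option maxRecDepth 100000 in
lemma B32s57_ok : chkInv (outl 3 2 7) (tri 5) (fun q p => ee p q) B32s57 = true := by
  decide +kernel

lemma down_to {n d k i i' t : ℕ} (hn : 1 ≤ n) (hd : 1 ≤ d) (hii : i ≤ i') (hit : i' ≤ t)
    (hi : i' < d * k) (h : InjAt K n d k i' (t - i')) : InjAt K n d k i (t - i) := by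
  obtain ⟨r, rfl⟩ := exists_add_of_le hii
  have h1 := InjAt.down hn hd hi h
  rwa [show r + (t - (i + r)) = t - i by omega] at h1

lemma up_to {n d k i i' t : ℕ} (hii : i' ≤ i) (hit : i ≤ t)
    (h : SurjAt K n d k i' (t - i')) : SurjAt K n d k i (t - i) := by
  obtain ⟨r, rfl⟩ := exists_add_of_le hii
  rw [show t - i' = (t - (i' + r)) + r by omega] at h
  exact h.mono

theorem slp_323 [CharZero K] : HasSLP (powIdeal K 3 2 3) := by
  rw [hasSLP_iff (by norm_num)]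
  have i27 : InjAt K 3 2 3 2 (7 - 2) := inj_cert (by norm_num) B23i27_ok
  have i46 : InjAt K 3 2 3 4 (6 - 4) := inj_cert (by norm_num) B23i46_ok
  have s27 : SurjAt K 3 2 3 2 (7 - 2) := surj_cert (by norm_num) B23s27_ok
  have s56 : SurjAt K 3 2 3 5 (6 - 5) := surj_cert (by norm_num) B23s56_ok
  intro i j hj
  obtain ⟨t, ht⟩ : ∃ t, t = i + j := ⟨_, rfl⟩
  obtain rfl : j = t - i := by omega
  rcases Nat.lt_or_ge t 6 with h | h
  · exact Or.inl (inj_low (by norm_num) (by norm_num) (by omega))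
  rcases Nat.lt_or_ge 7 t with h' | h'
  · exact Or.inr (surj_high (by norm_num) (by norm_num) (by omega))
  rcases (by omega : t = 6 ∨ t = 7) with rfl | rfl
  · rcases Nat.lt_or_ge i 5 with hi | hi
    · exact Or.inl (down_to (by norm_num) (by norm_num) (by omega) (by norm_num) (by norm_num) i46)
    · exact Or.inr (up_to hi (by omega) s56)
  · rcases Nat.lt_or_ge i 3 with hi | hi
    · exact Or.inl (down_to (by norm_num) (by norm_num) (by omega) (by norm_num) (by norm_num) i27)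
    · exact Or.inr (up_to (by omega) (by omega) s27)

theorem slp_332 [CharZero K] : HasSLP (powIdeal K 3 3 2) := by
  rw [hasSLP_iff (by norm_num)]
  have i19 : InjAt K 3 3 2 1 (9 - 1) := inj_cert (by norm_num) B32i19_ok
  have i28 : InjAt K 3 3 2 2 (8 - 2) := inj_cert (by norm_num) B32i28_ok
  have i47 : InjAt K 3 3 2 4 (7 - 4) := inj_cert (by norm_num) B32i47_ok
  have i56 : InjAt K 3 3 2 5 (6 - 5) := inj_cert (by norm_num) B32i56_ok
  have s19 : SurjAt K 3 3 2 1 (9 - 1) := surj_cert (by norm_num) B32s19_ok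
  have s38 : SurjAt K 3 3 2 3 (8 - 3) := surj_cert (by norm_num) B32s38_ok
  have s57 : SurjAt K 3 3 2 5 (7 - 5) := surj_cert (by norm_num) B32s57_ok
  intro i j hj
  obtain ⟨t, ht⟩ : ∃ t, t = i + j := ⟨_, rfl⟩
  obtain rfl : j = t - i := by omega
  rcases Nat.lt_or_ge t 6 with h | h
  · exact Or.inl (inj_low (by norm_num) (by norm_num) (by omega))
  rcases Nat.lt_or_ge 9 t with h' | h'
  · exact Or.inr (surj_high (by norm_num) (by norm_num) (by omega))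
  rcases (by omega : t = 6 ∨ t = 7 ∨ t = 8 ∨ t = 9) with rfl | rfl | rfl | rfl
  · exact Or.inl (down_to (by norm_num) (by norm_num) (by omega) (by norm_num) (by norm_num) i56)
  · rcases Nat.lt_or_ge i 5 with hi | hi
    · exact Or.inl (down_to (by norm_num) (by norm_num) (by omega) (by norm_num) (by norm_num) i47)
    · exact Or.inr (up_to hi (by omega) s57)
  · rcases Nat.lt_or_ge i 3 with hi | hi
    · exact Or.inl (down_to (by norm_num) (by norm_num) (by omega) (by norm_num) (by norm_num) i28)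
    · exact Or.inr (up_to hi (by omega) s38)
  · rcases Nat.lt_or_ge i 2 with hi | hi
    · exact Or.inl (down_to (by norm_num) (by norm_num) (by omega) (by norm_num) (by norm_num) i19)
    · exact Or.inr (up_to (by omega) (by omega) s19)

/-- The classification. -/
theorem slp_classification [CharZero K] {n d k : ℕ} (hn : 1 ≤ n) (hd : 1 ≤ d) (hk : 1 ≤ k) :
    HasSLP (powIdeal K n d k) ↔
      n ≤ 2 ∨ d = 1 ∨ k = 1 ∨ (d = 2 ∧ k = 2) ∨ (n = 3 ∧ d = 2 ∧ k = 3) ∨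
        (n = 3 ∧ d = 3 ∧ k = 2) := by
  constructor
  · exact slp_neg hd hk
  · rintro (h | rfl | rfl | ⟨rfl, rfl⟩ | ⟨rfl, rfl, rfl⟩ | ⟨rfl, rfl, rfl⟩)
    · rcases (by omega : n = 1 ∨ n = 2) with rfl | rfl
      · exact slp_n1 hd
      · exact slp_n2 hd
    · exact slp_d1 hn
    · exact slp_k1 hd
    · exact slp_22 hn
    · exact slp_323
    · exact slp_332

end Pool.Agent.Helper720.Pow
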