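import Mathlib

set_option autoImplicit false

open MvPolynomial

namespace Pool.Agent.Helper720.Pow

/-- The graded algebra `R / J` has the strong Lefschetz property: for some linear form `L`, every
multiplication map by `L ^ j` from degree `i` to degree `i + j`, `j ≥ 1`, is injective or
surjective. -/
def HasSLP {K : Type*} [Field K] {n : ℕ} (J : Ideal (MvPolynomial (Fin n) K)) : Prop :=
  ∃ L : MvPolynomial (Fin n) K, L.IsHomogeneous 1 ∧ ∀ i j : ℕ, 1 ≤ j →
    (∀ f : MvPolynomial (Fin n) K, f.IsHomogeneous i → L ^ j * f ∈ J → f ∈ J) ∨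
    (∀ g : MvPolynomial (Fin n) K, g.IsHomogeneous (i + j) →
      ∃ f : MvPolynomial (Fin n) K, f.IsHomogeneous i ∧ g - L ^ j * f ∈ J)

/-- The ideal `(x_1 ^ d, …, x_n ^ d) ^ k`. -/
noncomputable def powIdeal (K : Type*) [Field K] (n d k : ℕ) : Ideal (MvPolynomial (Fin n) K) :=
  (Ideal.span (Set.range fun j : Fin n => (X j : MvPolynomial (Fin n) K) ^ d)) ^ k

end Pool.Agent.Helper720.Pow
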