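import Pool.Agent.Helper720.PowBasic

set_option autoImplicit false

open MvPolynomial

namespace Pool.Agent.Helper720.Pow

variable {n : ℕ}

/-- injectivity from degree `i` to degree `i + j` -/
def InjAt (K : Type*) [Field K] (n d k i j : ℕ) : Prop :=
  ∀ f : MvPolynomial (Fin n) K, f.IsHomogeneous i → el K n ^ j * f ∈ powIdeal K n d k →
    f ∈ powIdeal K n d k

/-- surjectivity from degree `i` to degree `i + j` -/
def SurjAt (K : Type*) [Field K] (n d k i j : ℕ) : Prop :=
  ∀ g : MvPolynomial (Fin n) K, g.IsHomogeneous (i + j) →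
    ∃ f : MvPolynomial (Fin n) K, f.IsHomogeneous i ∧ g - el K n ^ j * f ∈ powIdeal K n d k

variable {K : Type*} [Field K]

lemma degree_of_coeff {f : MvPolynomial (Fin n) K} {i : ℕ} (hf : f.IsHomogeneous i)
    {m : Fin n →₀ ℕ} (hm : coeff m f ≠ 0) : m.degree = i := by
  have := hf hm
  rw [Finsupp.degree_eq_weight_one]
  exact this

lemma pderiv_el (c : Fin n) : pderiv c (el K n) = 1 := by
  classical
  unfold el
  rw [map_sum, Finset.sum_eq_single c]
  · simp
  · intro k _ hk
    exact pderiv_X_of_ne hk
  · intro h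
    exact absurd (Finset.mem_univ _) h

lemma coeff_X_mul_pderiv (c : Fin n) (G : MvPolynomial (Fin n) K) (w : Fin n →₀ ℕ) :
    coeff w (X c * pderiv c G) = (w c : K) * coeff w G := by
  rw [coeff_X_mul']
  by_cases h : w c = 0
  · rw [if_neg (by simpa using h), h, Nat.cast_zero, zero_mul]
  · rw [if_pos (by simpa using h), coeff_pderiv]
    have hle : Finsupp.single c 1 ≤ w := by
      rw [Finsupp.single_le_iff]
      omega
    rw [tsub_add_cancel_of_le hle, sub_single_apply, if_pos rfl]
    have h1 : ((w c - 1 : ℕ) : K) + 1 = (w c : K) := by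
      have : w c = (w c - 1) + 1 := by omega
      conv_rhs => rw [this]
      push_cast
      rfl
    rw [h1, mul_comm]

/-- Products of factors `w_c - v` are realised by multiples of powers of the linear form. -/
lemma kernel_poly (D : ℕ) (F : List (Fin n × ℕ)) (hF : F.length ≤ D) :
    ∃ f : MvPolynomial (Fin n) K, f.IsHomogeneous F.length ∧
      ∀ w : Fin n →₀ ℕ, w.degree = D →
        (fact w : K) * coeff w (el K n ^ (D - F.length) * f) =
          (D.factorial : K) * (F.map fun p => ((w p.1 : K) - (p.2 : K))).prod := by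
  induction F with
  | nil =>
    refine ⟨1, isHomogeneous_one _ _, fun w hw => ?_⟩
    have h1 := coeff_el_pow (K := K) D 0 w (by rw [map_zero, add_zero, hw])
    simp only [List.length_nil, Nat.sub_zero, List.map_nil, List.prod_nil]
    have h2 : ff w 0 = 1 := by
      unfold ff
      simp
    rw [h2] at h1
    simpa using h1
  | cons p F ih =>
    rw [List.length_cons] at hF
    obtain ⟨f, hf, hfw⟩ := ih (by omega)
    obtain ⟨c, v⟩ := p
    obtain ⟨N, hN⟩ : ∃ N, D - F.length = N + 1 := ⟨D - F.length - 1, by omega⟩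
    have hN' : D - (F.length + 1) = N := by omega
    refine ⟨C ((N : K) + 1) * (X c * f) + X c * (el K n * pderiv c f) - C (v : K) * (el K n * f),
      ?_, ?_⟩
    · have h1 : (C ((N : K) + 1) * (X c * f)).IsHomogeneous (F.length + 1) := by
        have := (isHomogeneous_C (Fin n) ((N : K) + 1)).mul ((isHomogeneous_X K c).mul hf)
        rwa [show 0 + (1 + F.length) = F.length + 1 by ring] at this
      have h3 : (C (v : K) * (el K n * f)).IsHomogeneous (F.length + 1) := by
        have := (isHomogeneous_C (Fin n) (v : K)).mul ((el_hom (K := K) (n := n)).mul hf)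
        rwa [show 0 + (1 + F.length) = F.length + 1 by ring] at this
      have h2 : (X c * (el K n * pderiv c f)).IsHomogeneous (F.length + 1) := by
        rcases Nat.eq_zero_or_pos F.length with h0 | h0
        · rw [h0] at hf
          have h5 : pderiv c f = 0 := by
            ext m
            rw [coeff_pderiv, coeff_zero, hf.coeff_eq_zero, zero_mul]
            rw [map_add, Finsupp.degree_single]
            omega
          rw [h5, mul_zero, mul_zero]
          exact isHomogeneous_zero _ _ _
        · have h6 : (pderiv c f).IsHomogeneous (F.length - 1) := hf.pderiv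
          have := (isHomogeneous_X K c).mul ((el_hom (K := K) (n := n)).mul h6)
          rwa [show 1 + (1 + (F.length - 1)) = F.length + 1 by omega] at this
      simp only [List.length_cons]
      exact (h1.add h2).sub h3
    · intro w hw
      simp only [List.length_cons, List.map_cons, List.prod_cons, hN']
      have h1 : el K n ^ N * (C ((N : K) + 1) * (X c * f) + X c * (el K n * pderiv c f) -
          C (v : K) * (el K n * f)) =
          X c * pderiv c (el K n ^ (N + 1) * f) - C (v : K) * (el K n ^ (N + 1) * f) := by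
        rw [pderiv_mul, pderiv_pow, pderiv_el]
        simp only [map_add, map_one, map_natCast]
        push_cast
        ring
      rw [h1, coeff_sub, coeff_X_mul_pderiv, coeff_C_mul, ← hN]
      linear_combination ((w c : K) - v) * hfw w hw

lemma fl_le (d : ℕ) (m : Fin n →₀ ℕ) : d * fl d m ≤ m.degree := by
  unfold fl
  rw [Finset.mul_sum, Finsupp.degree_eq_sum]
  exact Finset.sum_le_sum fun j _ => Nat.mul_div_le _ _

/-- The ideal has no elements of small degree. -/
lemma eq_zero_of_lt {d k i : ℕ} (hd : 1 ≤ d) (hi : i < d * k) {f : MvPolynomial (Fin n) K}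
    (hf : f.IsHomogeneous i) (h : f ∈ powIdeal K n d k) : f = 0 := by
  ext m
  rw [coeff_zero]
  by_contra hm
  have h1 := degree_of_coeff hf hm
  have h2 := fl_le d m
  rw [mem_powIdeal hd] at h
  apply hm
  apply h
  have h3 : d * fl d m < d * k := by omega
  exact lt_of_mul_lt_mul_left h3 (Nat.zero_le _)

lemma mem_of_coeff {d k D : ℕ} (hd : 1 ≤ d) {f : MvPolynomial (Fin n) K}
    (hf : f.IsHomogeneous D) (h : ∀ w, w.degree = D → fl d w < k → coeff w f = 0) :
    f ∈ powIdeal K n d k := by
  rw [mem_powIdeal hd]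
  intro w hw
  by_cases hdeg : w.degree = D
  · exact h w hdeg hw
  · exact hf.coeff_eq_zero hdeg

/-- Failure of injectivity. -/
lemma not_inj [CharZero K] {d k i D : ℕ} (hd : 1 ≤ d) (F : List (Fin n × ℕ)) (hFi : F.length ≤ i)
    (hiD : i ≤ D) (hik : i < d * k)
    (hvan : ∀ w : Fin n →₀ ℕ, w.degree = D → fl d w < k → ∃ p ∈ F, w p.1 = p.2)
    (w₁ : Fin n →₀ ℕ) (hw₁ : w₁.degree = D) (hne : ∀ p ∈ F, w₁ p.1 ≠ p.2) :
    ¬ InjAt K n d k i (D - i) := by
  intro hinj
  obtain ⟨f, hf, hfw⟩ := kernel_poly (K := K) D F (hFi.trans hiD)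
  have hdeg : (el K n ^ (i - F.length) * f).IsHomogeneous i := by
    have := ((el_hom (K := K) (n := n)).pow (i - F.length)).mul hf
    rwa [show 1 * (i - F.length) + F.length = i by omega] at this
  have hmul : el K n ^ (D - i) * (el K n ^ (i - F.length) * f) = el K n ^ (D - F.length) * f := by
    rw [← mul_assoc, ← pow_add]
    congr 2
    omega
  have hhom : (el K n ^ (D - F.length) * f).IsHomogeneous D := by
    have := ((el_hom (K := K) (n := n)).pow (D - F.length)).mul hf
    rwa [show 1 * (D - F.length) + F.length = D by omega] at this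
  have h1 : el K n ^ (D - i) * (el K n ^ (i - F.length) * f) ∈ powIdeal K n d k := by
    rw [hmul]
    apply mem_of_coeff hd hhom
    intro w hw hfl
    have h2 := hfw w hw
    obtain ⟨p, hp, hpw⟩ := hvan w hw hfl
    rw [List.prod_eq_zero (List.mem_map.2 ⟨p, hp, by rw [hpw, sub_self]⟩), mul_zero] at h2
    exact (mul_eq_zero.1 h2).resolve_left (Nat.cast_ne_zero.2 (fact_ne_zero w))
  have h3 := eq_zero_of_lt hd hik hdeg (hinj _ hdeg h1)
  have h4 : el K n ^ (D - F.length) * f = 0 := by
    rw [← hmul, h3, mul_zero]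
  have h5 := hfw w₁ hw₁
  rw [h4, coeff_zero, mul_zero] at h5
  have h6 : (F.map fun p => ((w₁ p.1 : K) - (p.2 : K))).prod ≠ 0 := by
    intro h7
    rw [List.prod_eq_zero_iff] at h7
    rw [List.mem_map] at h7
    obtain ⟨p, hp, hp0⟩ := h7
    apply hne p hp
    have h8 : (w₁ p.1 : K) = (p.2 : K) := sub_eq_zero.1 hp0
    exact_mod_cast h8
  exact mul_ne_zero (Nat.cast_ne_zero.2 (Nat.factorial_ne_zero D)) h6 h5.symm

/-- points of an edge line -/
noncomputable def wl (a b : Fin n) (M e t : ℕ) : Fin n →₀ ℕ :=
  Finsupp.equivFunOnFinite.symm fun c => if c = a then t else if c = b then M - t else e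

lemma wl_apply (a b : Fin n) (M e t : ℕ) (c : Fin n) :
    wl a b M e t c = if c = a then t else if c = b then M - t else e := rfl

lemma wl_sum {a b : Fin n} (hab : a ≠ b) (M e t : ℕ) (g : Fin n → ℕ → ℕ) :
    ∑ c, g c (wl a b M e t c) =
      g a t + (g b (M - t) + ∑ c ∈ (Finset.univ.erase a).erase b, g c e) := by
  rw [← Finset.add_sum_erase _ _ (Finset.mem_univ a),
    ← Finset.add_sum_erase _ _ (Finset.mem_erase.2 ⟨hab.symm, Finset.mem_univ b⟩)]
  rw [wl_apply, if_pos rfl, wl_apply, if_neg hab.symm, if_pos rfl]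
  congr 2
  refine Finset.sum_congr rfl fun c hc => ?_
  rw [wl_apply, if_neg (Finset.ne_of_mem_erase (Finset.mem_of_mem_erase hc)),
    if_neg (Finset.ne_of_mem_erase hc)]

lemma wl_prod {a b : Fin n} (hab : a ≠ b) (M e t : ℕ) (g : Fin n → ℕ → ℕ) :
    ∏ c, g c (wl a b M e t c) =
      g a t * (g b (M - t) * ∏ c ∈ (Finset.univ.erase a).erase b, g c e) := by
  rw [← Finset.mul_prod_erase _ _ (Finset.mem_univ a),
    ← Finset.mul_prod_erase _ _ (Finset.mem_erase.2 ⟨hab.symm, Finset.mem_univ b⟩)]
  rw [wl_apply, if_pos rfl, wl_apply, if_neg hab.symm, if_pos rfl]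
  congr 2
  refine Finset.prod_congr rfl fun c hc => ?_
  rw [wl_apply, if_neg (Finset.ne_of_mem_erase (Finset.mem_of_mem_erase hc)),
    if_neg (Finset.ne_of_mem_erase hc)]

lemma card_rest {a b : Fin n} (hab : a ≠ b) : ((Finset.univ.erase a).erase b).card = n - 2 := by
  rw [Finset.card_erase_of_mem (Finset.mem_erase.2 ⟨hab.symm, Finset.mem_univ b⟩),
    Finset.card_erase_of_mem (Finset.mem_univ a), Finset.card_univ, Fintype.card_fin]
  omega

/-- On an edge line the normalised coefficients are given by a polynomial of small degree. -/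
lemma line_poly [CharZero K] {a b : Fin n} (hab : a ≠ b) {M e i j : ℕ}
    (hD : M + (n - 2) * e = j + i) (f : MvPolynomial (Fin n) K) (hf : f.IsHomogeneous i) :
    ∃ P : Polynomial K, P.natDegree ≤ i ∧ ∀ t ≤ M,
      (fact (wl a b M e t) : K) * coeff (wl a b M e t) (el K n ^ j * f) = P.eval (t : K) := by
  classical
  have hmono : ∀ m : Fin n →₀ ℕ, m.degree = i → ∃ P : Polynomial K, P.natDegree ≤ i ∧ ∀ t ≤ M,
      (fact (wl a b M e t) : K) * coeff (wl a b M e t) (el K n ^ j * monomial m 1) =
        P.eval (t : K) := by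
    intro m hm
    refine ⟨Polynomial.C ((j.factorial : K) *
      ((∏ c ∈ (Finset.univ.erase a).erase b, e.descFactorial (m c) : ℕ) : K)) *
        (descPochhammer K (m a) * (descPochhammer K (m b)).comp
          (Polynomial.C (M : K) - Polynomial.X)), ?_, ?_⟩
    · refine (Polynomial.natDegree_C_mul_le _ _).trans ?_
      refine Polynomial.natDegree_mul_le.trans ?_
      rw [descPochhammer_natDegree]
      have h1 : ((descPochhammer K (m b)).comp (Polynomial.C (M : K) - Polynomial.X)).natDegree
          ≤ m b := by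
        refine Polynomial.natDegree_comp_le.trans ?_
        rw [descPochhammer_natDegree]
        have h2 : (Polynomial.C (M : K) - Polynomial.X).natDegree ≤ 1 := by
          refine (Polynomial.natDegree_sub_le _ _).trans ?_
          simp
        calc m b * _ ≤ m b * 1 := Nat.mul_le_mul_left _ h2
          _ = m b := mul_one _
      have h3 : m a + m b ≤ m.degree := by
        rw [Finsupp.degree_eq_sum, ← Finset.add_sum_erase _ _ (Finset.mem_univ a),
          ← Finset.add_sum_erase _ _ (Finset.mem_erase.2 ⟨hab.symm, Finset.mem_univ b⟩)]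
        omega
      omega
    · intro t ht
      rw [coeff_el_pow]
      · rw [Polynomial.eval_mul, Polynomial.eval_C, Polynomial.eval_mul, Polynomial.eval_comp,
          Polynomial.eval_sub, Polynomial.eval_C, Polynomial.eval_X, ← Nat.cast_sub ht,
          descPochhammer_eval_eq_descFactorial, descPochhammer_eval_eq_descFactorial]
        have h1 : ff (wl a b M e t) m = t.descFactorial (m a) * ((M - t).descFactorial (m b) *
            ∏ c ∈ (Finset.univ.erase a).erase b, e.descFactorial (m c)) :=
          wl_prod hab M e t (fun c x => x.descFactorial (m c))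
        rw [h1]
        push_cast
        ring
      · rw [Finsupp.degree_eq_sum, wl_sum hab M e t (fun _ x => x), Finset.sum_const,
          card_rest hab, smul_eq_mul, hm]
        omega
  choose! P hP1 hP2 using hmono
  refine ⟨∑ m ∈ f.support, Polynomial.C (coeff m f) * P m, ?_, ?_⟩
  · apply Polynomial.natDegree_sum_le_of_forall_le
    intro m hm
    exact (Polynomial.natDegree_C_mul_le _ _).trans
      (hP1 m (degree_of_coeff hf (mem_support_iff.1 hm)))
  · intro t ht
    rw [Polynomial.eval_finsetSum]
    conv_lhs => rw [f.as_sum]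
    rw [Finset.mul_sum, coeff_sum, Finset.mul_sum]
    refine Finset.sum_congr rfl fun m hm => ?_
    rw [Polynomial.eval_mul, Polynomial.eval_C,
      ← hP2 m (degree_of_coeff hf (mem_support_iff.1 hm)) t ht]
    have h1 : (monomial m (coeff m f) : MvPolynomial (Fin n) K) =
        C (coeff m f) * monomial m 1 := by
      rw [C_mul_monomial, mul_one]
    rw [h1, mul_left_comm, coeff_C_mul]
    ring

/-- Failure of surjectivity. -/
lemma not_surj [CharZero K] (hn : 2 ≤ n) {d k s i : ℕ} (hd : 1 ≤ d) (hk : 1 ≤ k) (hs : s < d)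
    (hi : i + 2 ≤ k * (s + 1)) (hiD : i + s ≤ (k - 1) * d + n * (d - 1)) :
    ¬ SurjAt K n d k i ((k - 1) * d + n * (d - 1) - s - i) := by
  classical
  intro hsurj
  set a : Fin n := ⟨0, by omega⟩ with ha
  set b : Fin n := ⟨1, by omega⟩ with hb
  have hab : a ≠ b := by
    rw [ha, hb]
    simp
  obtain ⟨M, hM⟩ : ∃ M, M = (k - 1) * d + 2 * (d - 1) - s := ⟨_, rfl⟩
  obtain ⟨e, he⟩ : ∃ e, e = d - 1 := ⟨_, rfl⟩
  have hMn : M + (n - 2) * e = (k - 1) * d + n * (d - 1) - s := by
    have h1 : n * (d - 1) = 2 * (d - 1) + (n - 2) * (d - 1) := by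
      rw [← add_mul]
      congr 1
      omega
    rw [hM, he, h1]
    omega
  obtain ⟨j, hj⟩ : ∃ j, j = (k - 1) * d + n * (d - 1) - s - i := ⟨_, rfl⟩
  rw [← hj] at hsurj
  have hD : M + (n - 2) * e = j + i := by omega
  -- the points of the line
  set E : Finset ℕ := (Finset.range k ×ˢ Finset.range (s + 1)).image
    (fun p => d * p.1 + (d - 1) - p.2) with hE
  have hcard : E.card = k * (s + 1) := by
    rw [hE, Finset.card_image_of_injOn, Finset.card_product, Finset.card_range, Finset.card_range]
    rintro ⟨x, y⟩ hx ⟨x', y'⟩ hx' hxx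
    simp only [Finset.coe_product, Set.mem_prod, Finset.coe_range, Set.mem_Iio] at hx hx'
    simp only at hxx
    have h1 : x = x' := by
      have e1 : (d * x + (d - 1) - y) / d = x := by
        have : d * x + (d - 1) - y = d * x + (d - 1 - y) := by omega
        rw [this, Nat.mul_add_div (by omega), Nat.div_eq_of_lt (by omega), add_zero]
      have e2 : (d * x' + (d - 1) - y') / d = x' := by
        have : d * x' + (d - 1) - y' = d * x' + (d - 1 - y') := by omega
        rw [this, Nat.mul_add_div (by omega), Nat.div_eq_of_lt (by omega), add_zero]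
      rw [← e1, ← e2, hxx]
    subst h1
    have h2 : y = y' := by omega
    rw [h2]
  have hEle : ∀ t ∈ E, t ≤ M ∧ fl d (wl a b M e t) < k := by
    intro t ht
    rw [hE, Finset.mem_image] at ht
    obtain ⟨⟨x, y⟩, hxy, rfl⟩ := ht
    rw [Finset.mem_product, Finset.mem_range, Finset.mem_range] at hxy
    simp only at hxy ⊢
    have hkx : (k - 1) * d = d * x + d * (k - 1 - x) := by
      rw [← mul_add, mul_comm]
      congr 1
      omega
    refine ⟨by rw [hM, hkx]; omega, ?_⟩
    unfold fl
    rw [wl_sum hab M e _ (fun _ z => z / d)]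
    have h1 : (d * x + (d - 1) - y) / d = x := by
      have : d * x + (d - 1) - y = d * x + (d - 1 - y) := by omega
      rw [this, Nat.mul_add_div (by omega), Nat.div_eq_of_lt (by omega), add_zero]
    have h2 : (M - (d * x + (d - 1) - y)) / d = k - 1 - x := by
      have : M - (d * x + (d - 1) - y) = d * (k - 1 - x) + (d - 1 - (s - y)) := by
        rw [hM, hkx]
        omega
      rw [this, Nat.mul_add_div (by omega), Nat.div_eq_of_lt (by omega), add_zero]
    have h3 : e / d = 0 := Nat.div_eq_of_lt (by omega)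
    rw [h1, h2, Finset.sum_congr rfl (fun _ _ => h3), Finset.sum_const_zero]
    omega
  have hpos : 0 < E.card := by
    rw [hcard]
    omega
  obtain ⟨t₀, ht₀⟩ := Finset.card_pos.1 hpos
  have hdeg : ∀ t, t ≤ M → (wl a b M e t).degree = i + j := by
    intro t ht
    rw [Finsupp.degree_eq_sum, wl_sum hab M e t (fun _ x => x), Finset.sum_const,
      card_rest hab, smul_eq_mul]
    omega
  obtain ⟨f, hf, hfg⟩ := hsurj (monomial (wl a b M e t₀) 1)
    (isHomogeneous_monomial _ (hdeg t₀ (hEle t₀ ht₀).1))
  obtain ⟨P, hP1, hP2⟩ := line_poly (K := K) hab hD f hf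
  rw [mem_powIdeal hd] at hfg
  have hval : ∀ t ∈ E, coeff (wl a b M e t) (el K n ^ j * f) =
      if t = t₀ then 1 else 0 := by
    intro t ht
    have h1 := hfg _ (hEle t ht).2
    rw [coeff_sub, sub_eq_zero, coeff_monomial] at h1
    rw [← h1]
    congr 1
    rw [eq_iff_iff]
    constructor
    · intro h
      have := DFunLike.congr_fun h a
      rw [wl_apply, wl_apply, if_pos rfl, if_pos rfl] at this
      exact this.symm
    · intro h
      rw [h]
  have hP0 : P = 0 := by
    apply Polynomial.eq_zero_of_natDegree_lt_card_of_eval_eq_zero P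
      (f := fun t : ↥(E.erase t₀) => ((t : ℕ) : K))
    · intro x y hxy
      have : ((x : ℕ) : K) = ((y : ℕ) : K) := hxy
      exact Subtype.ext (by exact_mod_cast this)
    · intro t
      have ht := Finset.mem_of_mem_erase t.2
      rw [← hP2 _ (hEle _ ht).1, hval _ ht, if_neg (Finset.ne_of_mem_erase t.2), mul_zero]
    · rw [Fintype.card_coe, Finset.card_erase_of_mem ht₀, hcard]
      omega
  have h1 := hP2 t₀ (hEle t₀ ht₀).1
  rw [hP0, hval t₀ ht₀, if_pos rfl, mul_one, Polynomial.eval_zero] at h1
  exact (Nat.cast_ne_zero.2 (fact_ne_zero _)) h1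

end Pool.Agent.Helper720.Pow
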