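import Pool.Agent.Helper720.PowSemi

set_option autoImplicit false

open MvPolynomial

namespace Pool.Agent.Helper720.Pow

variable {K : Type*} [Field K] {n : ℕ}

lemma el_pow_mul_hom {i : ℕ} (j : ℕ) {f : MvPolynomial (Fin n) K} (hf : f.IsHomogeneous i) :
    (el K n ^ j * f).IsHomogeneous (i + j) := by
  have := ((el_hom (K := K) (n := n)).pow j).mul hf
  rwa [one_mul, add_comm] at this

lemma InjAt.mono {d k i j j' : ℕ} (h : InjAt K n d k i (j + j')) : InjAt K n d k i j := by
  intro f hf hJ
  apply h f hf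
  rw [pow_add, mul_comm (el K n ^ j), mul_assoc]
  exact Ideal.mul_mem_left _ _ hJ

lemma SurjAt.mono {d k i j j' : ℕ} (h : SurjAt K n d k i (j + j')) :
    SurjAt K n d k (i + j') j := by
  intro g hg
  obtain ⟨f, hf, hfg⟩ := h g (by rwa [show i + (j + j') = i + j' + j by ring])
  refine ⟨el K n ^ j' * f, el_pow_mul_hom j' hf, ?_⟩
  rwa [← mul_assoc, ← pow_add]

lemma InjAt.down (hn : 1 ≤ n) {d k i j r : ℕ} (hd : 1 ≤ d) (hi : i + r < d * k)
    (h : InjAt K n d k (i + r) j) : InjAt K n d k i (r + j) := by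
  intro f hf hJ
  have h1 : el K n ^ r * f ∈ powIdeal K n d k := by
    apply h _ (el_pow_mul_hom r hf)
    rwa [← mul_assoc, ← pow_add, add_comm j r]
  have h2 := eq_zero_of_lt hd hi (el_pow_mul_hom r hf) h1
  rcases mul_eq_zero.1 h2 with h3 | h3
  · exact absurd (eq_zero_of_pow_eq_zero h3) (el_ne_zero hn)
  · rw [h3]
    exact Ideal.zero_mem _

lemma inj_low (hn : 1 ≤ n) {d k i j : ℕ} (hd : 1 ≤ d) (hi : i + j < d * k) :
    InjAt K n d k i j := by
  intro f hf hJ
  have h2 := eq_zero_of_lt hd hi (el_pow_mul_hom j hf) hJ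
  rcases mul_eq_zero.1 h2 with h3 | h3
  · exact absurd (eq_zero_of_pow_eq_zero h3) (el_ne_zero hn)
  · rw [h3]
    exact Ideal.zero_mem _

lemma degree_le_of_fl {d : ℕ} (hd : 1 ≤ d) (w : Fin n →₀ ℕ) :
    w.degree ≤ d * fl d w + n * (d - 1) := by
  unfold fl
  have h : ∀ c : Fin n, w c ≤ d * (w c / d) + (d - 1) := by
    intro c
    have h1 := Nat.div_add_mod (w c) d
    have h2 := Nat.mod_lt (w c) (show 0 < d by omega)
    omega
  have h1 : ∑ c : Fin n, w c ≤ ∑ c : Fin n, (d * (w c / d) + (d - 1)) :=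
    Finset.sum_le_sum fun c _ => h c
  rw [Finset.sum_add_distrib, Finset.sum_const, Finset.card_univ, Fintype.card_fin, smul_eq_mul,
    ← Finset.mul_sum] at h1
  rw [Finsupp.degree_eq_sum]
  exact h1

lemma surj_of_empty {d k i j : ℕ} (hd : 1 ≤ d)
    (h : ∀ w : Fin n →₀ ℕ, w.degree = i + j → k ≤ fl d w) : SurjAt K n d k i j := by
  intro g hg
  refine ⟨0, isHomogeneous_zero _ _ _, ?_⟩
  rw [mul_zero, sub_zero]
  apply mem_of_coeff hd hg
  intro w hw hfl
  exact absurd (h w hw) (by omega)

lemma surj_high {d k i j : ℕ} (hd : 1 ≤ d) (hk : 1 ≤ k) (h : (k - 1) * d + n * (d - 1) < i + j) :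
    SurjAt K n d k i j := by
  apply surj_of_empty hd
  intro w hw
  have h1 := degree_le_of_fl hd w
  by_contra hlt
  have h2 : d * fl d w ≤ d * (k - 1) := Nat.mul_le_mul_left _ (by omega)
  rw [mul_comm d (k - 1)] at h2
  omega

lemma surj_of_monomials {d k i j : ℕ} (hd : 1 ≤ d)
    (h : ∀ w : Fin n →₀ ℕ, w.degree = i + j → fl d w < k →
      ∃ f : MvPolynomial (Fin n) K, f.IsHomogeneous i ∧
        monomial w 1 - el K n ^ j * f ∈ powIdeal K n d k) : SurjAt K n d k i j := by
  classical
  intro g hg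
  have h' : ∀ w : Fin n →₀ ℕ, ∃ f : MvPolynomial (Fin n) K, f.IsHomogeneous i ∧
      (w.degree = i + j → monomial w 1 - el K n ^ j * f ∈ powIdeal K n d k) := by
    intro w
    by_cases hw : w.degree = i + j
    · by_cases hfl : fl d w < k
      · obtain ⟨f, hf, hfw⟩ := h w hw hfl
        exact ⟨f, hf, fun _ => hfw⟩
      · refine ⟨0, isHomogeneous_zero _ _ _, fun _ => ?_⟩
        rw [mul_zero, sub_zero, mem_powIdeal hd]
        intro m hm
        rw [coeff_monomial, if_neg]
        rintro rfl
        exact hfl hm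
    · exact ⟨0, isHomogeneous_zero _ _ _, fun h => absurd h hw⟩
  choose F hF1 hF2 using h'
  refine ⟨∑ w ∈ g.support, C (coeff w g) * F w, ?_, ?_⟩
  · refine IsHomogeneous.sum _ _ _ fun w _ => ?_
    have := (isHomogeneous_C (Fin n) (coeff w g)).mul (hF1 w)
    rwa [zero_add] at this
  · have h1 : g - el K n ^ j * ∑ w ∈ g.support, C (coeff w g) * F w =
        ∑ w ∈ g.support, C (coeff w g) * (monomial w 1 - el K n ^ j * F w) := by
      have hg2 : ∑ w ∈ g.support, C (coeff w g) * monomial w 1 = g := by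
        conv_rhs => rw [g.as_sum]
        refine Finset.sum_congr rfl fun w _ => ?_
        rw [C_mul_monomial, mul_one]
      simp only [mul_sub]
      rw [Finset.sum_sub_distrib, hg2, Finset.mul_sum]
      congr 1
      refine Finset.sum_congr rfl fun w _ => ?_
      ring
    rw [h1]
    refine Ideal.sum_mem _ fun w hw => ?_
    exact Ideal.mul_mem_left _ _ (hF2 w (degree_of_coeff hg (mem_support_iff.1 hw)))

open Level (allMon mem_allMon coeff_sum_monomial)

/-- Surjectivity by duality. -/
lemma surj_of_dual {d k i j : ℕ} (hd : 1 ≤ d)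
    (h : ∀ c : (Fin n →₀ ℕ) → K, (∀ w, c w ≠ 0 → w.degree = i + j ∧ fl d w < k) →
      (∀ m : Fin n →₀ ℕ, m.degree = i →
        ∑ w ∈ allMon n (i + j), coeff w (el K n ^ j * monomial m 1) * c w = 0) → ∀ w, c w = 0) :
    SurjAt K n d k i j := by
  classical
  intro g hg
  by_contra hne
  push Not at hne
  set N : Submodule K (MvPolynomial (Fin n) K) :=
    (powIdeal K n d k).restrictScalars K ⊔
      (homogeneousSubmodule (Fin n) K i).map (LinearMap.mulLeft K (el K n ^ j)) with hN
  have hgN : g ∉ N := by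
    intro h
    rw [hN, Submodule.mem_sup] at h
    obtain ⟨p, hp, q, hq, hpq⟩ := h
    rw [Submodule.mem_map] at hq
    obtain ⟨f, hf, rfl⟩ := hq
    rw [mem_homogeneousSubmodule] at hf
    apply hne f hf
    rw [LinearMap.mulLeft_apply] at hpq
    rw [← hpq, add_sub_cancel_right]
    exact hp
  obtain ⟨φ, hφg, hφN⟩ := Submodule.exists_le_ker_of_notMem hgN
  have hφJ : ∀ p ∈ powIdeal K n d k, φ p = 0 := by
    intro p hp
    exact hφN (Submodule.mem_sup_left hp)
  have hφE : ∀ f : MvPolynomial (Fin n) K, f.IsHomogeneous i → φ (el K n ^ j * f) = 0 := by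
    intro f hf
    apply hφN
    refine Submodule.mem_sup_right (Submodule.mem_map.2 ⟨f, hf, rfl⟩)
  have hφsum : ∀ p : MvPolynomial (Fin n) K, p.IsHomogeneous (i + j) →
      φ p = ∑ w ∈ allMon n (i + j), coeff w p * φ (monomial w 1) := by
    intro p hp
    have h1 : p = ∑ w ∈ allMon n (i + j), coeff w p • monomial w 1 := by
      have h2 : (∑ w ∈ allMon n (i + j), coeff w p • (monomial w 1 : MvPolynomial (Fin n) K)) =
          ∑ w ∈ allMon n (i + j), monomial w (coeff w p) := by
        refine Finset.sum_congr rfl fun w _ => ?_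
        rw [smul_monomial, smul_eq_mul, mul_one]
      rw [h2]
      ext w
      rw [coeff_sum_monomial]
      split_ifs with h
      · rfl
      · rw [mem_allMon] at h
        exact hp.coeff_eq_zero h
    conv_lhs => rw [h1]
    rw [map_sum]
    refine Finset.sum_congr rfl fun w _ => ?_
    rw [map_smul, smul_eq_mul]
  have hcfl : ∀ w, φ (monomial w 1) ≠ 0 → fl d w < k := by
    intro w hw
    by_contra hlt
    apply hw
    apply hφJ
    rw [mem_powIdeal hd]
    intro m hm
    rw [coeff_monomial, if_neg]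
    rintro rfl
    exact hlt hm
  have h0 := h (fun w => if w.degree = i + j then φ (monomial w 1) else 0) (by
      intro w hw
      by_cases hdeg : w.degree = i + j
      · rw [if_pos hdeg] at hw
        exact ⟨hdeg, hcfl w hw⟩
      · rw [if_neg hdeg] at hw
        exact absurd rfl hw) (by
      intro m hm
      have h1 := hφE _ (isHomogeneous_monomial (1 : K) hm)
      rw [hφsum _ (el_pow_mul_hom j (isHomogeneous_monomial (1 : K) hm))] at h1
      rw [← h1]
      refine Finset.sum_congr rfl fun w hw => ?_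
      rw [if_pos (mem_allMon.1 hw)])
  apply hφg
  rw [hφsum g hg]
  refine Finset.sum_eq_zero fun w hw => ?_
  have h1 := h0 w
  rw [if_pos (mem_allMon.1 hw)] at h1
  rw [h1, mul_zero]

/-- the socle monomial of the complete intersection -/
noncomputable def w0 (n d : ℕ) : Fin n →₀ ℕ := Finsupp.equivFunOnFinite.symm fun _ => d - 1

lemma w0_apply (d : ℕ) (c : Fin n) : w0 n d c = d - 1 := rfl

lemma w0_degree (d : ℕ) : (w0 n d).degree = n * (d - 1) := by
  rw [Finsupp.degree_eq_sum]
  simp only [w0_apply]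
  rw [Finset.sum_const, Finset.card_univ, Fintype.card_fin, smul_eq_mul]

lemma fl_lt_one {d : ℕ} (hd : 1 ≤ d) (w : Fin n →₀ ℕ) : fl d w < 1 ↔ w ≤ w0 n d := by
  unfold fl
  rw [Nat.lt_one_iff, Finset.sum_eq_zero_iff]
  constructor
  · intro h c
    have := h c (Finset.mem_univ c)
    rw [Nat.div_eq_zero_iff] at this
    rw [w0_apply]
    omega
  · intro h c _
    have := h c
    rw [w0_apply] at this
    exact Nat.div_eq_of_lt (by omega)

lemma inj_k1 [CharZero K] {d i j : ℕ} (hd : 1 ≤ d) (h : j + 2 * i ≤ n * (d - 1)) :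
    InjAt K n d 1 i j := by
  intro f hf hJ
  rw [mem_powIdeal hd] at hJ ⊢
  intro m hm
  rw [fl_lt_one hd] at hm
  refine Level.ci_inj (w0 n d) i j f hf (by rw [w0_degree]; exact h) ?_ m hm
  intro m' hm'
  exact hJ m' ((fl_lt_one hd m').2 hm')

lemma coeff_el_pow_symm (j : ℕ) {m w v : Fin n →₀ ℕ} (hw : w ≤ v) (hm : m ≤ v) :
    coeff (v - m) (el K n ^ j * monomial (v - w) 1) = coeff w (el K n ^ j * monomial m 1) := by
  rw [coeff_mul_monomial', coeff_mul_monomial', mul_one, mul_one]
  by_cases h : m ≤ w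
  · rw [if_pos h, if_pos (tsub_le_tsub_left h v)]
    congr 1
    rw [tsub_tsub_tsub_cancel_left hw]
  · rw [if_neg h, if_neg]
    intro h'
    apply h
    intro c
    have h1 := h' c
    have h2 := hw c
    have h3 := hm c
    rw [Finsupp.tsub_apply, Finsupp.tsub_apply] at h1
    omega

lemma surj_k1 [CharZero K] {d i j : ℕ} (hd : 1 ≤ d) (h : n * (d - 1) ≤ j + 2 * i) :
    SurjAt K n d 1 i j := by
  classical
  rcases Nat.lt_or_ge (n * (d - 1)) (i + j) with hbig | hsmall
  · exact surj_high hd le_rfl (by omega)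
  apply surj_of_dual hd
  intro c hc hsum
  have hcw : ∀ w, c w ≠ 0 → w ≤ w0 n d := fun w hw => (fl_lt_one hd w).1 (hc w hw).2
  set v := w0 n d with hv
  have hvd : v.degree = n * (d - 1) := w0_degree d
  set S : Finset (Fin n →₀ ℕ) := (allMon n (i + j)).filter (fun w => w ≤ v) with hS
  set g : MvPolynomial (Fin n) K := ∑ w ∈ S, monomial (v - w) (c w) with hg
  have hdeg : ∀ w ∈ S, (v - w).degree = n * (d - 1) - (i + j) := by
    intro w hw
    rw [hS, Finset.mem_filter, mem_allMon] at hw
    have h1 : (v - w).degree + w.degree = v.degree := by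
      rw [← map_add, tsub_add_cancel_of_le hw.2]
    omega
  have hghom : g.IsHomogeneous (n * (d - 1) - (i + j)) := by
    refine IsHomogeneous.sum _ _ _ fun w hw => isHomogeneous_monomial _ (hdeg w hw)
  have hzero : ∀ m, m ≤ v → (Level.ell K n ^ j * g).coeff m = 0 := by
    intro m hm
    by_cases hmd : m.degree = n * (d - 1) - i
    · have h1 := hsum (v - m) (by
        have h1 : (v - m).degree + m.degree = v.degree := by
          rw [← map_add, tsub_add_cancel_of_le hm]
        omega)
      rw [hg, Finset.mul_sum, coeff_sum]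
      rw [← h1, ← Finset.sum_filter_add_sum_filter_not (allMon n (i + j)) (fun w => w ≤ v)]
      have h2 : ∑ w ∈ (allMon n (i + j)).filter (fun w => ¬ w ≤ v),
          coeff w (el K n ^ j * monomial (v - m) 1) * c w = 0 := by
        refine Finset.sum_eq_zero fun w hw => ?_
        rw [Finset.mem_filter] at hw
        have : c w = 0 := by
          by_contra hne
          exact hw.2 (hcw w hne)
        rw [this, mul_zero]
      rw [h2, add_zero]
      refine Finset.sum_congr rfl fun w hw => ?_
      rw [Finset.mem_filter] at hw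
      have h3 : (monomial (v - w) (c w) : MvPolynomial (Fin n) K) =
          C (c w) * monomial (v - w) 1 := by
        rw [C_mul_monomial, mul_one]
      rw [h3, mul_left_comm, coeff_C_mul, mul_comm]
      congr 1
      have h4 := coeff_el_pow_symm (K := K) j hw.2 (tsub_le_self : v - m ≤ v)
      rw [tsub_tsub_cancel_of_le hm] at h4
      exact h4
    · have h1 : (Level.ell K n ^ j * g).IsHomogeneous (n * (d - 1) - (i + j) + j) :=
        el_pow_mul_hom j hghom
      apply h1.coeff_eq_zero
      omega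
  have h0 := Level.ci_inj v (n * (d - 1) - (i + j)) j g hghom (by omega) hzero
  intro w
  by_contra hne
  have hwv := hcw w hne
  have h1 := h0 (v - w) tsub_le_self
  rw [hg, coeff_sum, Finset.sum_eq_single w] at h1
  · rw [coeff_monomial, if_pos rfl] at h1
    exact hne h1
  · intro b hb hbw
    rw [hS, Finset.mem_filter] at hb
    rw [coeff_monomial, if_neg]
    intro h2
    apply hbw
    rw [← tsub_tsub_cancel_of_le hb.2, h2, tsub_tsub_cancel_of_le hwv]
  · intro h2
    exfalso
    apply h2
    rw [hS, Finset.mem_filter, mem_allMon]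
    exact ⟨(hc w hne).1, hwv⟩

end Pool.Agent.Helper720.Pow
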