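import Pool.Agent.Helper720.PowPosA

set_option autoImplicit false

open MvPolynomial

namespace Pool.Agent.Helper720.Pow

open Level (allMon mem_allMon coeff_sum_monomial)

variable {K : Type*} [Field K] {n : ℕ}

/-- complete intersections -/
theorem slp_k1 [CharZero K] {d : ℕ} (hd : 1 ≤ d) : HasSLP (powIdeal K n d 1) := by
  rw [hasSLP_iff hd]
  intro i j _
  rcases Nat.lt_or_ge (n * (d - 1)) (j + 2 * i) with h | h
  · exact Or.inr (surj_k1 hd (by omega))
  · exact Or.inl (inj_k1 hd h)

/-- powers of the maximal ideal -/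
theorem slp_d1 (hn : 1 ≤ n) {k : ℕ} : HasSLP (powIdeal K n 1 k) := by
  rw [hasSLP_iff le_rfl]
  intro i j _
  rcases Nat.lt_or_ge (i + j) k with h | h
  · exact Or.inl (inj_low hn le_rfl (by omega))
  · right
    apply surj_of_empty le_rfl
    intro w hw
    unfold fl
    simp only [Nat.div_one]
    rw [← Finsupp.degree_eq_sum, hw]
    exact h

/-- one variable -/
theorem slp_n1 {d k : ℕ} (hd : 1 ≤ d) : HasSLP (powIdeal K 1 d k) := by
  rw [hasSLP_iff hd]
  intro i j _
  have hone : ∀ w : Fin 1 →₀ ℕ, w = Finsupp.single 0 w.degree := by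
    intro w
    refine Finsupp.ext fun c => ?_
    rw [Finsupp.degree_eq_sum]
    fin_cases c
    simp
  by_cases hfl : fl d (Finsupp.single (0 : Fin 1) (i + j)) < k
  · left
    intro f hf hJ
    rw [mem_powIdeal hd] at hJ ⊢
    intro m hm
    by_cases hmi : m.degree = i
    · have h1 := hJ _ hfl
      have h2 : el K 1 ^ j * f = monomial (Finsupp.single 0 j) 1 * f := by
        unfold el
        rw [Fin.sum_univ_one, X_pow_eq_monomial]
      rw [h2, coeff_monomial_mul'] at h1
      have h3 : Finsupp.single (0 : Fin 1) j ≤ Finsupp.single 0 (i + j) := by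
        rw [Finsupp.single_le_single]
        omega
      rw [if_pos h3, one_mul, ← Finsupp.single_tsub, Nat.add_sub_cancel] at h1
      rw [hone m, hmi]
      exact h1
    · exact hf.coeff_eq_zero hmi
  · right
    apply surj_of_empty hd
    intro w hw
    rw [hone w, hw]
    omega

lemma two_eq {M : ℕ} {w : Fin 2 →₀ ℕ} (hw : w.degree = M) :
    w = wl (0 : Fin 2) 1 M 0 (w 0) ∧ w 0 ≤ M := by
  rw [Finsupp.degree_eq_sum, Fin.sum_univ_two] at hw
  constructor
  · ext c
    rw [wl_apply]
    fin_cases c
    · simp
    · simp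
      omega
  · omega

/-- two variables -/
theorem slp_n2 [CharZero K] {d k : ℕ} (hd : 1 ≤ d) : HasSLP (powIdeal K 2 d k) := by
  classical
  rw [hasSLP_iff hd]
  intro i j _
  set O : Finset ℕ := (Finset.range (i + j + 1)).filter
    (fun t => fl d (wl (0 : Fin 2) 1 (i + j) 0 t) < k) with hO
  have hmemO : ∀ w : Fin 2 →₀ ℕ, w.degree = i + j → fl d w < k → w 0 ∈ O := by
    intro w hw hfl
    obtain ⟨h1, h2⟩ := two_eq hw
    rw [hO, Finset.mem_filter, Finset.mem_range]
    refine ⟨by omega, ?_⟩
    rw [← h1]
    exact hfl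
  rcases Nat.lt_or_ge i O.card with h | h
  · -- injective
    left
    intro f hf hJ
    obtain ⟨P, hP1, hP2⟩ := line_poly (K := K) (a := (0 : Fin 2)) (b := 1) (by decide)
      (M := i + j) (e := 0) (i := i) (j := j) (by omega) f hf
    rw [mem_powIdeal hd] at hJ
    have hP0 : P = 0 := by
      apply Polynomial.eq_zero_of_natDegree_lt_card_of_eval_eq_zero P
        (f := fun t : ↥O => ((t : ℕ) : K))
      · intro x y hxy
        have : ((x : ℕ) : K) = ((y : ℕ) : K) := hxy
        exact Subtype.ext (by exact_mod_cast this)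
      · rintro ⟨t, ht⟩
        rw [hO, Finset.mem_filter, Finset.mem_range] at ht
        have ht1 : t ≤ i + j := by omega
        have h1 := hP2 t ht1
        rw [hJ _ ht.2, mul_zero] at h1
        exact h1.symm
      · rw [Fintype.card_coe]
        omega
    have h1 : el K 2 ^ j * f = 0 := by
      ext w
      rw [coeff_zero]
      by_cases hw : w.degree = i + j
      · obtain ⟨h1, h2⟩ := two_eq hw
        have h3 := hP2 (w 0) h2
        rw [← h1, hP0, Polynomial.eval_zero] at h3
        exact (mul_eq_zero.1 h3).resolve_left (Nat.cast_ne_zero.2 (fact_ne_zero w))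
      · exact (el_pow_mul_hom j hf).coeff_eq_zero hw
    rcases mul_eq_zero.1 h1 with h3 | h3
    · exact absurd (eq_zero_of_pow_eq_zero h3) (el_ne_zero (by norm_num))
    · rw [h3]
      exact Ideal.zero_mem _
  · -- surjective
    right
    apply surj_of_monomials hd
    intro w hw hfl
    have hwO := hmemO w hw hfl
    set F : List (Fin 2 × ℕ) := (O.erase (w 0)).toList.map (fun t => ((0 : Fin 2), t)) with hF
    have hFl : F.length = O.card - 1 := by
      rw [hF, List.length_map, Finset.length_toList, Finset.card_erase_of_mem hwO]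
    obtain ⟨f, hf, hfw⟩ := kernel_poly (K := K) (i + j) F (by omega)
    have hprod : ∀ v : Fin 2 →₀ ℕ, (F.map fun p => ((v p.1 : K) - (p.2 : K))).prod =
        ∏ t ∈ O.erase (w 0), ((v 0 : K) - (t : K)) := by
      intro v
      rw [hF, List.map_map]
      exact Finset.prod_map_toList _ _
    have hne : ∏ t ∈ O.erase (w 0), ((w 0 : K) - (t : K)) ≠ 0 := by
      rw [Finset.prod_ne_zero_iff]
      intro t ht h0
      rw [sub_eq_zero] at h0
      exact Finset.ne_of_mem_erase ht (by exact_mod_cast h0.symm)
    have hDf : ((i + j).factorial : K) ≠ 0 := Nat.cast_ne_zero.2 (Nat.factorial_ne_zero _)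
    set κ : K := (fact w : K) / (((i + j).factorial : K) *
      ∏ t ∈ O.erase (w 0), ((w 0 : K) - (t : K))) with hκ
    refine ⟨C κ * (el K 2 ^ (i - F.length) * f), ?_, ?_⟩
    · have h1 := el_pow_mul_hom (i - F.length) hf
      rw [show F.length + (i - F.length) = i by omega] at h1
      have := (isHomogeneous_C (Fin 2) κ).mul h1
      rwa [zero_add] at this
    · have h2 : el K 2 ^ j * (C κ * (el K 2 ^ (i - F.length) * f)) =
          C κ * (el K 2 ^ (i + j - F.length) * f) := by
        rw [show i + j - F.length = j + (i - F.length) by omega, pow_add]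
        ring
      rw [h2, mem_powIdeal hd]
      intro v hv
      by_cases hvd : v.degree = i + j
      · have h3 := hfw v hvd
        have hfv : (fact v : K) ≠ 0 := Nat.cast_ne_zero.2 (fact_ne_zero v)
        rw [hprod] at h3
        rw [coeff_sub, coeff_C_mul, coeff_monomial]
        by_cases hvw : w = v
        · subst hvw
          rw [if_pos rfl]
          apply mul_left_cancel₀ hfv
          rw [mul_sub, mul_one, mul_left_comm, h3, hκ, mul_zero, sub_eq_zero]
          field_simp
        · have hv0 : v 0 ∈ O.erase (w 0) := by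
            refine Finset.mem_erase.2 ⟨?_, hmemO v hvd hv⟩
            intro h4
            apply hvw
            rw [(two_eq hvd).1, (two_eq hw).1, h4]
          rw [Finset.prod_eq_zero hv0 (sub_self _), mul_zero] at h3
          rw [if_neg hvw, (mul_eq_zero.1 h3).resolve_left hfv, mul_zero, sub_zero]
      · have h4 : (monomial w (1 : K)).IsHomogeneous (i + j) := isHomogeneous_monomial _ hw
        have h5 : (C κ * (el K 2 ^ (i + j - F.length) * f)).IsHomogeneous (i + j) := by
          have h6 := el_pow_mul_hom (i + j - F.length) hf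
          rw [show F.length + (i + j - F.length) = i + j by omega] at h6
          have := (isHomogeneous_C (Fin 2) κ).mul h6
          rwa [zero_add] at this
        exact (h4.sub h5).coeff_eq_zero hvd

end Pool.Agent.Helper720.Pow
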