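import Pool.Agent.Helper720.PowPosB

set_option autoImplicit false

open MvPolynomial

namespace Pool.Agent.Helper720.Pow

open Level (D coeff_D D_below D_hom D_ell_pow ell ci_inj)

variable {K : Type*} [Field K] {n : ℕ}

lemma surj_sum {J : Ideal (MvPolynomial (Fin n) K)} {i j : ℕ} (g : MvPolynomial (Fin n) K)
    (h : ∀ w ∈ g.support, ∃ f : MvPolynomial (Fin n) K, f.IsHomogeneous i ∧
      monomial w 1 - el K n ^ j * f ∈ J) :
    ∃ f : MvPolynomial (Fin n) K, f.IsHomogeneous i ∧ g - el K n ^ j * f ∈ J := by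
  classical
  have h' : ∀ w : Fin n →₀ ℕ, ∃ f : MvPolynomial (Fin n) K, f.IsHomogeneous i ∧
      (w ∈ g.support → monomial w 1 - el K n ^ j * f ∈ J) := by
    intro w
    by_cases hw : w ∈ g.support
    · obtain ⟨f, hf, hfw⟩ := h w hw
      exact ⟨f, hf, fun _ => hfw⟩
    · exact ⟨0, isHomogeneous_zero _ _ _, fun h => absurd h hw⟩
  choose F hF1 hF2 using h'
  refine ⟨∑ w ∈ g.support, C (coeff w g) * F w, ?_, ?_⟩
  · refine IsHomogeneous.sum _ _ _ fun w _ => ?_
    have := (isHomogeneous_C (Fin n) (coeff w g)).mul (hF1 w)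
    rwa [zero_add] at this
  · have h1 : g - el K n ^ j * ∑ w ∈ g.support, C (coeff w g) * F w =
        ∑ w ∈ g.support, C (coeff w g) * (monomial w 1 - el K n ^ j * F w) := by
      have hg2 : ∑ w ∈ g.support, C (coeff w g) * monomial w 1 = g := by
        conv_rhs => rw [g.as_sum]
        refine Finset.sum_congr rfl fun w _ => ?_
        rw [C_mul_monomial, mul_one]
      simp only [mul_sub]
      rw [Finset.sum_sub_distrib, hg2, Finset.mul_sum]
      congr 1
      refine Finset.sum_congr rfl fun w _ => ?_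
      ring
    rw [h1]
    refine Ideal.sum_mem _ fun w hw => ?_
    exact Ideal.mul_mem_left _ _ (hF2 w hw)

lemma surj_22 [CharZero K] {i j : ℕ} (h : n + 4 ≤ 2 * i + j) : SurjAt K n 2 2 i j := by
  rcases Nat.lt_or_ge (n + 2) (i + j) with hbig | hsmall
  · exact surj_high (by norm_num) (by norm_num) (by omega)
  have hs1 : SurjAt K n 2 1 i j := surj_k1 (by norm_num) (by omega)
  have hs2 : SurjAt K n 2 1 (i - 2) j := surj_k1 (by norm_num) (by omega)
  intro g hg
  obtain ⟨f0, hf0, hgf⟩ := hs1 g hg
  have hhom : (g - el K n ^ j * f0).IsHomogeneous (i + j) := hg.sub (el_pow_mul_hom j hf0)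
  obtain ⟨f1, hf1, hgf1⟩ := surj_sum (J := powIdeal K n 2 2) (i := i) (j := j)
    (g - el K n ^ j * f0) (by
      intro w hw
      rw [mem_support_iff] at hw
      have hwd := degree_of_coeff hhom hw
      have hwfl : 1 ≤ fl 2 w := by
        by_contra hlt
        rw [mem_powIdeal (by norm_num)] at hgf
        exact hw (hgf w (by omega))
      obtain ⟨c, hc⟩ : ∃ c, 2 ≤ w c := by
        by_contra hcon
        push Not at hcon
        unfold fl at hwfl
        rw [Finset.sum_eq_zero (fun c _ => Nat.div_eq_of_lt (hcon c))] at hwfl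
        omega
      have hle : Finsupp.single c 2 ≤ w := Finsupp.single_le_iff.2 hc
      obtain ⟨u, hu⟩ := exists_add_of_le hle
      have hud : u.degree = i - 2 + j := by
        rw [hu, map_add, Finsupp.degree_single] at hwd
        omega
      obtain ⟨f, hf, hfu⟩ := hs2 (monomial u 1) (isHomogeneous_monomial _ hud)
      refine ⟨X c ^ 2 * f, ?_, ?_⟩
      · have := ((isHomogeneous_X K c).pow 2).mul hf
        rwa [show 1 * 2 + (i - 2) = i by omega] at this
      · have h1 : (monomial w 1 : MvPolynomial (Fin n) K) - el K n ^ j * (X c ^ 2 * f) =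
            X c ^ 2 * (monomial u 1 - el K n ^ j * f) := by
          rw [hu, X_pow_eq_monomial, mul_sub, monomial_mul, mul_one]
          ring
        rw [h1]
        unfold powIdeal at hfu ⊢
        rw [pow_one] at hfu
        rw [pow_two (Ideal.span _)]
        exact Ideal.mul_mem_mul (Ideal.subset_span ⟨c, rfl⟩) hfu)
  refine ⟨f0 + f1, hf0.add hf1, ?_⟩
  have h2 : g - el K n ^ j * (f0 + f1) = g - el K n ^ j * f0 - el K n ^ j * f1 := by ring
  rw [h2]
  exact hgf1

/-- the monomial with exponent three at `c` and one elsewhere -/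
noncomputable def wc (n : ℕ) (c : Fin n) : Fin n →₀ ℕ := w0 n 2 + Finsupp.single c 2

lemma wc_same (c : Fin n) : wc n c c = 3 := by
  unfold wc
  rw [Finsupp.add_apply, w0_apply, Finsupp.single_eq_same]

lemma wc_ne {c j : Fin n} (h : j ≠ c) : wc n c j = 1 := by
  unfold wc
  rw [Finsupp.add_apply, w0_apply, Finsupp.single_apply, if_neg (fun h' => h h'.symm), add_zero]

lemma wc_degree (c : Fin n) : (wc n c).degree = n + 2 := by
  unfold wc
  rw [map_add, w0_degree, Finsupp.degree_single]
  omega

lemma fl_wc (c : Fin n) : fl 2 (wc n c) = 1 := by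
  unfold fl
  rw [Finset.sum_eq_single c, wc_same]
  · intro b _ hb
    rw [wc_ne hb]
    norm_num
  · intro h
    exact absurd (Finset.mem_univ _) h

lemma outside_22 {m : Fin n →₀ ℕ} (h : fl 2 m < 2) :
    (∀ j, m j ≤ 1) ∨ ∃ c, (m c = 2 ∨ m c = 3) ∧ ∀ j, j ≠ c → m j ≤ 1 := by
  by_cases h1 : ∀ j, m j ≤ 1
  · exact Or.inl h1
  · right
    push Not at h1
    obtain ⟨c, hc⟩ := h1
    unfold fl at h
    rw [← Finset.add_sum_erase _ _ (Finset.mem_univ c)] at h
    refine ⟨c, by omega, fun j hj => ?_⟩
    have h2 : m j / 2 ≤ ∑ x ∈ Finset.univ.erase c, m x / 2 :=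
      Finset.single_le_sum (f := fun x => m x / 2) (fun _ _ => Nat.zero_le _)
        (Finset.mem_erase.2 ⟨hj, Finset.mem_univ j⟩)
    omega

lemma D_vanish [CharZero K] {i : ℕ} {f : MvPolynomial (Fin n) K} (hf : f.IsHomogeneous (i + 1))
    (hi : 2 * i ≤ n) (hJ : el K n ^ (n - 2 * i + 1) * f ∈ powIdeal K n 2 2) (c : Fin n) :
    ∀ m, m ≤ wc n c → (D (wc n c) f).coeff m = 0 := by
  rw [mem_powIdeal (by norm_num)] at hJ
  have h0 : ∀ m, m ≤ wc n c → (ell K n ^ (n - 2 * i + 1) * f).coeff m = 0 := by
    intro m hm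
    apply hJ
    have := fl_mono 2 hm
    rw [fl_wc] at this
    omega
  have h1 := D_below h0
  rw [D_ell_pow _ hf] at h1
  have h2 : ((n - 2 * i : ℕ) : K) = (n : K) - 2 * i := by
    rw [Nat.cast_sub hi]
    push_cast
    ring
  have h3 : ((((n - 2 * i : ℕ) : K) + 1) * (((wc n c).degree : K) - 2 * ((i + 1 : ℕ) : K) -
      ((n - 2 * i : ℕ) : K))) = 0 := by
    rw [wc_degree, h2]
    push_cast
    ring
  rw [h3, map_zero, zero_mul, add_zero] at h1
  exact ci_inj (wc n c) i (n - 2 * i + 1) (D (wc n c) f) (D_hom hf) (by rw [wc_degree]; omega) h1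

lemma sqfree_step [CharZero K] {i : ℕ} {f : MvPolynomial (Fin n) K}
    (hD : ∀ c : Fin n, ∀ m, m ≤ wc n c → (D (wc n c) f).coeff m = 0)
    {m : Fin n →₀ ℕ} (hm : m.degree = i) (hsq : ∀ j, m j ≤ 1) (c : Fin n) :
    f.coeff (m + Finsupp.single c 1) = 0 := by
  classical
  have hle : ∀ c, m ≤ wc n c := by
    intro c j
    by_cases h : j = c
    · rw [h, wc_same]
      exact (hsq c).trans (by norm_num)
    · rw [wc_ne h]
      exact hsq j
  set G : K := ∑ j, ((1 : K) - (m j : K)) * ((m j : K) + 1) * f.coeff (m + Finsupp.single j 1)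
    with hG
  have h1 : ∀ c : Fin n, G + 2 * (((m c : K) + 1) * f.coeff (m + Finsupp.single c 1)) = 0 := by
    intro c
    have h2 := hD c m (hle c)
    rw [coeff_D, ← Finset.add_sum_erase _ _ (Finset.mem_univ c), wc_same] at h2
    rw [hG, ← Finset.add_sum_erase _ _ (Finset.mem_univ c)]
    have h3 : ∑ j ∈ Finset.univ.erase c, ((wc n c j : K) - (m j : K)) * ((m j : K) + 1) *
        f.coeff (m + Finsupp.single j 1) =
        ∑ j ∈ Finset.univ.erase c, ((1 : K) - (m j : K)) * ((m j : K) + 1) *
        f.coeff (m + Finsupp.single j 1) := by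
      refine Finset.sum_congr rfl fun j hj => ?_
      rw [wc_ne (Finset.ne_of_mem_erase hj), Nat.cast_one]
    rw [h3] at h2
    push_cast at h2
    linear_combination h2
  have h2 : ∀ j : Fin n, ((1 : K) - (m j : K)) * ((m j : K) + 1) *
      f.coeff (m + Finsupp.single j 1) = ((1 : K) - (m j : K)) * (-G / 2) := by
    intro j
    have := h1 j
    have h3 : ((m j : K) + 1) * f.coeff (m + Finsupp.single j 1) = -G / 2 := by
      rw [eq_div_iff (two_ne_zero)]
      linear_combination this
    rw [mul_assoc, h3]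
  have h3 : G = ((n : K) - (i : K)) * (-G / 2) := by
    conv_lhs => rw [hG]
    rw [Finset.sum_congr rfl fun j _ => h2 j, ← Finset.sum_mul, Finset.sum_sub_distrib,
      ← Nat.cast_sum, ← Finsupp.degree_eq_sum, hm]
    simp
  have hin : i ≤ n := by
    rw [← hm, Finsupp.degree_eq_sum]
    calc ∑ j, m j ≤ ∑ _j : Fin n, 1 := Finset.sum_le_sum fun j _ => hsq j
      _ = n := by simp
  have h4 : G = 0 := by
    have h5 : ((n - i + 2 : ℕ) : K) * G = 0 := by
      rw [Nat.cast_add, Nat.cast_sub hin]
      push_cast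
      linear_combination 2 * h3
    exact (mul_eq_zero.1 h5).resolve_left (Nat.cast_ne_zero.2 (by omega))
  have h5 := h1 c
  rw [h4, zero_add] at h5
  have h6 : ((m c : K) + 1) ≠ 0 := by
    exact_mod_cast Nat.succ_ne_zero (m c)
  rcases mul_eq_zero.1 h5 with h7 | h7
  · exact absurd h7 two_ne_zero
  · exact (mul_eq_zero.1 h7).resolve_left h6

lemma sub_add_single' {m : Fin n →₀ ℕ} {c : Fin n} (h : m c ≠ 0) :
    m - Finsupp.single c 1 + Finsupp.single c 1 = m := by
  apply tsub_add_cancel_of_le
  rw [Finsupp.single_le_iff]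
  omega

lemma inj_22_core [CharZero K] {i : ℕ} (hi : 2 * i ≤ n) :
    InjAt K n 2 2 (i + 1) (n - 2 * i + 1) := by
  intro f hf hJ
  have hD := D_vanish hf hi hJ
  have hsq := fun (m : Fin n →₀ ℕ) (hm : m.degree = i) (hs : ∀ j, m j ≤ 1) (c : Fin n) =>
    sqfree_step (K := K) hD hm hs c
  -- monomials with an exponent two
  have hkey : ∀ m : Fin n →₀ ℕ, m.degree = i + 1 → ∀ c, 1 ≤ m c → m c ≤ 2 →
      (∀ j, j ≠ c → m j ≤ 1) → f.coeff m = 0 := by
    intro m hm c hc1 hc2 hj
    have hmc : m c ≠ 0 := by omega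
    have h1 := hsq (m - Finsupp.single c 1) (by
      have := degree_sub_single hmc
      omega) (by
      intro j
      rw [sub_single_apply]
      split_ifs with h
      · rw [h]
        omega
      · exact hj j h) c
    rwa [sub_add_single' hmc] at h1
  rw [mem_powIdeal (by norm_num)]
  intro m hm
  by_cases hmd : m.degree = i + 1
  · rcases outside_22 hm with h | ⟨c, hc, hj⟩
    · obtain ⟨c, hc⟩ : ∃ c, m c ≠ 0 := by
        by_contra hcon
        push Not at hcon
        rw [Finsupp.degree_eq_sum, Finset.sum_eq_zero (fun c _ => hcon c)] at hmd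
        omega
      exact hkey m hmd c (by omega) ((h c).trans (by norm_num)) (fun j _ => h j)
    · rcases hc with hc | hc
      · exact hkey m hmd c (by omega) (by omega) hj
      · have hmc : m c ≠ 0 := by omega
        set m' := m - Finsupp.single c 1 with hm'
        have hm'c : m' c = 2 := by
          rw [hm', sub_single_apply, if_pos rfl]
          omega
        have hm'j : ∀ j, j ≠ c → m' j = m j := by
          intro j hjc
          rw [hm', sub_single_apply, if_neg hjc]
        have hm'd : m'.degree = i := by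
          have := degree_sub_single hmc
          rw [← hm'] at this
          omega
        have hle : m' ≤ wc n c := by
          intro j
          by_cases h : j = c
          · rw [h, wc_same, hm'c]
            norm_num
          · rw [wc_ne h, hm'j j h]
            exact hj j h
        have h1 := hD c m' hle
        rw [coeff_D, ← Finset.add_sum_erase _ _ (Finset.mem_univ c), wc_same, hm'c,
          Finset.sum_eq_zero, add_zero] at h1
        · rw [hm', sub_add_single' hmc] at h1
          push_cast at h1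
          have h2 : (3 : K) ≠ 0 := three_ne_zero
          have h3 : (3 : K) * f.coeff m = 0 := by linear_combination h1
          exact (mul_eq_zero.1 h3).resolve_left h2
        · intro j hjc
          have hjc' := Finset.ne_of_mem_erase hjc
          have h2 := hj j hjc'
          rcases (by omega : m j = 0 ∨ m j = 1) with h3 | h3
          · have h4 : f.coeff (m' + Finsupp.single j 1) = 0 := by
              apply hkey _ _ c
              · rw [Finsupp.add_apply, Finsupp.single_apply, if_neg hjc', hm'c]
                norm_num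
              · rw [Finsupp.add_apply, Finsupp.single_apply, if_neg hjc', hm'c, add_zero]
              · intro l hl
                rw [Finsupp.add_apply, hm'j l hl, Finsupp.single_apply]
                split_ifs with hlj
                · rw [← hlj, h3]
                · rw [add_zero]
                  exact hj l hl
              · rw [map_add, Finsupp.degree_single, hm'd]
            rw [h4, mul_zero]
          · rw [wc_ne hjc', hm'j j hjc', h3]
            simp
  · exact hf.coeff_eq_zero hmd

lemma inj_22 [CharZero K] {i j : ℕ} (hi : 1 ≤ i) (h : 2 * i + j ≤ n + 3) :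
    InjAt K n 2 2 i j := by
  obtain ⟨i, rfl⟩ : ∃ i', i = i' + 1 := ⟨i - 1, by omega⟩
  rcases Nat.eq_zero_or_pos j with rfl | hj
  · intro f _ hJ
    rwa [pow_zero, one_mul] at hJ
  · obtain ⟨r, hr⟩ : ∃ r, n - 2 * i + 1 = j + r := ⟨n - 2 * i + 1 - j, by omega⟩
    have h1 := inj_22_core (K := K) (n := n) (i := i) (by omega)
    rw [hr] at h1
    exact h1.mono

/-- squares of the ideal of squares -/
theorem slp_22 [CharZero K] (hn : 1 ≤ n) : HasSLP (powIdeal K n 2 2) := by
  rw [hasSLP_iff (by norm_num)]
  intro i j hj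
  rcases Nat.lt_or_ge (2 * i + j) (n + 4) with h | h
  · rcases Nat.eq_zero_or_pos i with rfl | hi
    · rcases Nat.lt_or_ge (n + 2) j with h1 | h1
      · exact Or.inr (surj_high (by norm_num) (by norm_num) (by omega))
      · left
        obtain ⟨j, rfl⟩ : ∃ j', j = 1 + j' := ⟨j - 1, by omega⟩
        exact InjAt.down hn (by norm_num) (by norm_num) (inj_22 (by norm_num) (by omega))
    · exact Or.inl (inj_22 hi (by omega))
  · exact Or.inr (surj_22 h)

end Pool.Agent.Helper720.Pow
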