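import Pool.Agent.Helper720.PowNeg
import Pool.Agent.Helper720.LevelCI

set_option autoImplicit false

open MvPolynomial

namespace Pool.Agent.Helper720.Pow

open Level (lin mp mp_ne_zero mp_sub_single coeff_lin_mul exists_lin allMon mem_allMon
  coeff_sum_monomial lin_homogeneous)

variable {K : Type*} [Field K] {n : ℕ}

open Classical in
/-- the degree in the variables on which `a` vanishes -/
noncomputable def zd (a : Fin n → K) (m : Fin n →₀ ℕ) : ℕ := ∑ c, if a c = 0 then m c else 0

open Classical in
/-- `a` with zeros replaced by ones -/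
noncomputable def bb (a : Fin n → K) (c : Fin n) : K := if a c = 0 then 1 else a c

lemma bb_ne (a : Fin n → K) (c : Fin n) : bb a c ≠ 0 := by
  unfold bb
  split_ifs with h
  · exact one_ne_zero
  · exact h

lemma zd_sub_ne {a : Fin n → K} {c : Fin n} (h : a c ≠ 0) (w : Fin n →₀ ℕ) :
    zd a (w - Finsupp.single c 1) = zd a w := by
  unfold zd
  refine Finset.sum_congr rfl fun c' _ => ?_
  by_cases h' : a c' = 0
  · rw [if_pos h', if_pos h', sub_single_apply, if_neg]
    rintro rfl
    exact h h'
  · rw [if_neg h', if_neg h']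

lemma zd_sub_eq {a : Fin n → K} {c : Fin n} (h : a c = 0) {w : Fin n →₀ ℕ} (hw : w c ≠ 0) :
    zd a (w - Finsupp.single c 1) < zd a w := by
  unfold zd
  refine Finset.sum_lt_sum (fun c' _ => ?_) ⟨c, Finset.mem_univ c, ?_⟩
  · by_cases h' : a c' = 0
    · rw [if_pos h', if_pos h', sub_single_apply]
      split_ifs
      · exact Nat.sub_le _ _
      · exact le_rfl
    · rw [if_neg h', if_neg h']
  · rw [if_pos h, if_pos h, sub_single_apply, if_pos rfl]
    omega

lemma zd_mono (a : Fin n → K) {m w : Fin n →₀ ℕ} (h : m ≤ w) : zd a m ≤ zd a w := by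
  unfold zd
  refine Finset.sum_le_sum fun c _ => ?_
  split_ifs
  · exact h c
  · exact le_rfl

lemma le_of_coeff {g : MvPolynomial (Fin n) K} {m w : Fin n →₀ ℕ}
    (h : coeff w (g * monomial m 1) ≠ 0) : m ≤ w := by
  rw [coeff_mul_monomial'] at h
  by_contra hne
  rw [if_neg hne] at h
  exact h rfl

lemma coeff_mul_sum (g f : MvPolynomial (Fin n) K) (w : Fin n →₀ ℕ) :
    coeff w (g * f) = ∑ m ∈ f.support, coeff m f * coeff w (g * monomial m 1) := by
  conv_lhs => rw [f.as_sum]
  rw [Finset.mul_sum, coeff_sum]
  refine Finset.sum_congr rfl fun m _ => ?_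
  have h1 : (monomial m (coeff m f) : MvPolynomial (Fin n) K) = C (coeff m f) * monomial m 1 := by
    rw [C_mul_monomial, mul_one]
  rw [h1, mul_left_comm, coeff_C_mul]

lemma coeff_lin_pow (a : Fin n → K) (j : ℕ) (m w : Fin n →₀ ℕ) :
    mp (bb a) m * coeff w (lin a ^ j * monomial m 1) =
      if zd a w = zd a m then mp (bb a) w * coeff w (el K n ^ j * monomial m 1) else 0 := by
  induction j generalizing w with
  | zero =>
    rw [pow_zero, pow_zero, one_mul, coeff_monomial]
    by_cases h : m = w
    · subst h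
      rw [if_pos rfl, if_pos rfl]
    · rw [if_neg h]
      simp
  | succ j ih =>
    rw [pow_succ', pow_succ', mul_assoc, mul_assoc, coeff_lin_mul, coeff_el_mul]
    by_cases hz : zd a w = zd a m
    · rw [if_pos hz, Finset.mul_sum, Finset.mul_sum]
      refine Finset.sum_congr rfl fun c _ => ?_
      by_cases hw : w c = 0
      · rw [if_pos hw, if_pos hw]
        simp only [mul_zero]
      · rw [if_neg hw, if_neg hw]
        by_cases ha : a c = 0
        · rw [ha, zero_mul, mul_zero]
          have h1 : coeff (w - Finsupp.single c 1) (el K n ^ j * monomial m 1) = 0 := by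
            by_contra hne
            have h2 := zd_mono a (le_of_coeff hne)
            have h3 := zd_sub_eq ha hw
            omega
          rw [h1, mul_zero]
        · rw [mul_left_comm, ih, if_pos (by rw [zd_sub_ne ha, hz]), ← mul_assoc]
          have h2 := mp_sub_single (bb a) w c hw
          have h3 : bb a c = a c := by
            unfold bb
            rw [if_neg ha]
          rw [h3] at h2
          rw [h2]
    · rw [if_neg hz, Finset.mul_sum]
      refine Finset.sum_eq_zero fun c _ => ?_
      by_cases hw : w c = 0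
      · rw [if_pos hw, mul_zero, mul_zero]
      · rw [if_neg hw]
        by_cases ha : a c = 0
        · rw [ha, zero_mul, mul_zero]
        · rw [mul_left_comm, ih, if_neg (by rw [zd_sub_ne ha]; exact hz), mul_zero]

lemma fl_mono (d : ℕ) {m w : Fin n →₀ ℕ} (h : m ≤ w) : fl d m ≤ fl d w :=
  Finset.sum_le_sum fun c _ => Nat.div_le_div_right (h c)

lemma inj_semi {d k i j : ℕ} (hd : 1 ≤ d) (a : Fin n → K)
    (hL : ∀ f : MvPolynomial (Fin n) K, f.IsHomogeneous i → lin a ^ j * f ∈ powIdeal K n d k →
      f ∈ powIdeal K n d k) : InjAt K n d k i j := by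
  classical
  intro f hf hJ
  by_contra hne
  rw [mem_powIdeal hd] at hne hJ
  push Not at hne
  obtain ⟨m₁, hm₁, hc₁⟩ := hne
  obtain ⟨m₀, hm₀, hmin⟩ := Finset.exists_min_image (f.support.filter fun m => fl d m < k) (zd a)
    ⟨m₁, Finset.mem_filter.2 ⟨mem_support_iff.2 hc₁, hm₁⟩⟩
  rw [Finset.mem_filter, mem_support_iff] at hm₀
  set S : Finset (Fin n →₀ ℕ) := f.support.filter fun m => fl d m < k ∧ zd a m = zd a m₀ with hS
  set f' : MvPolynomial (Fin n) K := ∑ m ∈ S, monomial m (coeff m f * mp (bb a) m) with hf'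
  have hm₀S : m₀ ∈ S := by
    rw [hS, Finset.mem_filter]
    exact ⟨mem_support_iff.2 hm₀.1, hm₀.2, rfl⟩
  have h1 : f'.IsHomogeneous i := by
    rw [hf']
    refine IsHomogeneous.sum _ _ _ fun m hm => ?_
    rw [hS, Finset.mem_filter, mem_support_iff] at hm
    exact isHomogeneous_monomial _ (degree_of_coeff hf hm.1)
  have h2 : lin a ^ j * f' ∈ powIdeal K n d k := by
    rw [mem_powIdeal hd]
    intro w hw
    rw [hf', Finset.mul_sum, coeff_sum]
    have h3 : ∀ m ∈ S, coeff w (lin a ^ j * monomial m (coeff m f * mp (bb a) m)) =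
        if zd a w = zd a m₀ then
          mp (bb a) w * (coeff m f * coeff w (el K n ^ j * monomial m 1)) else 0 := by
      intro m hm
      rw [hS, Finset.mem_filter] at hm
      have h4 : (monomial m (coeff m f * mp (bb a) m) : MvPolynomial (Fin n) K) =
          C (coeff m f * mp (bb a) m) * monomial m 1 := by
        rw [C_mul_monomial, mul_one]
      rw [h4, mul_left_comm, coeff_C_mul, mul_assoc, coeff_lin_pow, hm.2.2]
      split_ifs
      · ring
      · rw [mul_zero]
    rw [Finset.sum_congr rfl h3]
    by_cases hz : zd a w = zd a m₀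
    · simp only [if_pos hz]
      rw [← Finset.mul_sum]
      have h5 := hJ w hw
      rw [coeff_mul_sum] at h5
      have h6 : ∑ m ∈ S, coeff m f * coeff w (el K n ^ j * monomial m 1) =
          ∑ m ∈ f.support, coeff m f * coeff w (el K n ^ j * monomial m 1) := by
        refine Finset.sum_subset (Finset.filter_subset _ _) fun m hm hmS => ?_
        have h7 : coeff w (el K n ^ j * monomial m 1) = 0 := by
          by_contra hne
          have h8 := le_of_coeff hne
          apply hmS
          rw [hS, Finset.mem_filter]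
          have h9 : fl d m < k := lt_of_le_of_lt (fl_mono d h8) hw
          refine ⟨hm, h9, le_antisymm ?_ ?_⟩
          · rw [← hz]
            exact zd_mono a h8
          · exact hmin m (Finset.mem_filter.2 ⟨hm, h9⟩)
        rw [h7, mul_zero]
      rw [h6, h5, mul_zero]
    · simp only [if_neg hz]
      exact Finset.sum_const_zero
  have h3 := hL f' h1 h2
  rw [mem_powIdeal hd] at h3
  have h4 := h3 m₀ hm₀.2
  rw [hf', coeff_sum_monomial, if_pos hm₀S] at h4
  exact mul_ne_zero (hm₀.1) (mp_ne_zero (bb_ne a) m₀) h4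

lemma surj_semi {d k i j : ℕ} (hd : 1 ≤ d) (a : Fin n → K)
    (hL : ∀ g : MvPolynomial (Fin n) K, g.IsHomogeneous (i + j) →
      ∃ f : MvPolynomial (Fin n) K, f.IsHomogeneous i ∧ g - lin a ^ j * f ∈ powIdeal K n d k) :
    SurjAt K n d k i j := by
  classical
  intro g hg
  by_contra hne
  push Not at hne
  set N : Submodule K (MvPolynomial (Fin n) K) :=
    (powIdeal K n d k).restrictScalars K ⊔
      (homogeneousSubmodule (Fin n) K i).map (LinearMap.mulLeft K (el K n ^ j)) with hN
  have hgN : g ∉ N := by
    intro h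
    rw [hN, Submodule.mem_sup] at h
    obtain ⟨p, hp, q, hq, hpq⟩ := h
    rw [Submodule.mem_map] at hq
    obtain ⟨f, hf, rfl⟩ := hq
    rw [mem_homogeneousSubmodule] at hf
    apply hne f hf
    rw [LinearMap.mulLeft_apply] at hpq
    rw [← hpq, add_sub_cancel_right]
    exact hp
  obtain ⟨φ, hφg, hφN⟩ := Submodule.exists_le_ker_of_notMem hgN
  have hφJ : ∀ p ∈ powIdeal K n d k, φ p = 0 := by
    intro p hp
    exact hφN (Submodule.mem_sup_left hp)
  have hφE : ∀ f : MvPolynomial (Fin n) K, f.IsHomogeneous i → φ (el K n ^ j * f) = 0 := by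
    intro f hf
    apply hφN
    refine Submodule.mem_sup_right (Submodule.mem_map.2 ⟨f, hf, rfl⟩)
  set c : (Fin n →₀ ℕ) → K := fun w => φ (monomial w 1) with hc
  have hφsum : ∀ p : MvPolynomial (Fin n) K, p.IsHomogeneous (i + j) →
      φ p = ∑ w ∈ allMon n (i + j), coeff w p * c w := by
    intro p hp
    have h1 : p = ∑ w ∈ allMon n (i + j), coeff w p • monomial w 1 := by
      have h2 : (∑ w ∈ allMon n (i + j), coeff w p • (monomial w 1 : MvPolynomial (Fin n) K)) =
          ∑ w ∈ allMon n (i + j), monomial w (coeff w p) := by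
        refine Finset.sum_congr rfl fun w _ => ?_
        rw [smul_monomial, smul_eq_mul, mul_one]
      rw [h2]
      ext w
      rw [coeff_sum_monomial]
      split_ifs with h
      · rfl
      · rw [mem_allMon] at h
        exact hp.coeff_eq_zero h
    conv_lhs => rw [h1]
    rw [map_sum]
    refine Finset.sum_congr rfl fun w _ => ?_
    rw [map_smul, smul_eq_mul]
  have hcfl : ∀ w, c w ≠ 0 → fl d w < k := by
    intro w hw
    by_contra hlt
    apply hw
    apply hφJ
    rw [mem_powIdeal hd]
    intro m hm
    rw [coeff_monomial, if_neg]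
    rintro rfl
    exact hlt hm
  have hne : ((allMon n (i + j)).filter fun w => c w ≠ 0).Nonempty := by
    by_contra hemp
    rw [Finset.not_nonempty_iff_eq_empty, Finset.filter_eq_empty_iff] at hemp
    apply hφg
    rw [hφsum g hg]
    refine Finset.sum_eq_zero fun w hw => ?_
    rw [not_not.1 (hemp hw), mul_zero]
  obtain ⟨w₀, hw₀, hmax⟩ := Finset.exists_max_image _ (zd a) hne
  rw [Finset.mem_filter] at hw₀
  obtain ⟨hw₀d, hw₀c⟩ := hw₀
  -- the twisted functional
  have hkill : ∀ m : Fin n →₀ ℕ, m.degree = i →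
      ∑ w ∈ allMon n (i + j), coeff w (lin a ^ j * monomial m 1) *
        (if zd a w = zd a w₀ then c w / mp (bb a) w else 0) = 0 := by
    intro m hm
    apply mul_left_cancel₀ (mp_ne_zero (bb_ne a) m)
    rw [mul_zero, Finset.mul_sum]
    have h1 : ∀ w ∈ allMon n (i + j), mp (bb a) m * (coeff w (lin a ^ j * monomial m 1) *
        (if zd a w = zd a w₀ then c w / mp (bb a) w else 0)) =
        if zd a m = zd a w₀ then coeff w (el K n ^ j * monomial m 1) * c w else 0 := by
      intro w hw
      rw [← mul_assoc, coeff_lin_pow]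
      have hmpw := mp_ne_zero (bb_ne a) w
      by_cases h2 : zd a w = zd a m
      · rw [if_pos h2, h2]
        by_cases h3 : zd a m = zd a w₀
        · rw [if_pos h3, if_pos h3]
          field_simp
        · rw [if_neg h3, if_neg h3, mul_zero]
      · rw [if_neg h2, zero_mul]
        by_cases h3 : zd a m = zd a w₀
        · rw [if_pos h3]
          by_cases h4 : c w = 0
          · rw [h4, mul_zero]
          · have h5 : coeff w (el K n ^ j * monomial m 1) = 0 := by
              by_contra hne
              have h6 := zd_mono a (le_of_coeff hne)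
              have h7 := hmax w (Finset.mem_filter.2 ⟨hw, h4⟩)
              omega
            rw [h5, zero_mul]
        · rw [if_neg h3]
    rw [Finset.sum_congr rfl h1]
    by_cases h3 : zd a m = zd a w₀
    · simp only [if_pos h3]
      have h4 : (monomial m (1 : K)).IsHomogeneous i := isHomogeneous_monomial _ hm
      rw [← hφsum, hφE _ h4]
      have h5 := ((el_hom (K := K) (n := n)).pow j).mul h4
      rwa [one_mul, add_comm] at h5
    · simp only [if_neg h3]
      exact Finset.sum_const_zero
  obtain ⟨f, hf, hfg⟩ := hL (monomial w₀ 1) (isHomogeneous_monomial _ (mem_allMon.1 hw₀d))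
  rw [mem_powIdeal hd] at hfg
  have h1 : ∑ w ∈ allMon n (i + j), coeff w (monomial w₀ (1 : K) - lin a ^ j * f) *
        (if zd a w = zd a w₀ then c w / mp (bb a) w else 0) = 0 := by
    refine Finset.sum_eq_zero fun w _ => ?_
    by_cases h2 : c w = 0
    · rw [h2, zero_div]
      simp
    · rw [hfg w (hcfl w h2), zero_mul]
  have h2 : ∑ w ∈ allMon n (i + j), coeff w (lin a ^ j * f) *
        (if zd a w = zd a w₀ then c w / mp (bb a) w else 0) = 0 := by
    have h3 : ∀ w, coeff w (lin a ^ j * f) * (if zd a w = zd a w₀ then c w / mp (bb a) w else 0) =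
        ∑ m ∈ f.support, coeff m f * (coeff w (lin a ^ j * monomial m 1) *
          (if zd a w = zd a w₀ then c w / mp (bb a) w else 0)) := by
      intro w
      rw [coeff_mul_sum, Finset.sum_mul]
      refine Finset.sum_congr rfl fun m _ => ?_
      ring
    rw [Finset.sum_congr rfl fun w _ => h3 w, Finset.sum_comm]
    refine Finset.sum_eq_zero fun m hm => ?_
    rw [← Finset.mul_sum, hkill m (degree_of_coeff hf (mem_support_iff.1 hm)), mul_zero]
  have h3 : ∑ w ∈ allMon n (i + j), coeff w (monomial w₀ (1 : K)) *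
        (if zd a w = zd a w₀ then c w / mp (bb a) w else 0) = c w₀ / mp (bb a) w₀ := by
    rw [Finset.sum_eq_single w₀]
    · rw [coeff_monomial, if_pos rfl, if_pos rfl, one_mul]
    · intro b _ hb
      rw [coeff_monomial, if_neg (fun h => hb h.symm), zero_mul]
    · intro h
      exact absurd hw₀d h
  have h4 : ∀ w, coeff w (monomial w₀ (1 : K) - lin a ^ j * f) *
        (if zd a w = zd a w₀ then c w / mp (bb a) w else 0) =
      coeff w (monomial w₀ (1 : K)) * (if zd a w = zd a w₀ then c w / mp (bb a) w else 0) -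
      coeff w (lin a ^ j * f) * (if zd a w = zd a w₀ then c w / mp (bb a) w else 0) := by
    intro w
    rw [coeff_sub, sub_mul]
  rw [Finset.sum_congr rfl fun w _ => h4 w, Finset.sum_sub_distrib, h2, h3, sub_zero,
    div_eq_zero_iff] at h1
  rcases h1 with h1 | h1
  · exact hw₀c h1
  · exact mp_ne_zero (bb_ne a) w₀ h1

/-- It suffices to test the sum of the variables. -/
theorem hasSLP_iff {d k : ℕ} (hd : 1 ≤ d) : HasSLP (powIdeal K n d k) ↔
    ∀ i j : ℕ, 1 ≤ j → InjAt K n d k i j ∨ SurjAt K n d k i j := by
  constructor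
  · rintro ⟨L, hL, h⟩ i j hj
    obtain ⟨a, rfl⟩ := exists_lin hL
    rcases h i j hj with h | h
    · exact Or.inl (inj_semi hd a h)
    · exact Or.inr (surj_semi hd a h)
  · intro h
    exact ⟨el K n, el_hom, h⟩

end Pool.Agent.Helper720.Pow
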