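import Pool.Agent.Helper720.PowCert

set_option autoImplicit false

open MvPolynomial

namespace Pool.Agent.Helper720.Pow

open Level (lin mp mp_ne_zero)

variable {K : Type*} [Field K] {n : ℕ}

/-- rescaling of the variables -/
noncomputable def scale (a : Fin n → K) : MvPolynomial (Fin n) K →ₐ[K] MvPolynomial (Fin n) K :=
  aeval fun c => C (a c) * X c

lemma scale_monomial (a : Fin n → K) (m : Fin n →₀ ℕ) (r : K) :
    scale a (monomial m r) = monomial m (mp a m * r) := by
  unfold scale
  rw [aeval_monomial, Finsupp.prod_fintype _ _ (by simp), MvPolynomial.monomial_eq,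
    Finsupp.prod_fintype _ _ (by simp), MvPolynomial.algebraMap_eq]
  simp only [mul_pow]
  rw [Finset.prod_mul_distrib, ← mul_assoc]
  congr 1
  unfold mp
  rw [map_mul, map_prod, mul_comm]
  simp only [map_pow]

lemma coeff_scale (a : Fin n → K) (f : MvPolynomial (Fin n) K) (m : Fin n →₀ ℕ) :
    coeff m (scale a f) = mp a m * coeff m f := by
  induction f using MvPolynomial.induction_on' with
  | monomial u r =>
    rw [scale_monomial, coeff_monomial, coeff_monomial]
    split_ifs with h
    · rw [h]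
    · rw [mul_zero]
  | add p q hp hq => rw [map_add, coeff_add, coeff_add, hp, hq, mul_add]

lemma scale_el (a : Fin n → K) : scale a (el K n) = lin a := by
  unfold el lin scale
  rw [map_sum]
  simp only [aeval_X]

lemma scale_scale {a : Fin n → K} (ha : ∀ c, a c ≠ 0) (f : MvPolynomial (Fin n) K) :
    scale a (scale (fun c => (a c)⁻¹) f) = f := by
  ext m
  rw [coeff_scale, coeff_scale, ← mul_assoc]
  have h : mp a m * mp (fun c => (a c)⁻¹) m = 1 := by
    unfold mp
    rw [← Finset.prod_mul_distrib]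
    refine Finset.prod_eq_one fun c _ => ?_
    rw [← mul_pow, mul_inv_cancel₀ (ha c), one_pow]
  rw [h, one_mul]

lemma scale_hom (a : Fin n → K) {i : ℕ} {f : MvPolynomial (Fin n) K} (hf : f.IsHomogeneous i) :
    (scale a f).IsHomogeneous i := by
  intro m hm
  rw [coeff_scale] at hm
  exact hf (right_ne_zero_of_mul hm)

lemma scale_mem {a : Fin n → K} (ha : ∀ c, a c ≠ 0) {d k : ℕ} (hd : 1 ≤ d)
    {f : MvPolynomial (Fin n) K} : scale a f ∈ powIdeal K n d k ↔ f ∈ powIdeal K n d k := by
  rw [mem_powIdeal hd, mem_powIdeal hd]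
  simp only [coeff_scale]
  constructor
  · intro h m hm
    exact (mul_eq_zero.1 (h m hm)).resolve_left (mp_ne_zero ha m)
  · intro h m hm
    rw [h m hm, mul_zero]

lemma torus_inj {a : Fin n → K} (ha : ∀ c, a c ≠ 0) {d k i j : ℕ} (hd : 1 ≤ d)
    (h : InjAt K n d k i j) (f : MvPolynomial (Fin n) K) (hf : f.IsHomogeneous i)
    (hJ : lin a ^ j * f ∈ powIdeal K n d k) : f ∈ powIdeal K n d k := by
  have h1 : lin a ^ j * f = scale a (el K n ^ j * scale (fun c => (a c)⁻¹) f) := by
    rw [map_mul, map_pow, scale_el, scale_scale ha]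
  rw [h1, scale_mem ha hd] at hJ
  have h2 := h _ (scale_hom _ hf) hJ
  rw [scale_mem (fun c => inv_ne_zero (ha c)) hd] at h2
  exact h2

lemma torus_surj {a : Fin n → K} (ha : ∀ c, a c ≠ 0) {d k i j : ℕ} (hd : 1 ≤ d)
    (h : SurjAt K n d k i j) (g : MvPolynomial (Fin n) K) (hg : g.IsHomogeneous (i + j)) :
    ∃ f : MvPolynomial (Fin n) K, f.IsHomogeneous i ∧ g - lin a ^ j * f ∈ powIdeal K n d k := by
  obtain ⟨f, hf, hfg⟩ := h _ (scale_hom (fun c => (a c)⁻¹) hg)
  refine ⟨scale a f, scale_hom a hf, ?_⟩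
  have h1 : g - lin a ^ j * scale a f =
      scale a (scale (fun c => (a c)⁻¹) g - el K n ^ j * f) := by
    rw [map_sub, map_mul, map_pow, scale_el, scale_scale ha]
  rw [h1, scale_mem ha hd]
  exact hfg

end Pool.Agent.Helper720.Pow
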